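import Pool.Agent.Helper534.LS.Defs
import Pool.Agent.Helper534.LS.P_raw_homotopy

open MeasureTheory

namespace Pool.Agent.Helper534.LS



theorem hmap_homotopic {X : Type} [TopologicalSpace X] {Y : Type} [TopologicalSpace Y]
    (f g : C(X, Y)) (h : f.Homotopic g) (n : ℕ) : hmap f n = hmap g n := by
  obtain ⟨H⟩ := h
  let F : C(X × unitInterval, Y) :=
    H.toContinuousMap.comp ⟨Prod.swap, continuous_swap⟩
  have h0 : ∀ x, F (x, 0) = f x := fun x => H.apply_zero x
  have h1 : ∀ x, F (x, 1) = g x := fun x => H.apply_one x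
  apply LinearMap.ext
  intro x
  obtain ⟨z, rfl⟩ := Submodule.Quotient.mk_surjective _ x
  refine (Submodule.Quotient.eq _).2 ?_
  change push f n z.1 - push g n z.1 ∈ Bdy Y n
  have h2 := raw_homotopy F f g h0 h1 n z.1 z.2
  have e : push f n z.1 - push g n z.1 = -(push g n z.1 - push f n z.1) := by abel
  rw [e]
  exact Submodule.neg_mem _ h2

end Pool.Agent.Helper534.LS
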