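import Pool.Agent.Helper534.LS.Defs

open MeasureTheory

namespace Pool.Agent.Helper534.LS



theorem circ_cov (Q : Type) [TopologicalSpace Q] :
    IsOpen (cU Q) ∧ IsOpen (cV Q) ∧ ∀ x : Circle × Q, x ∈ cU Q ∨ x ∈ cV Q := by
  have hc : Continuous (fun p : Circle × Q => (p.1 : ℂ)) :=
    continuous_subtype_val.comp continuous_fst
  refine ⟨?_, ?_, ?_⟩
  · exact isOpen_ne.preimage hc
  · exact isOpen_ne.preimage hc
  · intro x
    by_cases h : (x.1 : ℂ) = 1
    · right
      intro h2
      rw [h] at h2
      have := congrArg Complex.re h2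
      norm_num at this
    · left
      exact h

end Pool.Agent.Helper534.LS
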