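import Pool.Agent.Helper534.LS.Defs

open MeasureTheory

namespace Pool.Agent.Helper534.LS



theorem hmap_comp {X : Type} [TopologicalSpace X] {Y : Type} [TopologicalSpace Y] {Z : Type}
    [TopologicalSpace Z] (f : C(X, Y)) (g : C(Y, Z)) (n : ℕ) (x : HH X n) :
    hmap (g.comp f) n x = hmap g n (hmap f n x) := by
  have hpush : ∀ z : Sing X n →₀ ℤ, push (g.comp f) n z = push g n (push f n z) := by
    intro z
    unfold push
    simp only [Finsupp.lmapDomain_apply]
    rw [← Finsupp.mapDomain_comp]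
    rfl
  obtain ⟨z, rfl⟩ := Submodule.Quotient.mk_surjective _ x
  have h1 : hmap (g.comp f) n (Submodule.Quotient.mk z) =
    Submodule.Quotient.mk ⟨push (g.comp f) n z.1, push_mem_Cyc (g.comp f) n z.1 z.2⟩ := rfl
  have h2 : hmap f n (Submodule.Quotient.mk z) =
    Submodule.Quotient.mk ⟨push f n z.1, push_mem_Cyc f n z.1 z.2⟩ := rfl
  have h3 : hmap g n (Submodule.Quotient.mk ⟨push f n z.1, push_mem_Cyc f n z.1 z.2⟩) =
    Submodule.Quotient.mk ⟨push g n (push f n z.1),
      push_mem_Cyc g n _ (push_mem_Cyc f n z.1 z.2)⟩ := rfl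
  rw [h1, h2, h3]
  congr 1
  exact Subtype.ext (hpush z.1)

end Pool.Agent.Helper534.LS
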