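import Pool.Agent.Helper534.LS.Defs

open MeasureTheory

namespace Pool.Agent.Helper534.LS



theorem hmap_id {X : Type} [TopologicalSpace X] (n : ℕ) (x : HH X n) :
    hmap (ContinuousMap.id X) n x = x := by
  induction x using Submodule.Quotient.induction_on with
  | _ z =>
    have h1 : (push (ContinuousMap.id X) n).restrict (push_mem_Cyc (ContinuousMap.id X) n) z = z := by
      apply Subtype.ext
      simp only [LinearMap.restrict_coe_apply, push, Finsupp.lmapDomain_apply]
      have : (fun σ : Sing X n => (ContinuousMap.id X).comp σ) = id := by
        funext σ
        exact ContinuousMap.id_comp σ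
      rw [this, Finsupp.mapDomain_id]
    have h2 : hmap (ContinuousMap.id X) n (Submodule.Quotient.mk z) =
        Submodule.Quotient.mk ((push (ContinuousMap.id X) n).restrict
          (push_mem_Cyc (ContinuousMap.id X) n) z) := rfl
    rw [h2, h1]

end Pool.Agent.Helper534.LS
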