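import Pool.Agent.Helper534.LS.Defs
import Pool.Agent.Helper534.LS.P_hmap_comp
import Pool.Agent.Helper534.LS.P_hmap_id
import Pool.Agent.Helper534.LS.P_hmap_homotopic

open MeasureTheory

namespace Pool.Agent.Helper534.LS



theorem cs_slit (z : Circle) (h : (z : ℂ) ≠ -1) : (z : ℂ) ∈ Complex.slitPlane := by
  rw [Complex.mem_slitPlane_iff_arg]
  refine ⟨fun h1 => h ?_, Circle.coe_ne_zero z⟩
  have h2 := congrArg (fun w : Circle => (w : ℂ)) (Circle.exp_arg z)
  simp only [Circle.coe_exp] at h2
  rw [h1, Complex.exp_pi_mul_I] at h2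
  exact h2.symm

theorem cs_gen (Q : Type) [TopologicalSpace Q] (n : ℕ) (W : Set (Circle × Q)) (θ : W → ℝ)
    (hθ : Continuous θ) (h : ∀ p : W, Circle.exp (θ p) = p.1.1) (x : HH W n) :
    ∃ y : HH Q n, hmap (sub W) n x = hmap (iota Q) n y := by
  have hh : (sub W).Homotopic ((iota Q).comp ((prQ Q).comp (sub W))) := by
    refine ⟨⟨⟨fun p => (Circle.exp ((1 - (p.1 : ℝ)) * θ p.2), p.2.1.2), ?_⟩, ?_, ?_⟩⟩
    · apply Continuous.prodMk
      · apply Circle.exp.continuous.comp
        have h1 : Continuous (fun p : unitInterval × W => θ p.2) := hθ.comp continuous_snd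
        fun_prop
      · fun_prop
    · intro p
      simp only [Set.Icc.coe_zero, sub_zero, one_mul]
      rw [h]
      rfl
    · intro p
      simp only [Set.Icc.coe_one, sub_self, zero_mul, Circle.exp_zero]
      rfl
  refine ⟨hmap ((prQ Q).comp (sub W)) n x, ?_⟩
  rw [hmap_homotopic _ _ hh, hmap_comp]

theorem circ_sub (Q : Type) [TopologicalSpace Q] (n : ℕ) :
    (∀ x : HH (cU Q) n, ∃ y : HH Q n, hmap (sub (cU Q)) n x = hmap (iota Q) n y) ∧
    (∀ x : HH (cV Q) n, ∃ y : HH Q n, hmap (sub (cV Q)) n x = hmap (iota Q) n y) := by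
  have hpi : ∀ z : Circle, ((Circle.exp Real.pi * z : Circle) : ℂ) = -(z : ℂ) := by
    intro z
    rw [Circle.coe_mul, Circle.coe_exp, Complex.exp_pi_mul_I]
    ring
  constructor
  · intro x
    apply cs_gen Q n (cU Q)
      (fun p => -Real.pi + Complex.arg ((Circle.exp Real.pi * p.1.1 : Circle) : ℂ))
    · rw [continuous_iff_continuousAt]
      intro p
      apply ContinuousAt.add continuousAt_const
      have hs : ((Circle.exp Real.pi * p.1.1 : Circle) : ℂ) ∈ Complex.slitPlane := by
        apply cs_slit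
        rw [hpi]
        intro h
        exact p.2 (neg_injective h)
      have h2 : ContinuousAt (fun p : cU Q => ((Circle.exp Real.pi * p.1.1 : Circle) : ℂ)) p := by
        fun_prop
      exact (Complex.continuousAt_arg hs).comp (f := fun p : cU Q =>
        ((Circle.exp Real.pi * p.1.1 : Circle) : ℂ)) h2
    · intro p
      rw [Circle.exp_add, Circle.exp_arg, Circle.exp_neg, inv_mul_cancel_left]
  · intro x
    apply cs_gen Q n (cV Q) (fun p => Complex.arg (p.1.1 : ℂ))
    · rw [continuous_iff_continuousAt]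
      intro p
      have hs : (p.1.1 : ℂ) ∈ Complex.slitPlane := cs_slit _ p.2
      have h2 : ContinuousAt (fun p : cV Q => (p.1.1 : ℂ)) p := by fun_prop
      exact (Complex.continuousAt_arg hs).comp (f := fun p : cV Q => (p.1.1 : ℂ)) h2
    · intro p
      exact Circle.exp_arg _

end Pool.Agent.Helper534.LS
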