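import Pool.Agent.Helper534.LS.Defs
import Pool.Agent.Helper534.LS.P_raw_split
import Pool.Agent.Helper534.LS.P_raw_conn

open MeasureTheory

namespace Pool.Agent.Helper534.LS



theorem delta_spec_push_push {X Y Z : Type} [TopologicalSpace X] [TopologicalSpace Y]
    [TopologicalSpace Z] (f : C(X, Y)) (g : C(Y, Z)) (n : ℕ) (z : Sing X n →₀ ℤ) :
    push g n (push f n z) = push (g.comp f) n z := by
  unfold push
  simp only [Finsupp.lmapDomain_apply]
  rw [← Finsupp.mapDomain_comp]
  rfl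

theorem delta_spec_cls_eq {X : Type} [TopologicalSpace X] {n : ℕ} (z z' : Sing X n →₀ ℤ)
    (hz : z ∈ Cyc X n) (hz' : z' ∈ Cyc X n) : cls z hz = cls z' hz' ↔ z - z' ∈ Bdy X n := by
  unfold cls
  rw [Submodule.Quotient.eq]
  rfl

theorem delta_spec_cyc {X : Type} [TopologicalSpace X] (U V : Set X) (n : ℕ)
    (u : Sing U (n + 1) →₀ ℤ) (v : Sing V (n + 1) →₀ ℤ) (d : Sing ↥(U ∩ V) n →₀ ℤ)
    (hu : bdry U n u = push (inl U V) n d) (hv : bdry V n v = - push (inr U V) n d) :
    push (sub U) (n + 1) u + push (sub V) (n + 1) v ∈ Cyc X (n + 1) := by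
  change bdry X n (push (sub U) (n + 1) u + push (sub V) (n + 1) v) = 0
  rw [map_add, bdry_push, bdry_push, hu, hv, map_neg, delta_spec_push_push,
    delta_spec_push_push]
  have h : (sub U).comp (inl U V) = (sub V).comp (inr U V) := rfl
  rw [h, add_neg_cancel]

theorem delta_spec_total {X : Type} [TopologicalSpace X] (U V : Set X) (hU : IsOpen U)
    (hV : IsOpen V) (hUV : ∀ x, x ∈ U ∨ x ∈ V) (n : ℕ) (x : HH X (n + 1)) :
    ∃ d, Del U V n x d := by
  obtain ⟨⟨z, hz⟩, rfl⟩ := Submodule.Quotient.mk_surjective _ x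
  obtain ⟨u, v, c, hc, hzc, hu, hv⟩ := raw_split U V hU hV hUV n z hz
  have hz' := delta_spec_cyc U V n u v c hu hv
  exact ⟨cls c hc, u, v, c, hc, hz', hu, hv, (delta_spec_cls_eq _ _ hz hz').2 hzc, rfl⟩

theorem delta_spec_unique {X : Type} [TopologicalSpace X] (U V : Set X) (hU : IsOpen U)
    (hV : IsOpen V) (hUV : ∀ x, x ∈ U ∨ x ∈ V) (n : ℕ) (x : HH X (n + 1))
    (d d' : HH ↥(U ∩ V) n) (h : Del U V n x d) (h' : Del U V n x d') : d = d' := by
  obtain ⟨u, v, c, hc, hz, hu, hv, hx, rfl⟩ := h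
  obtain ⟨u', v', c', hc', hz', hu', hv', hx', rfl⟩ := h'
  rw [delta_spec_cls_eq]
  rw [hx, delta_spec_cls_eq] at hx'
  refine raw_conn U V hU hV hUV n (u - u') (v - v') (c - c') ?_ ?_ ?_
  · rw [map_sub, map_sub, hu, hu']
  · rw [map_sub, map_sub, hv, hv']
    abel
  · rw [map_sub, map_sub]
    have e : push (sub U) (n + 1) u - push (sub U) (n + 1) u' +
        (push (sub V) (n + 1) v - push (sub V) (n + 1) v') =
        push (sub U) (n + 1) u + push (sub V) (n + 1) v -
          (push (sub U) (n + 1) u' + push (sub V) (n + 1) v') := by abel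
    rw [e]
    exact hx'

theorem delta_spec_add {X : Type} [TopologicalSpace X] (U V : Set X) (n : ℕ)
    (x y : HH X (n + 1)) (d e : HH ↥(U ∩ V) n) (h : Del U V n x d) (h' : Del U V n y e) :
    Del U V n (x + y) (d + e) := by
  obtain ⟨u, v, c, hc, hz, hu, hv, rfl, rfl⟩ := h
  obtain ⟨u', v', c', hc', hz', hu', hv', rfl, rfl⟩ := h'
  have hu2 : bdry U n (u + u') = push (inl U V) n (c + c') := by rw [map_add, map_add, hu, hu']
  have hv2 : bdry V n (v + v') = - push (inr U V) n (c + c') := by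
    rw [map_add, map_add, hv, hv']
    abel
  have hz2 := delta_spec_cyc U V n (u + u') (v + v') (c + c') hu2 hv2
  refine ⟨u + u', v + v', c + c', Submodule.add_mem _ hc hc', hz2, hu2, hv2, ?_, rfl⟩
  have h1 : cls _ hz + cls _ hz' = cls _ (Submodule.add_mem _ hz hz') := rfl
  rw [h1, delta_spec_cls_eq, map_add, map_add]
  have e : push (sub U) (n + 1) u + push (sub V) (n + 1) v +
      (push (sub U) (n + 1) u' + push (sub V) (n + 1) v') -
      (push (sub U) (n + 1) u + push (sub U) (n + 1) u' +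
        (push (sub V) (n + 1) v + push (sub V) (n + 1) v')) = 0 := by abel
  rw [e]
  exact Submodule.zero_mem _

theorem delta_spec {X : Type} [TopologicalSpace X] (U V : Set X) (hU : IsOpen U) (hV : IsOpen V)
    (hUV : ∀ x, x ∈ U ∨ x ∈ V) (n : ℕ) (x : HH X (n + 1)) : Del U V n x (delta U V n x) := by
  have hex : ∃ f : HH X (n + 1) →ₗ[ℤ] HH ↥(U ∩ V) n, ∀ x, Del U V n x (f x) := by
    choose f hf using delta_spec_total U V hU hV hUV n
    have hadd : ∀ x y, f (x + y) = f x + f y := fun x y =>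
      delta_spec_unique U V hU hV hUV n (x + y) _ _ (hf (x + y))
        (delta_spec_add U V n x y _ _ (hf x) (hf y))
    exact ⟨(AddMonoidHom.mk' f hadd).toIntLinearMap, hf⟩
  have hd : delta U V n = hex.choose := by
    unfold delta
    rw [dif_pos hex]
  rw [hd]
  exact hex.choose_spec x

end Pool.Agent.Helper534.LS
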