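import Pool.Agent.Helper534.LS.Defs
import Pool.Agent.Helper534.LS.P_delta_spec

open MeasureTheory

namespace Pool.Agent.Helper534.LS



theorem mv_exact1 {X : Type} [TopologicalSpace X] (U V : Set X) (hU : IsOpen U) (hV : IsOpen V)
    (hUV : ∀ x, x ∈ U ∨ x ∈ V) (n : ℕ) (x : HH X (n + 1)) (h : delta U V n x = 0) :
    ∃ (u : HH U (n + 1)) (v : HH V (n + 1)), x = hmap (sub U) (n + 1) u + hmap (sub V) (n + 1) v := by
  obtain ⟨u, v, c, hc, hz, hu, hv, hx, hd⟩ := delta_spec U V hU hV hUV n x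
  rw [h] at hd
  have hcb : c ∈ Bdy ↥(U ∩ V) n := by
    have h1 : (⟨c, hc⟩ : Cyc ↥(U ∩ V) n) ∈ (Bdy ↥(U ∩ V) n).submoduleOf (Cyc ↥(U ∩ V) n) :=
      (Submodule.Quotient.mk_eq_zero _).1 hd.symm
    exact h1
  obtain ⟨e, he⟩ := hcb
  have hpp : push (sub U) (n + 1) (push (inl U V) (n + 1) e) =
      push (sub V) (n + 1) (push (inr U V) (n + 1) e) := by
    unfold push
    simp only [Finsupp.lmapDomain_apply]
    rw [← Finsupp.mapDomain_comp, ← Finsupp.mapDomain_comp]
    rfl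
  have hu' : u - push (inl U V) (n + 1) e ∈ Cyc U (n + 1) := by
    change bdry U n (u - push (inl U V) (n + 1) e) = 0
    rw [map_sub, bdry_push, he, hu, sub_self]
  have hv' : v + push (inr U V) (n + 1) e ∈ Cyc V (n + 1) := by
    change bdry V n (v + push (inr U V) (n + 1) e) = 0
    rw [map_add, bdry_push, he, hv, neg_add_cancel]
  refine ⟨cls _ hu', cls _ hv', ?_⟩
  rw [hx]
  have h3 : hmap (sub U) (n + 1) (cls _ hu') =
    Submodule.Quotient.mk ⟨push (sub U) (n + 1) (u - push (inl U V) (n + 1) e),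
      push_mem_Cyc (sub U) (n + 1) _ hu'⟩ := rfl
  have h4 : hmap (sub V) (n + 1) (cls _ hv') =
    Submodule.Quotient.mk ⟨push (sub V) (n + 1) (v + push (inr U V) (n + 1) e),
      push_mem_Cyc (sub V) (n + 1) _ hv'⟩ := rfl
  rw [h3, h4, ← Submodule.Quotient.mk_add]
  unfold cls
  congr 1
  apply Subtype.ext
  show push (sub U) (n + 1) u + push (sub V) (n + 1) v =
    push (sub U) (n + 1) (u - push (inl U V) (n + 1) e) +
      push (sub V) (n + 1) (v + push (inr U V) (n + 1) e)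
  rw [map_sub, map_add, hpp]
  abel

end Pool.Agent.Helper534.LS
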