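import Pool.Agent.Helper534.LS.Defs
import Pool.Agent.Helper534.LS.P_hmap_comp
import Pool.Agent.Helper534.LS.P_hmap_id
import Pool.Agent.Helper534.LS.P_mv_exact1
import Pool.Agent.Helper534.LS.P_circ_cov
import Pool.Agent.Helper534.LS.P_circ_sub

open MeasureTheory

namespace Pool.Agent.Helper534.LS



theorem circ_ker (Q : Type) [TopologicalSpace Q] (n : ℕ) (c : HH (Circle × Q) (n + 1))
    (h : delta (cU Q) (cV Q) n c = 0) :
    c = hmap (iota Q) (n + 1) (hmap (prQ Q) (n + 1) c) := by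
  obtain ⟨hU, hV, hUV⟩ := circ_cov Q
  obtain ⟨u, v, hc⟩ := mv_exact1 (cU Q) (cV Q) hU hV hUV n c h
  obtain ⟨y₁, hy₁⟩ := (circ_sub Q (n + 1)).1 u
  obtain ⟨y₂, hy₂⟩ := (circ_sub Q (n + 1)).2 v
  have hcy : c = hmap (iota Q) (n + 1) (y₁ + y₂) := by
    rw [hc, hy₁, hy₂, map_add]
  have hid : (prQ Q).comp (iota Q) = ContinuousMap.id Q := by
    ext q
    rfl
  have hpr : ∀ y : HH Q (n + 1), hmap (prQ Q) (n + 1) (hmap (iota Q) (n + 1) y) = y := by
    intro y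
    rw [← hmap_comp, hid, hmap_id]
  rw [hcy, hpr]

end Pool.Agent.Helper534.LS
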