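import Pool.Agent.Helper534.LS.Defs
import Pool.Agent.Helper534.LS.P_raw_conn
import Pool.Agent.Helper534.LS.P_delta_spec

open MeasureTheory

namespace Pool.Agent.Helper534.LS



theorem aux_cls_eq {X : Type} [TopologicalSpace X] {n : ℕ} {z z' : Sing X n →₀ ℤ}
    {hz : z ∈ Cyc X n} {hz' : z' ∈ Cyc X n} :
    cls z hz = cls z' hz' ↔ z - z' ∈ Bdy X n := by
  unfold cls
  rw [Submodule.Quotient.eq]
  exact Iff.rfl

theorem aux_push_comp {X Y Z : Type} [TopologicalSpace X] [TopologicalSpace Y] [TopologicalSpace Z]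
    (g : C(Y, Z)) (f : C(X, Y)) (n : ℕ) (z : Sing X n →₀ ℤ) :
    push g n (push f n z) = push (g.comp f) n z := by
  have : (push g n).comp (push f n) = push (g.comp f) n := by
    apply Finsupp.lhom_ext'
    intro σ
    apply LinearMap.ext_ring
    simp only [LinearMap.comp_apply, Finsupp.lsingle_apply, push,
      Finsupp.lmapDomain_apply, Finsupp.mapDomain_single]
    rfl
  exact LinearMap.congr_fun this z

theorem aux_hmap_cls {X Y : Type} [TopologicalSpace X] [TopologicalSpace Y]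
    (f : C(X, Y)) {n : ℕ} (z : Sing X n →₀ ℤ) (hz : z ∈ Cyc X n) :
    hmap f n (cls z hz) = cls (push f n z) (push_mem_Cyc f n z hz) := rfl

theorem mv_nat {X : Type} [TopologicalSpace X] {Y : Type} [TopologicalSpace Y]
    (U V : Set X) (hU : IsOpen U) (hV : IsOpen V) (hUV : ∀ x, x ∈ U ∨ x ∈ V)
    (U' V' : Set Y) (hU' : IsOpen U') (hV' : IsOpen V') (hUV' : ∀ x, x ∈ U' ∨ x ∈ V')
    (f : C(X, Y)) (hfU : ∀ x ∈ U, f x ∈ U') (hfV : ∀ x ∈ V, f x ∈ V')
    (f' : C(↥(U ∩ V), ↥(U' ∩ V'))) (hf' : ∀ x, (f' x : Y) = f x) (n : ℕ) (x : HH X (n + 1)) :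
    delta U' V' n (hmap f (n + 1) x) = hmap f' n (delta U V n x) := by
  obtain ⟨u, v, c, hc, hz, hu, hv, hx, hd⟩ := delta_spec U V hU hV hUV n x
  obtain ⟨u2, v2, c2, hc2, hz2, hu2, hv2, hx2, hd2⟩ :=
    delta_spec U' V' hU' hV' hUV' n (hmap f (n + 1) x)
  let fU : C(U, U') := ⟨fun x => ⟨f x, hfU x x.2⟩, by fun_prop⟩
  let fV : C(V, V') := ⟨fun x => ⟨f x, hfV x x.2⟩, by fun_prop⟩
  have e1 : fU.comp (inl U V) = (inl U' V').comp f' := by
    ext p
    exact (hf' p).symm
  have e2 : fV.comp (inr U V) = (inr U' V').comp f' := by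
    ext p
    exact (hf' p).symm
  have e3 : (sub U').comp fU = f.comp (sub U) := by
    ext p
    rfl
  have e4 : (sub V').comp fV = f.comp (sub V) := by
    ext p
    rfl
  have g1 : bdry U' n (push fU (n + 1) u) = push (inl U' V') n (push f' n c) := by
    rw [bdry_push, hu, aux_push_comp, aux_push_comp, e1]
  have g2 : bdry V' n (push fV (n + 1) v) = - push (inr U' V') n (push f' n c) := by
    rw [bdry_push, hv, map_neg, aux_push_comp, aux_push_comp, e2]
  have g3 : push f (n + 1) (push (sub U) (n + 1) u + push (sub V) (n + 1) v) =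
      push (sub U') (n + 1) (push fU (n + 1) u) + push (sub V') (n + 1) (push fV (n + 1) v) := by
    rw [map_add, aux_push_comp, aux_push_comp, aux_push_comp, aux_push_comp, e3, e4]
  rw [hx, aux_hmap_cls, aux_cls_eq, g3] at hx2
  rw [hd2, hd, aux_hmap_cls, aux_cls_eq]
  have h5 := raw_conn U' V' hU' hV' hUV' n (push fU (n + 1) u - u2) (push fV (n + 1) v - v2)
    (push f' n c - c2)
    (by rw [map_sub, map_sub, g1, hu2])
    (by rw [map_sub, map_sub, g2, hv2]; abel)
    (by
      have : push (sub U') (n + 1) (push fU (n + 1) u - u2)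
          + push (sub V') (n + 1) (push fV (n + 1) v - v2) =
          push (sub U') (n + 1) (push fU (n + 1) u) + push (sub V') (n + 1) (push fV (n + 1) v)
          - (push (sub U') (n + 1) u2 + push (sub V') (n + 1) v2) := by
        rw [map_sub, map_sub]
        abel
      rw [this]
      exact hx2)
  have h6 := (Bdy ↥(U' ∩ V') n).neg_mem h5
  rwa [neg_sub] at h6

end Pool.Agent.Helper534.LS
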