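import Pool.Agent.Helper534.LS.Defs
import Pool.Agent.Helper534.LS.P_hmap_comp
import Pool.Agent.Helper534.LS.P_hmap_homotopic

open MeasureTheory

namespace Pool.Agent.Helper534.LS



theorem circ845_U (t : unitInterval) :
    ((Circle.exp (Real.pi * t + Real.pi / 2) : Circle) : ℂ).re = - Real.sin (Real.pi * t) ∧
    ((Circle.exp (Real.pi * t + Real.pi / 2) : Circle) : ℂ).im = Real.cos (Real.pi * t) := by
  rw [Circle.coe_exp, Complex.exp_ofReal_mul_I_re, Complex.exp_ofReal_mul_I_im,
    Real.cos_add_pi_div_two, Real.sin_add_pi_div_two]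
  exact ⟨rfl, rfl⟩

theorem circ845_V (t : unitInterval) :
    ((Circle.exp (Real.pi / 2 - Real.pi * t) : Circle) : ℂ).re = Real.sin (Real.pi * t) ∧
    ((Circle.exp (Real.pi / 2 - Real.pi * t) : Circle) : ℂ).im = Real.cos (Real.pi * t) := by
  rw [Circle.coe_exp, Complex.exp_ofReal_mul_I_re, Complex.exp_ofReal_mul_I_im,
    Real.cos_pi_div_two_sub, Real.sin_pi_div_two_sub]
  exact ⟨rfl, rfl⟩

theorem circ845_sin (t : unitInterval) : 0 ≤ Real.sin (Real.pi * t) := by
  refine Real.sin_nonneg_of_nonneg_of_le_pi (mul_nonneg Real.pi_pos.le t.2.1) ?_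
  have := mul_le_mul_of_nonneg_left t.2.2 Real.pi_pos.le
  linarith

theorem circ_inl (Q : Type) [TopologicalSpace Q] (n : ℕ) (z : HH Q n) :
    hmap (inl (cU Q) (cV Q)) n (hmap (kP Q) n z) = hmap (inl (cU Q) (cV Q)) n (hmap (kM Q) n z) ∧
    hmap (inr (cU Q) (cV Q)) n (hmap (kP Q) n z) =
      hmap (inr (cU Q) (cV Q)) n (hmap (kM Q) n z) := by
  have hU : ((inl (cU Q) (cV Q)).comp (kP Q)).Homotopic ((inl (cU Q) (cV Q)).comp (kM Q)) := by
    refine ⟨⟨⟨fun p => ⟨(Circle.exp (Real.pi * p.1 + Real.pi / 2), p.2), ?_⟩, ?_⟩, ?_, ?_⟩⟩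
    · intro h
      have h1 := congrArg Complex.re h
      simp only [(circ845_U p.1).1, Complex.one_re] at h1
      have := circ845_sin p.1
      linarith
    · refine Continuous.subtype_mk ?_ _
      fun_prop
    · intro q
      apply Subtype.ext
      show (Circle.exp (Real.pi * ((0 : unitInterval) : ℝ) + Real.pi / 2), q) = (cI, q)
      congr 1
      apply Circle.ext
      apply Complex.ext
      · rw [(circ845_U 0).1]; simp [cI]
      · rw [(circ845_U 0).2]; simp [cI]
    · intro q
      apply Subtype.ext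
      show (Circle.exp (Real.pi * ((1 : unitInterval) : ℝ) + Real.pi / 2), q) = (cJ, q)
      congr 1
      apply Circle.ext
      apply Complex.ext
      · rw [(circ845_U 1).1]; simp [cJ]
      · rw [(circ845_U 1).2]; simp [cJ]
  have hV : ((inr (cU Q) (cV Q)).comp (kP Q)).Homotopic ((inr (cU Q) (cV Q)).comp (kM Q)) := by
    refine ⟨⟨⟨fun p => ⟨(Circle.exp (Real.pi / 2 - Real.pi * p.1), p.2), ?_⟩, ?_⟩, ?_, ?_⟩⟩
    · intro h
      have h1 := congrArg Complex.re h
      simp only [(circ845_V p.1).1, Complex.neg_re, Complex.one_re] at h1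
      have := circ845_sin p.1
      linarith
    · refine Continuous.subtype_mk ?_ _
      fun_prop
    · intro q
      apply Subtype.ext
      show (Circle.exp (Real.pi / 2 - Real.pi * ((0 : unitInterval) : ℝ)), q) = (cI, q)
      congr 1
      apply Circle.ext
      apply Complex.ext
      · rw [(circ845_V 0).1]; simp [cI]
      · rw [(circ845_V 0).2]; simp [cI]
    · intro q
      apply Subtype.ext
      show (Circle.exp (Real.pi / 2 - Real.pi * ((1 : unitInterval) : ℝ)), q) = (cJ, q)
      congr 1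
      apply Circle.ext
      apply Complex.ext
      · rw [(circ845_V 1).1]; simp [cJ]
      · rw [(circ845_V 1).2]; simp [cJ]
  refine ⟨?_, ?_⟩
  · rw [← hmap_comp, ← hmap_comp, hmap_homotopic _ _ hU]
  · rw [← hmap_comp, ← hmap_comp, hmap_homotopic _ _ hV]
end Pool.Agent.Helper534.LS
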