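import Pool.Agent.Helper534.LS.Defs
import Pool.Agent.Helper534.LS.P_raw_conn
import Pool.Agent.Helper534.LS.P_delta_spec

open MeasureTheory

namespace Pool.Agent.Helper534.LS



theorem mv_delta_sub {X : Type} [TopologicalSpace X] (U V : Set X) (hU : IsOpen U) (hV : IsOpen V)
    (hUV : ∀ x, x ∈ U ∨ x ∈ V) (n : ℕ) (u : HH U (n + 1)) (v : HH V (n + 1)) :
    delta U V n (hmap (sub U) (n + 1) u + hmap (sub V) (n + 1) v) = 0 := by
  obtain ⟨⟨u0, hu0⟩, rfl⟩ := Submodule.Quotient.mk_surjective _ u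
  obtain ⟨⟨v0, hv0⟩, rfl⟩ := Submodule.Quotient.mk_surjective _ v
  obtain ⟨u', v', c, hc, hz, hbu, hbv, hx, hd⟩ := delta_spec U V hU hV hUV n
    (hmap (sub U) (n + 1) (Submodule.Quotient.mk ⟨u0, hu0⟩) +
      hmap (sub V) (n + 1) (Submodule.Quotient.mk ⟨v0, hv0⟩))
  rw [hd]
  have hz0 : push (sub U) (n + 1) u0 + push (sub V) (n + 1) v0 ∈ Cyc X (n + 1) :=
    Submodule.add_mem _ (push_mem_Cyc _ _ _ hu0) (push_mem_Cyc _ _ _ hv0)
  have hx' : (cls _ hz0 : HH X (n + 1)) = cls _ hz := by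
    rw [← hx]; rfl
  have h1 : (push (sub U) (n + 1) u0 + push (sub V) (n + 1) v0) -
      (push (sub U) (n + 1) u' + push (sub V) (n + 1) v') ∈ Bdy X (n + 1) := by
    have h2 := (Submodule.Quotient.eq _).1 hx'
    exact h2
  have h3 : push (sub U) (n + 1) (u' - u0) + push (sub V) (n + 1) (v' - v0) ∈ Bdy X (n + 1) := by
    have h4 := Submodule.neg_mem _ h1
    rw [map_sub, map_sub]
    convert h4 using 1
    abel
  have hu0' : bdry U n u0 = 0 := hu0
  have hv0' : bdry V n v0 = 0 := hv0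
  have h5 := raw_conn U V hU hV hUV n (u' - u0) (v' - v0) c (by rw [map_sub, hu0', sub_zero, hbu])
    (by rw [map_sub, hv0', sub_zero, hbv]) h3
  exact (Submodule.Quotient.mk_eq_zero _).2 h5

end Pool.Agent.Helper534.LS
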