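import Pool.Agent.Helper534.LS.Defs
import Pool.Agent.Helper534.LS.P_hmap_comp
import Pool.Agent.Helper534.LS.P_mv_delta_sub
import Pool.Agent.Helper534.LS.P_circ_cov

open MeasureTheory

namespace Pool.Agent.Helper534.LS



theorem circ_iota (Q : Type) [TopologicalSpace Q] (n : ℕ) (y : HH Q (n + 1)) :
    delta (cU Q) (cV Q) n (hmap (iota Q) (n + 1) y) = 0 := by
  have hne : ((1 : Circle) : ℂ) ≠ -1 := by
    intro h
    have := congrArg Complex.re h
    norm_num at this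
  obtain ⟨j, hj⟩ : ∃ j : C(Q, ↥(cV Q)), ∀ q, j q = ⟨((1 : Circle), q), hne⟩ :=
    ⟨⟨fun q => ⟨((1 : Circle), q), hne⟩, by fun_prop⟩, fun q => rfl⟩
  have h1 : iota Q = (sub (cV Q)).comp j := by
    ext q : 1
    show ((1 : Circle), q) = (j q).1
    rw [hj]
  obtain ⟨hU, hV, hUV⟩ := circ_cov Q
  have h2 := mv_delta_sub (cU Q) (cV Q) hU hV hUV n 0 (hmap j (n + 1) y)
  rw [map_zero, zero_add] at h2
  rw [h1, hmap_comp]
  exact h2

end Pool.Agent.Helper534.LS
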