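import Pool.Agent.Helper534.LS.Defs
import Pool.Agent.Helper534.LS.P_raw_conn
import Pool.Agent.Helper534.LS.P_delta_spec

open MeasureTheory

namespace Pool.Agent.Helper534.LS



theorem mv_exact2_cls {X : Type} [TopologicalSpace X] {n : ℕ} (z z' : Sing X n →₀ ℤ)
    (hz : z ∈ Cyc X n) (hz' : z' ∈ Cyc X n) : cls z hz = cls z' hz' ↔ z - z' ∈ Bdy X n := by
  unfold cls
  rw [Submodule.Quotient.eq]
  exact Iff.rfl

theorem mv_exact2_hmap {X : Type} [TopologicalSpace X] {Y : Type} [TopologicalSpace Y]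
    (f : C(X, Y)) (n : ℕ) (z : Sing X n →₀ ℤ) (hz : z ∈ Cyc X n) :
    hmap f n (cls z hz) = 0 ↔ push f n z ∈ Bdy Y n := by
  have h1 : hmap f n (cls z hz) = cls (push f n z) (push_mem_Cyc f n z hz) := rfl
  rw [h1]
  unfold cls
  rw [Submodule.Quotient.mk_eq_zero]
  exact Iff.rfl

theorem mv_exact2_comp {X : Type} [TopologicalSpace X] {Y : Type} [TopologicalSpace Y]
    {Z : Type} [TopologicalSpace Z] (f : C(X, Y)) (g : C(Y, Z)) (n : ℕ) (z : Sing X n →₀ ℤ) :
    push g n (push f n z) = push (g.comp f) n z := by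
  unfold push
  rw [Finsupp.lmapDomain_apply, Finsupp.lmapDomain_apply, Finsupp.lmapDomain_apply,
    ← Finsupp.mapDomain_comp]
  rfl

theorem mv_exact2_sub {X : Type} [TopologicalSpace X] (U V : Set X) (n : ℕ)
    (c : Sing ↥(U ∩ V) n →₀ ℤ) :
    push (sub U) n (push (inl U V) n c) = push (sub V) n (push (inr U V) n c) := by
  rw [mv_exact2_comp, mv_exact2_comp]
  rfl

theorem mv_exact2 {X : Type} [TopologicalSpace X] (U V : Set X) (hU : IsOpen U) (hV : IsOpen V)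
    (hUV : ∀ x, x ∈ U ∨ x ∈ V) (n : ℕ) (d : HH ↥(U ∩ V) n) (h1 : hmap (inl U V) n d = 0)
    (h2 : hmap (inr U V) n d = 0) : ∃ x : HH X (n + 1), delta U V n x = d := by
  obtain ⟨⟨c, hc⟩, rfl⟩ := Submodule.Quotient.mk_surjective _ d
  have hd : (Submodule.Quotient.mk ⟨c, hc⟩ : HH ↥(U ∩ V) n) = cls c hc := rfl
  rw [hd] at h1 h2 ⊢
  obtain ⟨u, hu⟩ := (mv_exact2_hmap _ _ _ _).1 h1
  obtain ⟨v', hv'⟩ := (mv_exact2_hmap _ _ _ _).1 h2
  obtain ⟨v, hv⟩ : ∃ v : Sing V (n + 1) →₀ ℤ, bdry V n v = - push (inr U V) n c :=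
    ⟨-v', by rw [map_neg, hv']⟩
  have hz : push (sub U) (n + 1) u + push (sub V) (n + 1) v ∈ Cyc X (n + 1) := by
    show bdry X n (push (sub U) (n + 1) u + push (sub V) (n + 1) v) = 0
    rw [map_add, bdry_push, bdry_push, hu, hv, map_neg, mv_exact2_sub, add_neg_cancel]
  refine ⟨cls _ hz, ?_⟩
  obtain ⟨u', w, c', hc', hz', hu', hw, hx, hd'⟩ := delta_spec U V hU hV hUV n (cls _ hz)
  rw [hd', mv_exact2_cls]
  have h3 := (mv_exact2_cls _ _ hz hz').1 hx
  refine raw_conn U V hU hV hUV n (u' - u) (w - v) (c' - c) ?_ ?_ ?_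
  · rw [map_sub, map_sub, hu', hu]
  · rw [map_sub, map_sub, hw, hv]
    abel
  · have h4 : push (sub U) (n + 1) (u' - u) + push (sub V) (n + 1) (w - v) =
        -(push (sub U) (n + 1) u + push (sub V) (n + 1) v -
          (push (sub U) (n + 1) u' + push (sub V) (n + 1) w)) := by
      rw [map_sub, map_sub]
      abel
    rw [h4]
    exact (Bdy X (n + 1)).neg_mem h3

end Pool.Agent.Helper534.LS
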