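import Pool.Agent.Helper534.LS.Defs
import Pool.Agent.Helper534.LS.P_hmap_comp
import Pool.Agent.Helper534.LS.P_hmap_id
import Pool.Agent.Helper534.LS.P_mv_exact2
import Pool.Agent.Helper534.LS.P_circ_cov
import Pool.Agent.Helper534.LS.P_circ_inl
import Pool.Agent.Helper534.LS.P_circ_ker
import Pool.Agent.Helper534.LS.P_circ_iota

open MeasureTheory

namespace Pool.Agent.Helper534.LS



theorem sig_spec (Q : Type) [TopologicalSpace Q] (n : ℕ) (z : HH Q n) :
    hmap (prQ Q) (n + 1) (sig Q n z) = 0 ∧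
    delta (cU Q) (cV Q) n (sig Q n z) = hmap (kP Q) n z - hmap (kM Q) n z := by
  classical
  obtain ⟨hU, hV, hUV⟩ := circ_cov Q
  have hex : ∀ z : HH Q n, ∃ c : HH (Circle × Q) (n + 1), hmap (prQ Q) (n + 1) c = 0 ∧
      delta (cU Q) (cV Q) n c = hmap (kP Q) n z - hmap (kM Q) n z := by
    intro z
    obtain ⟨x, hx⟩ := mv_exact2 (cU Q) (cV Q) hU hV hUV n (hmap (kP Q) n z - hmap (kM Q) n z)
      (by rw [map_sub, (circ_inl Q n z).1, sub_self]) (by rw [map_sub, (circ_inl Q n z).2, sub_self])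
    have hpi : ∀ y : HH Q (n + 1), hmap (prQ Q) (n + 1) (hmap (iota Q) (n + 1) y) = y := by
      intro y
      rw [← hmap_comp]
      have : (prQ Q).comp (iota Q) = ContinuousMap.id Q := by
        ext q
        rfl
      rw [this, hmap_id]
    refine ⟨x - hmap (iota Q) (n + 1) (hmap (prQ Q) (n + 1) x), ?_, ?_⟩
    · rw [map_sub, hpi, sub_self]
    · rw [map_sub, circ_iota, sub_zero, hx]
  have huniq : ∀ c c' : HH (Circle × Q) (n + 1), hmap (prQ Q) (n + 1) c = 0 →
      hmap (prQ Q) (n + 1) c' = 0 → delta (cU Q) (cV Q) n c = delta (cU Q) (cV Q) n c' → c = c' := by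
    intro c c' h1 h2 h3
    have h4 := circ_ker Q n (c - c') (by rw [map_sub, h3, sub_self])
    rw [map_sub, h1, h2, sub_self, map_zero] at h4
    exact sub_eq_zero.mp h4
  choose f hf1 hf2 using hex
  have h : ∃ f : HH Q n →ₗ[ℤ] HH (Circle × Q) (n + 1), ∀ z, hmap (prQ Q) (n + 1) (f z) = 0 ∧
      delta (cU Q) (cV Q) n (f z) = hmap (kP Q) n z - hmap (kM Q) n z := by
    refine ⟨{ toFun := f, map_add' := ?_, map_smul' := ?_ }, fun z => ⟨hf1 z, hf2 z⟩⟩
    · intro a b
      apply huniq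
      · exact hf1 _
      · rw [map_add, hf1, hf1, add_zero]
      · rw [map_add, hf2, hf2, hf2, map_add, map_add]
        abel
    · intro m a
      apply huniq
      · exact hf1 _
      · rw [map_smul, hf1, smul_zero]
      · rw [map_smul, hf2, hf2, map_smul, map_smul, smul_sub]
        rfl
  have hsig : sig Q n = h.choose := by
    unfold sig
    rw [dif_pos h]
  rw [hsig]
  exact h.choose_spec z

end Pool.Agent.Helper534.LS
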