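import Pool.Agent.Helper534.LS.Defs
import Pool.Agent.Helper534.LS.P_hmap_comp
import Pool.Agent.Helper534.LS.P_hmap_id
import Pool.Agent.Helper534.LS.P_hmap_homotopic
import Pool.Agent.Helper534.LS.P_mv_nat
import Pool.Agent.Helper534.LS.P_circ_cov
import Pool.Agent.Helper534.LS.P_circ_ker
import Pool.Agent.Helper534.LS.P_sig_spec

open MeasureTheory

namespace Pool.Agent.Helper534.LS



/-- `(s, q) ↦ (s, (s, q))` -/
def sig_add_d (Q : Type) [TopologicalSpace Q] : C(Circle × Q, Circle × (Circle × Q)) :=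
  ⟨fun p => (p.1, (p.1, p.2)), by fun_prop⟩

/-- `(s, q) ↦ (s, (1, q))` -/
noncomputable def sig_add_a (Q : Type) [TopologicalSpace Q] :
    C(Circle × Q, Circle × (Circle × Q)) :=
  ⟨fun p => (p.1, (1, p.2)), by fun_prop⟩

/-- the restriction of the map `d` -/
def sig_add_d' (Q : Type) [TopologicalSpace Q] :
    C(↥(cU Q ∩ cV Q), ↥(cU (Circle × Q) ∩ cV (Circle × Q))) :=
  ⟨fun x => ⟨(x.1.1, (x.1.1, x.1.2)), x.2.1, x.2.2⟩, by fun_prop⟩

/-- the restriction of the map `a` -/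
noncomputable def sig_add_a' (Q : Type) [TopologicalSpace Q] :
    C(↥(cU Q ∩ cV Q), ↥(cU (Circle × Q) ∩ cV (Circle × Q))) :=
  ⟨fun x => ⟨(x.1.1, (1, x.1.2)), x.2.1, x.2.2⟩, by fun_prop⟩

/-- the two maps over a point `s` of the circle are homotopic -/
theorem sig_add_hom (Q : Type) [TopologicalSpace Q] (k : C(Q, ↥(cU Q ∩ cV Q))) (s : Circle)
    (hk : ∀ q, ((k q : ↥(cU Q ∩ cV Q)) : Circle × Q) = (s, q)) :
    ((sig_add_d' Q).comp k).Homotopic ((sig_add_a' Q).comp k) := by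
  have hk1 : ∀ q, ((k q : ↥(cU Q ∩ cV Q)) : Circle × Q).1 = s := fun q => by rw [hk]
  refine ⟨⟨⟨fun p => ⟨((k p.2).1.1, (Circle.exp ((1 - (p.1 : ℝ)) * Complex.arg s), (k p.2).1.2)),
    (k p.2).2.1, (k p.2).2.2⟩, by fun_prop⟩, fun q => ?_, fun q => ?_⟩⟩
  · apply Subtype.ext
    change ((k q).1.1, (Circle.exp ((1 - (0 : ℝ)) * Complex.arg s), (k q).1.2))
      = ((k q).1.1, ((k q).1.1, (k q).1.2))
    rw [sub_zero, one_mul, Circle.exp_arg, hk1]
  · apply Subtype.ext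
    change ((k q).1.1, (Circle.exp ((1 - (1 : ℝ)) * Complex.arg s), (k q).1.2))
      = ((k q).1.1, ((1 : Circle), (k q).1.2))
    rw [sub_self, zero_mul, Circle.exp_zero]

theorem sig_add {Q Z : Type} [TopologicalSpace Q] [TopologicalSpace Z]
    (F : C(Circle × (Circle × Q), Z)) (D G G' : C(Circle × Q, Z))
    (hD : ∀ p, D p = F (p.1, (p.1, p.2))) (hG : ∀ p, G p = F (p.1, (1, p.2)))
    (hG' : ∀ p, G' p = F (1, (p.1, p.2))) (n : ℕ) (z : HH Q n) :
    hmap D (n + 1) (sig Q n z) = hmap G (n + 1) (sig Q n z) + hmap G' (n + 1) (sig Q n z) := by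
  have eD : D = F.comp (sig_add_d Q) := ContinuousMap.ext hD
  have eG : G = F.comp (sig_add_a Q) := ContinuousMap.ext hG
  have eG' : G' = F.comp (iota (Circle × Q)) := ContinuousMap.ext hG'
  obtain ⟨hs1, hs2⟩ := sig_spec Q n z
  obtain ⟨oU, oV, oc⟩ := circ_cov Q
  obtain ⟨oU', oV', oc'⟩ := circ_cov (Circle × Q)
  have h1 : delta (cU (Circle × Q)) (cV (Circle × Q)) n (hmap (sig_add_d Q) (n + 1) (sig Q n z))
      = hmap ((sig_add_d' Q).comp (kP Q)) n z - hmap ((sig_add_d' Q).comp (kM Q)) n z := by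
    rw [mv_nat (cU Q) (cV Q) oU oV oc (cU (Circle × Q)) (cV (Circle × Q)) oU' oV' oc'
      (sig_add_d Q) (fun x hx => hx) (fun x hx => hx) (sig_add_d' Q) (fun x => rfl), hs2, map_sub,
      hmap_comp, hmap_comp]
  have h2 : delta (cU (Circle × Q)) (cV (Circle × Q)) n (hmap (sig_add_a Q) (n + 1) (sig Q n z))
      = hmap ((sig_add_a' Q).comp (kP Q)) n z - hmap ((sig_add_a' Q).comp (kM Q)) n z := by
    rw [mv_nat (cU Q) (cV Q) oU oV oc (cU (Circle × Q)) (cV (Circle × Q)) oU' oV' oc'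
      (sig_add_a Q) (fun x hx => hx) (fun x hx => hx) (sig_add_a' Q) (fun x => rfl), hs2, map_sub,
      hmap_comp, hmap_comp]
  have h3 : delta (cU (Circle × Q)) (cV (Circle × Q)) n
      (hmap (sig_add_d Q) (n + 1) (sig Q n z) - hmap (sig_add_a Q) (n + 1) (sig Q n z)) = 0 := by
    rw [map_sub, h1, h2, hmap_homotopic _ _ (sig_add_hom Q (kP Q) cI (fun q => rfl)),
      hmap_homotopic _ _ (sig_add_hom Q (kM Q) cJ (fun q => rfl)), sub_self]
  have h4 := circ_ker (Circle × Q) n _ h3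
  have e1 : (prQ (Circle × Q)).comp (sig_add_d Q) = ContinuousMap.id _ :=
    ContinuousMap.ext (fun p => rfl)
  have e2 : (prQ (Circle × Q)).comp (sig_add_a Q) = (iota Q).comp (prQ Q) :=
    ContinuousMap.ext (fun p => rfl)
  rw [map_sub, ← hmap_comp (sig_add_d Q), ← hmap_comp (sig_add_a Q), e1, e2, hmap_id, hmap_comp,
    hs1, map_zero, sub_zero] at h4
  rw [eD, eG, eG', hmap_comp, hmap_comp, hmap_comp, ← h4, map_sub]
  abel

end Pool.Agent.Helper534.LS
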