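import Pool.Agent.Helper534.LS.Defs
import Pool.Agent.Helper534.LS.P_hmap_comp
import Pool.Agent.Helper534.LS.P_hmap_id
import Pool.Agent.Helper534.LS.P_hmap_homotopic

open MeasureTheory

namespace Pool.Agent.Helper534.LS



theorem hunit_aux (n : ℕ) (z : Sing Unit (n + 1) →₀ ℤ) (hz : z ∈ Cyc Unit (n + 1)) :
    z ∈ Bdy Unit (n + 1) := by
  have hbs : ∀ (k : ℕ) (a : ℤ) (σ : Sing Unit (k + 1)) (τ : Sing Unit k),
      bdry Unit k (Finsupp.single σ a) =
        Finsupp.single τ ((∑ i : Fin (k + 2), (-1 : ℤ) ^ (i : ℕ)) * a) := by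
    intro k a σ τ
    simp only [bdry, LinearMap.sum_apply, LinearMap.smul_apply, Finsupp.lmapDomain_apply,
      Finsupp.mapDomain_single]
    have : ∀ i : Fin (k + 2), sface k i σ = τ := by
      intro i
      ext
    simp only [this, Finset.sum_mul, Finsupp.smul_single, smul_eq_mul]
    rw [← Finsupp.single_finset_sum]
  have hz1 : ∀ (k : ℕ) (w : Sing Unit k →₀ ℤ), ∃ a : ℤ,
      w = Finsupp.single (ContinuousMap.const _ ()) a := by
    intro k w
    refine ⟨w (ContinuousMap.const _ ()), ?_⟩
    ext σ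
    have : σ = ContinuousMap.const _ () := by ext
    rw [this]
    simp
  have hsum : ∀ k : ℕ, (∑ i : Fin k, (-1 : ℤ) ^ (i : ℕ)) = if Even k then 0 else 1 := by
    intro k
    rw [Fin.sum_univ_eq_sum_range (fun i => (-1 : ℤ) ^ i) k]
    exact neg_one_geom_sum
  obtain ⟨a, ha⟩ := hz1 _ z
  rcases Nat.even_or_odd n with hn | hn
  · refine ⟨Finsupp.single (ContinuousMap.const _ ()) a, ?_⟩
    rw [hbs (n + 1) a _ (ContinuousMap.const _ ()), hsum, ha]
    have : ¬ Even (n + 1 + 2) := by
      rw [Nat.not_even_iff_odd]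
      have : Odd (n + 1) := hn.add_one
      exact this.add_even (by decide)
    rw [if_neg this, one_mul]
  · have h0 : bdry Unit n z = 0 := hz
    rw [ha, hbs n a _ (ContinuousMap.const _ ()), hsum] at h0
    have : ¬ Even (n + 2) := by
      rw [Nat.not_even_iff_odd]
      exact hn.add_even (by decide)
    rw [if_neg this, one_mul, Finsupp.single_eq_zero] at h0
    rw [ha, h0, Finsupp.single_zero]
    exact Submodule.zero_mem _

theorem hh_contr {X : Type} [TopologicalSpace X] [ContractibleSpace X] (n : ℕ)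
    (x : HH X (n + 1)) : x = 0 := by
  have hU : ∀ y : HH Unit (n + 1), y = 0 := by
    intro y
    obtain ⟨⟨z, hz⟩, rfl⟩ := Submodule.Quotient.mk_surjective _ y
    rw [Submodule.Quotient.mk_eq_zero]
    exact hunit_aux n z hz
  obtain ⟨y, hy⟩ := id_nullhomotopic X
  have h1 : hmap (ContinuousMap.id X) (n + 1) x = hmap (ContinuousMap.const X y) (n + 1) x := by
    rw [hmap_homotopic _ _ hy]
  rw [hmap_id] at h1
  have h2 : (ContinuousMap.const X y) =
      (ContinuousMap.const Unit y).comp (ContinuousMap.const X ()) := by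
    ext; rfl
  rw [h1, h2, hmap_comp, hU (hmap (ContinuousMap.const X ()) (n + 1) x), map_zero]

end Pool.Agent.Helper534.LS
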