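import Pool.Agent.Helper534.LS.Defs
import Pool.Agent.Helper534.LS.P_hmap_comp
import Pool.Agent.Helper534.LS.P_mv_nat
import Pool.Agent.Helper534.LS.P_circ_cov
import Pool.Agent.Helper534.LS.P_circ_ker
import Pool.Agent.Helper534.LS.P_sig_spec

open MeasureTheory

namespace Pool.Agent.Helper534.LS



/-- the restriction of `idx f` -/
noncomputable def sigNatRes {Q Q' : Type} [TopologicalSpace Q] [TopologicalSpace Q']
    (f : C(Q, Q')) : C(↥(cU Q ∩ cV Q), ↥(cU Q' ∩ cV Q')) :=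
  ⟨fun x => ⟨idx f x, ⟨x.2.1, x.2.2⟩⟩, by
    apply Continuous.subtype_mk
    exact (idx f).continuous.comp continuous_subtype_val⟩

theorem sig_nat {Q Q' : Type} [TopologicalSpace Q] [TopologicalSpace Q'] (f : C(Q, Q')) (n : ℕ)
    (z : HH Q n) : hmap (idx f) (n + 1) (sig Q n z) = sig Q' n (hmap f n z) := by
  rw [← sub_eq_zero]
  set c := hmap (idx f) (n + 1) (sig Q n z) - sig Q' n (hmap f n z) with hc
  obtain ⟨h1, h2⟩ := sig_spec Q n z
  obtain ⟨h3, h4⟩ := sig_spec Q' n (hmap f n z)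
  obtain ⟨oU, oV, oc⟩ := circ_cov Q
  obtain ⟨oU', oV', oc'⟩ := circ_cov Q'
  have hpr : hmap (prQ Q') (n + 1) c = 0 := by
    rw [hc, map_sub, h3, sub_zero, ← hmap_comp]
    have e : (prQ Q').comp (idx f) = f.comp (prQ Q) := by
      ext p; rfl
    rw [e, hmap_comp, h1, map_zero]
  have hdel : delta (cU Q') (cV Q') n c = 0 := by
    rw [hc, map_sub, h4]
    rw [mv_nat (cU Q) (cV Q) oU oV oc (cU Q') (cV Q') oU' oV' oc' (idx f)
      (fun x hx => hx) (fun x hx => hx) (sigNatRes f) (fun x => rfl), h2, map_sub]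
    rw [← hmap_comp, ← hmap_comp, ← hmap_comp, ← hmap_comp]
    have e1 : (sigNatRes f).comp (kP Q) = (kP Q').comp f := by
      ext p
      · rfl
      · rfl
    have e2 : (sigNatRes f).comp (kM Q) = (kM Q').comp f := by
      ext p
      · rfl
      · rfl
    rw [e1, e2, sub_self]
  rw [circ_ker Q' n c hdel, hpr, map_zero]

end Pool.Agent.Helper534.LS
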