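import Pool.Agent.Helper534.LS.Defs

open MeasureTheory

namespace Pool.Agent.Helper534.LS



noncomputable def augC (X : Type) [TopologicalSpace X] : (Sing X 0 →₀ ℤ) →ₗ[ℤ] ℤ :=
  Finsupp.linearCombination ℤ (fun _ => (1 : ℤ))

theorem augC_single (X : Type) [TopologicalSpace X] (σ : Sing X 0) (c : ℤ) :
    augC X (Finsupp.single σ c) = c := by
  simp [augC]

theorem augC_bdry (X : Type) [TopologicalSpace X] (z : Sing X 1 →₀ ℤ) :
    augC X (bdry X 0 z) = 0 := by
  have : (augC X).comp (bdry X 0) = 0 := by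
    apply Finsupp.lhom_ext'
    intro σ
    apply LinearMap.ext_ring
    simp only [LinearMap.comp_apply, Finsupp.lsingle_apply, bdry, LinearMap.sum_apply,
      LinearMap.smul_apply, Finsupp.lmapDomain_apply, Finsupp.mapDomain_single, map_sum, map_smul,
      augC_single, LinearMap.zero_apply, Fin.sum_univ_two]
    simp
  exact LinearMap.congr_fun this z

theorem aug_exists (X : Type) [TopologicalSpace X] :
    ∃ a : HH X 0 →ₗ[ℤ] ℤ, ∀ x : X, a (ptc x) = 1 := by
  refine ⟨Submodule.liftQ _ ((augC X).comp (Cyc X 0).subtype) ?_, ?_⟩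
  · intro z hz
    obtain ⟨w, hw⟩ := (hz : z.1 ∈ Bdy X 0)
    rw [LinearMap.mem_ker, LinearMap.comp_apply, ← hw, augC_bdry]
  · intro x
    have h1 : ptc x = Submodule.Quotient.mk (((push (ContinuousMap.const Unit x) 0).restrict
        (push_mem_Cyc (ContinuousMap.const Unit x) 0))
        ⟨Finsupp.single (ContinuousMap.const _ ()) 1, by exact Submodule.mem_top⟩) := rfl
    rw [h1]
    change augC X (push (ContinuousMap.const Unit x) 0
      (Finsupp.single (ContinuousMap.const _ ()) 1)) = 1
    rw [push, Finsupp.lmapDomain_apply, Finsupp.mapDomain_single, augC_single]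

end Pool.Agent.Helper534.LS
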