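import Pool.Agent.Helper534.LS.Defs

open MeasureTheory

namespace Pool.Agent.Helper534.LS



theorem hh_empty {X : Type} [TopologicalSpace X] [IsEmpty X] (n : ℕ) (x : HH X n) : x = 0 := by
  classical
  haveI : IsEmpty (Sing X n) := by
    refine ⟨fun σ => ?_⟩
    exact IsEmpty.false (σ ⟨Pi.single 0 1, single_mem_stdSimplex ℝ 0⟩)
  haveI : Subsingleton (Sing X n →₀ ℤ) := by infer_instance
  obtain ⟨y, rfl⟩ := Submodule.Quotient.mk_surjective _ x
  have hy : y = 0 := Subsingleton.elim _ _
  rw [hy, Submodule.Quotient.mk_zero]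

end Pool.Agent.Helper534.LS
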