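import Pool.Agent.Helper534.LS.Defs
import Pool.Agent.Helper534.LS.P_raw_inj
import Pool.Agent.Helper534.LS.P_hh_empty

open MeasureTheory

namespace Pool.Agent.Helper534.LS

variable {X : Type} [TopologicalSpace X] {Y : Type} [TopologicalSpace Y]



section hu22274

open Classical in
/-- restriction of a chain to the simplices inside `A` -/
noncomputable def huR (A : Set X) (n : ℕ) : (Sing X n →₀ ℤ) →ₗ[ℤ] (Sing A n →₀ ℤ) :=
  Finsupp.linearCombination ℤ (fun σ : Sing X n =>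
    if h : ∀ t, σ t ∈ A then Finsupp.single (⟨fun t => ⟨σ t, h t⟩, by fun_prop⟩ : Sing A n) (1 : ℤ)
    else 0)

theorem huR_pos (A : Set X) (n : ℕ) (σ : Sing X n) (h : ∀ t, σ t ∈ A) :
    huR A n (Finsupp.single σ 1) =
      Finsupp.single (⟨fun t => ⟨σ t, h t⟩, by fun_prop⟩ : Sing A n) (1 : ℤ) := by
  unfold huR
  rw [Finsupp.linearCombination_single, one_smul, dif_pos h]

theorem huR_neg (A : Set X) (n : ℕ) (σ : Sing X n) (h : ¬ ∀ t, σ t ∈ A) :
    huR A n (Finsupp.single σ 1) = 0 := by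
  unfold huR
  rw [Finsupp.linearCombination_single, one_smul, dif_neg h]

theorem hu_ne (n : ℕ) : Nonempty (stdSimplex ℝ (Fin (n + 1))) :=
  ⟨⟨_, single_mem_stdSimplex ℝ (0 : Fin (n + 1))⟩⟩

theorem hu_conn (n : ℕ) : PreconnectedSpace (stdSimplex ℝ (Fin (n + 1))) :=
  Subtype.preconnectedSpace (convex_stdSimplex ℝ (Fin (n + 1))).isPreconnected

theorem hu_dich (A B : Set X) (hA : IsOpen A) (hB : IsOpen B)
    (hAB : ∀ x, x ∈ A ∨ x ∈ B) (hd : ∀ x, ¬ (x ∈ A ∧ x ∈ B)) (n : ℕ) (σ : Sing X n) :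
    (∀ t, σ t ∈ A) ∨ (∀ t, σ t ∈ B) := by
  have := hu_conn n
  have hc : IsClopen {t | σ t ∈ A} := by
    constructor
    · have : {t | σ t ∈ A}ᶜ = {t | σ t ∈ B} := by
        ext t
        constructor
        · intro h
          exact (hAB (σ t)).resolve_left h
        · intro h h'
          exact hd _ ⟨h', h⟩
      rw [← isOpen_compl_iff, this]
      exact hB.preimage σ.continuous
    · exact hA.preimage σ.continuous
  rcases isClopen_iff.1 hc with h | h
  · right
    intro t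
    rcases hAB (σ t) with h1 | h1
    · exact absurd (show t ∈ {t | σ t ∈ A} from h1) (by rw [h]; exact Set.notMem_empty t)
    · exact h1
  · left
    intro t
    have : t ∈ {t | σ t ∈ A} := by
      rw [h]
      trivial
    exact this

theorem hu_bdry_single (Y : Type) [TopologicalSpace Y] (n : ℕ) (σ : Sing Y (n + 1)) :
    bdry Y n (Finsupp.single σ 1) =
      ∑ i : Fin (n + 2), ((-1 : ℤ) ^ (i : ℕ)) • Finsupp.single (sface n i σ) (1 : ℤ) := by
  simp only [bdry, LinearMap.sum_apply, LinearMap.smul_apply, Finsupp.lmapDomain_apply,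
    Finsupp.mapDomain_single]

theorem hu_bdry (A : Set X) (n : ℕ)
    (hK : ∀ σ : Sing X (n + 1), (∀ t, σ t ∈ A) ∨ (∀ t, σ t ∉ A)) (z : Sing X (n + 1) →₀ ℤ) :
    bdry A n (huR A (n + 1) z) = huR A n (bdry X n z) := by
  have : (bdry A n).comp (huR A (n + 1)) = (huR A n).comp (bdry X n) := by
    apply Finsupp.lhom_ext'
    intro σ
    apply LinearMap.ext_ring
    rw [LinearMap.comp_apply, LinearMap.comp_apply, LinearMap.comp_apply, LinearMap.comp_apply,
      Finsupp.lsingle_apply, hu_bdry_single, map_sum]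
    rcases hK σ with h | h
    · rw [huR_pos A (n + 1) σ h, hu_bdry_single]
      refine Finset.sum_congr rfl fun i _ => ?_
      rw [map_smul, huR_pos A n (sface n i σ) (fun t => h _)]
      rfl
    · obtain ⟨t0⟩ := hu_ne (n + 1)
      rw [huR_neg A (n + 1) σ (fun h' => h t0 (h' t0)), map_zero]
      symm
      apply Finset.sum_eq_zero
      intro i _
      obtain ⟨t1⟩ := hu_ne n
      rw [map_smul, huR_neg A n (sface n i σ) (fun h' => h _ (h' t1)), smul_zero]
  exact LinearMap.congr_fun this z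

theorem hu_split (A B : Set X) (n : ℕ)
    (hK : ∀ σ : Sing X n, (∀ t, σ t ∈ A) ∨ (∀ t, σ t ∈ B))
    (hd : ∀ x, ¬ (x ∈ A ∧ x ∈ B)) (z : Sing X n →₀ ℤ) :
    push (sub A) n (huR A n z) + push (sub B) n (huR B n z) = z := by
  have : (push (sub A) n).comp (huR A n) + (push (sub B) n).comp (huR B n) = LinearMap.id := by
    apply Finsupp.lhom_ext'
    intro σ
    apply LinearMap.ext_ring
    rw [LinearMap.comp_apply, LinearMap.add_apply, LinearMap.comp_apply, LinearMap.comp_apply,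
      LinearMap.comp_apply, Finsupp.lsingle_apply]
    obtain ⟨t0⟩ := hu_ne n
    rcases hK σ with h | h
    · rw [huR_pos A n σ h, huR_neg B n σ (fun h' => hd _ ⟨h t0, h' t0⟩), map_zero, add_zero]
      unfold push
      rw [Finsupp.lmapDomain_apply, Finsupp.mapDomain_single]
      rfl
    · rw [huR_pos B n σ h, huR_neg A n σ (fun h' => hd _ ⟨h' t0, h t0⟩), map_zero, zero_add]
      unfold push
      rw [Finsupp.lmapDomain_apply, Finsupp.mapDomain_single]
      rfl
  exact LinearMap.congr_fun this z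

theorem hu_self (A : Set X) (n : ℕ) (u : Sing A n →₀ ℤ) :
    huR A n (push (sub A) n u) = u := by
  have : (huR A n).comp (push (sub A) n) = LinearMap.id := by
    apply Finsupp.lhom_ext'
    intro σ
    apply LinearMap.ext_ring
    rw [LinearMap.comp_apply, LinearMap.comp_apply, LinearMap.comp_apply,
      Finsupp.lsingle_apply]
    unfold push
    rw [Finsupp.lmapDomain_apply, Finsupp.mapDomain_single,
      huR_pos A n ((sub A).comp σ) (fun t => (σ t).2)]
    rfl
  exact LinearMap.congr_fun this u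

theorem hu_other (A B : Set X) (n : ℕ) (hd : ∀ x, ¬ (x ∈ A ∧ x ∈ B)) (v : Sing B n →₀ ℤ) :
    huR A n (push (sub B) n v) = 0 := by
  have : (huR A n).comp (push (sub B) n) = 0 := by
    apply Finsupp.lhom_ext'
    intro σ
    apply LinearMap.ext_ring
    rw [LinearMap.comp_apply, LinearMap.comp_apply,
      Finsupp.lsingle_apply]
    unfold push
    obtain ⟨t0⟩ := hu_ne n
    rw [Finsupp.lmapDomain_apply, Finsupp.mapDomain_single,
      huR_neg A n ((sub B).comp σ) (fun h' => hd _ ⟨h' t0, (σ t0).2⟩)]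
    rfl
  exact LinearMap.congr_fun this v

theorem hu_cyc (A : Set X) (n : ℕ)
    (hK : ∀ (n : ℕ) (σ : Sing X n), (∀ t, σ t ∈ A) ∨ (∀ t, σ t ∉ A)) (z : Sing X n →₀ ℤ)
    (hz : z ∈ Cyc X n) : huR A n z ∈ Cyc A n := by
  cases n with
  | zero => exact Submodule.mem_top
  | succ n =>
    change bdry A n (huR A (n + 1) z) = 0
    have h : bdry X n z = 0 := hz
    rw [hu_bdry A n (hK _), h, map_zero]

theorem hu_inj (A B : Set X) (n : ℕ) (hd : ∀ x, ¬ (x ∈ A ∧ x ∈ B))
    (hK : ∀ (n : ℕ) (σ : Sing X n), (∀ t, σ t ∈ A) ∨ (∀ t, σ t ∉ A)) (u : Sing A n →₀ ℤ)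
    (v : Sing B n →₀ ℤ) (h : push (sub A) n u + push (sub B) n v ∈ Bdy X n) : u ∈ Bdy A n := by
  obtain ⟨w, hw⟩ := h
  refine ⟨huR A (n + 1) w, ?_⟩
  rw [hu_bdry A n (hK _), hw, map_add, hu_self, hu_other A B n hd, add_zero]

theorem hu_hmap {Y : Type} [TopologicalSpace Y] (f : C(X, Y)) (n : ℕ) (z : Sing X n →₀ ℤ)
    (hz : z ∈ Cyc X n) : hmap f n (cls z hz) = cls (push f n z) (push_mem_Cyc f n z hz) := rfl

theorem hu_cls_add {Y : Type} [TopologicalSpace Y] (n : ℕ) (z w : Sing Y n →₀ ℤ)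
    (hz : z ∈ Cyc Y n) (hw : w ∈ Cyc Y n) :
    cls z hz + cls w hw = cls (z + w) (add_mem hz hw) := rfl

theorem hu_cls_zero {Y : Type} [TopologicalSpace Y] (n : ℕ) (z : Sing Y n →₀ ℤ)
    (hz : z ∈ Cyc Y n) : cls z hz = 0 ↔ z ∈ Bdy Y n := by
  unfold cls
  rw [Submodule.Quotient.mk_eq_zero]
  exact Iff.rfl

end hu22274

theorem hh_union {X : Type} [TopologicalSpace X] (A B : Set X) (hA : IsOpen A) (hB : IsOpen B)
    (hAB : ∀ x, x ∈ A ∨ x ∈ B) (hd : ∀ x, ¬ (x ∈ A ∧ x ∈ B)) (n : ℕ) :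
    (∀ x : HH X n, ∃ (a : HH A n) (b : HH B n), x = hmap (sub A) n a + hmap (sub B) n b) ∧
    (∀ (a : HH A n) (b : HH B n), hmap (sub A) n a + hmap (sub B) n b = 0 → a = 0 ∧ b = 0) := by
  have hK := hu_dich A B hA hB hAB hd
  have hKA : ∀ (n : ℕ) (σ : Sing X n), (∀ t, σ t ∈ A) ∨ (∀ t, σ t ∉ A) := by
    intro n σ
    rcases hK n σ with h | h
    · exact Or.inl h
    · exact Or.inr fun t h' => hd _ ⟨h', h t⟩
  have hKB : ∀ (n : ℕ) (σ : Sing X n), (∀ t, σ t ∈ B) ∨ (∀ t, σ t ∉ B) := by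
    intro n σ
    rcases hK n σ with h | h
    · exact Or.inr fun t h' => hd _ ⟨h t, h'⟩
    · exact Or.inl h
  constructor
  · intro x
    obtain ⟨⟨z, hz⟩, rfl⟩ := Submodule.Quotient.mk_surjective _ x
    refine ⟨cls (huR A n z) (hu_cyc A n hKA z hz), cls (huR B n z) (hu_cyc B n hKB z hz), ?_⟩
    have e := hu_split A B n (hK n) hd z
    rw [hu_hmap, hu_hmap, hu_cls_add]
    show cls z hz = _
    unfold cls
    congr 1
    exact Subtype.ext e.symm
  · intro a b h
    obtain ⟨⟨u, hu⟩, rfl⟩ := Submodule.Quotient.mk_surjective _ a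
    obtain ⟨⟨v, hv⟩, rfl⟩ := Submodule.Quotient.mk_surjective _ b
    change hmap (sub A) n (cls u hu) + hmap (sub B) n (cls v hv) = 0 at h
    change cls u hu = 0 ∧ cls v hv = 0
    rw [hu_hmap, hu_hmap, hu_cls_add, hu_cls_zero] at h
    have h1 : push (sub A) n u + push (sub B) n v ∈ Bdy X n := h
    have h2 : push (sub B) n v + push (sub A) n u ∈ Bdy X n := by
      rw [add_comm]
      exact h1
    constructor
    · rw [hu_cls_zero]
      exact hu_inj A B n hd hKA u v h1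
    · rw [hu_cls_zero]
      exact hu_inj B A n (fun x hx => hd x ⟨hx.2, hx.1⟩) hKB v u h2

end Pool.Agent.Helper534.LS
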