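import Pool.Agent.Helper534.LS.Defs
import Pool.Agent.Helper534.LS.P_hmap_comp
import Pool.Agent.Helper534.LS.P_hmap_id
import Pool.Agent.Helper534.LS.P_hh_union

open MeasureTheory

namespace Pool.Agent.Helper534.LS



theorem circ_int_inj (Q : Type) [TopologicalSpace Q] (n : ℕ) (a b : HH Q n)
    (h : hmap (kP Q) n a + hmap (kM Q) n b = 0) : a = 0 ∧ b = 0 := by
  obtain ⟨A, hA⟩ : ∃ A : Set ↥(cU Q ∩ cV Q), A = {w | 0 < ((w.1.1 : Circle) : ℂ).im} := ⟨_, rfl⟩
  obtain ⟨B, hB⟩ : ∃ B : Set ↥(cU Q ∩ cV Q), B = {w | ((w.1.1 : Circle) : ℂ).im < 0} := ⟨_, rfl⟩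
  have hcont : Continuous (fun w : ↥(cU Q ∩ cV Q) => ((w.1.1 : Circle) : ℂ).im) :=
    Complex.continuous_im.comp (continuous_subtype_val.comp
      (continuous_fst.comp continuous_subtype_val))
  have hAo : IsOpen A := by rw [hA]; exact isOpen_lt continuous_const hcont
  have hBo : IsOpen B := by rw [hB]; exact isOpen_lt hcont continuous_const
  have hAB : ∀ x, x ∈ A ∨ x ∈ B := by
    intro x
    rw [hA, hB]
    rcases lt_trichotomy 0 ((x.1.1 : Circle) : ℂ).im with h0 | h0 | h0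
    · exact Or.inl h0
    · exfalso
      have hz : ((x.1.1 : Circle) : ℂ).re * ((x.1.1 : Circle) : ℂ).re +
          ((x.1.1 : Circle) : ℂ).im * ((x.1.1 : Circle) : ℂ).im = 1 := by
        have := Circle.normSq_coe x.1.1
        rwa [Complex.normSq_apply] at this
      rw [← h0, mul_zero, add_zero] at hz
      rcases mul_self_eq_one_iff.1 hz with h1 | h1
      · exact x.2.1 (Complex.ext (by rw [h1, Complex.one_re]) (by rw [← h0, Complex.one_im]))
      · exact x.2.2 (Complex.ext (by rw [h1, Complex.neg_re, Complex.one_re])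
          (by rw [← h0, Complex.neg_im, Complex.one_im, neg_zero]))
    · exact Or.inr h0
  have hd : ∀ x, ¬ (x ∈ A ∧ x ∈ B) := by
    intro x hx
    rw [hA, hB] at hx
    have hx1 : 0 < ((x.1.1 : Circle) : ℂ).im := hx.1
    have hx2 : ((x.1.1 : Circle) : ℂ).im < 0 := hx.2
    exact lt_asymm hx1 hx2
  have hPA : ∀ q, kP Q q ∈ A := by
    intro q
    rw [hA]
    change 0 < ((cI : Circle) : ℂ).im
    change 0 < Complex.I.im
    rw [Complex.I_im]; norm_num
  have hMB : ∀ q, kM Q q ∈ B := by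
    intro q
    rw [hB]
    change ((cJ : Circle) : ℂ).im < 0
    change (-Complex.I).im < 0
    rw [Complex.neg_im, Complex.I_im]; norm_num
  obtain ⟨kA, hkA⟩ : ∃ kA : C(Q, A), ∀ q, (kA q : ↥(cU Q ∩ cV Q)) = kP Q q :=
    ⟨⟨fun q => ⟨kP Q q, hPA q⟩, (kP Q).continuous.subtype_mk _⟩, fun _ => rfl⟩
  obtain ⟨kB, hkB⟩ : ∃ kB : C(Q, B), ∀ q, (kB q : ↥(cU Q ∩ cV Q)) = kM Q q :=
    ⟨⟨fun q => ⟨kM Q q, hMB q⟩, (kM Q).continuous.subtype_mk _⟩, fun _ => rfl⟩
  have h1 : kP Q = (sub A).comp kA := by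
    ext q : 1
    exact (hkA q).symm
  have h2 : kM Q = (sub B).comp kB := by
    ext q : 1
    exact (hkB q).symm
  rw [h1, h2, hmap_comp, hmap_comp] at h
  obtain ⟨ha, hb⟩ := (hh_union A B hAo hBo hAB hd n).2 _ _ h
  obtain ⟨pA, hpA⟩ : ∃ pA : C(A, Q), ∀ w : A, pA w = w.1.1.2 :=
    ⟨⟨fun w => w.1.1.2, continuous_snd.comp (continuous_subtype_val.comp
      continuous_subtype_val)⟩, fun _ => rfl⟩
  obtain ⟨pB, hpB⟩ : ∃ pB : C(B, Q), ∀ w : B, pB w = w.1.1.2 :=
    ⟨⟨fun w => w.1.1.2, continuous_snd.comp (continuous_subtype_val.comp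
      continuous_subtype_val)⟩, fun _ => rfl⟩
  have hidA : pA.comp kA = ContinuousMap.id Q := by
    ext q
    rw [ContinuousMap.comp_apply, hpA, hkA]
    rfl
  have hidB : pB.comp kB = ContinuousMap.id Q := by
    ext q
    rw [ContinuousMap.comp_apply, hpB, hkB]
    rfl
  constructor
  · have h3 := hmap_comp kA pA n a
    rw [hidA, hmap_id, ha, map_zero] at h3
    exact h3
  · have h3 := hmap_comp kB pB n b
    rw [hidB, hmap_id, hb, map_zero] at h3
    exact h3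

end Pool.Agent.Helper534.LS
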