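import Pool.Agent.Helper534.LS.Defs
import Pool.Agent.Helper534.LS.P_circ_int_inj
import Pool.Agent.Helper534.LS.P_sig_spec

open MeasureTheory

namespace Pool.Agent.Helper534.LS



theorem sig_inj (Q : Type) [TopologicalSpace Q] (n : ℕ) (z : HH Q n) (h : sig Q n z = 0) :
    z = 0 := by
  have h1 := (sig_spec Q n z).2
  rw [h, map_zero] at h1
  refine (circ_int_inj Q n z (-z) ?_).1
  rw [map_neg, ← sub_eq_add_neg]
  exact h1.symm

end Pool.Agent.Helper534.LS
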