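import Pool.Agent.Helper534.LS.Defs
import Pool.Agent.Helper534.LS.P_hmap_id
import Pool.Agent.Helper534.LS.P_aug_exists
import Pool.Agent.Helper534.LS.P_sig_inj

open MeasureTheory

namespace Pool.Agent.Helper534.LS



theorem tor_free (m : ℤ) : (m • tor2 = 0 → m = 0) ∧ (m • tor4 = 0 → m = 0) := by
  
  obtain ⟨a, ha⟩ := aug_exists Unit
  have hpt : ptc () = ptU := by
    unfold ptc
    have h1 : (ContinuousMap.const Unit () : C(Unit, Unit)) = ContinuousMap.id Unit := by
      ext
    rw [h1, hmap_id]
  have h0 : m • ptU = 0 → m = 0 := by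
    intro h
    have h2 := congrArg a h
    rw [map_smul, map_zero, ← hpt, ha, smul_eq_mul, mul_one] at h2
    exact h2
  have h1 : m • tor1 = 0 → m = 0 := by
    intro h
    apply h0
    apply sig_inj Unit 0
    rw [map_smul]
    exact h
  have h2 : m • tor2 = 0 → m = 0 := by
    intro h
    apply h1
    apply sig_inj T1 1
    rw [map_smul]
    exact h
  have h3 : m • tor3 = 0 → m = 0 := by
    intro h
    apply h2
    apply sig_inj T2 2
    rw [map_smul]
    exact h
  refine ⟨h2, fun h => h3 ?_⟩
  apply sig_inj T3 3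
  rw [map_smul]
  exact h

end Pool.Agent.Helper534.LS
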