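import Pool.Agent.Helper534.LS.Defs

open MeasureTheory

namespace Pool.Agent.Helper534.LS



theorem hh_unit0 (z : HH Unit 0) : ∃ m : ℤ, z = m • ptU := by
  obtain ⟨⟨c, hc⟩, rfl⟩ := Submodule.Quotient.mk_surjective _ z
  have hs : ∀ σ : Sing Unit 0, σ = ContinuousMap.const _ () := fun σ =>
    ContinuousMap.ext fun x => Subsingleton.elim _ _
  refine ⟨c (ContinuousMap.const _ ()), ?_⟩
  have h : c = c (ContinuousMap.const _ ()) • Finsupp.single (ContinuousMap.const _ ()) 1 := by
    refine Finsupp.ext fun σ => ?_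
    rw [hs σ]
    simp
  unfold ptU cls
  rw [← Submodule.Quotient.mk_smul]
  congr 1
  exact Subtype.ext h

end Pool.Agent.Helper534.LS
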