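import Pool.Agent.Helper534.LS.Defs
import Pool.Agent.Helper534.LS.P_hmap_comp
import Pool.Agent.Helper534.LS.P_hmap_id
import Pool.Agent.Helper534.LS.P_hmap_homotopic
import Pool.Agent.Helper534.LS.P_hh_union

open MeasureTheory

namespace Pool.Agent.Helper534.LS



theorem circ_int_deform (Q : Type) [TopologicalSpace Q] (e : ℝ) (he : e * e = 1)
    (k : C(Q, ↥(cU Q ∩ cV Q))) (hk1 : ∀ q, ((k q).1.1 : ℂ) = (e : ℂ) * Complex.I)
    (hk2 : ∀ q, (k q).1.2 = q) (A : Set ↥(cU Q ∩ cV Q))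
    (hA : ∀ x ∈ A, 0 < e * ((x.1.1 : Circle) : ℂ).im) :
    ∃ r : C(A, Q), (sub A).Homotopic (k.comp r) := by
  refine ⟨⟨fun x => x.1.1.2, by fun_prop⟩, ?_⟩
  let w : unitInterval × A → ℂ := fun p =>
    ((1 - (p.1 : ℝ) : ℝ) : ℂ) * ((p.2.1.1.1 : Circle) : ℂ) + ((p.1 : ℝ) : ℂ) * ((e : ℂ) * Complex.I)
  have hw : Continuous w := by
    have h1 : Continuous fun p : unitInterval × A => ((p.2.1.1.1 : Circle) : ℂ) :=
      continuous_subtype_val.comp (by fun_prop)
    have h2 : Continuous fun p : unitInterval × A => ((p.1 : ℝ) : ℂ) := by fun_prop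
    have h3 : Continuous fun p : unitInterval × A => ((1 - (p.1 : ℝ) : ℝ) : ℂ) := by fun_prop
    exact (h3.mul h1).add (h2.mul continuous_const)
  have hwim : ∀ p, 0 < e * (w p).im := by
    intro p
    have h1 := hA p.2.1 p.2.2
    have h2 : (w p).im = (1 - (p.1 : ℝ)) * ((p.2.1.1.1 : Circle) : ℂ).im + (p.1 : ℝ) * e := by
      simp [w]
    rw [h2]
    have h3 : (0:ℝ) ≤ (p.1 : ℝ) := p.1.2.1
    have h4 : (p.1 : ℝ) ≤ 1 := p.1.2.2
    have h5 : e * ((1 - (p.1 : ℝ)) * ((p.2.1.1.1 : Circle) : ℂ).im + (p.1 : ℝ) * e)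
        = (1 - (p.1 : ℝ)) * (e * ((p.2.1.1.1 : Circle) : ℂ).im) + (p.1 : ℝ) * (e * e) := by ring
    rw [h5, he]
    rcases h4.lt_or_eq with h6 | h6
    · have : 0 < (1 - (p.1 : ℝ)) * (e * ((p.2.1.1.1 : Circle) : ℂ).im) :=
        mul_pos (by linarith) h1
      linarith
    · rw [h6]; norm_num
  have hw0 : ∀ p, w p ≠ 0 := by
    intro p h
    have := hwim p
    rw [h] at this
    simp at this
  have hwn : ∀ p, 0 < ‖w p‖ := fun p => norm_pos_iff.mpr (hw0 p)
  have hmem : ∀ p, w p / (‖w p‖ : ℂ) ∈ Submonoid.unitSphere ℂ := by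
    intro p
    refine mem_sphere_zero_iff_norm.mpr ?_
    rw [norm_div, Complex.norm_real, norm_norm, div_self (hwn p).ne']
  let c : unitInterval × A → Circle := fun p => ⟨w p / (‖w p‖ : ℂ), hmem p⟩
  have hc : Continuous c := by
    refine Continuous.subtype_mk ?_ _
    refine hw.div (Complex.continuous_ofReal.comp hw.norm) fun p => ?_
    exact_mod_cast (hwn p).ne'
  have hcim : ∀ p, 0 < e * ((c p : Circle) : ℂ).im := by
    intro p
    have h1 : ((c p : Circle) : ℂ).im = (w p).im / ‖w p‖ := by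
      show (w p / (‖w p‖ : ℂ)).im = _
      rw [Complex.div_ofReal_im]
    rw [h1, ← mul_div_assoc]
    exact div_pos (hwim p) (hwn p)
  have hcX : ∀ p : unitInterval × A, ((c p, p.2.1.1.2) : Circle × Q) ∈ cU Q ∩ cV Q := by
    intro p
    have h1 := hcim p
    constructor
    · intro h
      have h2 : ((c p : Circle) : ℂ) = 1 := h
      rw [h2] at h1
      simp at h1
    · intro h
      have h2 : ((c p : Circle) : ℂ) = -1 := h
      rw [h2] at h1
      simp at h1
  refine ⟨⟨⟨fun p => ⟨(c p, p.2.1.1.2), hcX p⟩, ?_⟩, ?_, ?_⟩⟩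
  · refine Continuous.subtype_mk (hc.prodMk ?_) _
    fun_prop
  · intro x
    apply Subtype.ext
    refine Prod.ext ?_ rfl
    apply Circle.ext
    show w (0, x) / (‖w (0, x)‖ : ℂ) = _
    have h1 : w (0, x) = ((x.1.1.1 : Circle) : ℂ) := by
      simp [w]
    rw [h1, Circle.norm_coe]
    simp [sub]
  · intro x
    apply Subtype.ext
    refine Prod.ext ?_ ?_
    · apply Circle.ext
      show w (1, x) / (‖w (1, x)‖ : ℂ) = _
      have h1 : w (1, x) = (e : ℂ) * Complex.I := by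
        simp [w]
      have h2 : ‖(e : ℂ) * Complex.I‖ = 1 := by
        rw [norm_mul, Complex.norm_I, mul_one, Complex.norm_real, Real.norm_eq_abs]
        have : |e| * |e| = 1 := by rw [← abs_mul, he, abs_one]
        nlinarith [abs_nonneg e]
      rw [h1, h2]
      have h3 := hk1 (x.1.1.2)
      simp only [Complex.ofReal_one, div_one]
      exact h3.symm
    · exact (hk2 _).symm

theorem circ_int (Q : Type) [TopologicalSpace Q] (n : ℕ) (d : HH ↥(cU Q ∩ cV Q) n) :
    ∃ a b : HH Q n, d = hmap (kP Q) n a + hmap (kM Q) n b := by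
  let A : Set ↥(cU Q ∩ cV Q) := {x | 0 < ((x.1.1 : Circle) : ℂ).im}
  let B : Set ↥(cU Q ∩ cV Q) := {x | ((x.1.1 : Circle) : ℂ).im < 0}
  have hcont : Continuous fun x : ↥(cU Q ∩ cV Q) => ((x.1.1 : Circle) : ℂ).im :=
    Complex.continuous_im.comp (continuous_subtype_val.comp (by fun_prop))
  have hA : IsOpen A := isOpen_lt continuous_const hcont
  have hB : IsOpen B := isOpen_lt hcont continuous_const
  have hAB : ∀ x, x ∈ A ∨ x ∈ B := by
    intro x
    by_contra hcon
    rw [not_or] at hcon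
    have h1 : ¬ 0 < ((x.1.1 : Circle) : ℂ).im := hcon.1
    have h2 : ¬ ((x.1.1 : Circle) : ℂ).im < 0 := hcon.2
    have h3 : ((x.1.1 : Circle) : ℂ).im = 0 := le_antisymm (not_lt.mp h1) (not_lt.mp h2)
    have h4 := Circle.normSq_coe x.1.1
    rw [Complex.normSq_apply, h3, mul_zero, add_zero] at h4
    rcases mul_self_eq_one_iff.mp h4 with h5 | h5
    · exact x.2.1 (Complex.ext (by simpa using h5) (by simpa using h3))
    · exact x.2.2 (Complex.ext (by simpa using h5) (by simpa using h3))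
  have hd : ∀ x, ¬ (x ∈ A ∧ x ∈ B) := by
    rintro x ⟨h1, h2⟩
    have h1' : 0 < ((x.1.1 : Circle) : ℂ).im := h1
    have h2' : ((x.1.1 : Circle) : ℂ).im < 0 := h2
    linarith
  obtain ⟨a', b', hab⟩ := (hh_union A B hA hB hAB hd n).1 d
  obtain ⟨r, hr⟩ := circ_int_deform Q 1 (by norm_num) (kP Q) (fun q => by simp [kP, cI])
    (fun q => rfl) A (fun x hx => by
      have : 0 < ((x.1.1 : Circle) : ℂ).im := hx
      linarith)
  obtain ⟨r', hr'⟩ := circ_int_deform Q (-1) (by norm_num) (kM Q) (fun q => by simp [kM, cJ])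
    (fun q => rfl) B (fun x hx => by
      have : ((x.1.1 : Circle) : ℂ).im < 0 := hx
      linarith)
  refine ⟨hmap r n a', hmap r' n b', ?_⟩
  rw [hab, hmap_homotopic _ _ hr n, hmap_homotopic _ _ hr' n, hmap_comp, hmap_comp]

end Pool.Agent.Helper534.LS
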