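import Pool.Agent.Helper534.LS.Defs
import Pool.Agent.Helper534.LS.P_delta_spec

open MeasureTheory

namespace Pool.Agent.Helper534.LS



theorem mvd_zero {X Y : Type} [TopologicalSpace X] [TopologicalSpace Y] (f : C(X, Y)) (n : ℕ)
    (c : Sing X n →₀ ℤ) (hc : c ∈ Cyc X n) (h : push f n c ∈ Bdy Y n) :
    hmap f n (cls c hc) = 0 := by
  have h1 : hmap f n (cls c hc) = cls (push f n c) (push_mem_Cyc f n c hc) := rfl
  rw [h1]
  exact (Submodule.Quotient.mk_eq_zero _).2 h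

theorem mv_delta_inl {X : Type} [TopologicalSpace X] (U V : Set X) (hU : IsOpen U) (hV : IsOpen V)
    (hUV : ∀ x, x ∈ U ∨ x ∈ V) (n : ℕ) (x : HH X (n + 1)) :
    hmap (inl U V) n (delta U V n x) = 0 ∧ hmap (inr U V) n (delta U V n x) = 0 := by
  obtain ⟨u, v, c, hc, hz, hu, hv, -, hd⟩ := delta_spec U V hU hV hUV n x
  rw [hd]
  refine ⟨mvd_zero _ n c hc ⟨u, hu⟩, mvd_zero _ n c hc ⟨-v, ?_⟩⟩
  rw [map_neg, hv, neg_neg]

end Pool.Agent.Helper534.LS
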