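import Pool.Agent.Helper534.LS.Defs
import Pool.Agent.Helper534.LS.P_hmap_comp
import Pool.Agent.Helper534.LS.P_hmap_id
import Pool.Agent.Helper534.LS.P_mv_delta_inl
import Pool.Agent.Helper534.LS.P_circ_cov
import Pool.Agent.Helper534.LS.P_circ_int
import Pool.Agent.Helper534.LS.P_circ_ker
import Pool.Agent.Helper534.LS.P_sig_spec
import Pool.Agent.Helper534.LS.P_sig_inj

open MeasureTheory

namespace Pool.Agent.Helper534.LS



theorem par_spec_aux (Q : Type) [TopologicalSpace Q] (n : ℕ) (c : HH (Circle × Q) (n + 1)) :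
    ∃ z : HH Q n, c = hmap (iota Q) (n + 1) (hmap (prQ Q) (n + 1) c) + sig Q n z := by
  obtain ⟨hU, hV, hUV⟩ := circ_cov Q
  obtain ⟨a, b, hab⟩ := circ_int Q n (delta (cU Q) (cV Q) n c)
  have h0 := (mv_delta_inl (cU Q) (cV Q) hU hV hUV n c).1
  let p : C(↥(cU Q), Q) := ⟨fun x => x.1.2, by fun_prop⟩
  have h1 : hmap p n (hmap (inl (cU Q) (cV Q)) n (delta (cU Q) (cV Q) n c)) = a + b := by
    rw [hab, map_add, map_add]
    congr 1
    · rw [← hmap_comp, ← hmap_comp]
      exact hmap_id n a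
    · rw [← hmap_comp, ← hmap_comp]
      exact hmap_id n b
  rw [h0, map_zero] at h1
  have hb : b = -a := by
    rw [eq_neg_iff_add_eq_zero, add_comm]
    exact h1.symm
  have h2 : delta (cU Q) (cV Q) n (c - sig Q n a) = 0 := by
    rw [map_sub, (sig_spec Q n a).2, hab, hb, map_neg]
    abel
  have h3 := circ_ker Q n _ h2
  rw [map_sub (hmap (prQ Q) (n + 1)), (sig_spec Q n a).1, sub_zero] at h3
  refine ⟨a, ?_⟩
  rw [← h3]
  abel

theorem par_spec (Q : Type) [TopologicalSpace Q] (n : ℕ) (c : HH (Circle × Q) (n + 1)) :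
    c = hmap (iota Q) (n + 1) (hmap (prQ Q) (n + 1) c) + sig Q n (par Q n c) := by
  have hex : ∃ f : HH (Circle × Q) (n + 1) →ₗ[ℤ] HH Q n, ∀ c,
      c = hmap (iota Q) (n + 1) (hmap (prQ Q) (n + 1) c) + sig Q n (f c) := by
    choose F hF using par_spec_aux Q n
    have hinj : ∀ x y : HH Q n, sig Q n x = sig Q n y → x = y := by
      intro x y hxy
      have h1 : sig Q n (x - y) = 0 := by rw [map_sub, hxy, sub_self]
      exact sub_eq_zero.1 (sig_inj Q n _ h1)
    have hsig : ∀ x : HH (Circle × Q) (n + 1), sig Q n (F x) =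
        x - hmap (iota Q) (n + 1) (hmap (prQ Q) (n + 1) x) :=
      fun x => (sub_eq_of_eq_add' (hF x)).symm
    refine ⟨⟨⟨F, ?_⟩, ?_⟩, hF⟩
    · intro x y
      apply hinj
      rw [map_add (sig Q n), hsig, hsig, hsig, map_add, map_add]
      abel
    · intro m x
      apply hinj
      change sig Q n (F (m • x)) = sig Q n (m • F x)
      rw [map_smul (sig Q n), hsig, hsig, map_smul, map_smul, smul_sub]
  unfold par
  rw [dif_pos hex]
  exact hex.choose_spec c

end Pool.Agent.Helper534.LS
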