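import Pool.Agent.Helper534.LS.Defs
import Pool.Agent.Helper534.LS.P_hh_contr
import Pool.Agent.Helper534.LS.P_par_spec

open MeasureTheory

namespace Pool.Agent.Helper534.LS



theorem tor_vanish (n : ℕ) : (∀ x : HH Unit (n + 1), x = 0) ∧ (∀ x : HH T1 (n + 2), x = 0) ∧
    (∀ x : HH T2 (n + 3), x = 0) ∧ (∀ x : HH T3 (n + 4), x = 0) := by
  
  have step : ∀ (Q : Type) [TopologicalSpace Q] (m : ℕ), (∀ x : HH Q (m + 1), x = 0) → (∀ x : HH Q m, x = 0) →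
      ∀ x : HH (Circle × Q) (m + 1), x = 0 := by
    intro Q _ m h1 h2 x
    rw [par_spec Q m x, h1 (hmap (prQ Q) (m + 1) x), h2 (par Q m x), map_zero, map_zero, add_zero]
  have t0 : ∀ m, ∀ x : HH Unit (m + 1), x = 0 := fun m x => hh_contr m x
  have t1 : ∀ m, ∀ x : HH T1 (m + 2), x = 0 := fun m => step Unit (m + 1) (t0 (m + 1)) (t0 m)
  have t2 : ∀ m, ∀ x : HH T2 (m + 3), x = 0 := fun m => step T1 (m + 2) (t1 (m + 1)) (t1 m)
  have t3 : ∀ m, ∀ x : HH T3 (m + 4), x = 0 := fun m => step T2 (m + 3) (t2 (m + 1)) (t2 m)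
  exact ⟨t0 n, t1 n, t2 n, t3 n⟩

end Pool.Agent.Helper534.LS
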