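import Pool.Agent.Helper534.LS.Defs
import Pool.Agent.Helper534.LS.P_hh_unit0
import Pool.Agent.Helper534.LS.P_par_spec
import Pool.Agent.Helper534.LS.P_tor_vanish

open MeasureTheory

namespace Pool.Agent.Helper534.LS



theorem tor_gen_step (Q : Type) [TopologicalSpace Q] (n : ℕ) (g : HH Q n)
    (hg : ∀ y : HH Q n, ∃ m : ℤ, y = m • g) (h0 : ∀ y : HH Q (n + 1), y = 0)
    (x : HH (Circle × Q) (n + 1)) : ∃ m : ℤ, x = m • sig Q n g := by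
  obtain ⟨m, hm⟩ := hg (par Q n x)
  refine ⟨m, ?_⟩
  have h := par_spec Q n x
  rw [h0 (hmap (prQ Q) (n + 1) x), map_zero, zero_add, hm, map_smul] at h
  exact h

theorem tor_gen : (∀ x : HH T1 1, ∃ m : ℤ, x = m • tor1) ∧ (∀ x : HH T2 2, ∃ m : ℤ, x = m • tor2) ∧
    (∀ x : HH T3 3, ∃ m : ℤ, x = m • tor3) ∧ (∀ x : HH T4 4, ∃ m : ℤ, x = m • tor4) := by
  obtain ⟨v0, v1, v2, _⟩ := tor_vanish 0
  have t1 : ∀ x : HH T1 1, ∃ m : ℤ, x = m • tor1 :=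
    tor_gen_step Unit 0 ptU hh_unit0 v0
  have t2 : ∀ x : HH T2 2, ∃ m : ℤ, x = m • tor2 :=
    tor_gen_step T1 1 tor1 t1 v1
  have t3 : ∀ x : HH T3 3, ∃ m : ℤ, x = m • tor3 :=
    tor_gen_step T2 2 tor2 t2 v2
  have t4 : ∀ x : HH T4 4, ∃ m : ℤ, x = m • tor4 :=
    tor_gen_step T3 3 tor3 t3 (tor_vanish 0).2.2.2
  exact ⟨t1, t2, t3, t4⟩

end Pool.Agent.Helper534.LS
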