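import Pool.Agent.Helper534.LS.Defs
import Pool.Agent.Helper534.LS.P_sig_add

open MeasureTheory

namespace Pool.Agent.Helper534.LS



theorem sig_sq {Q Z : Type} [TopologicalSpace Q] [TopologicalSpace Z] (F G : C(Circle × Q, Z))
    (hG : ∀ p, G p = F (p.1 ^ 2, p.2)) (n : ℕ) (z : HH Q n) :
    hmap G (n + 1) (sig Q n z) = (2 : ℤ) • hmap F (n + 1) (sig Q n z) := by
  have h := sig_add (⟨fun p => F (p.1 * p.2.1, p.2.2), by fun_prop⟩ :
      C(Circle × (Circle × Q), Z)) G F F
    (fun p => by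
      rw [hG]
      show F (p.1 ^ 2, p.2) = F (p.1 * p.1, p.2)
      rw [pow_two])
    (fun p => by
      show F p = F (p.1 * 1, p.2)
      rw [mul_one])
    (fun p => by
      show F p = F (1 * p.1, p.2)
      rw [one_mul]) n z
  rw [h, two_smul]

end Pool.Agent.Helper534.LS
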