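import Mathlib

namespace Pool.Agent.Helper534.LS

/-! ## Integral singular homology -/

/-- Singular `n`-simplices of a space `X`: continuous maps from the standard `n`-simplex. -/
abbrev Sing (X : Type) [TopologicalSpace X] (n : ℕ) : Type :=
  C(stdSimplex ℝ (Fin (n + 1)), X)

/-- The `i`-th face of a singular `(n+1)`-simplex: precomposition with the affine inclusion of the
standard `n`-simplex as the face opposite to the `i`-th vertex. -/
noncomputable def sface {X : Type} [TopologicalSpace X] (n : ℕ) (i : Fin (n + 2))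
    (σ : Sing X (n + 1)) : Sing X n :=
  σ.comp ⟨stdSimplex.map i.succAbove, stdSimplex.continuous_map _⟩

/-- The boundary `∂ : C_{n+1}(X) → C_n(X)` of singular chains with integer coefficients,
`∂ σ = ∑ i, (-1)^i (i-th face of σ)`. -/
noncomputable def bdry (X : Type) [TopologicalSpace X] (n : ℕ) :
    (Sing X (n + 1) →₀ ℤ) →ₗ[ℤ] (Sing X n →₀ ℤ) :=
  ∑ i : Fin (n + 2), ((-1 : ℤ) ^ (i : ℕ)) • Finsupp.lmapDomain ℤ ℤ (sface n i)

/-- Singular cycles: all chains in degree `0`, the kernel of `∂` in positive degree. -/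
noncomputable def Cyc (X : Type) [TopologicalSpace X] : ∀ n : ℕ, Submodule ℤ (Sing X n →₀ ℤ)
  | 0 => ⊤
  | (n + 1) => LinearMap.ker (bdry X n)

/-- Singular boundaries: the range of `∂`. -/
noncomputable def Bdy (X : Type) [TopologicalSpace X] (n : ℕ) : Submodule ℤ (Sing X n →₀ ℤ) :=
  LinearMap.range (bdry X n)

/-- Integral singular homology `H_n(X; ℤ)`: cycles modulo boundaries. -/
abbrev HH (X : Type) [TopologicalSpace X] (n : ℕ) : Type :=
  Cyc X n ⧸ (Bdy X n).submoduleOf (Cyc X n)

variable {X : Type} [TopologicalSpace X] {Y : Type} [TopologicalSpace Y]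

/-- The chain map induced by a continuous map. -/
noncomputable def push (f : C(X, Y)) (n : ℕ) : (Sing X n →₀ ℤ) →ₗ[ℤ] (Sing Y n →₀ ℤ) :=
  Finsupp.lmapDomain ℤ ℤ (fun σ => f.comp σ)

theorem bdry_push (f : C(X, Y)) (n : ℕ) (z : Sing X (n + 1) →₀ ℤ) :
    bdry Y n (push f (n + 1) z) = push f n (bdry X n z) := by
  have : (bdry Y n).comp (push f (n + 1)) = (push f n).comp (bdry X n) := by
    apply Finsupp.lhom_ext'
    intro σ
    apply LinearMap.ext_ring
    simp only [LinearMap.comp_apply, Finsupp.lsingle_apply, bdry, push, LinearMap.sum_apply,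
      LinearMap.smul_apply, Finsupp.lmapDomain_apply, Finsupp.mapDomain_single, map_sum, map_smul]
    rfl
  exact LinearMap.congr_fun this z

theorem push_mem_Cyc (f : C(X, Y)) (n : ℕ) (z : Sing X n →₀ ℤ) (hz : z ∈ Cyc X n) :
    push f n z ∈ Cyc Y n := by
  cases n with
  | zero => exact Submodule.mem_top
  | succ n =>
    change bdry Y n (push f (n + 1) z) = 0
    have h : bdry X n z = 0 := hz
    rw [bdry_push, h, map_zero]

/-- The map on cycles induced by a continuous map. -/
noncomputable def cyMap (f : C(X, Y)) {n : ℕ} (z : Cyc X n) : Cyc Y n :=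
  ⟨push f n z, push_mem_Cyc f n z z.2⟩

/-- The homology class of a cycle. -/
noncomputable def hcls {n : ℕ} (z : Cyc X n) : HH X n := Submodule.Quotient.mk z

/-- The multiple `m x` of a homology class. -/
noncomputable def mult {n : ℕ} (m : ℕ) (x : HH X n) : HH X n := m • x

/-- the inclusion of a subspace -/
def sub (U : Set X) : C(U, X) := ⟨Subtype.val, continuous_subtype_val⟩

/-- `x` lies in the image of `H_n(U) → H_n(X)`: it is the class of the image of a cycle of `U`. -/
def FromSub (U : Set X) {n : ℕ} (x : HH X n) : Prop := ∃ z : Cyc U n, hcls (cyMap (sub U) z) = x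

/-- The minimax level of a homology class `x` of a space `X` for the function `l` on `X`: the
infimum of the `a ≥ 0` such that `x` comes from the homology of `{l ≤ a}`. -/
noncomputable def crit (l : X → ℝ) {n : ℕ} (x : HH X n) : ℝ :=
  sInf {a : ℝ | 0 ≤ a ∧ FromSub {γ | l γ ≤ a} x}

end Pool.Agent.Helper534.LS
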