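import Mathlib

open MeasureTheory

namespace Pool.Agent.Helper534.LS

/-- Euclidean three space -/
abbrev E3 : Type := EuclideanSpace ℝ (Fin 3)

/-- square integrable functions with values in three space -/
abbrev L2 : Type := Lp E3 2 (volume : Measure unitInterval)

/-- the absolutely continuous path with starting point `p` and velocity `v` -/
noncomputable def pth (p : E3) (v : L2) (t : unitInterval) : E3 := p + ∫ s in Set.Iic t, v s

/-- The space of `H¹` loops on the unit sphere of three space: the starting point and the velocity
of the loop. -/
def Loop : Type := {x : E3 × L2 // (∀ t, ‖pth x.1 x.2 t‖ = 1) ∧ pth x.1 x.2 1 = x.1}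

/-- The `H¹` topology. -/
noncomputable instance : TopologicalSpace Loop :=
  (inferInstance : TopologicalSpace
    {x : E3 × L2 // (∀ t, ‖pth x.1 x.2 t‖ = 1) ∧ pth x.1 x.2 1 = x.1})

/-- The length of a loop. -/
noncomputable def length (x : Loop) : ℝ := ∫ s, ‖(x.1.2 : unitInterval → E3) s‖

end Pool.Agent.Helper534.LS
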