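import Pool.Agent.Helper534.LS.Core
import Pool.Agent.Helper534.LS.CoreS2

open MeasureTheory

namespace Pool.Agent.Helper534.LS

variable {X : Type} [TopologicalSpace X] {Y : Type} [TopologicalSpace Y]

theorem push_mem_Bdy (f : C(X, Y)) (n : ℕ) (z : Sing X n →₀ ℤ) (hz : z ∈ Bdy X n) :
    push f n z ∈ Bdy Y n := by
  obtain ⟨w, rfl⟩ := hz
  exact ⟨push f (n + 1) w, bdry_push f n w⟩

/-- The map `H_n(X; ℤ) → H_n(Y; ℤ)` induced by a continuous map. -/
noncomputable def hmap (f : C(X, Y)) (n : ℕ) : HH X n →ₗ[ℤ] HH Y n :=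
  Submodule.mapQ _ _ ((push f n).restrict (push_mem_Cyc f n)) (by
    intro z hz
    exact push_mem_Bdy f n z.1 hz)

/-- The homology class of a cycle. -/
noncomputable def cls {n : ℕ} (z : Sing X n →₀ ℤ) (hz : z ∈ Cyc X n) : HH X n :=
  Submodule.Quotient.mk ⟨z, hz⟩

/-- the inclusion of the intersection in the first set -/
def inl (U V : Set X) : C(↥(U ∩ V), U) :=
  ⟨Set.inclusion Set.inter_subset_left, continuous_inclusion Set.inter_subset_left⟩

/-- the inclusion of the intersection in the second set -/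
def inr (U V : Set X) : C(↥(U ∩ V), V) :=
  ⟨Set.inclusion Set.inter_subset_right, continuous_inclusion Set.inter_subset_right⟩

/-- `d` is the image of `x` under the Mayer-Vietoris connecting map. -/
def Del (U V : Set X) (n : ℕ) (x : HH X (n + 1)) (d : HH ↥(U ∩ V) n) : Prop :=
  ∃ (u : Sing U (n + 1) →₀ ℤ) (v : Sing V (n + 1) →₀ ℤ) (c : Sing ↥(U ∩ V) n →₀ ℤ)
    (hc : c ∈ Cyc ↥(U ∩ V) n)
    (hz : push (sub U) (n + 1) u + push (sub V) (n + 1) v ∈ Cyc X (n + 1)),
    bdry U n u = push (inl U V) n c ∧ bdry V n v = - push (inr U V) n c ∧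
    x = cls _ hz ∧ d = cls c hc

open Classical in
/-- The Mayer-Vietoris connecting map (for open sets `U`, `V` covering `X`). -/
noncomputable def delta (U V : Set X) (n : ℕ) : HH X (n + 1) →ₗ[ℤ] HH ↥(U ∩ V) n :=
  if h : ∃ f : HH X (n + 1) →ₗ[ℤ] HH ↥(U ∩ V) n, ∀ x, Del U V n x (f x) then h.choose else 0

/-- The class of the point in `H_0` of the one point space. -/
noncomputable def ptU : HH Unit 0 :=
  cls (Finsupp.single (ContinuousMap.const _ ()) 1) (by exact Submodule.mem_top)

/-- The class of the point `x` in `H_0(X)`. -/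
noncomputable def ptc (x : X) : HH X 0 := hmap (ContinuousMap.const Unit x) 0 ptU

/-! ## Products with the circle -/

/-- first open set of the cover of `Circle × Q` -/
def cU (Q : Type) : Set (Circle × Q) := {p | (p.1 : ℂ) ≠ 1}
/-- second open set of the cover of `Circle × Q` -/
def cV (Q : Type) : Set (Circle × Q) := {p | (p.1 : ℂ) ≠ -1}

/-- the point `i` of the circle -/
noncomputable def cI : Circle := ⟨Complex.I, mem_sphere_zero_iff_norm.mpr (by simp)⟩
/-- the point `-i` of the circle -/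
noncomputable def cJ : Circle := ⟨-Complex.I, mem_sphere_zero_iff_norm.mpr (by simp)⟩

/-- `q ↦ (i, q)` -/
noncomputable def kP (Q : Type) [TopologicalSpace Q] : C(Q, ↥(cU Q ∩ cV Q)) :=
  ⟨fun q => ⟨(cI, q), by
    constructor
    · intro h
      have := congrArg Complex.im h
      simp [cI] at this
    · intro h
      have := congrArg Complex.im h
      simp [cI] at this⟩, by fun_prop⟩

/-- `q ↦ (-i, q)` -/
noncomputable def kM (Q : Type) [TopologicalSpace Q] : C(Q, ↥(cU Q ∩ cV Q)) :=
  ⟨fun q => ⟨(cJ, q), by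
    constructor
    · intro h
      have := congrArg Complex.im h
      simp [cJ] at this
    · intro h
      have := congrArg Complex.im h
      simp [cJ] at this⟩, by fun_prop⟩

/-- the projection `Circle × Q → Q` -/
def prQ (Q : Type) [TopologicalSpace Q] : C(Circle × Q, Q) := ⟨Prod.snd, continuous_snd⟩

/-- `q ↦ (1, q)` -/
noncomputable def iota (Q : Type) [TopologicalSpace Q] : C(Q, Circle × Q) :=
  ⟨fun q => (1, q), by fun_prop⟩

/-- `id × f` -/
noncomputable def idx {Q Q' : Type} [TopologicalSpace Q] [TopologicalSpace Q'] (f : C(Q, Q')) :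
    C(Circle × Q, Circle × Q') := ⟨fun p => (p.1, f p.2), by fun_prop⟩

open Classical in
/-- The cross product with the fundamental class of the circle. -/
noncomputable def sig (Q : Type) [TopologicalSpace Q] (n : ℕ) :
    HH Q n →ₗ[ℤ] HH (Circle × Q) (n + 1) :=
  if h : ∃ f : HH Q n →ₗ[ℤ] HH (Circle × Q) (n + 1), ∀ z, hmap (prQ Q) (n + 1) (f z) = 0 ∧
    delta (cU Q) (cV Q) n (f z) = hmap (kP Q) n z - hmap (kM Q) n z then h.choose else 0

open Classical in
/-- The other Kuenneth component of a class on `Circle × Q`. -/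
noncomputable def par (Q : Type) [TopologicalSpace Q] (n : ℕ) :
    HH (Circle × Q) (n + 1) →ₗ[ℤ] HH Q n :=
  if h : ∃ f : HH (Circle × Q) (n + 1) →ₗ[ℤ] HH Q n, ∀ c,
    c = hmap (iota Q) (n + 1) (hmap (prQ Q) (n + 1) c) + sig Q n (f c) then h.choose else 0

/-- tori -/
abbrev T1 : Type := Circle × Unit
/-- tori -/
abbrev T2 : Type := Circle × T1
/-- tori -/
abbrev T3 : Type := Circle × T2
/-- tori -/
abbrev T4 : Type := Circle × T3

/-- fundamental classes of the tori -/
noncomputable def tor1 : HH T1 1 := sig Unit 0 ptU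
/-- fundamental classes of the tori -/
noncomputable def tor2 : HH T2 2 := sig T1 1 tor1
/-- fundamental classes of the tori -/
noncomputable def tor3 : HH T3 3 := sig T2 2 tor2
/-- fundamental classes of the tori -/
noncomputable def tor4 : HH T4 4 := sig T3 3 tor3

/-! ## The sphere, rotations, arcs -/

/-- the unit sphere -/
abbrev S2 : Type := Metric.sphere (0 : E3) 1

/-- the scalar product of two points of the sphere -/
noncomputable def dt (x y : S2) : ℝ := inner ℝ (x : E3) (y : E3)

/-- the north pole -/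
noncomputable def nP : S2 := ⟨!₂[0, 0, 1], by simp [EuclideanSpace.norm_eq, Fin.sum_univ_three]⟩
/-- the south pole -/
noncomputable def sP : S2 := ⟨!₂[0, 0, -1], by simp [EuclideanSpace.norm_eq, Fin.sum_univ_three]⟩

/-- normalisation -/
noncomputable def toS2 (v : E3) : S2 :=
  if h : v = 0 then nP else ⟨‖v‖⁻¹ • v, by
    rw [mem_sphere_zero_iff_norm, norm_smul, norm_inv, norm_norm,
      inv_mul_cancel₀ (norm_ne_zero_iff.mpr h)]⟩

/-- the canonical arc of great circle from `x` (`τ = 0`) to `y` (`τ = 1`), `y ≠ -x`: the segment in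
the stereographic chart centred at `x` -/
noncomputable def arcE (x y : E3) (τ : ℝ) : E3 :=
  ((1 + inner ℝ x y) + τ ^ 2 * (1 - inner ℝ x y))⁻¹ •
    (((1 + inner ℝ x y) - τ ^ 2 * (1 - inner ℝ x y) - 2 * τ * inner ℝ x y) • x + (2 * τ) • y)

/-- the canonical arc as a point of the sphere -/
noncomputable def arcS (x y : S2) (τ : ℝ) : S2 := toS2 (arcE x y τ)

/-- the meridian of longitude `z` from the north pole (`t = 0`) to the south pole (`t = 1`) -/
noncomputable def mer (z : Circle) (t : ℝ) : S2 :=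
  ⟨!₂[Real.sin (Real.pi * t) * (z : ℂ).re, Real.sin (Real.pi * t) * (z : ℂ).im,
    Real.cos (Real.pi * t)], by
    have hz : (z : ℂ).re * (z : ℂ).re + (z : ℂ).im * (z : ℂ).im = 1 := by
      have := Circle.normSq_coe z
      rwa [Complex.normSq_apply] at this
    have h1 := Real.sin_sq_add_cos_sq (Real.pi * t)
    rw [mem_sphere_zero_iff_norm, EuclideanSpace.norm_eq, Real.sqrt_eq_one, Fin.sum_univ_three]
    simp only [Real.norm_eq_abs, sq_abs, Matrix.cons_val_zero, Matrix.cons_val_one,
      Matrix.cons_val]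
    nlinarith⟩

/-- rotation about the vertical axis -/
noncomputable def rotE (s : Circle) (v : E3) : E3 :=
  !₂[(s : ℂ).re * v 0 - (s : ℂ).im * v 1, (s : ℂ).im * v 0 + (s : ℂ).re * v 1, v 2]

/-- rotation about the vertical axis, on the sphere -/
noncomputable def rotS (s : Circle) (x : S2) : S2 := toS2 (rotE s x)

/-- the reflection in the equatorial plane, on the sphere -/
noncomputable def refS (x : S2) : S2 := toS2 !₂[(x : E3) 0, (x : E3) 1, -(x : E3) 2]

/-- the rotation taking `x` to the north pole along the great circle (`x` not the south pole) -/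
noncomputable def rinvE (x v : E3) : E3 :=
  v - ((inner ℝ ((nP : E3) + x) v) / (1 + x 2)) • ((nP : E3) + x) + (2 * inner ℝ x v) • (nP : E3)

/-- the same on the sphere -/
noncomputable def rinv (x y : S2) : S2 := toS2 (rinvE x y)

/-- the rotation taking `x` to the south pole (`x` not the north pole) followed by the rotation by
`π` about the second axis -/
noncomputable def rinvE' (x v : E3) : E3 :=
  let w := v - ((inner ℝ ((sP : E3) + x) v) / (1 - x 2)) • ((sP : E3) + x)
    + (2 * inner ℝ x v) • (sP : E3)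
  !₂[-(w 0), w 1, -(w 2)]

/-- the same on the sphere -/
noncomputable def rinv' (x y : S2) : S2 := toS2 (rinvE' x y)

/-- longitude of a point which is not a pole -/
noncomputable def lon (x : S2) : Circle :=
  if h : (⟨(x : E3) 0, (x : E3) 1⟩ : ℂ) = 0 then 1 else
    ⟨(⟨(x : E3) 0, (x : E3) 1⟩ : ℂ) / ‖(⟨(x : E3) 0, (x : E3) 1⟩ : ℂ)‖,
      mem_sphere_zero_iff_norm.mpr (by
        rw [norm_div, Complex.norm_real, norm_norm, div_self (norm_ne_zero_iff.mpr h)])⟩

/-! ## Continuous paths and loops on the sphere -/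

/-- paths starting at `x₀` -/
abbrev PS (x₀ : S2) : Type := {γ : C(unitInterval, S2) // γ 0 = x₀}
/-- paths from `x₀` to `e` -/
abbrev PE (x₀ e : S2) : Type := {γ : C(unitInterval, S2) // γ 0 = x₀ ∧ γ 1 = e}
/-- free loops -/
abbrev LL : Type := {γ : C(unitInterval, S2) // γ 0 = γ 1}
/-- loops based at the north pole -/
abbrev Om : Type := PE nP nP

/-- clamping to the unit interval -/
noncomputable def cl (t : ℝ) : unitInterval := Set.projIcc 0 1 zero_le_one t

/-- concatenation of paths (as functions) -/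
noncomputable def cat (γ δ : ℝ → S2) (t : ℝ) : S2 :=
  if t ≤ 1 / 2 then γ (2 * t) else δ (2 * t - 1)

/-- a path as a function on the reals -/
noncomputable def fn (γ : C(unitInterval, S2)) (t : ℝ) : S2 := γ (cl t)

/-- reversed meridian -/
noncomputable def merR (z : Circle) (t : ℝ) : S2 := mer z (1 - t)

/-- `k (z, ω)` is `ω` followed by the meridian of longitude `z` -/
def IsKN (x₀ : S2) (k : C(Circle × PE x₀ nP, PE x₀ sP)) : Prop :=
  ∀ p (t : unitInterval), (k p).1 t = cat (fn p.2.1) (mer p.1) t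
/-- `k (z, ω)` is `ω` followed by the reversed meridian of longitude `z` -/
def IsKS (x₀ : S2) (k : C(Circle × PE x₀ sP, PE x₀ nP)) : Prop :=
  ∀ p (t : unitInterval), (k p).1 t = cat (fn p.2.1) (merR p.1) t

/-- the inclusion of the based loops in the free loops -/
def iOm : C(Om, LL) := ⟨fun γ => ⟨γ.1, by rw [γ.2.1, γ.2.2]⟩, by fun_prop⟩

/-- the constant loops -/
def cst : C(S2, LL) := ⟨fun x => ⟨ContinuousMap.const _ x, rfl⟩,
  Continuous.subtype_mk (by exact ContinuousMap.continuous_const') _⟩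

/-- the constant path at the north pole -/
noncomputable def cN : Om := ⟨ContinuousMap.const _ nP, rfl, rfl⟩

/-! ## Spherical triangles -/

/-- triples of points of the sphere, no two consecutive ones antipodal -/
abbrev P3 : Type := {x : S2 × S2 × S2 // -1 < dt x.1 x.2.1 ∧ -1 < dt x.2.1 x.2.2 ∧
  -1 < dt x.2.2 x.1}
/-- triples with first point the north pole -/
abbrev Q3 : Type := {x : S2 × S2 // -1 < dt nP x.1 ∧ -1 < dt x.1 x.2 ∧ -1 < dt x.2 nP}

/-- the geodesic triangle through three points -/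
noncomputable def tri (x y z : S2) (t : ℝ) : S2 :=
  if t ≤ 1 / 3 then arcS x y (3 * t) else if t ≤ 2 / 3 then arcS y z (3 * t - 1)
    else arcS z x (3 * t - 2)

/-- `g x` is the geodesic triangle `x` -/
def IsG (g : C(P3, LL)) : Prop := ∀ x (t : unitInterval), (g x).1 t = tri x.1.1 x.1.2.1 x.1.2.2 t
/-- the based version -/
def IsGQ (g : C(Q3, Om)) : Prop := ∀ x (t : unitInterval), (g x).1 t = tri nP x.1.1 x.1.2 t

/-- point of longitude `z` on a parallel in the southern hemisphere -/
noncomputable def lat (z : Circle) : S2 := toS2 !₂[4 * (z : ℂ).re, 4 * (z : ℂ).im, -3]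

/-- the torus of triangles -/
def IsTQ (g : C(T2, Q3)) : Prop := ∀ p, (g p).1 = (lat p.2.1, lat (p.1⁻¹ * p.2.1))

/-! ## The `H¹` loop space -/

/-- the space of `H¹` loops on the unit sphere, with the `H¹` topology -/
abbrev HLoop : Type := {x : E3 × L2 // (∀ t, ‖pth x.1 x.2 t‖ = 1) ∧ pth x.1 x.2 1 = x.1}

/-- the length of a loop -/
noncomputable def len (x : HLoop) : ℝ := ∫ s, ‖(x.1.2 : unitInterval → E3) s‖

/-- the loops of length at most `a` -/
def sublevel (a : ℝ) : Set HLoop := {x | len x ≤ a}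

/-- the critical (minimax) level of a class -/
noncomputable def cr {n : ℕ} (X : HH HLoop n) : ℝ :=
  sInf {a : ℝ | 0 ≤ a ∧ X ∈ LinearMap.range (hmap (sub (sublevel a)) n)}

/-- the map from `H¹` loops to continuous loops -/
def IsJ (j : C(HLoop, LL)) : Prop := ∀ x t, (((j x).1 t : S2) : E3) = pth x.1.1 x.1.2 t

/-! ## Auxiliary sets and maps -/

/-- paths whose end point is not the south pole -/
def UN (x₀ : S2) : Set (PS x₀) := {γ | -1 < ((γ.1 1 : S2) : E3) 2}
/-- paths whose end point is not the north pole -/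
def VS (x₀ : S2) : Set (PS x₀) := {γ | ((γ.1 1 : S2) : E3) 2 < 1}

/-- inclusion -/
noncomputable def iU (x₀ : S2) : C(PE x₀ nP, UN x₀) :=
  ⟨fun γ => ⟨⟨γ.1, γ.2.1⟩, by
    change -1 < ((γ.1 1 : S2) : E3) 2
    rw [γ.2.2]
    simp [nP]⟩, by fun_prop⟩
/-- inclusion -/
noncomputable def iV (x₀ : S2) : C(PE x₀ sP, VS x₀) :=
  ⟨fun γ => ⟨⟨γ.1, γ.2.1⟩, by
    change ((γ.1 1 : S2) : E3) 2 < 1
    rw [γ.2.2]
    simp [sP]⟩, by fun_prop⟩

/-- point of the equator of longitude `z` -/
noncomputable def eqp (z : Circle) : S2 := mer z (1 / 2)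

/-- `a (z, ω)` is `ω` followed by the arc from the north pole to the point of longitude `z` on the
equator -/
def IsA (x₀ : S2) (a : C(Circle × PE x₀ nP, ↥(UN x₀ ∩ VS x₀))) : Prop :=
  ∀ p (t : unitInterval), (a p).1.1 t = cat (fn p.2.1) (arcS nP (eqp p.1)) t

/-- `b γ` is the longitude of the end point together with `γ` followed by the arc to the north
pole -/
def IsB (x₀ : S2) (b : C(↥(UN x₀ ∩ VS x₀), Circle × PE x₀ nP)) : Prop :=
  ∀ γ, (b γ).1 = lon (γ.1.1 1) ∧ ∀ t : unitInterval,
    (b γ).2.1 t = cat (fn γ.1.1) (fun τ => arcS nP (γ.1.1 1) (1 - τ)) t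

/-- down and up -/
noncomputable def m2f (z₁ z₂ : Circle) (t : ℝ) : S2 :=
  cat (cat (fun _ => nP) (mer z₁)) (merR z₂) t

/-- down, up, down, up -/
noncomputable def m4f (z₁ z₂ z₃ z₄ : Circle) (t : ℝ) : S2 :=
  cat (cat (cat (cat (fun _ => nP) (mer z₁)) (merR z₂)) (mer z₃)) (merR z₄) t

/-- the torus of loops consisting of two meridians -/
def IsM2 (m : C(T2, Om)) : Prop := ∀ p (t : unitInterval), (m p).1 t = m2f p.2.1 p.1 t

/-- the torus of loops consisting of four meridians -/
def IsM4 (m : C(T4, Om)) : Prop :=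
  ∀ p (t : unitInterval), (m p).1 t = m4f p.2.2.2.1 p.2.2.1 p.2.1 p.1 t

/-- free loops whose starting point is not the south pole -/
def LN : Set LL := {γ | -1 < ((γ.1 0 : S2) : E3) 2}
/-- free loops whose starting point is not the north pole -/
def LZ : Set LL := {γ | ((γ.1 0 : S2) : E3) 2 < 1}
/-- triangles whose first point is not the south pole -/
def PN : Set P3 := {x | -1 < ((x.1.1 : S2) : E3) 2}
/-- triangles whose first point is not the north pole -/
def PZ : Set P3 := {x | ((x.1.1 : S2) : E3) 2 < 1}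
/-- the sphere without the south pole -/
def SN : Set S2 := {x | -1 < (x : E3) 2}
/-- the sphere without the north pole -/
def SZ : Set S2 := {x | (x : E3) 2 < 1}

/-- rotating the starting point to the north pole -/
def IsAN (a : C(LN, Om)) : Prop := ∀ γ (t : unitInterval), (a γ).1 t = rinv (γ.1.1 0) (γ.1.1 t)
/-- the other trivialisation -/
def IsAZ (a : C(LZ, Om)) : Prop := ∀ γ (t : unitInterval), (a γ).1 t = rinv' (γ.1.1 0) (γ.1.1 t)
/-- the rotation action on based loops -/
def IsAct (c : C(Circle × Om, Om)) : Prop := ∀ p (t : unitInterval), (c p).1 t = rotS p.1 (p.2.1 t)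
/-- longitude of the starting point, and the loop rotated to the north pole -/
def IsBL (b : C(↥(LN ∩ LZ), Circle × Om)) : Prop := ∀ γ, (b γ).1 = lon (γ.1.1 0) ∧
  ∀ t : unitInterval, (b γ).2.1 t = rinv (γ.1.1 0) (γ.1.1 t)
/-- the same for triangles -/
def IsBP (b : C(↥(PN ∩ PZ), Circle × Q3)) : Prop := ∀ x, (b x).1 = lon x.1.1.1 ∧
  (b x).2.1 = (rinv x.1.1.1 x.1.1.2.1, rinv x.1.1.1 x.1.1.2.2)

/-- `Θ (α, z₃, z₂, z₁)` is the `H¹` loop made of four meridians of longitudes `z₁, z₂, z₃, 1`, rotated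
by `α` -/
def IsTheta (Θ : C(T4, HLoop)) : Prop := ∀ p (t : unitInterval),
  pth (Θ p).1.1 (Θ p).1.2 t = (rotS p.1 (m4f p.2.2.2.1 p.2.2.1 p.2.1 1 t) : S2)

/-- `g x` is the geodesic triangle `x` as an `H¹` loop -/
def IsG1 (g : C(P3, HLoop)) : Prop := ∀ x (t : unitInterval),
  pth (g x).1.1 (g x).1.2 t = (tri x.1.1 x.1.2.1 x.1.2.2 t : S2)

/-! ## More auxiliary objects -/

/-- an affine model of `Q3` -/
abbrev CC2 : Type := {p : ℂ × ℂ // p.1 * p.2 ≠ -1}
/-- first open set of the affine model -/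
def CV : Set CC2 := {p | -(1 + p.1.1 * p.1.2) ∈ Complex.slitPlane}
/-- second open set of the affine model -/
def CU : Set CC2 := {p | 1 + p.1.1 * p.1.2 ∈ Complex.slitPlane}

/-- the torus in the affine model -/
def IsTC (g : C(T2, CC2)) : Prop :=
  ∀ p, (g p).1 = ((2 : ℂ) * (p.2.1 : Circle), (2 : ℂ) * (p.1 * p.2.1⁻¹ : Circle))

/-- `z ↦ (2 z, 2 ε / z)` with `ε = i` or `-i` -/
def IsJe (ε : Circle) (g : C(Circle, ↥(CV ∩ CU))) : Prop :=
  ∀ z, (g z).1.1 = ((2 : ℂ) * (z : Circle), (2 : ℂ) * (ε * z⁻¹ : Circle))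

/-- the angular parameter of the parallel of the points `lat z` -/
noncomputable def th0 : ℝ := 2 * Real.arctan 2 / Real.pi

/-- down along the meridian `z₁` to the south pole, up along the meridian `z₂` -/
noncomputable def viaS (z₁ z₂ : Circle) (t : ℝ) : S2 :=
  if t ≤ 1 / 2 then
    mer z₁ (if t ≤ 1 / 3 then 2 * Real.arctan (2 * (3 * t)) / Real.pi
      else th0 + (1 - th0) * (6 * t - 2))
  else
    mer z₂ (if t ≤ 2 / 3 then 1 - (1 - th0) * (6 * t - 3)
      else th0 - 2 * Real.arctan (2 * (3 * t - 2)) / Real.pi)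

/-- the map used to compare the two tori -/
def IsA2 (A : C(T2, T2)) : Prop := ∀ p, A p = (p.1⁻¹ * p.2.1, (p.2.1, ()))

/-- the map used to compare the two four dimensional tori -/
def IsA4 (A : C(T4, T4)) : Prop :=
  ∀ p, A p = (p.1, (p.1 * p.2.1, (p.1 * p.2.2.1, (p.1 * p.2.2.2.1, ()))))

/-- the spherical invariant of a class on free loops -/
noncomputable def wL (b : C(↥(LN ∩ LZ), Circle × Om)) (x : HH LL 4) : HH Om 2 :=
  par Om 2 (hmap b 3 (delta LN LZ 3 x))

/-- the spherical invariant of a class on triangles -/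
noncomputable def wP (b : C(↥(PN ∩ PZ), Circle × Q3)) (x : HH P3 4) : HH Q3 2 :=
  par Q3 2 (hmap b 3 (delta PN PZ 3 x))

end Pool.Agent.Helper534.LS
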