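import Pool.Agent.Helper534.LS.Defs

open MeasureTheory

namespace Pool.Agent.Helper534.LS



theorem lon_cont_ne (x : S2) (h1 : -1 < (x : E3) 2) (h2 : (x : E3) 2 < 1) :
    (⟨(x : E3) 0, (x : E3) 1⟩ : ℂ) ≠ 0 := by
  intro h
  have h3 : (x : E3) 0 = 0 := congrArg Complex.re h
  have h4 : (x : E3) 1 = 0 := congrArg Complex.im h
  have h5 : ‖(x : E3)‖ = 1 := mem_sphere_zero_iff_norm.mp x.2
  rw [EuclideanSpace.norm_eq, Real.sqrt_eq_one, Fin.sum_univ_three, h3, h4] at h5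
  simp only [norm_zero, Real.norm_eq_abs, sq_abs] at h5
  nlinarith

theorem lon_cont : ContinuousOn lon {x | -1 < (x : E3) 2 ∧ (x : E3) 2 < 1} := by
  have hind : Topology.IsInducing (fun c : Circle => (c : ℂ)) := Topology.IsInducing.subtypeVal
  rw [hind.continuousOn_iff]
  have hz : Continuous (fun x : S2 => (⟨(x : E3) 0, (x : E3) 1⟩ : ℂ)) := by
    have e : (fun x : S2 => (⟨(x : E3) 0, (x : E3) 1⟩ : ℂ)) =
        fun x : S2 => (((x : E3) 0 : ℝ) : ℂ) + (((x : E3) 1 : ℝ) : ℂ) * Complex.I := by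
      funext x
      exact Complex.mk_eq_add_mul_I _ _
    rw [e]
    fun_prop
  have hq : ContinuousOn (fun x : S2 => (⟨(x : E3) 0, (x : E3) 1⟩ : ℂ) /
      ((‖(⟨(x : E3) 0, (x : E3) 1⟩ : ℂ)‖ : ℝ) : ℂ)) {x | -1 < (x : E3) 2 ∧ (x : E3) 2 < 1} := by
    refine hz.continuousOn.div (Complex.continuous_ofReal.comp hz.norm).continuousOn ?_
    intro x hx
    have := lon_cont_ne x hx.1 hx.2
    exact Complex.ofReal_ne_zero.mpr (norm_ne_zero_iff.mpr this)
  refine hq.congr ?_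
  intro x hx
  have hne := lon_cont_ne x hx.1 hx.2
  show ((lon x : Circle) : ℂ) = _
  unfold lon
  rw [dif_neg hne]

end Pool.Agent.Helper534.LS
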