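import Pool.Agent.Helper534.LS.Defs

open MeasureTheory

namespace Pool.Agent.Helper534.LS



theorem toS2_val (v : E3) (h : ‖v‖ = 1) : ((toS2 v : S2) : E3) = v := by
  have hv : v ≠ 0 := by
    intro h0
    rw [h0, norm_zero] at h
    exact zero_ne_one h
  unfold toS2
  simp [hv, h]

end Pool.Agent.Helper534.LS
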