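import Pool.Agent.Helper534.LS.Defs
import Pool.Agent.Helper534.LS.P_toS2_val

open MeasureTheory

namespace Pool.Agent.Helper534.LS



theorem rinv_val_P (x : E3) : inner ℝ (nP : E3) x = x 2 := by
  simp [nP, PiLp.inner_apply, Fin.sum_univ_three]

theorem rinv_val_inner (x v w : E3) (hx1 : inner ℝ x x = (1 : ℝ)) (hx : -1 < x 2) :
    inner ℝ (rinvE x v) (rinvE x w) = (inner ℝ v w : ℝ) := by
  have h0 : (1 : ℝ) + x 2 ≠ 0 := by linarith
  have hP : (inner ℝ (nP : E3) x : ℝ) = x 2 := rinv_val_P x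
  have hP' : (inner ℝ x (nP : E3) : ℝ) = x 2 := by rw [real_inner_comm]; exact hP
  have hPP : (inner ℝ (nP : E3) (nP : E3) : ℝ) = 1 := by
    rw [rinv_val_P]; simp [nP]
  have c1 : (inner ℝ v (nP : E3) : ℝ) = inner ℝ (nP : E3) v := real_inner_comm _ _
  have c2 : (inner ℝ v x : ℝ) = inner ℝ x v := real_inner_comm _ _
  unfold rinvE
  simp only [inner_add_left, inner_sub_left, inner_add_right, inner_sub_right,
    real_inner_smul_left, real_inner_smul_right]
  rw [hP, hP', hPP, hx1, c1, c2]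
  generalize (inner ℝ (nP : E3) v : ℝ) = a
  generalize (inner ℝ (nP : E3) w : ℝ) = b
  generalize (inner ℝ x v : ℝ) = c
  generalize (inner ℝ x w : ℝ) = d
  generalize (inner ℝ v w : ℝ) = e
  field_simp
  ring

theorem rinv_val_self (x : E3) (hx1 : inner ℝ x x = (1 : ℝ)) (hx : -1 < x 2) :
    rinvE x x = (nP : E3) := by
  have h0 : (1 : ℝ) + x 2 ≠ 0 := by linarith
  unfold rinvE
  rw [inner_add_left, rinv_val_P, hx1]
  have h1 : (x 2 + 1) / (1 + x 2) = 1 := by rw [add_comm, div_self h0]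
  rw [h1, one_smul, mul_one, two_smul]
  abel

theorem rinv_val (x : S2) (hx : -1 < (x : E3) 2) : (∀ y : S2, ((rinv x y : S2) : E3) = rinvE x y) ∧
    (∀ y z : S2, dt (rinv x y) (rinv x z) = dt y z) ∧ rinv x x = nP := by
  have hn : ∀ y : S2, inner ℝ (y : E3) (y : E3) = (1 : ℝ) := by
    intro y
    rw [real_inner_self_eq_norm_sq, mem_sphere_zero_iff_norm.mp y.2]
    norm_num
  have h1 : ∀ y : S2, ((rinv x y : S2) : E3) = rinvE x y := by
    intro y
    refine toS2_val _ ?_
    have h2 := rinv_val_inner x y y (hn x) hx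
    rw [hn y, real_inner_self_eq_norm_sq] at h2
    have h3 := norm_nonneg (rinvE (x : E3) (y : E3))
    nlinarith [h2, h3]
  refine ⟨h1, ?_, ?_⟩
  · intro y z
    unfold dt
    rw [h1, h1]
    exact rinv_val_inner x y z (hn x) hx
  · apply Subtype.ext
    rw [h1]
    exact rinv_val_self x (hn x) hx

end Pool.Agent.Helper534.LS
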