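import Pool.Agent.Helper534.LS.Defs

open MeasureTheory

namespace Pool.Agent.Helper534.LS



theorem toS2_cont : ContinuousOn toS2 {v | v ≠ 0} := by
  rw [continuousOn_iff_continuous_domRestrict]
  have h : Set.domRestrict {v : E3 | v ≠ 0} toS2 = fun v : {v : E3 | v ≠ 0} =>
      (⟨‖(v : E3)‖⁻¹ • (v : E3), by
        rw [mem_sphere_zero_iff_norm, norm_smul, norm_inv, norm_norm,
          inv_mul_cancel₀ (norm_ne_zero_iff.mpr v.2)]⟩ : S2) := by
    ext1 v
    apply Subtype.ext
    show ((toS2 (v : E3) : S2) : E3) = _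
    unfold toS2
    rw [dif_neg v.2]
  rw [h]
  apply Continuous.subtype_mk
  have h1 : Continuous (fun v : {v : E3 | v ≠ 0} => ‖(v : E3)‖⁻¹) :=
    (continuous_norm.comp continuous_subtype_val).inv₀ (fun v => norm_ne_zero_iff.mpr v.2)
  exact h1.smul continuous_subtype_val

end Pool.Agent.Helper534.LS
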