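import Pool.Agent.Helper534.LS.Defs
import Pool.Agent.Helper534.LS.P_toS2_val
import Pool.Agent.Helper534.LS.P_toS2_cont
import Pool.Agent.Helper534.LS.P_rinv_val

open MeasureTheory

namespace Pool.Agent.Helper534.LS



theorem rinv_cont : ContinuousOn (fun p : S2 × S2 => rinv p.1 p.2) {p | -1 < (p.1 : E3) 2} := by
  have h1 : ContinuousOn (fun p : S2 × S2 => rinvE (p.1 : E3) (p.2 : E3))
      {p | -1 < (p.1 : E3) 2} := by
    unfold rinvE
    have hx : Continuous (fun p : S2 × S2 => (p.1 : E3)) := by fun_prop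
    have hy : Continuous (fun p : S2 × S2 => (p.2 : E3)) := by fun_prop
    have hx2 : Continuous (fun p : S2 × S2 => 1 + (p.1 : E3) 2) := by fun_prop
    have hs : Continuous (fun p : S2 × S2 => (nP : E3) + (p.1 : E3)) :=
      continuous_const.add hx
    have hin1 : Continuous (fun p : S2 × S2 => inner ℝ ((nP : E3) + (p.1 : E3)) (p.2 : E3)) :=
      hs.inner hy
    have hin2 : Continuous (fun p : S2 × S2 => inner ℝ (p.1 : E3) (p.2 : E3)) := hx.inner hy
    have hdiv : ContinuousOn (fun p : S2 × S2 =>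
        inner ℝ ((nP : E3) + (p.1 : E3)) (p.2 : E3) / (1 + (p.1 : E3) 2))
        {p | -1 < (p.1 : E3) 2} := by
      refine hin1.continuousOn.div hx2.continuousOn fun p hp => ?_
      have : -1 < (p.1 : E3) 2 := hp
      intro h0
      linarith
    exact (hy.continuousOn.sub (hdiv.smul hs.continuousOn)).add
      ((continuousOn_const.mul hin2.continuousOn).smul continuousOn_const)
  refine toS2_cont.comp h1 fun p hp => ?_
  have h2 := (rinv_val p.1 hp).1 p.2
  intro h0
  have h3 : ‖((rinv p.1 p.2 : S2) : E3)‖ = 1 := norm_eq_of_mem_sphere _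
  rw [h2, h0, norm_zero] at h3
  exact zero_ne_one h3

end Pool.Agent.Helper534.LS
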