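import Pool.Agent.Helper534.LS.Defs
import Pool.Agent.Helper534.LS.P_lon_cont
import Pool.Agent.Helper534.LS.P_rinv_val
import Pool.Agent.Helper534.LS.P_rinv_cont

open MeasureTheory

namespace Pool.Agent.Helper534.LS



theorem bL_exists : ∃ b, IsBL b := by
  have hev : Continuous (fun q : ↥(LN ∩ LZ) × unitInterval => (q.1.1.1 : C(unitInterval, S2)) q.2) := by
    fun_prop
  have hev0 : Continuous (fun q : ↥(LN ∩ LZ) => (q.1.1 : C(unitInterval, S2)) 0) := by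
    fun_prop
  have hJ : Continuous (fun q : ↥(LN ∩ LZ) × unitInterval =>
      rinv (q.1.1.1 0) (q.1.1.1 q.2)) := by
    have h1 : Continuous (fun q : ↥(LN ∩ LZ) × unitInterval =>
      ((q.1.1.1 : C(unitInterval, S2)) 0, (q.1.1.1 : C(unitInterval, S2)) q.2)) :=
      (hev0.comp continuous_fst).prodMk hev
    exact rinv_cont.comp_continuous h1 (fun q => q.1.2.1)
  have hL : Continuous (fun q : ↥(LN ∩ LZ) => lon (q.1.1 0)) :=
    lon_cont.comp_continuous hev0 (fun q => ⟨q.2.1, q.2.2⟩)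
  let J : C(↥(LN ∩ LZ) × unitInterval, S2) := ⟨_, hJ⟩
  refine ⟨⟨fun γ => (lon (γ.1.1 0), ⟨J.curry γ, ?_, ?_⟩), ?_⟩, ?_⟩
  · exact (rinv_val (γ.1.1 0) γ.2.1).2.2
  · change rinv (γ.1.1 0) (γ.1.1 1) = nP
    rw [← γ.1.2]
    exact (rinv_val (γ.1.1 0) γ.2.1).2.2
  · exact hL.prodMk (Continuous.subtype_mk J.curry.continuous _)
  · intro γ
    exact ⟨rfl, fun t => rfl⟩

end Pool.Agent.Helper534.LS
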