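import Pool.Agent.Helper534.LS.Defs

open MeasureTheory

namespace Pool.Agent.Helper534.LS



theorem len_cont_aux (v : L2) : ∫ s, ‖(v : unitInterval → E3) s‖ ≤ ‖v‖ := by
  rw [integral_norm_eq_lintegral_enorm (Lp.aestronglyMeasurable v), ← eLpNorm_one_eq_lintegral_enorm,
    Lp.norm_def]
  exact ENNReal.toReal_mono (Lp.eLpNorm_ne_top v)
    (eLpNorm_le_eLpNorm_of_exponent_le (by norm_num) (Lp.aestronglyMeasurable v))

theorem len_cont_int (v : L2) : Integrable (fun s => ‖(v : unitInterval → E3) s‖) :=
  ((Lp.memLp v).integrable (by norm_num)).norm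

theorem len_cont_lip : LipschitzWith 1 (fun v : L2 => ∫ s, ‖(v : unitInterval → E3) s‖) := by
  apply LipschitzWith.of_dist_le_mul
  intro v w
  rw [NNReal.coe_one, one_mul, Real.dist_eq, dist_eq_norm, ← integral_sub (len_cont_int v) (len_cont_int w)]
  refine (abs_integral_le_integral_abs).trans ?_
  refine le_trans ?_ (len_cont_aux (v - w))
  apply integral_mono_ae ((len_cont_int v).sub (len_cont_int w)).abs (len_cont_int (v - w))
  filter_upwards [Lp.coeFn_sub v w] with s hs
  rw [hs, Pi.sub_apply]
  exact abs_norm_sub_norm_le _ _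

theorem len_cont : Continuous len := by
  have h : Continuous (fun x : HLoop => x.1.2) := continuous_snd.comp continuous_subtype_val
  exact len_cont_lip.continuous.comp h

end Pool.Agent.Helper534.LS
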