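import Pool.Agent.Helper534.LS.Defs
import Pool.Agent.Helper534.LS.P_pth_cont

open MeasureTheory

namespace Pool.Agent.Helper534.LS



theorem chord_angle (e : ℝ) (he : 0 < e) (he1 : e ≤ 1) (x y : E3) (hx : ‖x‖ = 1) (hy : ‖y‖ = 1)
    (hxy : ‖x - y‖ < e) : InnerProductGeometry.angle x y ≤ (1 + e) * ‖x - y‖ := by
  set θ := InnerProductGeometry.angle x y with hθ
  have h0 : 0 ≤ θ := InnerProductGeometry.angle_nonneg x y
  have hpi : θ ≤ Real.pi := InnerProductGeometry.angle_le_pi x y
  have hc : Real.cos θ = inner ℝ x y := by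
    rw [hθ, InnerProductGeometry.cos_angle, hx, hy]
    simp
  have hn : ‖x - y‖ ^ 2 = 2 - 2 * Real.cos θ := by
    rw [norm_sub_sq_real, hx, hy, hc]
    ring
  have hc2 : Real.cos θ = 1 - 2 * Real.sin (θ / 2) ^ 2 := by
    have h1 := Real.cos_two_mul (θ / 2)
    have h2 := Real.sin_sq_add_cos_sq (θ / 2)
    have h3 : 2 * (θ / 2) = θ := by ring
    rw [h3] at h1
    nlinarith
  have hs0 : 0 ≤ Real.sin (θ / 2) := Real.sin_nonneg_of_nonneg_of_le_pi (by linarith) (by linarith)
  have hch : ‖x - y‖ = 2 * Real.sin (θ / 2) := by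
    have h1 : ‖x - y‖ ^ 2 = (2 * Real.sin (θ / 2)) ^ 2 := by
      rw [hn, hc2]
      ring
    exact (sq_eq_sq₀ (norm_nonneg _) (by linarith)).mp h1
  set φ := θ / 2 with hφ
  have hφ0 : 0 ≤ φ := by linarith
  have hj : 2 / Real.pi * φ ≤ Real.sin φ := Real.mul_le_sin hφ0 (by linarith)
  have hpi4 : Real.pi < 4 := Real.pi_lt_four
  have hpp : 0 < Real.pi := Real.pi_pos
  have hφs : φ ≤ Real.pi / 2 * Real.sin φ := by
    have h1 : Real.pi / 2 * (2 / Real.pi * φ) ≤ Real.pi / 2 * Real.sin φ :=
      mul_le_mul_of_nonneg_left hj (by positivity)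
    have h2 : Real.pi / 2 * (2 / Real.pi * φ) = φ := by
      field_simp
    linarith
  have hφe : φ ≤ e := by
    nlinarith
  rcases hφ0.eq_or_lt with h | h
  · have : θ = 0 := by linarith
    rw [this]
    have := norm_nonneg (x - y)
    positivity
  · have hsc := Real.sin_gt_sub_cube h
    have h1 : θ = 2 * φ := by linarith
    rw [hch, h1]
    have h2 : φ ^ 2 ≤ e ^ 2 := by nlinarith
    have h3 : φ ≤ (1 + e) * (φ - φ ^ 3 / 6) := by
      have h4 : 0 ≤ φ * (e - (1 + e) * φ ^ 2 / 6) := by
        apply mul_nonneg h.le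
        nlinarith
      nlinarith
    nlinarith

theorem pth_sub (p : E3) (v : L2) (s t : unitInterval) (hst : s ≤ t) :
    pth p v t - pth p v s = ∫ r in Set.Ioc s t, v r := by
  have hv : Integrable (v : unitInterval → E3) volume :=
    (Lp.memLp v).integrable (by norm_num)
  have h1 : Set.Iic t = Set.Iic s ∪ Set.Ioc s t := (Set.Iic_union_Ioc_eq_Iic hst).symm
  unfold pth
  rw [h1, setIntegral_union (Set.Iic_disjoint_Ioc le_rfl) measurableSet_Ioc hv.integrableOn
    hv.integrableOn]
  abel

theorem pth_chord (p : E3) (v : L2) (s t : unitInterval) (hst : s ≤ t) :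
    ‖pth p v t - pth p v s‖ ≤ ∫ r in Set.Ioc s t, ‖(v : unitInterval → E3) r‖ := by
  rw [pth_sub p v s t hst]
  exact norm_integral_le_integral_norm _

theorem F_add (v : L2) (s t u : unitInterval) (hst : s ≤ t) (htu : t ≤ u) :
    (∫ r in Set.Ioc s u, ‖(v : unitInterval → E3) r‖) =
      (∫ r in Set.Ioc s t, ‖(v : unitInterval → E3) r‖) +
        ∫ r in Set.Ioc t u, ‖(v : unitInterval → E3) r‖ := by
  have hv : Integrable (v : unitInterval → E3) volume :=
    (Lp.memLp v).integrable (by norm_num)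
  rw [← Set.Ioc_union_Ioc_eq_Ioc hst htu,
    setIntegral_union (Set.Ioc_disjoint_Ioc_of_le le_rfl) measurableSet_Ioc hv.norm.integrableOn
      hv.norm.integrableOn]

theorem sph_len (x : HLoop) (s t : unitInterval) (hst : s ≤ t)
    (h : ∫ r in Set.Ioc s t, ‖(x.1.2 : unitInterval → E3) r‖ < Real.pi) :
    -1 < inner ℝ (pth x.1.1 x.1.2 s) (pth x.1.1 x.1.2 t) := by
  set p := x.1.1 with hp
  set v := x.1.2 with hv
  set l := ∫ r in Set.Ioc s t, ‖(v : unitInterval → E3) r‖ with hl
  have hl0 : 0 ≤ l := integral_nonneg fun r => norm_nonneg _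
  have hun : ∀ t, ‖pth p v t‖ = 1 := x.2.1
  have hpp : 0 < Real.pi := Real.pi_pos
  have huc : UniformContinuous fun r : ℝ => pth p v (Set.projIcc 0 1 zero_le_one r) := by
    have h1 : UniformContinuous fun q : unitInterval => pth p v q :=
      CompactSpace.uniformContinuous_of_continuous
        (pth_cont.comp (by fun_prop : Continuous fun q : unitInterval => ((p, v), q)))
    exact h1.comp (LipschitzWith.projIcc zero_le_one).uniformContinuous
  obtain ⟨e, he, he1, hel⟩ : ∃ e : ℝ, 0 < e ∧ e ≤ 1 ∧ (1 + e) * l < Real.pi := by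
    refine ⟨min 1 ((Real.pi - l) / (2 * Real.pi)), ?_, min_le_left _ _, ?_⟩
    · apply lt_min one_pos
      apply div_pos (by linarith) (by linarith)
    · have h1 : min 1 ((Real.pi - l) / (2 * Real.pi)) ≤ (Real.pi - l) / (2 * Real.pi) :=
        min_le_right _ _
      have h2 : (Real.pi - l) / (2 * Real.pi) * Real.pi = (Real.pi - l) / 2 := by
        field_simp
      have h3 : min 1 ((Real.pi - l) / (2 * Real.pi)) * l ≤
          (Real.pi - l) / (2 * Real.pi) * Real.pi := by
        apply mul_le_mul h1 h.le hl0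
        apply div_nonneg (by linarith) (by linarith)
      nlinarith
  obtain ⟨d, hd, hdd⟩ := Metric.uniformContinuous_iff.mp huc e he
  obtain ⟨N, hN⟩ := exists_nat_gt (((t : ℝ) - s) / d)
  have hst' : (s : ℝ) ≤ t := hst
  have hN0 : 0 < (N : ℝ) := by
    refine lt_of_le_of_lt ?_ hN
    apply div_nonneg (by linarith) hd.le
  set δ := ((t : ℝ) - s) / N with hδ
  have hδ0 : 0 ≤ δ := div_nonneg (by linarith) hN0.le
  have hδd : δ < d := by
    rw [hδ, div_lt_iff₀ hN0]
    rw [div_lt_iff₀ hd] at hN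
    linarith
  set c : ℝ → E3 := fun r => pth p v (Set.projIcc 0 1 zero_le_one r) with hc
  have key : ∀ k : ℕ, InnerProductGeometry.angle (c s) (c (s + k * δ)) ≤ (1 + e) *
      ∫ r in Set.Ioc (Set.projIcc 0 1 zero_le_one (s : ℝ))
        (Set.projIcc 0 1 zero_le_one ((s : ℝ) + k * δ)), ‖(v : unitInterval → E3) r‖ := by
    intro k
    induction k with
    | zero =>
      have hne : c s ≠ 0 := by
        intro h0
        have h1 := hun (Set.projIcc 0 1 zero_le_one (s : ℝ))
        have h2 : ‖c s‖ = 1 := h1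
        rw [h0, norm_zero] at h2
        exact zero_ne_one h2
      simp only [Nat.cast_zero, zero_mul, add_zero, Set.Ioc_self, Measure.restrict_empty,
        integral_zero_measure, mul_zero]
      rw [InnerProductGeometry.angle_self hne]
    | succ k ih =>
      have ha : (s : ℝ) ≤ s + k * δ := by
        have : 0 ≤ (k : ℝ) * δ := by positivity
        linarith
      have hb : (s : ℝ) + k * δ ≤ s + ((k + 1 : ℕ) : ℝ) * δ := by
        push_cast
        nlinarith
      have ha' : Set.projIcc (0 : ℝ) 1 zero_le_one (s : ℝ) ≤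
          Set.projIcc 0 1 zero_le_one ((s : ℝ) + k * δ) := Set.monotone_projIcc _ ha
      have hb' : Set.projIcc (0 : ℝ) 1 zero_le_one ((s : ℝ) + k * δ) ≤
          Set.projIcc 0 1 zero_le_one ((s : ℝ) + ((k + 1 : ℕ) : ℝ) * δ) := Set.monotone_projIcc _ hb
      rw [F_add v _ _ _ ha' hb', mul_add]
      refine (InnerProductGeometry.angle_le_angle_add_angle (c s) (c (s + k * δ)) _).trans ?_
      refine add_le_add ih ?_
      have hdist : ‖c (s + k * δ) - c (s + ((k + 1 : ℕ) : ℝ) * δ)‖ < e := by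
        have h1 : dist ((s : ℝ) + k * δ) (s + ((k + 1 : ℕ) : ℝ) * δ) < d := by
          rw [Real.dist_eq]
          have h2 : (s : ℝ) + k * δ - (s + ((k + 1 : ℕ) : ℝ) * δ) = -δ := by
            push_cast
            ring
          rw [h2, abs_neg, abs_of_nonneg hδ0]
          exact hδd
        have h2 := hdd h1
        rw [dist_eq_norm] at h2
        exact h2
      refine (chord_angle e he he1 _ _ (hun _) (hun _) hdist).trans ?_
      apply mul_le_mul_of_nonneg_left _ (by linarith)
      rw [norm_sub_rev]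
      exact pth_chord p v _ _ hb'
  have hk := key N
  have hs1 : Set.projIcc (0 : ℝ) 1 zero_le_one (s : ℝ) = s := Set.projIcc_val zero_le_one s
  have ht1 : (s : ℝ) + N * δ = t := by
    rw [hδ]
    field_simp
    ring
  have ht2 : Set.projIcc (0 : ℝ) 1 zero_le_one (t : ℝ) = t := Set.projIcc_val zero_le_one t
  rw [ht1, hs1, ht2] at hk
  have hcs : c s = pth p v s := by rw [hc]; simp only; rw [hs1]
  have hct : c t = pth p v t := by rw [hc]; simp only; rw [ht2]
  rw [hcs, hct] at hk
  have hlt : InnerProductGeometry.angle (pth p v s) (pth p v t) < Real.pi := lt_of_le_of_lt hk hel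
  have hcos := Real.cos_lt_cos_of_nonneg_of_le_pi
    (InnerProductGeometry.angle_nonneg (pth p v s) (pth p v t)) le_rfl hlt
  rw [Real.cos_pi, InnerProductGeometry.cos_angle, hun, hun] at hcos
  simpa using hcos

end Pool.Agent.Helper534.LS
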