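import Pool.Agent.Helper534.LS.Defs
import Pool.Agent.Helper534.LS.P_pth_cont
import Pool.Agent.Helper534.LS.P_len_cont
import Pool.Agent.Helper534.LS.P_sph_len

open MeasureTheory

namespace Pool.Agent.Helper534.LS



theorem te_int (v : L2) : Integrable (v : unitInterval → E3) volume :=
  (Lp.memLp v).integrable one_le_two

/-- the partial length -/
noncomputable def teG (v : L2) (t : unitInterval) : ℝ :=
  ∫ r in Set.Iic t, ‖(v : unitInterval → E3) r‖

theorem te_L1_le (v : L2) : ∫ r, ‖(v : unitInterval → E3) r‖ ≤ ‖v‖ := by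
  rw [integral_norm_eq_lintegral_enorm (Lp.aestronglyMeasurable v),
    ← eLpNorm_one_eq_lintegral_enorm, Lp.norm_def]
  exact ENNReal.toReal_mono (Lp.eLpNorm_ne_top v)
    (eLpNorm_le_eLpNorm_of_exponent_le one_le_two (Lp.aestronglyMeasurable v))

theorem te_lip (t : unitInterval) (v w : L2) : |teG v t - teG w t| ≤ ‖v - w‖ := by
  have hv := (te_int v).norm
  have hw := (te_int w).norm
  unfold teG
  rw [← integral_sub hv.integrableOn hw.integrableOn]
  calc |∫ r in Set.Iic t, (‖(v : unitInterval → E3) r‖ - ‖(w : unitInterval → E3) r‖)|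
      ≤ ∫ r in Set.Iic t, |‖(v : unitInterval → E3) r‖ - ‖(w : unitInterval → E3) r‖| :=
        abs_integral_le_integral_abs
    _ ≤ ∫ r in Set.Iic t, ‖(v : unitInterval → E3) r - (w : unitInterval → E3) r‖ := by
        apply integral_mono
        · exact (hv.sub hw).abs.integrableOn
        · exact ((te_int v).sub (te_int w)).norm.integrableOn
        · intro r
          exact abs_norm_sub_norm_le _ _
    _ ≤ ∫ r, ‖(v : unitInterval → E3) r - (w : unitInterval → E3) r‖ := by
        apply setIntegral_le_integral ((te_int v).sub (te_int w)).norm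
        exact Filter.Eventually.of_forall fun r => norm_nonneg _
    _ = ∫ r, ‖((v - w : L2) : unitInterval → E3) r‖ := by
        apply integral_congr_ae
        filter_upwards [Lp.coeFn_sub v w] with r hr
        rw [hr]
        rfl
    _ ≤ ‖v - w‖ := te_L1_le _

theorem te_cont1 (t : unitInterval) : Continuous fun v : L2 => teG v t := by
  apply LipschitzWith.continuous (K := 1)
  apply LipschitzWith.of_dist_le_mul
  intro v w
  rw [Real.dist_eq, dist_eq_norm]
  simpa using te_lip t v w

theorem te_cont2 (v : L2) : Continuous fun t : unitInterval => teG v t := by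
  unfold teG
  have e : (fun t : unitInterval => ∫ r in Set.Iic t, ‖(v : unitInterval → E3) r‖) =
      fun t => ∫ r, (Set.Iic t).indicator (fun r => ‖(v : unitInterval → E3) r‖) r := by
    funext t
    rw [integral_indicator measurableSet_Iic]
  rw [e]
  rw [continuous_iff_continuousAt]
  intro t₀
  apply continuousAt_of_dominated (bound := fun r => ‖(v : unitInterval → E3) r‖)
  · exact Filter.Eventually.of_forall fun t =>
      ((te_int v).norm.indicator measurableSet_Iic).aestronglyMeasurable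
  · refine Filter.Eventually.of_forall fun t => Filter.Eventually.of_forall fun r => ?_
    rw [Real.norm_eq_abs]
    by_cases hr : r ∈ Set.Iic t
    · rw [Set.indicator_of_mem hr, abs_norm]
    · rw [Set.indicator_of_notMem hr, abs_zero]
      exact norm_nonneg _
  · exact (te_int v).norm
  · have h0 : ∀ᵐ r ∂(volume : Measure unitInterval), r ≠ t₀ := by
      rw [ae_iff]
      simp
    filter_upwards [h0] with r hr
    rcases lt_or_gt_of_ne hr with h | h
    · apply ContinuousAt.congr (f := fun _ => ‖(v : unitInterval → E3) r‖) continuousAt_const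
      filter_upwards [Ioi_mem_nhds h] with t ht
      rw [Set.indicator_of_mem (Set.mem_Iic.2 (le_of_lt ht))]
    · apply ContinuousAt.congr (f := fun _ => (0:ℝ)) continuousAt_const
      filter_upwards [Iio_mem_nhds h] with t ht
      rw [Set.indicator_of_notMem]
      rw [Set.mem_Iic, not_le]
      exact ht

theorem te_sub (v : L2) (s t : unitInterval) (hst : s ≤ t) :
    ∫ r in Set.Ioc s t, ‖(v : unitInterval → E3) r‖ = teG v t - teG v s := by
  unfold teG
  rw [← Set.Iic_union_Ioc_eq_Iic hst, setIntegral_union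
    (Set.Iic_disjoint_Ioc le_rfl) measurableSet_Ioc (te_int v).norm.integrableOn
    (te_int v).norm.integrableOn]
  ring

theorem te_mono (v : L2) (s t : unitInterval) (hst : s ≤ t) : teG v s ≤ teG v t := by
  have h1 := te_sub v s t hst
  have h2 : 0 ≤ ∫ r in Set.Ioc s t, ‖(v : unitInterval → E3) r‖ :=
    integral_nonneg fun r => norm_nonneg _
  linarith

theorem te_zero (v : L2) : teG v 0 = 0 := by
  unfold teG
  have : Set.Iic (0 : unitInterval) = {0} := by
    ext r
    rw [Set.mem_Iic, Set.mem_singleton_iff]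
    exact ⟨fun h => le_antisymm h bot_le, fun h => h.le⟩
  rw [this]
  simp

theorem te_one (v : L2) : teG v 1 = ∫ r, ‖(v : unitInterval → E3) r‖ := by
  unfold teG
  have : Set.Iic (1 : unitInterval) = Set.univ := by
    ext r
    simp [unitInterval.le_one']
  rw [this, setIntegral_univ]

/-- solving an equation with a strictly increasing left hand side -/
theorem te_solve {X : Type} [TopologicalSpace X] (F : X → unitInterval → ℝ) (c : X → ℝ)
    (hF1 : ∀ t, Continuous fun x => F x t) (hF2 : ∀ x, Continuous (F x))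
    (hF3 : ∀ x, StrictMono (F x)) (hc : Continuous c) (h0 : ∀ x, F x 0 ≤ c x)
    (h1 : ∀ x, c x ≤ F x 1) : ∃ τ : C(X, unitInterval), ∀ x, F x (τ x) = c x := by
  have hex : ∀ x, ∃ t, F x t = c x := by
    intro x
    have := intermediate_value_univ (0 : unitInterval) 1 (hF2 x)
    exact this ⟨h0 x, h1 x⟩
  choose τ hτ using hex
  refine ⟨⟨τ, ?_⟩, hτ⟩
  rw [OrderTopology.continuous_iff]
  intro b
  constructor
  · have : τ ⁻¹' Set.Ioi b = {x | F x b < c x} := by
      ext x
      rw [Set.mem_preimage, Set.mem_Ioi, Set.mem_ofPred_eq, ← hτ x, (hF3 x).lt_iff_lt]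
    rw [this]
    exact isOpen_lt (hF1 b) hc
  · have : τ ⁻¹' Set.Iio b = {x | c x < F x b} := by
      ext x
      rw [Set.mem_preimage, Set.mem_Iio, Set.mem_ofPred_eq, ← hτ x, (hF3 x).lt_iff_lt]
    rw [this]
    exact isOpen_lt hc (hF1 b)

theorem times_exist (a : ℝ) (ha : a < 3 * Real.pi) : ∃ τ₁ τ₂ : C(sublevel a, unitInterval),
    ∀ x : sublevel a, 0 < τ₁ x ∧ τ₁ x < τ₂ x ∧ τ₂ x < 1 ∧
    (∀ s, s ≤ τ₁ x → -1 < inner ℝ (pth x.1.1.1 x.1.1.2 0) (pth x.1.1.1 x.1.1.2 s)) ∧
    (∀ s, τ₁ x ≤ s → s ≤ τ₂ x →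
      -1 < inner ℝ (pth x.1.1.1 x.1.1.2 (τ₁ x)) (pth x.1.1.1 x.1.1.2 s)) ∧
    (∀ s, τ₂ x ≤ s → -1 < inner ℝ (pth x.1.1.1 x.1.1.2 (τ₂ x)) (pth x.1.1.1 x.1.1.2 s)) := by
  obtain ⟨ε, hε, hεa⟩ : ∃ ε : ℝ, 0 < ε ∧ a + ε < 3 * Real.pi :=
    ⟨(3 * Real.pi - a) / 2, by linarith, by linarith⟩
  set F : sublevel a → unitInterval → ℝ := fun x t => teG x.1.1.2 t + ε * (t : ℝ) with hF
  have hcoe : Continuous fun x : sublevel a => x.1.1.2 := by fun_prop
  have hF1 : ∀ t, Continuous fun x => F x t := fun t =>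
    ((te_cont1 t).comp hcoe).add continuous_const
  have hF2 : ∀ x, Continuous (F x) := fun x =>
    (te_cont2 _).add (continuous_const.mul continuous_subtype_val)
  have hF3 : ∀ x, StrictMono (F x) := by
    intro x s t hst
    have h1 := te_mono x.1.1.2 s t hst.le
    have h2 : (s : ℝ) < t := hst
    have h3 : ε * (s : ℝ) < ε * t := mul_lt_mul_of_pos_left h2 hε
    simp only [hF]
    linarith
  have hF0 : ∀ x, F x 0 = 0 := by
    intro x
    simp only [hF, te_zero]
    simp
  have hFone : ∀ x, F x 1 = len x.1 + ε := by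
    intro x
    simp only [hF, te_one]
    simp [len]
  have hlen0 : ∀ x : HLoop, 0 ≤ len x := fun x => integral_nonneg fun r => norm_nonneg _
  have hlenc : Continuous fun x : sublevel a => len x.1 := len_cont.comp continuous_subtype_val
  obtain ⟨τ₁, hτ₁⟩ := te_solve F (fun x => (len x.1 + ε) / 3) hF1 hF2 hF3
    ((hlenc.add continuous_const).div_const _) (fun x => by
      rw [hF0]; have := hlen0 x.1; positivity) (fun x => by
      rw [hFone]; have := hlen0 x.1; linarith)
  obtain ⟨τ₂, hτ₂⟩ := te_solve F (fun x => 2 * (len x.1 + ε) / 3) hF1 hF2 hF3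
    ((continuous_const.mul (hlenc.add continuous_const)).div_const _) (fun x => by
      rw [hF0]; have := hlen0 x.1; positivity) (fun x => by
      rw [hFone]; have := hlen0 x.1; linarith)
  refine ⟨τ₁, τ₂, fun x => ?_⟩
  have hl := hlen0 x.1
  have hla : len x.1 ≤ a := x.2
  have e0 := hF0 x
  have e1 := hτ₁ x
  have e2 := hτ₂ x
  have e3 := hFone x
  have k1 : 0 < τ₁ x := by
    rw [← (hF3 x).lt_iff_lt]
    rw [e0, e1]
    positivity
  have k2 : τ₁ x < τ₂ x := by
    rw [← (hF3 x).lt_iff_lt]
    rw [e1, e2]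
    linarith
  have k3 : τ₂ x < 1 := by
    rw [← (hF3 x).lt_iff_lt]
    rw [e2, e3]
    linarith
  have key : ∀ s t u : unitInterval, s ≤ t → t ≤ u → F x u - F x s ≤ (len x.1 + ε) / 3 →
      -1 < inner ℝ (pth x.1.1.1 x.1.1.2 s) (pth x.1.1.1 x.1.1.2 t) := by
    intro s t u hst htu h
    apply sph_len x.1 s t hst
    rw [te_sub _ _ _ hst]
    have m1 := te_mono x.1.1.2 t u htu
    have m2 : (s : ℝ) ≤ u := hst.trans htu
    have m3 : ε * (s : ℝ) ≤ ε * u := mul_le_mul_of_nonneg_left m2 hε.le
    simp only [hF] at h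
    linarith
  refine ⟨k1, k2, k3, ?_, ?_, ?_⟩
  · intro s hs
    apply key 0 s (τ₁ x) bot_le hs
    rw [e0, e1]
    linarith
  · intro s hs1 hs2
    apply key (τ₁ x) s (τ₂ x) hs1 hs2
    rw [e1, e2]
    linarith
  · intro s hs
    apply key (τ₂ x) s 1 hs unitInterval.le_one'
    rw [e2, e3]
    linarith

end Pool.Agent.Helper534.LS
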