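import Pool.Agent.Helper534.LS.Defs
import Pool.Agent.Helper534.LS.P_toS2_val

open MeasureTheory

namespace Pool.Agent.Helper534.LS



theorem arc_val_aux (x y : S2) (h : -1 < dt x y) (τ : ℝ) :
    ‖arcE x y τ‖ = 1 ∧ -1 < inner ℝ (x : E3) (arcE x y τ) := by
  have hx : ‖(x : E3)‖ = 1 := mem_sphere_zero_iff_norm.mp x.2
  have hy : ‖(y : E3)‖ = 1 := mem_sphere_zero_iff_norm.mp y.2
  unfold dt at h
  set u : E3 := (x : E3) with hu
  set v : E3 := (y : E3) with hv
  set c : ℝ := inner ℝ u v with hc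
  have hc1 : c ≤ 1 := by
    have := real_inner_le_norm u v
    rw [hx, hy] at this
    linarith
  have huu : inner ℝ u u = (1 : ℝ) := by
    rw [real_inner_self_eq_norm_sq, hx]; norm_num
  have hvv : inner ℝ v v = (1 : ℝ) := by
    rw [real_inner_self_eq_norm_sq, hy]; norm_num
  have hvu : inner ℝ v u = c := by rw [real_inner_comm]
  have hD : 0 < (1 + c) + τ ^ 2 * (1 - c) := by
    have : 0 ≤ τ ^ 2 * (1 - c) := mul_nonneg (sq_nonneg _) (by linarith)
    linarith
  constructor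
  · have h1 : ‖arcE u v τ‖ ^ 2 = 1 := by
      rw [← real_inner_self_eq_norm_sq]
      unfold arcE
      rw [← hc]
      simp only [inner_smul_left, inner_smul_right, inner_add_left, inner_add_right, huu, hvv,
        hvu, ← hc, RCLike.conj_to_real]
      field_simp
      ring
    have h2 : 0 ≤ ‖arcE u v τ‖ := norm_nonneg _
    nlinarith
  · unfold arcE
    rw [← hc]
    simp only [inner_smul_right, inner_add_right, huu, ← hc]
    rw [inv_mul_eq_div, lt_div_iff₀ hD]
    nlinarith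

theorem arc_val (x y : S2) (h : -1 < dt x y) (τ : ℝ) :
    ((arcS x y τ : S2) : E3) = arcE x y τ ∧ -1 < dt x (arcS x y τ) ∧ arcS x y 0 = x ∧
    arcS x y 1 = y := by
  have hval : ∀ τ : ℝ, ((arcS x y τ : S2) : E3) = arcE x y τ := fun τ =>
    toS2_val _ (arc_val_aux x y h τ).1
  have hc : (1 : ℝ) + inner ℝ (x : E3) (y : E3) ≠ 0 := by
    unfold dt at h
    intro h'
    linarith
  refine ⟨hval τ, ?_, ?_, ?_⟩
  · unfold dt
    rw [hval τ]
    exact (arc_val_aux x y h τ).2
  · apply Subtype.ext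
    rw [hval 0]
    unfold arcE
    rw [show (1 + inner ℝ (x : E3) (y : E3) + (0 : ℝ) ^ 2 * (1 - inner ℝ (x : E3) (y : E3)))
      = 1 + inner ℝ (x : E3) (y : E3) by ring,
      show (1 + inner ℝ (x : E3) (y : E3) - (0 : ℝ) ^ 2 * (1 - inner ℝ (x : E3) (y : E3))
        - 2 * 0 * inner ℝ (x : E3) (y : E3))
      = 1 + inner ℝ (x : E3) (y : E3) by ring, mul_zero, zero_smul, add_zero, smul_smul,
      inv_mul_cancel₀ hc, one_smul]
  · apply Subtype.ext
    rw [hval 1]
    unfold arcE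
    rw [show (1 + inner ℝ (x : E3) (y : E3) + (1 : ℝ) ^ 2 * (1 - inner ℝ (x : E3) (y : E3)))
      = 2 by ring,
      show (1 + inner ℝ (x : E3) (y : E3) - (1 : ℝ) ^ 2 * (1 - inner ℝ (x : E3) (y : E3))
        - 2 * 1 * inner ℝ (x : E3) (y : E3))
      = 0 by ring, zero_smul, zero_add, smul_smul, mul_one, inv_mul_cancel₀ (by norm_num),
      one_smul]

end Pool.Agent.Helper534.LS
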