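import Pool.Agent.Helper534.LS.Defs
import Pool.Agent.Helper534.LS.P_toS2_val
import Pool.Agent.Helper534.LS.P_toS2_cont
import Pool.Agent.Helper534.LS.P_arc_val

open MeasureTheory

namespace Pool.Agent.Helper534.LS



theorem arc_cont : ContinuousOn (fun p : S2 × S2 × ℝ => arcS p.1 p.2.1 p.2.2)
    {p | -1 < dt p.1 p.2.1} := by
  have hi : Continuous (fun p : S2 × S2 × ℝ => inner ℝ (p.1 : E3) (p.2.1 : E3)) :=
    Continuous.inner (continuous_subtype_val.comp continuous_fst)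
      (continuous_subtype_val.comp (continuous_fst.comp continuous_snd))
  have hd : Continuous (fun p : S2 × S2 × ℝ => (1 + inner ℝ (p.1 : E3) (p.2.1 : E3)) +
      p.2.2 ^ 2 * (1 - inner ℝ (p.1 : E3) (p.2.1 : E3))) := by fun_prop
  have hn : Continuous (fun p : S2 × S2 × ℝ => ((1 + inner ℝ (p.1 : E3) (p.2.1 : E3)) -
      p.2.2 ^ 2 * (1 - inner ℝ (p.1 : E3) (p.2.1 : E3)) -
        2 * p.2.2 * inner ℝ (p.1 : E3) (p.2.1 : E3)) • (p.1 : E3) +
          (2 * p.2.2) • (p.2.1 : E3)) := by fun_prop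
  have hne : ∀ p ∈ {p : S2 × S2 × ℝ | -1 < dt p.1 p.2.1},
      (1 + inner ℝ (p.1 : E3) (p.2.1 : E3)) +
      p.2.2 ^ 2 * (1 - inner ℝ (p.1 : E3) (p.2.1 : E3)) ≠ 0 := by
    intro p hp
    have h1 : -1 < inner ℝ (p.1 : E3) (p.2.1 : E3) := hp
    have h2 := real_inner_le_norm (p.1 : E3) (p.2.1 : E3)
    have h3 : ‖(p.1 : E3)‖ = 1 := mem_sphere_zero_iff_norm.1 p.1.2
    have h4 : ‖(p.2.1 : E3)‖ = 1 := mem_sphere_zero_iff_norm.1 p.2.1.2
    rw [h3, h4, one_mul] at h2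
    have h5 : 0 ≤ p.2.2 ^ 2 * (1 - inner ℝ (p.1 : E3) (p.2.1 : E3)) :=
      mul_nonneg (sq_nonneg _) (by linarith)
    intro h
    linarith
  have hE : ContinuousOn (fun p : S2 × S2 × ℝ => arcE p.1 p.2.1 p.2.2)
      {p | -1 < dt p.1 p.2.1} := by
    unfold arcE
    exact (hd.continuousOn.inv₀ hne).smul hn.continuousOn
  refine toS2_cont.comp hE ?_
  intro p hp h0
  have h1 := (arc_val p.1 p.2.1 hp p.2.2).1
  have h2 : ‖((arcS p.1 p.2.1 p.2.2 : S2) : E3)‖ = 1 :=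
    mem_sphere_zero_iff_norm.1 (arcS p.1 p.2.1 p.2.2).2
  have h0' : arcE (p.1 : E3) (p.2.1 : E3) p.2.2 = 0 := h0
  rw [h1, h0', norm_zero] at h2
  exact zero_ne_one h2

end Pool.Agent.Helper534.LS
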