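import Pool.Agent.Helper534.LS.Defs

open MeasureTheory

namespace Pool.Agent.Helper534.LS



theorem mk_path {A : Type} [TopologicalSpace A] (F : A → ℝ → S2)
    (hF : Continuous fun p : A × ℝ => F p.1 p.2) :
    ∃ f : C(A, C(unitInterval, S2)), ∀ a (t : unitInterval), f a t = F a t := by
  have hg : Continuous (fun p : A × unitInterval => F p.1 (p.2 : ℝ)) :=
    hF.comp (continuous_fst.prodMk (continuous_subtype_val.comp continuous_snd))
  exact ⟨ContinuousMap.curry ⟨fun p : A × unitInterval => F p.1 (p.2 : ℝ), hg⟩, fun a t => rfl⟩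

end Pool.Agent.Helper534.LS
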