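import Pool.Agent.Helper534.LS.Defs
import Pool.Agent.Helper534.LS.P_mk_path
import Pool.Agent.Helper534.LS.P_toS2_val
import Pool.Agent.Helper534.LS.P_toS2_cont
import Pool.Agent.Helper534.LS.P_arc_val
import Pool.Agent.Helper534.LS.P_arc_cont

open MeasureTheory

namespace Pool.Agent.Helper534.LS



theorem th_cl_cont : Continuous cl := by
  show Continuous (Set.projIcc (0:ℝ) 1 zero_le_one)
  exact continuous_projIcc

theorem th_cl_eq {s : ℝ} (h0 : 0 ≤ s) (h1 : s ≤ 1) : ((cl s : unitInterval) : ℝ) = s := by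
  unfold cl
  rw [Set.projIcc_of_mem zero_le_one ⟨h0, h1⟩]

theorem th_cl_val (t : unitInterval) : cl (t : ℝ) = t := Set.projIcc_val zero_le_one t

theorem th_cl_low {s : ℝ} (h : s ≤ 0) : ((cl s : unitInterval) : ℝ) = 0 := by
  unfold cl
  rw [Set.projIcc_of_le_left zero_le_one h]

theorem th_cl_high {s : ℝ} (h : 1 ≤ s) : ((cl s : unitInterval) : ℝ) = 1 := by
  unfold cl
  rw [Set.projIcc_of_right_le zero_le_one h]

theorem th_fn_cont {A : Type} [TopologicalSpace A] (γ : C(A, LL)) :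
    Continuous fun p : A × ℝ => fn (γ p.1).1 p.2 := by
  unfold fn
  have h1 : Continuous fun p : A × ℝ => (γ p.1).1 :=
    continuous_subtype_val.comp (γ.continuous.comp continuous_fst)
  have h2 : Continuous fun p : A × ℝ => cl p.2 := th_cl_cont.comp continuous_snd
  exact h1.eval h2

theorem th_hom {A : Type} [TopologicalSpace A] (F : A × unitInterval → ℝ → S2)
    (hF : Continuous fun p : (A × unitInterval) × ℝ => F p.1 p.2) (hl : ∀ p, F p 0 = F p 1)
    (f0 f1 : C(A, LL)) (h0 : ∀ a (t : unitInterval), (f0 a).1 t = F (a, 0) t)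
    (h1 : ∀ a (t : unitInterval), (f1 a).1 t = F (a, 1) t) : f0.Homotopic f1 := by
  obtain ⟨f, hf⟩ := mk_path F hF
  have hloop : ∀ p, f p 0 = f p 1 := by
    intro p
    rw [hf, hf]
    simpa using hl p
  let H : C(A × unitInterval, LL) := ⟨fun p => ⟨f p, hloop p⟩, f.continuous.subtype_mk _⟩
  refine ⟨⟨H.comp ⟨fun q => (q.2, q.1), by fun_prop⟩, ?_, ?_⟩⟩
  · intro a
    apply Subtype.ext
    apply ContinuousMap.ext
    intro t
    exact (hf (a, 0) t).trans (h0 a t).symm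
  · intro a
    apply Subtype.ext
    apply ContinuousMap.ext
    intro t
    exact (hf (a, 1) t).trans (h1 a t).symm

theorem th_mk {A : Type} [TopologicalSpace A] (F : A → ℝ → S2)
    (hF : Continuous fun p : A × ℝ => F p.1 p.2) (hl : ∀ a, F a 0 = F a 1) :
    ∃ f : C(A, LL), ∀ a (t : unitInterval), (f a).1 t = F a t := by
  obtain ⟨f, hf⟩ := mk_path F hF
  have hloop : ∀ p, f p 0 = f p 1 := by
    intro p
    rw [hf, hf]
    simpa using hl p
  exact ⟨⟨fun p => ⟨f p, hloop p⟩, f.continuous.subtype_mk _⟩, fun a t => hf a t⟩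

theorem th_dt_self (x : S2) : dt x x = 1 := by
  unfold dt
  rw [real_inner_self_eq_norm_sq, mem_sphere_zero_iff_norm.1 x.2]
  norm_num

theorem th_arc_self (x : S2) (τ : ℝ) : arcS x x τ = x := by
  have h1 : -1 < dt x x := by rw [th_dt_self]; norm_num
  apply Subtype.ext
  rw [(arc_val x x h1 τ).1]
  unfold arcE
  have h2 : inner ℝ (x : E3) (x : E3) = 1 := th_dt_self x
  rw [h2, ← add_smul, smul_smul]
  have : ((1 + (1 : ℝ)) + τ ^ 2 * (1 - 1))⁻¹ * ((1 + 1) - τ ^ 2 * (1 - 1) - 2 * τ * 1 + 2 * τ) = 1 := by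
    norm_num
  rw [this, one_smul]

/-- the general piece -/
noncomputable def thP (x : S2) (δ : ℝ → S2) (s0 s1 u v w : ℝ) : S2 :=
  arcS x (δ (s0 + (s1 - s0) * ((1 - v) * (cl w : ℝ) + v))) ((1 - u) + u * (cl w : ℝ))

theorem th_range {s0 s1 v c : ℝ} (h : s0 ≤ s1) (hv0 : 0 ≤ v) (hv1 : v ≤ 1) (hc0 : 0 ≤ c)
    (hc1 : c ≤ 1) : s0 ≤ s0 + (s1 - s0) * ((1 - v) * c + v) ∧
      s0 + (s1 - s0) * ((1 - v) * c + v) ≤ s1 := by
  have h1 : 0 ≤ (1 - v) * c + v := by nlinarith
  have h2 : (1 - v) * c + v ≤ 1 := by nlinarith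
  constructor
  · nlinarith
  · nlinarith

theorem tri_homotopy {A : Type} [TopologicalSpace A] (γ : C(A, LL)) (τ₁ τ₂ : C(A, unitInterval))
    (h0 : ∀ a, 0 < τ₁ a ∧ τ₁ a < τ₂ a ∧ τ₂ a < 1)
    (h1 : ∀ a s, s ≤ τ₁ a → -1 < dt ((γ a).1 0) ((γ a).1 s))
    (h2 : ∀ a s, τ₁ a ≤ s → s ≤ τ₂ a → -1 < dt ((γ a).1 (τ₁ a)) ((γ a).1 s))
    (h3 : ∀ a s, τ₂ a ≤ s → -1 < dt ((γ a).1 (τ₂ a)) ((γ a).1 s)) :
    ∃ f : C(A, P3), ∀ g, IsG g → (g.comp f).Homotopic γ := by
  have hfc := th_fn_cont γ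
  have hz : ∀ a, fn (γ a).1 0 = (γ a).1 0 := by
    intro a
    unfold fn
    congr 1
    apply Subtype.ext
    rw [th_cl_eq le_rfl zero_le_one]
    rfl
  have ho : ∀ a, fn (γ a).1 1 = (γ a).1 1 := by
    intro a
    unfold fn
    congr 1
    apply Subtype.ext
    rw [th_cl_eq zero_le_one le_rfl]
    rfl
  have hzo : ∀ a, fn (γ a).1 1 = fn (γ a).1 0 := by
    intro a
    rw [hz, ho]
    exact (γ a).2.symm
  have hv1 : ∀ a, fn (γ a).1 (τ₁ a) = (γ a).1 (τ₁ a) := by
    intro a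
    unfold fn
    rw [th_cl_val]
  have hv2 : ∀ a, fn (γ a).1 (τ₂ a) = (γ a).1 (τ₂ a) := by
    intro a
    unfold fn
    rw [th_cl_val]
  have ht : ∀ a, (0 : ℝ) ≤ τ₁ a ∧ (τ₁ a : ℝ) ≤ τ₂ a ∧ (τ₂ a : ℝ) ≤ 1 := by
    intro a
    obtain ⟨k1, k2, k3⟩ := h0 a
    exact ⟨(τ₁ a).2.1, le_of_lt k2, (τ₂ a).2.2⟩
  have hd1 : ∀ a (s : ℝ), 0 ≤ s → s ≤ τ₁ a → -1 < dt (fn (γ a).1 0) (fn (γ a).1 s) := by
    intro a s hs0 hs1
    rw [hz]
    refine h1 a (cl s) ?_
    rw [← Subtype.coe_le_coe, th_cl_eq hs0 (by linarith [(ht a).2.1, (ht a).2.2])]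
    exact hs1
  have hd2 : ∀ a (s : ℝ), τ₁ a ≤ s → s ≤ τ₂ a → -1 < dt (fn (γ a).1 (τ₁ a)) (fn (γ a).1 s) := by
    intro a s hs0 hs1
    rw [hv1]
    refine h2 a (cl s) ?_ ?_
    · rw [← Subtype.coe_le_coe, th_cl_eq (by linarith [(ht a).1]) (by linarith [(ht a).2.2])]
      exact hs0
    · rw [← Subtype.coe_le_coe, th_cl_eq (by linarith [(ht a).1]) (by linarith [(ht a).2.2])]
      exact hs1
  have hd3 : ∀ a (s : ℝ), τ₂ a ≤ s → s ≤ 1 → -1 < dt (fn (γ a).1 (τ₂ a)) (fn (γ a).1 s) := by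
    intro a s hs0 hs1
    rw [hv2]
    refine h3 a (cl s) ?_
    rw [← Subtype.coe_le_coe, th_cl_eq (by linarith [(ht a).1, (ht a).2.1]) hs1]
    exact hs0
  have hc1 : Continuous fun a => ((τ₁ a : unitInterval) : ℝ) :=
    continuous_subtype_val.comp τ₁.continuous
  have hc2 : Continuous fun a => ((τ₂ a : unitInterval) : ℝ) :=
    continuous_subtype_val.comp τ₂.continuous
  have hx0 : Continuous fun a => fn (γ a).1 0 := hfc.comp (continuous_id.prodMk continuous_const)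
  have hx1 : Continuous fun a => fn (γ a).1 (τ₁ a) := hfc.comp (continuous_id.prodMk hc1)
  have hx2 : Continuous fun a => fn (γ a).1 (τ₂ a) := hfc.comp (continuous_id.prodMk hc2)
  refine ⟨⟨fun a => ⟨(fn (γ a).1 0, fn (γ a).1 (τ₁ a), fn (γ a).1 (τ₂ a)),
    hd1 a _ (ht a).1 le_rfl, hd2 a _ (ht a).2.1 le_rfl, by
      have := hd3 a 1 (ht a).2.2 le_rfl
      rw [hzo] at this
      exact this⟩, (hx0.prodMk (hx1.prodMk hx2)).subtype_mk _⟩, ?_⟩
  intro g hg
  -- reparametrisation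
  let σ : A → ℝ → ℝ := fun a t => τ₁ a * (cl (3 * t) : ℝ) + (τ₂ a - τ₁ a) * (cl (3 * t - 1) : ℝ) +
    (1 - τ₂ a) * (cl (3 * t - 2) : ℝ)
  have hclc : Continuous fun t : ℝ => ((cl t : unitInterval) : ℝ) :=
    continuous_subtype_val.comp th_cl_cont
  have hσc : Continuous fun p : A × ℝ => σ p.1 p.2 := by
    have e1 : Continuous fun p : A × ℝ => ((cl (3 * p.2) : unitInterval) : ℝ) :=
      hclc.comp (by fun_prop)
    have e2 : Continuous fun p : A × ℝ => ((cl (3 * p.2 - 1) : unitInterval) : ℝ) :=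
      hclc.comp (by fun_prop)
    have e3 : Continuous fun p : A × ℝ => ((cl (3 * p.2 - 2) : unitInterval) : ℝ) :=
      hclc.comp (by fun_prop)
    have e4 := hc1.comp (continuous_fst : Continuous fun p : A × ℝ => p.1)
    have e5 := hc2.comp (continuous_fst : Continuous fun p : A × ℝ => p.1)
    exact ((e4.mul e1).add ((e5.sub e4).mul e2)).add ((continuous_const.sub e5).mul e3)
  have hσ0 : ∀ a, σ a 0 = 0 := by
    intro a
    simp only [σ]
    rw [th_cl_low (by norm_num), th_cl_low (by norm_num), th_cl_low (by norm_num)]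
    ring
  have hσ1 : ∀ a, σ a 1 = 1 := by
    intro a
    simp only [σ]
    rw [th_cl_high (by norm_num), th_cl_high (by norm_num), th_cl_high (by norm_num)]
    ring
  obtain ⟨e1, he1⟩ := th_mk (fun a t => fn (γ a).1 (σ a t))
    (hfc.comp (continuous_fst.prodMk hσc)) (by
      intro a
      show fn (γ a).1 (σ a 0) = fn (γ a).1 (σ a 1)
      rw [hσ0, hσ1, hzo])
  have hom1 : e1.Homotopic γ := by
    refine th_hom (fun q t => fn (γ q.1).1 ((1 - (q.2 : ℝ)) * σ q.1 t + (q.2 : ℝ) * t)) ?_ ?_ _ _ ?_ ?_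
    · have k1 : Continuous fun p : (A × unitInterval) × ℝ => ((p.1.2 : unitInterval) : ℝ) :=
        continuous_subtype_val.comp (continuous_snd.comp continuous_fst)
      have k2 : Continuous fun p : (A × unitInterval) × ℝ => σ p.1.1 p.2 :=
        hσc.comp ((continuous_fst.comp continuous_fst).prodMk continuous_snd)
      exact hfc.comp ((continuous_fst.comp continuous_fst).prodMk
        (((continuous_const.sub k1).mul k2).add (k1.mul continuous_snd)))
    · intro p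
      show fn (γ p.1).1 ((1 - (p.2 : ℝ)) * σ p.1 0 + (p.2 : ℝ) * 0) =
        fn (γ p.1).1 ((1 - (p.2 : ℝ)) * σ p.1 1 + (p.2 : ℝ) * 1)
      rw [hσ0, hσ1]
      have q1 : (1 - (p.2 : ℝ)) * 0 + (p.2 : ℝ) * 0 = 0 := by ring
      have q2 : (1 - (p.2 : ℝ)) * 1 + (p.2 : ℝ) * 1 = 1 := by ring
      rw [q1, q2, hzo]
    · intro a t
      rw [he1]
      show fn (γ a).1 (σ a t) = fn (γ a).1 ((1 - ((0 : unitInterval) : ℝ)) * σ a t +
        ((0 : unitInterval) : ℝ) * t)
      congr 1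
      simp
    · intro a t
      show (γ a).1 t = fn (γ a).1 ((1 - ((1 : unitInterval) : ℝ)) * σ a t +
        ((1 : unitInterval) : ℝ) * t)
      have : (1 - ((1 : unitInterval) : ℝ)) * σ a t + ((1 : unitInterval) : ℝ) * t = t := by simp
      rw [this]
      unfold fn
      rw [th_cl_val]
  -- the main homotopy
  let U : unitInterval → ℝ := fun w => min 1 (2 * (w : ℝ))
  let W : unitInterval → ℝ := fun w => max 0 (2 * (w : ℝ) - 1)
  have hUc : Continuous U := by
    simp only [U]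
    fun_prop
  have hWc : Continuous W := by
    simp only [W]
    fun_prop
  have hW0 : ∀ w, 0 ≤ W w := fun w => le_max_left _ _
  have hW1 : ∀ w, W w ≤ 1 := fun w => max_le zero_le_one (by linarith [w.2.2])
  have hUW : ∀ w, W w = 0 ∨ U w = 1 := by
    intro w
    rcases le_total (2 * (w : ℝ)) 1 with h | h
    · left
      exact max_eq_left (by linarith)
    · right
      exact min_eq_left h
  have hpc : ∀ (x : A → S2) (s0 s1 : A → ℝ) (k m : ℝ), Continuous x → Continuous s0 →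
      Continuous s1 → (∀ a, s0 a ≤ s1 a) →
      (∀ a s, s0 a ≤ s → s ≤ s1 a → -1 < dt (x a) (fn (γ a).1 s)) →
      Continuous fun p : (A × unitInterval) × ℝ =>
        thP (x p.1.1) (fn (γ p.1.1).1) (s0 p.1.1) (s1 p.1.1) (U p.1.2) (W p.1.2) (k * p.2 - m) := by
    intro x s0 s1 k m hx hs0 hs1 hle hdt
    have ca : Continuous fun p : (A × unitInterval) × ℝ => p.1.1 :=
      continuous_fst.comp continuous_fst
    have cw : Continuous fun p : (A × unitInterval) × ℝ => p.1.2 :=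
      continuous_snd.comp continuous_fst
    have cc : Continuous fun p : (A × unitInterval) × ℝ =>
        ((cl (k * p.2 - m) : unitInterval) : ℝ) := hclc.comp (by fun_prop)
    have cU := hUc.comp cw
    have cW := hWc.comp cw
    have c0 := hs0.comp ca
    have c1' := hs1.comp ca
    have cs : Continuous fun p : (A × unitInterval) × ℝ => s0 p.1.1 + (s1 p.1.1 - s0 p.1.1) *
        ((1 - W p.1.2) * ((cl (k * p.2 - m) : unitInterval) : ℝ) + W p.1.2) :=
      c0.add ((c1'.sub c0).mul (((continuous_const.sub cW).mul cc).add cW))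
    have cτ : Continuous fun p : (A × unitInterval) × ℝ =>
        (1 - U p.1.2) + U p.1.2 * ((cl (k * p.2 - m) : unitInterval) : ℝ) :=
      (continuous_const.sub cU).add (cU.mul cc)
    have := arc_cont.comp_continuous ((hx.comp ca).prodMk ((hfc.comp (ca.prodMk cs)).prodMk cτ))
      (by
        intro p
        have hr := th_range (hle p.1.1) (hW0 p.1.2) (hW1 p.1.2) (cl (k * p.2 - m)).2.1
          (cl (k * p.2 - m)).2.2
        exact hdt p.1.1 _ hr.1 hr.2)
    exact this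
  have p1c := hpc (fun a => fn (γ a).1 0) (fun _ => 0) (fun a => τ₁ a) 3 0 hx0 continuous_const hc1
    (fun a => (ht a).1) hd1
  have p2c := hpc (fun a => fn (γ a).1 (τ₁ a)) (fun a => τ₁ a) (fun a => τ₂ a) 3 1 hx1 hc1 hc2
    (fun a => (ht a).2.1) hd2
  have p3c := hpc (fun a => fn (γ a).1 (τ₂ a)) (fun a => τ₂ a) (fun _ => 1) 3 2 hx2 hc2
    continuous_const (fun a => (ht a).2.2) hd3
  -- values at the end points of the pieces
  have vend : ∀ (x : S2) (δ : ℝ → S2) (s0 s1 u v w : ℝ), 1 ≤ w → -1 < dt x (δ s1) →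
      thP x δ s0 s1 u v w = δ s1 := by
    intro x δ s0 s1 u v w hw hdt
    unfold thP
    rw [th_cl_high hw]
    have q1 : s0 + (s1 - s0) * ((1 - v) * 1 + v) = s1 := by ring
    have q2 : (1 - u) + u * 1 = 1 := by ring
    rw [q1, q2]
    exact (arc_val x (δ s1) hdt 0).2.2.2
  have vbeg : ∀ (a : A) (s0 s1 w : ℝ) (q : unitInterval), w ≤ 0 → s0 ≤ s1 →
      (∀ s, s0 ≤ s → s ≤ s1 → -1 < dt (fn (γ a).1 s0) (fn (γ a).1 s)) →
      thP (fn (γ a).1 s0) (fn (γ a).1) s0 s1 (U q) (W q) w = fn (γ a).1 s0 := by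
    intro a s0 s1 w q hw hle hdt
    unfold thP
    rw [th_cl_low hw]
    rcases hUW q with h | h
    · rw [h]
      have q1 : s0 + (s1 - s0) * ((1 - 0) * 0 + 0) = s0 := by ring
      rw [q1]
      exact th_arc_self _ _
    · rw [h]
      have q2 : (1 - (1 : ℝ)) + 1 * 0 = 0 := by ring
      rw [q2]
      have hr := th_range hle (hW0 q) (hW1 q) le_rfl zero_le_one
      exact (arc_val _ _ (hdt _ hr.1 hr.2) 0).2.2.1
  have hom2 : (g.comp ⟨fun a => ⟨(fn (γ a).1 0, fn (γ a).1 (τ₁ a), fn (γ a).1 (τ₂ a)),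
      hd1 a _ (ht a).1 le_rfl, hd2 a _ (ht a).2.1 le_rfl, by
        have := hd3 a 1 (ht a).2.2 le_rfl
        rw [hzo] at this
        exact this⟩, (hx0.prodMk (hx1.prodMk hx2)).subtype_mk _⟩).Homotopic e1 := by
    refine ContinuousMap.Homotopic.symm ?_
    refine th_hom (fun q t =>
      if t ≤ 1 / 3 then thP (fn (γ q.1).1 0) (fn (γ q.1).1) 0 (τ₁ q.1) (U q.2) (W q.2) (3 * t - 0)
      else if t ≤ 2 / 3 then
        thP (fn (γ q.1).1 (τ₁ q.1)) (fn (γ q.1).1) (τ₁ q.1) (τ₂ q.1) (U q.2) (W q.2) (3 * t - 1)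
      else thP (fn (γ q.1).1 (τ₂ q.1)) (fn (γ q.1).1) (τ₂ q.1) 1 (U q.2) (W q.2) (3 * t - 2))
      ?_ ?_ _ _ ?_ ?_
    · refine Continuous.if_le p1c (Continuous.if_le p2c p3c continuous_snd continuous_const ?_)
        continuous_snd continuous_const ?_
      · intro p hp
        have hp' : p.2 = 2 / 3 := hp
        rw [hp']
        rw [vend _ _ _ _ _ _ _ (by norm_num) (hd2 p.1.1 _ (ht p.1.1).2.1 le_rfl),
          vbeg p.1.1 (τ₂ p.1.1) 1 _ p.1.2 (by norm_num) (ht p.1.1).2.2 (hd3 p.1.1)]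
      · intro p hp
        have hp' : p.2 = 1 / 3 := hp
        rw [hp', if_pos (by norm_num)]
        rw [vend _ _ _ _ _ _ _ (by norm_num) (hd1 p.1.1 _ (ht p.1.1).1 le_rfl),
          vbeg p.1.1 (τ₁ p.1.1) (τ₂ p.1.1) _ p.1.2 (by norm_num) (ht p.1.1).2.1 (hd2 p.1.1)]
    · intro p
      rw [if_pos (by norm_num), if_neg (by norm_num), if_neg (by norm_num),
        vbeg p.1 0 (τ₁ p.1) _ p.2 (by norm_num) (ht p.1).1 (hd1 p.1),
        vend _ _ _ _ _ _ _ (by norm_num) (hd3 p.1 _ (ht p.1).2.2 le_rfl), hzo]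
    · intro a t
      rw [he1]
      have hU0 : U 0 = 0 := by simp [U]
      have hW0' : W 0 = 0 := by simp [W]
      show fn (γ a).1 (σ a t) = _
      simp only [hU0, hW0']
      have key : ∀ (x : S2) (s0 s1 w : ℝ), -1 < dt x (fn (γ a).1 (s0 + (s1 - s0) * (cl w : ℝ))) →
          thP x (fn (γ a).1) s0 s1 0 0 w = fn (γ a).1 (s0 + (s1 - s0) * (cl w : ℝ)) := by
        intro x s0 s1 w hdt
        unfold thP
        have q1 : s0 + (s1 - s0) * ((1 - 0) * (cl w : ℝ) + 0) = s0 + (s1 - s0) * (cl w : ℝ) := by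
          ring
        have q2 : (1 - 0) + 0 * ((cl w : unitInterval) : ℝ) = 1 := by ring
        rw [q1, q2]
        exact (arc_val _ _ hdt 0).2.2.2
      have hrg : ∀ (s0 s1 w : ℝ), s0 ≤ s1 → s0 ≤ s0 + (s1 - s0) * (cl w : ℝ) ∧
          s0 + (s1 - s0) * (cl w : ℝ) ≤ s1 := by
        intro s0 s1 w h
        have := th_range h le_rfl zero_le_one (cl w).2.1 (cl w).2.2
        simpa using this
      split_ifs with c1 c2
      · have hr := hrg 0 (τ₁ a) (3 * t - 0) (ht a).1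
        rw [key _ _ _ _ (hd1 a _ hr.1 hr.2)]
        congr 1
        simp only [σ]
        rw [th_cl_low (s := 3 * (t : ℝ) - 1) (by linarith),
          th_cl_low (s := 3 * (t : ℝ) - 2) (by linarith), sub_zero (3 * (t : ℝ))]
        ring
      · have hr := hrg (τ₁ a) (τ₂ a) (3 * t - 1) (ht a).2.1
        rw [key _ _ _ _ (hd2 a _ hr.1 hr.2)]
        congr 1
        simp only [σ]
        push Not at c1
        rw [th_cl_high (s := 3 * (t : ℝ)) (by linarith),
          th_cl_low (s := 3 * (t : ℝ) - 2) (by linarith)]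
        ring
      · have hr := hrg (τ₂ a) 1 (3 * t - 2) (ht a).2.2
        rw [key _ _ _ _ (hd3 a _ hr.1 hr.2)]
        congr 1
        simp only [σ]
        push Not at c1 c2
        rw [th_cl_high (s := 3 * (t : ℝ)) (by linarith),
          th_cl_high (s := 3 * (t : ℝ) - 1) (by linarith)]
        ring
    · intro a t
      have hU1 : U 1 = 1 := by simp [U]
      have hW1' : W 1 = 1 := by
        simp only [W]
        norm_num
      refine (hg _ t).trans ?_
      simp only [hU1, hW1', ContinuousMap.coe_mk]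
      unfold tri
      have key : ∀ (x : S2) (s0 s1 w : ℝ), 0 ≤ w → w ≤ 1 →
          thP x (fn (γ a).1) s0 s1 1 1 w = arcS x (fn (γ a).1 s1) w := by
        intro x s0 s1 w hw0 hw1
        unfold thP
        have q1 : s0 + (s1 - s0) * ((1 - 1) * (cl w : ℝ) + 1) = s1 := by ring
        have q2 : (1 - 1) + 1 * ((cl w : unitInterval) : ℝ) = w := by
          rw [th_cl_eq hw0 hw1]; ring
        rw [q1, q2]
      have ht0 := t.2.1
      have ht1 := t.2.2
      split_ifs with c1 c2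
      · rw [key _ _ _ _ (by linarith) (by linarith), sub_zero]
      · push Not at c1
        rw [key _ _ _ _ (by linarith) (by linarith)]
      · push Not at c1 c2
        rw [key _ _ _ _ (by linarith) (by linarith), hzo]
  exact hom2.trans hom1

end Pool.Agent.Helper534.LS
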