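import Pool.Agent.Helper534.LS.Defs
import Pool.Agent.Helper534.LS.P_times_exist
import Pool.Agent.Helper534.LS.P_tri_homotopy

open MeasureTheory

namespace Pool.Agent.Helper534.LS



theorem b_one (a : ℝ) (ha : a < 3 * Real.pi) (j) (hj : IsJ j) : ∃ f : C(sublevel a, P3),
    ∀ g, IsG g → (g.comp f).Homotopic (j.comp (sub (sublevel a))) := by
  obtain ⟨τ₁, τ₂, h⟩ := times_exist a ha
  refine tri_homotopy (j.comp (sub (sublevel a))) τ₁ τ₂
    (fun x => ⟨(h x).1, (h x).2.1, (h x).2.2.1⟩) ?_ ?_ ?_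
  · intro x s hs
    have h1 := (h x).2.2.2.1 s hs
    change -1 < inner ℝ (((j x.1).1 0 : S2) : E3) (((j x.1).1 s : S2) : E3)
    rw [hj, hj]
    exact h1
  · intro x s hs1 hs2
    have h1 := (h x).2.2.2.2.1 s hs1 hs2
    change -1 < inner ℝ (((j x.1).1 (τ₁ x) : S2) : E3) (((j x.1).1 s : S2) : E3)
    rw [hj, hj]
    exact h1
  · intro x s hs
    have h1 := (h x).2.2.2.2.2 s hs
    change -1 < inner ℝ (((j x.1).1 (τ₂ x) : S2) : E3) (((j x.1).1 s : S2) : E3)
    rw [hj, hj]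
    exact h1

end Pool.Agent.Helper534.LS
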