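import Pool.Agent.Helper534.LS.Defs
import Pool.Agent.Helper534.LS.P_pth_cont

open MeasureTheory

namespace Pool.Agent.Helper534.LS



theorem mkh_aeS (S : Finset ℝ) : ∀ᵐ t : unitInterval ∂volume, (t : ℝ) ∉ S := by
  have hf : Set.Finite {t : unitInterval | (t : ℝ) ∈ S} :=
    S.finite_toSet.preimage Subtype.val_injective.injOn
  have := hf.measure_zero (volume : Measure unitInterval)
  rw [ae_iff]
  simpa using this

theorem mkh_sq (x : L2) : ‖x‖ ^ 2 = ∫ t, ‖x t‖ ^ 2 := by
  rw [← real_inner_self_eq_norm_sq, L2.inner_def]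
  refine integral_congr_ae (Filter.Eventually.of_forall fun t => ?_)
  simp only [real_inner_self_eq_norm_sq]

theorem mkh_set (g : ℝ → E3) (t : unitInterval) :
    ∫ s in Set.Iic t, g s = ∫ x in (0 : ℝ)..(t : ℝ), g x := by
  have h := unitInterval.measurePreserving_coe.setIntegral_preimage_emb
    unitInterval.measurableEmbedding_coe g (Set.Iic (t : ℝ))
  have e : ((↑) : unitInterval → ℝ) ⁻¹' (Set.Iic (t : ℝ)) = Set.Iic t := rfl
  rw [e] at h
  rw [h, Measure.restrict_restrict measurableSet_Iic]
  have e2 : Set.Iic (t : ℝ) ∩ unitInterval = Set.Icc 0 (t : ℝ) := by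
    ext x
    simp only [Set.mem_inter_iff, Set.mem_Iic, unitInterval, Set.mem_Icc]
    constructor
    · rintro ⟨h1, h2, h3⟩; exact ⟨h2, h1⟩
    · rintro ⟨h1, h2⟩; exact ⟨h2, h1, h2.trans t.2.2⟩
  rw [e2, integral_Icc_eq_integral_Ioc, intervalIntegral.integral_of_le t.2.1]

theorem mkh_set' (g : ℝ → ℝ) : ∫ s : unitInterval, g s = ∫ x in (0 : ℝ)..1, g x := by
  have h := unitInterval.measurePreserving_coe.integral_comp
    unitInterval.measurableEmbedding_coe g
  rw [h, intervalIntegral.integral_of_le zero_le_one, ← integral_Icc_eq_integral_Ioc]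

theorem mk_hloop {A : Type} [TopologicalSpace A] (F V : A → ℝ → E3)
    (hF : Continuous fun q : A × ℝ => F q.1 q.2)
    (S : Finset ℝ) (hV : ContinuousOn (fun q : A × ℝ => V q.1 q.2) {q | q.2 ∉ S})
    (hVb : ∀ a, ∃ C, ∃ U ∈ nhds a, ∀ b ∈ U, ∀ t ∈ Set.Icc (0 : ℝ) 1, ‖V b t‖ ≤ C)
    (hd : ∀ a, ∀ t ∈ Set.Ioo (0 : ℝ) 1, t ∉ S → HasDerivAt (F a) (V a t) t)
    (h1 : ∀ a, ∀ t ∈ Set.Icc (0 : ℝ) 1, ‖F a t‖ = 1) (h2 : ∀ a, F a 0 = F a 1) :
    ∃ f : C(A, HLoop), (∀ a (t : unitInterval), pth (f a).1.1 (f a).1.2 t = F a t) ∧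
      ∀ a, len (f a) = ∫ t in (0 : ℝ)..1, ‖V a t‖ := by
  have hbd : ∀ a, ∃ C, 0 ≤ C ∧ ∀ᶠ b in nhds a, ∀ t : unitInterval, ‖V b t‖ ≤ C := by
    intro a
    obtain ⟨C, U, hU, hC⟩ := hVb a
    refine ⟨max C 0, le_max_right _ _, ?_⟩
    filter_upwards [hU] with b hb t
    exact (hC b hb t t.2).trans (le_max_left _ _)
  have hmeas : ∀ a, AEStronglyMeasurable (fun t : unitInterval => V a t) volume := by
    intro a
    have hc : ContinuousOn (fun t : unitInterval => V a t) {t : unitInterval | (t : ℝ) ∉ S} := by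
      have : ContinuousOn ((fun q : A × ℝ => V q.1 q.2) ∘ (fun t : unitInterval => (a, (t : ℝ))))
          {t : unitInterval | (t : ℝ) ∉ S} :=
        hV.comp (by fun_prop) (fun t ht => ht)
      exact this
    have hms : MeasurableSet {t : unitInterval | (t : ℝ) ∉ S} := by
      have : MeasurableSet ((S : Set ℝ)ᶜ) := S.measurableSet.compl
      exact measurable_subtype_coe this
    have h := hc.aestronglyMeasurable (μ := (volume : Measure unitInterval)) hms
    have hr : (volume : Measure unitInterval).restrict {t : unitInterval | (t : ℝ) ∉ S} = volume :=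
      Measure.restrict_eq_self_of_ae_mem (s := {t : unitInterval | (t : ℝ) ∉ S}) (mkh_aeS S)
    rwa [hr] at h
  have hmem : ∀ a, MemLp (fun t : unitInterval => V a t) 2 volume := by
    intro a
    obtain ⟨C, _, hC⟩ := hbd a
    exact MemLp.of_bound (hmeas a) C (Filter.Eventually.of_forall hC.self_of_nhds)
  set v : A → L2 := fun a => (hmem a).toLp _ with hvdef
  have hv : ∀ a, (v a : unitInterval → E3) =ᵐ[volume] fun t => V a t :=
    fun a => (hmem a).coeFn_toLp
  have hint : ∀ a, IntegrableOn (V a) (Set.Icc 0 1) volume := by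
    intro a
    have h := (hmem a).integrable (by norm_num)
    exact (unitInterval.measurePreserving_coe.integrable_comp_emb
      unitInterval.measurableEmbedding_coe (g := V a)).1 h
  have hFa : ∀ a, Continuous (F a) := fun a => hF.comp (by fun_prop : Continuous fun t : ℝ => (a, t))
  have hftc : ∀ a (t : unitInterval), pth (F a 0) (v a) t = F a t := by
    intro a t
    unfold pth
    have e1 : ∫ s in Set.Iic t, (v a : unitInterval → E3) s = ∫ s in Set.Iic t, V a s :=
      integral_congr_ae (ae_restrict_of_ae (hv a))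
    rw [e1, mkh_set (V a) t]
    have h := MeasureTheory.integral_eq_of_hasDerivAt_off_countable_of_le (F a) (V a) t.2.1
      (s := (S : Set ℝ)) S.countable_toSet (hFa a).continuousOn
      (fun x hx => hd a x ⟨hx.1.1, hx.1.2.trans_le t.2.2⟩ (by simpa using hx.2))
      (by
        rw [intervalIntegrable_iff_integrableOn_Icc_of_le t.2.1]
        exact (hint a).mono_set (Set.Icc_subset_Icc_right t.2.2))
    rw [h]
    abel
  have hcont : Continuous v := by
    rw [continuous_iff_continuousAt]
    intro a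
    unfold ContinuousAt
    rw [Metric.tendsto_nhds]
    intro ε hε
    obtain ⟨C, hC0, hC⟩ := hbd a
    set η : ℝ := ε ^ 2 / (16 * (C ^ 2 + 1)) with hη
    have hη0 : 0 < η := by positivity
    have hnull : (volume : Measure unitInterval) {t : unitInterval | (t : ℝ) ∈ S} < ENNReal.ofReal η := by
      have hf : Set.Finite {t : unitInterval | (t : ℝ) ∈ S} :=
        S.finite_toSet.preimage Subtype.val_injective.injOn
      rw [hf.measure_zero (volume : Measure unitInterval)]
      exact ENNReal.ofReal_pos.2 hη0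
    obtain ⟨O, hSO, hO, hOη⟩ := Set.exists_isOpen_lt_of_lt _ _ hnull
    have hOr : (volume : Measure unitInterval).real O ≤ η := by
      unfold Measure.real
      exact ENNReal.toReal_le_of_le_ofReal hη0.le hOη.le
    -- uniform convergence on the complement of `O`
    have hcts : Continuous (fun q : A × (Oᶜ : Set unitInterval) => V q.1 (q.2 : unitInterval)) := by
      have : Continuous ((fun q : A × ℝ => V q.1 q.2) ∘
          (fun q : A × (Oᶜ : Set unitInterval) => (q.1, ((q.2 : unitInterval) : ℝ)))) :=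
        hV.comp_continuous (by fun_prop) (fun q h => q.2.2 (hSO h))
      exact this
    haveI : CompactSpace (Oᶜ : Set unitInterval) :=
      isCompact_iff_compactSpace.1 hO.isClosed_compl.isCompact
    let Φ : C(A × (Oᶜ : Set unitInterval), E3) := ⟨_, hcts⟩
    have hΦ := (Φ.curry.continuous.tendsto a)
    rw [Metric.tendsto_nhds] at hΦ
    have hΦ2 := hΦ (ε / 2) (by positivity)
    filter_upwards [hΦ2, hC] with b hb1 hb2
    have hC1 : ∀ t : unitInterval, ‖V a t‖ ≤ C := hC.self_of_nhds
    have hK : ∀ t : unitInterval, t ∉ O → ‖V b t - V a t‖ ≤ ε / 2 := by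
      intro t ht
      have := (ContinuousMap.dist_apply_le_dist (f := Φ.curry b) (g := Φ.curry a) ⟨t, ht⟩)
      rw [← dist_eq_norm]
      exact this.trans hb1.le
    have hpt : ∀ t : unitInterval, ‖V b t - V a t‖ ^ 2 ≤
        ε ^ 2 / 4 + O.indicator (fun _ => 4 * C ^ 2) t := by
      intro t
      by_cases ht : t ∈ O
      · rw [Set.indicator_of_mem ht]
        have g1 : ‖V b t - V a t‖ ≤ 2 * C := by
          have := norm_sub_le (V b t) (V a t)
          have := hb2 t
          have := hC1 t
          linarith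
        have g2 := pow_le_pow_left₀ (norm_nonneg _) g1 2
        nlinarith [sq_nonneg ε]
      · rw [Set.indicator_of_notMem ht, add_zero]
        have g2 := pow_le_pow_left₀ (norm_nonneg _) (hK t ht) 2
        calc _ ≤ _ := g2
          _ = _ := by ring
    have hsq : ‖v b - v a‖ ^ 2 ≤ ε ^ 2 / 4 + 4 * C ^ 2 * η := by
      rw [mkh_sq]
      have e1 : ∫ t, ‖(v b - v a : L2) t‖ ^ 2 = ∫ t : unitInterval, ‖V b t - V a t‖ ^ 2 := by
        apply integral_congr_ae
        filter_upwards [Lp.coeFn_sub (v b) (v a), hv a, hv b] with t ht1 ht2 ht3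
        rw [ht1, Pi.sub_apply, ht2, ht3]
      rw [e1]
      have hi : Integrable (fun t : unitInterval => ε ^ 2 / 4 + O.indicator (fun _ => 4 * C ^ 2) t)
          volume := (integrable_const _).add ((integrable_const _).indicator hO.measurableSet)
      refine (integral_mono_of_nonneg (Filter.Eventually.of_forall fun t => by positivity) hi
        (Filter.Eventually.of_forall hpt)).trans ?_
      rw [integral_add (integrable_const _) ((integrable_const _).indicator hO.measurableSet),
        integral_indicator_const _ hO.measurableSet]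
      simp only [integral_const, probReal_univ, smul_eq_mul, one_mul]
      have := mul_le_mul_of_nonneg_right hOr (show 0 ≤ 4 * C ^ 2 by positivity)
      linarith
    have hfin : 4 * C ^ 2 * η ≤ ε ^ 2 / 4 := by
      rw [hη, mul_div_assoc', div_le_div_iff₀ (by positivity) (by norm_num)]
      nlinarith [sq_nonneg C, sq_nonneg ε, mul_nonneg (sq_nonneg C) (sq_nonneg ε)]
    rw [dist_eq_norm]
    apply lt_of_pow_lt_pow_left₀ 2 hε.le
    have : 0 < ε ^ 2 := by positivity
    linarith
  refine ⟨⟨fun a => ⟨(F a 0, v a), ?_, ?_⟩, ?_⟩, ?_, ?_⟩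
  · intro t
    rw [hftc a t]
    exact h1 a t t.2
  · rw [hftc a 1]
    exact (h2 a).symm
  · exact Continuous.subtype_mk ((hF.comp (by fun_prop : Continuous fun a : A => (a, (0 : ℝ)))).prodMk
      hcont) _
  · intro a t
    exact hftc a t
  · intro a
    unfold len
    have e1 : ∫ s, ‖((v a : L2) : unitInterval → E3) s‖ = ∫ s : unitInterval, ‖V a s‖ := by
      apply integral_congr_ae
      filter_upwards [hv a] with s hs
      rw [hs]
    exact e1.trans (mkh_set' (fun s => ‖V a s‖))

end Pool.Agent.Helper534.LS
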