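import Pool.Agent.Helper534.LS.Defs
import Pool.Agent.Helper534.LS.P_arc_val
import Pool.Agent.Helper534.LS.P_arc_cont
import Pool.Agent.Helper534.LS.P_mk_hloop

open MeasureTheory

namespace Pool.Agent.Helper534.LS



/-- the velocity of the arc -/
noncomputable def g1V (x y : E3) (τ : ℝ) : E3 :=
  ((((1 + inner ℝ x y) + τ ^ 2 * (1 - inner ℝ x y))⁻¹) ^ 2) •
    ((-4 * τ * (1 - inner ℝ x y) * (1 + inner ℝ x y) -
        inner ℝ x y * (2 * ((1 + inner ℝ x y) - τ ^ 2 * (1 - inner ℝ x y)))) • x +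
      (2 * ((1 + inner ℝ x y) - τ ^ 2 * (1 - inner ℝ x y))) • y)

theorem g1_N {d : ℝ} (h : -1 < d) (h1 : d ≤ 1) (τ : ℝ) : 0 < (1 + d) + τ ^ 2 * (1 - d) := by
  have : 0 ≤ τ ^ 2 * (1 - d) := mul_nonneg (sq_nonneg _) (by linarith)
  linarith

theorem g1_dt_le (x y : S2) : inner ℝ (x : E3) (y : E3) ≤ 1 := by
  have h := real_inner_le_norm (x : E3) (y : E3)
  rw [norm_eq_of_mem_sphere x, norm_eq_of_mem_sphere y] at h
  linarith

theorem g1_deriv (x y : E3) (τ : ℝ) (h : (1 + inner ℝ x y) + τ ^ 2 * (1 - inner ℝ x y) ≠ 0) :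
    HasDerivAt (arcE x y) (g1V x y τ) τ := by
  have hN : HasDerivAt (fun τ : ℝ => (1 + inner ℝ x y) + τ ^ 2 * (1 - inner ℝ x y))
      (2 * τ * (1 - inner ℝ x y)) τ := by
    have := (((hasDerivAt_id τ).pow 2).mul_const (1 - inner ℝ x y)).const_add (1 + inner ℝ x y)
    simpa using this
  have hNi := hN.inv h
  have hc : HasDerivAt (fun τ : ℝ => (1 + inner ℝ x y) - τ ^ 2 * (1 - inner ℝ x y) -
      2 * τ * inner ℝ x y) (-(2 * τ * (1 - inner ℝ x y)) - 2 * inner ℝ x y) τ := by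
    have h1 : HasDerivAt (fun τ : ℝ => (1 + inner ℝ x y) - τ ^ 2 * (1 - inner ℝ x y))
        (-(2 * τ * (1 - inner ℝ x y))) τ := by
      have := (((hasDerivAt_id τ).pow 2).mul_const (1 - inner ℝ x y)).const_sub (1 + inner ℝ x y)
      simpa using this
    have h2 : HasDerivAt (fun τ : ℝ => 2 * τ * inner ℝ x y) (2 * inner ℝ x y) τ := by
      have := ((hasDerivAt_id τ).const_mul 2).mul_const (inner ℝ x y)
      simpa using this
    exact h1.sub h2
  have h2 : HasDerivAt (fun τ : ℝ => 2 * τ) 2 τ := by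
    simpa using (hasDerivAt_id τ).const_mul 2
  have hP := (hc.smul_const x).add (h2.smul_const y)
  have hA := hNi.smul hP
  convert! hA using 1
  unfold g1V
  simp only [Pi.add_apply, Pi.inv_apply]
  match_scalars <;> field_simp <;> ring

theorem g1_norm (x y : E3) (hx : ‖x‖ = 1) (hy : ‖y‖ = 1) (h : -1 < inner ℝ x y)
    (h1 : inner ℝ x y ≤ (1 : ℝ)) (τ : ℝ) :
    ‖g1V x y τ‖ = 2 * √(1 - inner ℝ x y ^ 2) / ((1 + inner ℝ x y) + τ ^ 2 * (1 - inner ℝ x y)) := by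
  set d : ℝ := inner ℝ x y with hd
  have hN : 0 < (1 + d) + τ ^ 2 * (1 - d) := g1_N h h1 τ
  have h0 : 0 ≤ 1 - d ^ 2 := by nlinarith
  have hs : √(1 - d ^ 2) ^ 2 = 1 - d ^ 2 := Real.sq_sqrt h0
  have hab : ∀ a b : ℝ, ‖a • x + b • y‖ ^ 2 = a ^ 2 + b ^ 2 + 2 * a * b * d := by
    intro a b
    rw [norm_add_sq_real, norm_smul, norm_smul, hx, hy, real_inner_smul_left,
      real_inner_smul_right, ← hd]
    rw [mul_one, mul_one, Real.norm_eq_abs, Real.norm_eq_abs, sq_abs, sq_abs]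
    ring
  have hsq : ‖g1V x y τ‖ ^ 2 = (2 * √(1 - d ^ 2) / ((1 + d) + τ ^ 2 * (1 - d))) ^ 2 := by
    unfold g1V
    rw [norm_smul, mul_pow, ← hd, hab]
    have e4 : (2 * √(1 - d ^ 2)) ^ 2 = 4 * (1 - d ^ 2) := by
      rw [mul_pow, hs]; norm_num
    rw [Real.norm_eq_abs, sq_abs, div_pow, e4]
    field_simp
    ring
  have hr : 0 ≤ 2 * √(1 - d ^ 2) / ((1 + d) + τ ^ 2 * (1 - d)) :=
    div_nonneg (mul_nonneg (by norm_num) (Real.sqrt_nonneg _)) hN.le
  exact (sq_eq_sq₀ (norm_nonneg _) hr).mp hsq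

theorem g1_arctan {d : ℝ} (h : -1 < d) (h1 : d ≤ 1) (c t : ℝ) :
    HasDerivAt (fun t : ℝ => 2 * Real.arctan (√(1 - d ^ 2) / (1 + d) * (3 * t - c)))
      (3 * (2 * √(1 - d ^ 2) / ((1 + d) + (3 * t - c) ^ 2 * (1 - d)))) t := by
  have h0 : 0 ≤ 1 - d ^ 2 := by nlinarith
  have hs : √(1 - d ^ 2) ^ 2 = 1 - d ^ 2 := Real.sq_sqrt h0
  have hd0 : (0 : ℝ) < 1 + d := by linarith
  have hN := g1_N h h1 (3 * t - c)
  have hl : HasDerivAt (fun t : ℝ => √(1 - d ^ 2) / (1 + d) * (3 * t - c))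
      (√(1 - d ^ 2) / (1 + d) * 3) t := by
    have := (((hasDerivAt_id t).const_mul 3).sub_const c).const_mul (√(1 - d ^ 2) / (1 + d))
    simpa using this
  have ha := (hl.arctan).const_mul 2
  convert! ha using 1
  have e : 1 + (√(1 - d ^ 2) / (1 + d) * (3 * t - c)) ^ 2 =
      ((1 + d) + (3 * t - c) ^ 2 * (1 - d)) / (1 + d) := by
    rw [mul_pow, div_pow, hs]
    field_simp
    ring
  rw [e]
  field_simp

theorem g1_int {d : ℝ} (h : -1 < d) (h1 : d ≤ 1) (c a b : ℝ) :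
    IntervalIntegrable (fun t : ℝ => 3 * (2 * √(1 - d ^ 2) /
      ((1 + d) + (3 * t - c) ^ 2 * (1 - d)))) volume a b ∧
    ∫ t in a..b, 3 * (2 * √(1 - d ^ 2) / ((1 + d) + (3 * t - c) ^ 2 * (1 - d))) =
      2 * Real.arctan (√(1 - d ^ 2) / (1 + d) * (3 * b - c)) -
      2 * Real.arctan (√(1 - d ^ 2) / (1 + d) * (3 * a - c)) := by
  have hc : Continuous (fun t : ℝ => 3 * (2 * √(1 - d ^ 2) /
      ((1 + d) + (3 * t - c) ^ 2 * (1 - d)))) := by
    refine continuous_const.mul (continuous_const.div (by fun_prop) fun t => ?_)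
    exact (g1_N h h1 (3 * t - c)).ne'
  refine ⟨hc.intervalIntegrable _ _, ?_⟩
  exact intervalIntegral.integral_eq_sub_of_hasDerivAt (fun t _ => g1_arctan h h1 c t)
    (hc.intervalIntegrable _ _)

theorem g1_len1 {d : ℝ} (h : -1 < d) (h1 : d ≤ 1) (c a b : ℝ) (hb : 3 * b - c = 1)
    (ha : 3 * a - c = 0) :
    ∫ t in a..b, 3 * (2 * √(1 - d ^ 2) / ((1 + d) + (3 * t - c) ^ 2 * (1 - d))) < Real.pi := by
  rw [(g1_int h h1 c a b).2, ha, hb, mul_zero, Real.arctan_zero, mul_zero, sub_zero]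
  have := Real.arctan_lt_pi_div_two (√(1 - d ^ 2) / (1 + d) * 1)
  linarith

/-- the velocity of the triangle -/
noncomputable def g1W (x y z : E3) (t : ℝ) : E3 :=
  if t ≤ 1 / 3 then (3 : ℝ) • g1V x y (3 * t) else if t ≤ 2 / 3 then (3 : ℝ) • g1V y z (3 * t - 1)
    else (3 : ℝ) • g1V z x (3 * t - 2)

theorem g1_V_cont {Y : Type} [TopologicalSpace Y] (u w : Y → S2) (r : Y → ℝ)
    (hu : Continuous u) (hw : Continuous w) (hr : Continuous r)
    (h : ∀ q, -1 < dt (u q) (w q)) :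
    Continuous fun q => (3 : ℝ) • g1V (u q : E3) (w q : E3) (r q) := by
  have hu' : Continuous fun q => (u q : E3) := continuous_subtype_val.comp hu
  have hw' : Continuous fun q => (w q : E3) := continuous_subtype_val.comp hw
  have hi : Continuous fun q => inner ℝ (u q : E3) (w q : E3) := hu'.inner hw'
  unfold g1V
  have s1 : Continuous fun q => ((((1 + inner ℝ (u q : E3) (w q : E3)) +
      (r q) ^ 2 * (1 - inner ℝ (u q : E3) (w q : E3)))⁻¹) ^ 2) := by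
    refine Continuous.pow (Continuous.inv₀ (by fun_prop) fun q => ?_) 2
    exact (g1_N (h q) (g1_dt_le _ _) (r q)).ne'
  have s2 : Continuous fun q => (-4 * (r q) * (1 - inner ℝ (u q : E3) (w q : E3)) *
      (1 + inner ℝ (u q : E3) (w q : E3)) - inner ℝ (u q : E3) (w q : E3) *
      (2 * ((1 + inner ℝ (u q : E3) (w q : E3)) -
        (r q) ^ 2 * (1 - inner ℝ (u q : E3) (w q : E3))))) := by fun_prop
  have s3 : Continuous fun q => (2 * ((1 + inner ℝ (u q : E3) (w q : E3)) -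
        (r q) ^ 2 * (1 - inner ℝ (u q : E3) (w q : E3)))) := by fun_prop
  exact (s1.smul ((s2.smul hu').add (s3.smul hw'))).const_smul (3 : ℝ)

theorem g1_S_cont {Y : Type} [TopologicalSpace Y] (u w : Y → S2) (r : Y → ℝ)
    (hu : Continuous u) (hw : Continuous w) (hr : Continuous r)
    (h : ∀ q, -1 < dt (u q) (w q)) : Continuous fun q => arcS (u q) (w q) (r q) := by
  have h1 := arc_cont.comp_continuous (f := fun q : Y => (u q, w q, r q)) (by fun_prop)
    (fun q => h q)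
  exact h1

theorem g1_V_bound (x y : S2) (h : -1 < dt x y) (τ : ℝ) :
    ‖(3 : ℝ) • g1V (x : E3) (y : E3) τ‖ ≤ 6 / (1 + dt x y) := by
  have h' : -1 < inner ℝ (x : E3) (y : E3) := h
  have h1 := g1_dt_le x y
  rw [norm_smul, g1_norm _ _ (norm_eq_of_mem_sphere x) (norm_eq_of_mem_sphere y) h' h1]
  have hN := g1_N h' h1 τ
  have h0 : (0 : ℝ) < 1 + inner ℝ (x : E3) (y : E3) := by linarith
  have hs : √(1 - inner ℝ (x : E3) (y : E3) ^ 2) ≤ 1 := by
    refine Real.sqrt_le_iff.mpr ⟨by norm_num, ?_⟩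
    nlinarith [sq_nonneg (inner ℝ (x : E3) (y : E3))]
  have hle : (1 + inner ℝ (x : E3) (y : E3)) ≤
      (1 + inner ℝ (x : E3) (y : E3)) + τ ^ 2 * (1 - inner ℝ (x : E3) (y : E3)) := by
    have : 0 ≤ τ ^ 2 * (1 - inner ℝ (x : E3) (y : E3)) :=
      mul_nonneg (sq_nonneg _) (by linarith)
    linarith
  show ‖(3 : ℝ)‖ * (2 * √(1 - inner ℝ (x : E3) (y : E3) ^ 2) /
    ((1 + inner ℝ (x : E3) (y : E3)) + τ ^ 2 * (1 - inner ℝ (x : E3) (y : E3)))) ≤
    6 / (1 + inner ℝ (x : E3) (y : E3))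
  rw [Real.norm_eq_abs, abs_of_pos (by norm_num : (0 : ℝ) < 3), ← mul_div_assoc]
  have hnum : 3 * (2 * √(1 - inner ℝ (x : E3) (y : E3) ^ 2)) ≤ 6 := by linarith
  exact div_le_div₀ (by norm_num) hnum h0 hle

theorem g1_exists : ∃ g, IsG1 g ∧ ∀ x, len (g x) < 3 * Real.pi := by
  let F : P3 → ℝ → E3 := fun x t => (tri x.1.1 x.1.2.1 x.1.2.2 t : S2)
  let V : P3 → ℝ → E3 := fun x t => g1W (x.1.1 : E3) (x.1.2.1 : E3) (x.1.2.2 : E3) t
  have c1 : Continuous fun q : P3 × ℝ => q.1.1.1 := by fun_prop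
  have c2 : Continuous fun q : P3 × ℝ => q.1.1.2.1 := by fun_prop
  have c3 : Continuous fun q : P3 × ℝ => q.1.1.2.2 := by fun_prop
  have hF : Continuous fun q : P3 × ℝ => F q.1 q.2 := by
    have h1 : Continuous fun q : P3 × ℝ => tri q.1.1.1 q.1.1.2.1 q.1.1.2.2 q.2 := by
      unfold tri
      refine Continuous.if_le ?_ ?_ continuous_snd continuous_const ?_
      · exact g1_S_cont _ _ _ c1 c2 (by fun_prop) (fun q => q.1.2.1)
      · refine Continuous.if_le ?_ ?_ continuous_snd continuous_const ?_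
        · exact g1_S_cont _ _ _ c2 c3 (by fun_prop) (fun q => q.1.2.2.1)
        · exact g1_S_cont _ _ _ c3 c1 (by fun_prop) (fun q => q.1.2.2.2)
        · intro q hq
          rw [hq]
          have e1 : (3 : ℝ) * (2 / 3) - 1 = 1 := by norm_num
          have e2 : (3 : ℝ) * (2 / 3) - 2 = 0 := by norm_num
          rw [e1, e2, (arc_val _ _ q.1.2.2.1 0).2.2.2, (arc_val _ _ q.1.2.2.2 0).2.2.1]
      · intro q hq
        rw [hq]
        have e1 : (3 : ℝ) * (1 / 3) = 1 := by norm_num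
        have e2 : (1 : ℝ) - 1 = 0 := by norm_num
        rw [if_pos (by norm_num : (1 / 3 : ℝ) ≤ 2 / 3), e1, e2,
          (arc_val _ _ q.1.2.1 0).2.2.2, (arc_val _ _ q.1.2.2.1 0).2.2.1]
    exact continuous_subtype_val.comp h1
  have v1 : Continuous fun q : P3 × ℝ => (3 : ℝ) • g1V (q.1.1.1 : E3) (q.1.1.2.1 : E3) (3 * q.2) :=
    g1_V_cont _ _ _ c1 c2 (by fun_prop) (fun q => q.1.2.1)
  have v2 : Continuous fun q : P3 × ℝ =>
      (3 : ℝ) • g1V (q.1.1.2.1 : E3) (q.1.1.2.2 : E3) (3 * q.2 - 1) :=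
    g1_V_cont _ _ _ c2 c3 (by fun_prop) (fun q => q.1.2.2.1)
  have v3 : Continuous fun q : P3 × ℝ =>
      (3 : ℝ) • g1V (q.1.1.2.2 : E3) (q.1.1.1 : E3) (3 * q.2 - 2) :=
    g1_V_cont _ _ _ c3 c1 (by fun_prop) (fun q => q.1.2.2.2)
  have hV : ContinuousOn (fun q : P3 × ℝ => V q.1 q.2)
      {q | q.2 ∉ ({1 / 3, 2 / 3} : Finset ℝ)} := by
    intro q hq
    have hq' : q.2 ≠ 1 / 3 ∧ q.2 ≠ 2 / 3 := by
      simpa [not_or] using hq
    apply ContinuousAt.continuousWithinAt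
    rcases lt_or_gt_of_ne hq'.1 with h | h
    · refine v1.continuousAt.congr ?_
      have : ∀ᶠ r : P3 × ℝ in nhds q, r.2 < 1 / 3 :=
        (continuous_snd.tendsto q).eventually (gt_mem_nhds h)
      filter_upwards [this] with r hr
      show _ = g1W _ _ _ _
      unfold g1W
      rw [if_pos hr.le]
    · rcases lt_or_gt_of_ne hq'.2 with h' | h'
      · refine v2.continuousAt.congr ?_
        have t1 : ∀ᶠ r : P3 × ℝ in nhds q, 1 / 3 < r.2 :=
          (continuous_snd.tendsto q).eventually (lt_mem_nhds h)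
        have t2 : ∀ᶠ r : P3 × ℝ in nhds q, r.2 < 2 / 3 :=
          (continuous_snd.tendsto q).eventually (gt_mem_nhds h')
        filter_upwards [t1, t2] with r hr hr'
        show _ = g1W _ _ _ _
        unfold g1W
        rw [if_neg (not_le.mpr hr), if_pos hr'.le]
      · refine v3.continuousAt.congr ?_
        have t2 : ∀ᶠ r : P3 × ℝ in nhds q, 2 / 3 < r.2 :=
          (continuous_snd.tendsto q).eventually (lt_mem_nhds h')
        filter_upwards [t2] with r hr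
        show _ = g1W _ _ _ _
        unfold g1W
        rw [if_neg (not_le.mpr (by linarith)), if_neg (not_le.mpr hr)]
  have hd1 : Continuous fun a : P3 => dt a.1.1 a.1.2.1 := by unfold dt; fun_prop
  have hd2 : Continuous fun a : P3 => dt a.1.2.1 a.1.2.2 := by unfold dt; fun_prop
  have hd3 : Continuous fun a : P3 => dt a.1.2.2 a.1.1 := by unfold dt; fun_prop
  have hVb : ∀ a, ∃ C, ∃ U ∈ nhds a, ∀ b ∈ U, ∀ t ∈ Set.Icc (0 : ℝ) 1, ‖V b t‖ ≤ C := by
    intro a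
    set e1 := (1 + dt a.1.1 a.1.2.1) / 2 with he1
    set e2 := (1 + dt a.1.2.1 a.1.2.2) / 2 with he2
    set e3 := (1 + dt a.1.2.2 a.1.1) / 2 with he3
    have p1 : 0 < e1 := by have := a.2.1; rw [he1]; linarith
    have p2 : 0 < e2 := by have := a.2.2.1; rw [he2]; linarith
    have p3 : 0 < e3 := by have := a.2.2.2; rw [he3]; linarith
    have n1 : ∀ᶠ b in nhds a, e1 - 1 < dt b.1.1 b.1.2.1 :=
      (hd1.tendsto a).eventually (lt_mem_nhds (by have := a.2.1; rw [he1]; linarith))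
    have n2 : ∀ᶠ b in nhds a, e2 - 1 < dt b.1.2.1 b.1.2.2 :=
      (hd2.tendsto a).eventually (lt_mem_nhds (by have := a.2.2.1; rw [he2]; linarith))
    have n3 : ∀ᶠ b in nhds a, e3 - 1 < dt b.1.2.2 b.1.1 :=
      (hd3.tendsto a).eventually (lt_mem_nhds (by have := a.2.2.2; rw [he3]; linarith))
    refine ⟨6 / e1 + 6 / e2 + 6 / e3, _, n1.and (n2.and n3), ?_⟩
    rintro b ⟨b1, b2, b3⟩ t -
    have q1 : 0 < 6 / e1 := by positivity
    have q2 : 0 < 6 / e2 := by positivity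
    have q3 : 0 < 6 / e3 := by positivity
    show ‖g1W _ _ _ _‖ ≤ _
    unfold g1W
    split_ifs
    · have h1 := g1_V_bound b.1.1 b.1.2.1 b.2.1 (3 * t)
      have h2 : 6 / (1 + dt b.1.1 b.1.2.1) ≤ 6 / e1 :=
        div_le_div_of_nonneg_left (by norm_num) p1 (by linarith)
      linarith
    · have h1 := g1_V_bound b.1.2.1 b.1.2.2 b.2.2.1 (3 * t - 1)
      have h2 : 6 / (1 + dt b.1.2.1 b.1.2.2) ≤ 6 / e2 :=
        div_le_div_of_nonneg_left (by norm_num) p2 (by linarith)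
      linarith
    · have h1 := g1_V_bound b.1.2.2 b.1.1 b.2.2.2 (3 * t - 2)
      have h2 : 6 / (1 + dt b.1.2.2 b.1.1) ≤ 6 / e3 :=
        div_le_div_of_nonneg_left (by norm_num) p3 (by linarith)
      linarith
  have key : ∀ (x y : S2) (h : -1 < dt x y) (c t : ℝ),
      HasDerivAt (fun s : ℝ => ((arcS x y (3 * s - c) : S2) : E3))
        ((3 : ℝ) • g1V (x : E3) (y : E3) (3 * t - c)) t := by
    intro x y h c t
    have e : (fun s : ℝ => ((arcS x y (3 * s - c) : S2) : E3)) =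
        fun s : ℝ => arcE (x : E3) (y : E3) (3 * s - c) := by
      funext s
      exact (arc_val x y h _).1
    rw [e]
    have h1 := g1_deriv (x : E3) (y : E3) (3 * t - c) (g1_N h (g1_dt_le _ _) _).ne'
    have h2 : HasDerivAt (fun s : ℝ => 3 * s - c) 3 t := by
      simpa using ((hasDerivAt_id t).const_mul 3).sub_const c
    exact h1.scomp t h2
  have hd : ∀ a, ∀ t ∈ Set.Ioo (0 : ℝ) 1, t ∉ ({1 / 3, 2 / 3} : Finset ℝ) →
      HasDerivAt (F a) (V a t) t := by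
    intro a t _ ht
    have ht' : t ≠ 1 / 3 ∧ t ≠ 2 / 3 := by
      simpa [not_or] using ht
    rcases lt_or_gt_of_ne ht'.1 with h | h
    · have hk := key a.1.1 a.1.2.1 a.2.1 0 t
      simp only [sub_zero] at hk
      have hv : V a t = (3 : ℝ) • g1V (a.1.1 : E3) (a.1.2.1 : E3) (3 * t) := by
        show g1W _ _ _ _ = _
        unfold g1W
        rw [if_pos h.le]
      rw [hv]
      refine hk.congr_of_eventuallyEq ?_
      filter_upwards [gt_mem_nhds h] with s hs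
      show ((tri _ _ _ _ : S2) : E3) = _
      unfold tri
      rw [if_pos (le_of_lt hs)]
    · rcases lt_or_gt_of_ne ht'.2 with h' | h'
      · have hk := key a.1.2.1 a.1.2.2 a.2.2.1 1 t
        have hv : V a t = (3 : ℝ) • g1V (a.1.2.1 : E3) (a.1.2.2 : E3) (3 * t - 1) := by
          show g1W _ _ _ _ = _
          unfold g1W
          rw [if_neg (not_le.mpr h), if_pos h'.le]
        rw [hv]
        refine hk.congr_of_eventuallyEq ?_
        filter_upwards [gt_mem_nhds h', lt_mem_nhds h] with s hs hs'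
        show ((tri _ _ _ _ : S2) : E3) = _
        unfold tri
        rw [if_neg (not_le.mpr hs'), if_pos (le_of_lt hs)]
      · have hk := key a.1.2.2 a.1.1 a.2.2.2 2 t
        have hv : V a t = (3 : ℝ) • g1V (a.1.2.2 : E3) (a.1.1 : E3) (3 * t - 2) := by
          show g1W _ _ _ _ = _
          unfold g1W
          rw [if_neg (not_le.mpr h), if_neg (not_le.mpr h')]
        rw [hv]
        refine hk.congr_of_eventuallyEq ?_
        filter_upwards [lt_mem_nhds h', lt_mem_nhds h] with s hs hs'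
        show ((tri _ _ _ _ : S2) : E3) = _
        unfold tri
        rw [if_neg (not_le.mpr hs'), if_neg (not_le.mpr hs)]
  have h1 : ∀ a, ∀ t ∈ Set.Icc (0 : ℝ) 1, ‖F a t‖ = 1 := fun a t _ => norm_eq_of_mem_sphere _
  have h2 : ∀ a, F a 0 = F a 1 := by
    intro a
    show ((tri _ _ _ _ : S2) : E3) = ((tri _ _ _ _ : S2) : E3)
    unfold tri
    rw [if_pos (by norm_num), if_neg (by norm_num), if_neg (by norm_num)]
    have e1 : (3 : ℝ) * 0 = 0 := by norm_num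
    have e2 : (3 : ℝ) * 1 - 2 = 1 := by norm_num
    rw [e1, e2, (arc_val _ _ a.2.1 0).2.2.1, (arc_val _ _ a.2.2.2 0).2.2.2]
  obtain ⟨f, hf, hlen⟩ := mk_hloop F V hF {1 / 3, 2 / 3} hV hVb hd h1 h2
  refine ⟨f, fun x t => hf x t, fun a => ?_⟩
  rw [hlen a]
  have b1 := g1_dt_le a.1.1 a.1.2.1
  have b2 := g1_dt_le a.1.2.1 a.1.2.2
  have b3 := g1_dt_le a.1.2.2 a.1.1
  have l1 := g1_len1 (d := inner ℝ (a.1.1 : E3) (a.1.2.1 : E3)) a.2.1 b1 0 0 (1 / 3)
    (by norm_num) (by norm_num)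
  have l2 := g1_len1 (d := inner ℝ (a.1.2.1 : E3) (a.1.2.2 : E3)) a.2.2.1 b2 1 (1 / 3) (2 / 3)
    (by norm_num) (by norm_num)
  have l3 := g1_len1 (d := inner ℝ (a.1.2.2 : E3) (a.1.1 : E3)) a.2.2.2 b3 2 (2 / 3) 1
    (by norm_num) (by norm_num)
  have i1 := (g1_int (d := inner ℝ (a.1.1 : E3) (a.1.2.1 : E3)) a.2.1 b1 0 0 (1 / 3)).1
  have i2 := (g1_int (d := inner ℝ (a.1.2.1 : E3) (a.1.2.2 : E3)) a.2.2.1 b2 1 (1 / 3) (2 / 3)).1
  have i3 := (g1_int (d := inner ℝ (a.1.2.2 : E3) (a.1.1 : E3)) a.2.2.2 b3 2 (2 / 3) 1).1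
  have n3 : ∀ w : E3, ‖(3 : ℝ) • w‖ = 3 * ‖w‖ := by
    intro w
    rw [norm_smul, Real.norm_eq_abs, abs_of_pos (by norm_num : (0 : ℝ) < 3)]
  have q1 : ∀ t ∈ Set.uIoc (0 : ℝ) (1 / 3), 3 * (2 * √(1 - inner ℝ (a.1.1 : E3) (a.1.2.1 : E3) ^ 2) /
      ((1 + inner ℝ (a.1.1 : E3) (a.1.2.1 : E3)) +
        (3 * t - 0) ^ 2 * (1 - inner ℝ (a.1.1 : E3) (a.1.2.1 : E3)))) = ‖V a t‖ := by
    intro t ht
    rw [Set.uIoc_of_le (by norm_num)] at ht
    show _ = ‖g1W _ _ _ _‖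
    unfold g1W
    rw [if_pos ht.2, n3, g1_norm _ _ (norm_eq_of_mem_sphere _) (norm_eq_of_mem_sphere _) a.2.1 b1,
      sub_zero]
  have q2 : ∀ t ∈ Set.uIoc (1 / 3 : ℝ) (2 / 3),
      3 * (2 * √(1 - inner ℝ (a.1.2.1 : E3) (a.1.2.2 : E3) ^ 2) /
      ((1 + inner ℝ (a.1.2.1 : E3) (a.1.2.2 : E3)) +
        (3 * t - 1) ^ 2 * (1 - inner ℝ (a.1.2.1 : E3) (a.1.2.2 : E3)))) = ‖V a t‖ := by
    intro t ht
    rw [Set.uIoc_of_le (by norm_num)] at ht
    show _ = ‖g1W _ _ _ _‖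
    unfold g1W
    rw [if_neg (not_le.mpr ht.1), if_pos ht.2, n3,
      g1_norm _ _ (norm_eq_of_mem_sphere _) (norm_eq_of_mem_sphere _) a.2.2.1 b2]
  have q3 : ∀ t ∈ Set.uIoc (2 / 3 : ℝ) 1,
      3 * (2 * √(1 - inner ℝ (a.1.2.2 : E3) (a.1.1 : E3) ^ 2) /
      ((1 + inner ℝ (a.1.2.2 : E3) (a.1.1 : E3)) +
        (3 * t - 2) ^ 2 * (1 - inner ℝ (a.1.2.2 : E3) (a.1.1 : E3)))) = ‖V a t‖ := by
    intro t ht
    rw [Set.uIoc_of_le (by norm_num)] at ht
    have h13 : ¬ t ≤ 1 / 3 := not_le.mpr (by linarith [ht.1])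
    show _ = ‖g1W _ _ _ _‖
    unfold g1W
    rw [if_neg h13, if_neg (not_le.mpr ht.1), n3,
      g1_norm _ _ (norm_eq_of_mem_sphere _) (norm_eq_of_mem_sphere _) a.2.2.2 b3]
  have j1 : IntervalIntegrable (fun t => ‖V a t‖) volume 0 (1 / 3) := by
    exact i1.congr q1
  have j2 : IntervalIntegrable (fun t => ‖V a t‖) volume (1 / 3) (2 / 3) := by
    exact i2.congr q2
  have j3 : IntervalIntegrable (fun t => ‖V a t‖) volume (2 / 3) 1 := by
    exact i3.congr q3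
  rw [← intervalIntegral.integral_add_adjacent_intervals (j1.trans j2) j3,
    ← intervalIntegral.integral_add_adjacent_intervals j1 j2,
    ← intervalIntegral.integral_congr_ae (Filter.Eventually.of_forall q1),
    ← intervalIntegral.integral_congr_ae (Filter.Eventually.of_forall q2),
    ← intervalIntegral.integral_congr_ae (Filter.Eventually.of_forall q3)]
  linarith

end Pool.Agent.Helper534.LS
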