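import Pool.Agent.Helper534.LS.Defs
import Pool.Agent.Helper534.LS.P_arc_val
import Pool.Agent.Helper534.LS.P_arc_cont

open MeasureTheory

namespace Pool.Agent.Helper534.LS



theorem g_aux_arc {A : Type} [TopologicalSpace A] (f g : A → S2) (h : A → ℝ) (hf : Continuous f)
    (hg : Continuous g) (hh : Continuous h) (hd : ∀ a, -1 < dt (f a) (g a)) :
    Continuous (fun a => arcS (f a) (g a) (h a)) := by
  have h1 : Continuous (fun a => (f a, g a, h a)) := by fun_prop
  have h2 := arc_cont.comp_continuous h1 (fun a => hd a)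
  exact h2

theorem g_aux_cont : Continuous (fun q : P3 × unitInterval =>
    tri q.1.1.1 q.1.1.2.1 q.1.1.2.2 (q.2 : ℝ)) := by
  unfold tri
  have c1 : Continuous (fun q : P3 × unitInterval => q.1.1.1) := by fun_prop
  have c2 : Continuous (fun q : P3 × unitInterval => q.1.1.2.1) := by fun_prop
  have c3 : Continuous (fun q : P3 × unitInterval => q.1.1.2.2) := by fun_prop
  have ct : Continuous (fun q : P3 × unitInterval => (q.2 : ℝ)) := by fun_prop
  apply Continuous.if_le
  · exact g_aux_arc _ _ _ c1 c2 (by fun_prop) (fun q => q.1.2.1)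
  · apply Continuous.if_le
    · exact g_aux_arc _ _ _ c2 c3 (by fun_prop) (fun q => q.1.2.2.1)
    · exact g_aux_arc _ _ _ c3 c1 (by fun_prop) (fun q => q.1.2.2.2)
    · exact ct
    · exact continuous_const
    · intro q hq
      have e1 : 3 * (q.2 : ℝ) - 1 = 1 := by rw [hq]; norm_num
      have e2 : 3 * (q.2 : ℝ) - 2 = 0 := by rw [hq]; norm_num
      rw [e1, e2, (arc_val _ _ q.1.2.2.1 0).2.2.2, (arc_val _ _ q.1.2.2.2 0).2.2.1]
  · exact ct
  · exact continuous_const
  · intro q hq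
    have e1 : 3 * (q.2 : ℝ) = 1 := by rw [hq]; norm_num
    have e2 : 3 * (q.2 : ℝ) - 1 = 0 := by rw [hq]; norm_num
    have e3 : (q.2 : ℝ) ≤ 2 / 3 := by rw [hq]; norm_num
    rw [if_pos e3, e2, e1, (arc_val _ _ q.1.2.1 0).2.2.2, (arc_val _ _ q.1.2.2.1 0).2.2.1]

theorem g_exists : ∃ g, IsG g := by
  let F : C(P3 × unitInterval, S2) := ⟨_, g_aux_cont⟩
  have hF : ∀ (x : P3) (t : unitInterval), F.curry x t = tri x.1.1 x.1.2.1 x.1.2.2 (t : ℝ) :=
    fun _ _ => rfl
  refine ⟨⟨fun x => ⟨F.curry x, ?_⟩, ?_⟩, ?_⟩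
  · rw [hF, hF]
    unfold tri
    have e0 : ((0 : unitInterval) : ℝ) = 0 := rfl
    have e1 : ((1 : unitInterval) : ℝ) = 1 := rfl
    rw [e0, e1, if_pos (by norm_num), if_neg (by norm_num), if_neg (by norm_num), mul_zero,
      (arc_val _ _ x.2.1 0).2.2.1]
    have e2 : (3 * 1 - 2 : ℝ) = 1 := by norm_num
    rw [e2, (arc_val _ _ x.2.2.2 0).2.2.2]
  · exact Continuous.subtype_mk F.curry.continuous _
  · intro x t
    exact hF x t

end Pool.Agent.Helper534.LS
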