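import Pool.Agent.Helper534.LS.Defs

open MeasureTheory

namespace Pool.Agent.Helper534.LS



theorem hh_compact_bound {X : Type} [TopologicalSpace X] (l : C(X, ℝ)) (c : ℝ)
    (hl : ∀ x, l x < c) (n : ℕ) (s : Finset (Sing X n)) :
    ∃ a < c, ∀ σ ∈ s, ∀ p, l (σ p) ≤ a := by
  classical
  induction s using Finset.induction_on with
  | empty => exact ⟨c - 1, by linarith, fun σ hσ => absurd hσ (Finset.notMem_empty σ)⟩
  | insert σ s _ ih =>
    obtain ⟨a, hac, ha⟩ := ih
    have hcomp : CompactSpace (stdSimplex ℝ (Fin (n + 1))) :=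
      isCompact_iff_compactSpace.mp (isCompact_stdSimplex ℝ (Fin (n + 1)))
    have h1 : ∃ m < c, ∀ p, l (σ p) ≤ m := by
      rcases isEmpty_or_nonempty (stdSimplex ℝ (Fin (n + 1))) with he | hne
      · exact ⟨c - 1, by linarith, fun p => he.elim p⟩
      · obtain ⟨p, -, hp⟩ := isCompact_univ.exists_isMaxOn
          (Set.univ_nonempty (α := stdSimplex ℝ (Fin (n + 1))))
          (f := fun p => l (σ p)) (l.continuous.comp σ.continuous).continuousOn
        exact ⟨l (σ p), hl _, fun q => hp (Set.mem_univ q)⟩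
    obtain ⟨m, hmc, hm⟩ := h1
    refine ⟨max a m, max_lt hac hmc, ?_⟩
    intro τ hτ p
    rcases Finset.mem_insert.mp hτ with h | h
    · rw [h]
      exact (hm p).trans (le_max_right _ _)
    · exact (ha τ h p).trans (le_max_left _ _)

theorem hh_compact {X : Type} [TopologicalSpace X] (l : C(X, ℝ)) (c : ℝ) (hl : ∀ x, l x < c)
    (n : ℕ) (x : HH X n) : ∃ a < c, ∃ y : HH ↥{x | l x ≤ a} n, hmap (sub _) n y = x := by
  obtain ⟨⟨z, hz⟩, rfl⟩ := Submodule.Quotient.mk_surjective _ x
  obtain ⟨a, hac, ha⟩ := hh_compact_bound l c hl n z.support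
  refine ⟨a, hac, ?_⟩
  have hinj : ∀ m : ℕ, Function.Injective
      (fun σ : Sing ↥{x | l x ≤ a} m => (sub {x | l x ≤ a}).comp σ) := by
    intro m σ τ h
    apply ContinuousMap.ext
    intro p
    apply Subtype.ext
    exact congrArg (fun f : Sing X m => f p) h
  have hpinj : ∀ m : ℕ, Function.Injective (push (sub {x | l x ≤ a}) m) := by
    intro m
    exact Finsupp.mapDomain_injective (hinj m)
  have hrange : (z.support : Set (Sing X n)) ⊆
      Set.range (fun σ : Sing ↥{x | l x ≤ a} n => (sub {x | l x ≤ a}).comp σ) := by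
    intro σ hσ
    refine ⟨⟨fun p => ⟨σ p, ha σ hσ p⟩, by fun_prop⟩, ?_⟩
    apply ContinuousMap.ext
    intro p
    rfl
  have hpush : push (sub {x | l x ≤ a}) n
      (Finsupp.comapDomain (fun σ : Sing ↥{x | l x ≤ a} n => (sub {x | l x ≤ a}).comp σ) z
        (hinj n).injOn) = z :=
    Finsupp.mapDomain_comapDomain _ (hinj n) z hrange
  set z' := Finsupp.comapDomain (fun σ : Sing ↥{x | l x ≤ a} n => (sub {x | l x ≤ a}).comp σ) z
        (hinj n).injOn with hz'
  have hcyc : z' ∈ Cyc ↥{x | l x ≤ a} n := by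
    clear_value z'
    cases n with
    | zero => exact Submodule.mem_top
    | succ n =>
      change bdry _ n z' = 0
      apply hpinj n
      rw [← bdry_push, hpush, map_zero]
      exact hz
  refine ⟨cls z' hcyc, ?_⟩
  change Submodule.Quotient.mk (⟨push (sub {x | l x ≤ a}) n z', _⟩ : Cyc X n) =
    Submodule.Quotient.mk ⟨z, hz⟩
  congr 1
  exact Subtype.ext hpush

end Pool.Agent.Helper534.LS
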