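import Pool.Agent.Helper534.LS.Defs
import Pool.Agent.Helper534.LS.P_pth_cont

open MeasureTheory

namespace Pool.Agent.Helper534.LS



theorem j_exists_zero (p : E3) (v : L2) : pth p v 0 = p := by
  have h1 : Set.Iic (0 : unitInterval) = {0} := by
    ext t
    rw [Set.mem_Iic, Set.mem_singleton_iff]
    exact ⟨fun h => le_antisymm h unitInterval.nonneg', fun h => h.le⟩
  unfold pth
  rw [h1, setIntegral_measure_zero _ (measure_singleton _), add_zero]

theorem j_exists : ∃ j, IsJ j := by
  let F : C(HLoop × unitInterval, S2) :=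
    ⟨fun q => ⟨pth q.1.1.1 q.1.1.2 q.2, mem_sphere_zero_iff_norm.mpr (q.1.2.1 q.2)⟩,
      Continuous.subtype_mk (pth_cont.comp (by fun_prop :
        Continuous fun q : HLoop × unitInterval => (((q.1.1.1, q.1.1.2), q.2) :
          (E3 × L2) × unitInterval))) _⟩
  have hF : ∀ x, F.curry x 0 = F.curry x 1 := by
    intro x
    apply Subtype.ext
    show pth x.1.1 x.1.2 0 = pth x.1.1 x.1.2 1
    rw [j_exists_zero, x.2.2]
  refine ⟨⟨fun x => ⟨F.curry x, hF x⟩, Continuous.subtype_mk F.curry.continuous _⟩, ?_⟩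
  intro x t
  rfl

end Pool.Agent.Helper534.LS
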