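import Pool.Agent.Helper534.LS.Defs

open MeasureTheory

namespace Pool.Agent.Helper534.LS



theorem cat_cont {A : Type} [TopologicalSpace A] (f g : A → ℝ → S2)
    (hf : Continuous fun p : A × ℝ => f p.1 p.2) (hg : Continuous fun p : A × ℝ => g p.1 p.2)
    (h : ∀ a, f a 1 = g a 0) : Continuous fun p : A × ℝ => cat (f p.1) (g p.1) p.2 := by
  unfold cat
  apply Continuous.if_le
  · exact hf.comp (by fun_prop : Continuous fun p : A × ℝ => (p.1, 2 * p.2))
  · exact hg.comp (by fun_prop : Continuous fun p : A × ℝ => (p.1, 2 * p.2 - 1))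
  · exact continuous_snd
  · exact continuous_const
  · intro p hp
    rw [hp]
    have h1 : (2 : ℝ) * (1 / 2) = 1 := by norm_num
    have h2 : (1 : ℝ) - 1 = 0 := by norm_num
    rw [h1, h2]
    exact h p.1

end Pool.Agent.Helper534.LS
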