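import Pool.Agent.Helper534.LS.Defs
import Pool.Agent.Helper534.LS.P_toS2_val

open MeasureTheory

namespace Pool.Agent.Helper534.LS



theorem mer_coord0 (z : Circle) (t : ℝ) : ((mer z t : S2) : E3) 0 = Real.sin (Real.pi * t) * (z : ℂ).re := rfl
theorem mer_coord1 (z : Circle) (t : ℝ) : ((mer z t : S2) : E3) 1 = Real.sin (Real.pi * t) * (z : ℂ).im := rfl
theorem mer_coord2 (z : Circle) (t : ℝ) : ((mer z t : S2) : E3) 2 = Real.cos (Real.pi * t) := rfl

theorem mer_facts_cont : Continuous fun p : Circle × ℝ => mer p.1 p.2 := by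
  apply Continuous.subtype_mk
  apply (PiLp.continuous_toLp 2 _).comp
  apply continuous_pi
  intro i
  fin_cases i
  · show Continuous (fun p : Circle × ℝ => Real.sin (Real.pi * p.2) * ((p.1 : Circle) : ℂ).re)
    have : Continuous (fun p : Circle × ℝ => ((p.1 : Circle) : ℂ).re) :=
      Complex.continuous_re.comp (continuous_subtype_val.comp continuous_fst)
    fun_prop
  · show Continuous (fun p : Circle × ℝ => Real.sin (Real.pi * p.2) * ((p.1 : Circle) : ℂ).im)
    have : Continuous (fun p : Circle × ℝ => ((p.1 : Circle) : ℂ).im) :=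
      Complex.continuous_im.comp (continuous_subtype_val.comp continuous_fst)
    fun_prop
  · show Continuous (fun p : Circle × ℝ => Real.cos (Real.pi * p.2))
    fun_prop

theorem mer_facts_ext {x y : E3} (h0 : x 0 = y 0) (h1 : x 1 = y 1) (h2 : x 2 = y 2) : x = y := by
  ext i
  fin_cases i
  · exact h0
  · exact h1
  · exact h2

theorem mer_facts : (Continuous fun p : Circle × ℝ => mer p.1 p.2) ∧ (∀ z, mer z 0 = nP) ∧
    (∀ z, mer z 1 = sP) ∧ (∀ z t, 0 ≤ t → t < 1 → -1 < ((mer z t : S2) : E3) 2) ∧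
    (∀ z t, 0 < t → t ≤ 1 → ((mer z t : S2) : E3) 2 < 1) ∧
    (∀ z t, 0 < t → t < 1 → lon (mer z t) = z) ∧
    (∀ z t, 0 ≤ t → t ≤ 1 → arcS nP (eqp z) t = mer z (2 * Real.arctan t / Real.pi)) := by
  have hpi := Real.pi_pos
  refine ⟨mer_facts_cont, ?_, ?_, ?_, ?_, ?_, ?_⟩
  · intro z
    apply Subtype.ext
    apply mer_facts_ext
    · rw [mer_coord0, mul_zero, Real.sin_zero, zero_mul]; rfl
    · rw [mer_coord1, mul_zero, Real.sin_zero, zero_mul]; rfl
    · rw [mer_coord2, mul_zero, Real.cos_zero]; rfl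
  · intro z
    apply Subtype.ext
    apply mer_facts_ext
    · rw [mer_coord0, mul_one, Real.sin_pi, zero_mul]; rfl
    · rw [mer_coord1, mul_one, Real.sin_pi, zero_mul]; rfl
    · rw [mer_coord2, mul_one, Real.cos_pi]; rfl
  · intro z t h0 h1
    rw [mer_coord2, ← Real.cos_pi]
    apply Real.cos_lt_cos_of_nonneg_of_le_pi (by positivity) le_rfl
    nlinarith
  · intro z t h0 h1
    rw [mer_coord2]
    have h2 : Real.cos (Real.pi * t) < Real.cos 0 := by
      apply Real.cos_lt_cos_of_nonneg_of_le_pi le_rfl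
      · nlinarith
      · positivity
    rwa [Real.cos_zero] at h2
  · intro z t h0 h1
    have hs : 0 < Real.sin (Real.pi * t) := by
      apply Real.sin_pos_of_pos_of_lt_pi (by positivity)
      nlinarith
    have he : (⟨((mer z t : S2) : E3) 0, ((mer z t : S2) : E3) 1⟩ : ℂ) =
        ((Real.sin (Real.pi * t) : ℝ) : ℂ) * (z : ℂ) := by
      rw [mer_coord0, mer_coord1]
      generalize Real.sin (Real.pi * t) = s
      apply Complex.ext
      · simp
      · simp
    have hn : ‖((Real.sin (Real.pi * t) : ℝ) : ℂ) * (z : ℂ)‖ = Real.sin (Real.pi * t) := by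
      rw [norm_mul, Circle.norm_coe, mul_one, Complex.norm_real, Real.norm_eq_abs, abs_of_pos hs]
    have hne : (⟨((mer z t : S2) : E3) 0, ((mer z t : S2) : E3) 1⟩ : ℂ) ≠ 0 := by
      rw [he]
      intro h
      rw [h, norm_zero] at hn
      exact hs.ne hn
    have hlon : lon (mer z t) = ⟨(⟨((mer z t : S2) : E3) 0, ((mer z t : S2) : E3) 1⟩ : ℂ) /
      ‖(⟨((mer z t : S2) : E3) 0, ((mer z t : S2) : E3) 1⟩ : ℂ)‖, _⟩ := dif_neg hne
    rw [hlon]
    apply Subtype.ext
    show (⟨((mer z t : S2) : E3) 0, ((mer z t : S2) : E3) 1⟩ : ℂ) /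
      ‖(⟨((mer z t : S2) : E3) 0, ((mer z t : S2) : E3) 1⟩ : ℂ)‖ = (z : ℂ)
    rw [he, hn]
    have : ((Real.sin (Real.pi * t) : ℝ) : ℂ) ≠ 0 := by exact_mod_cast hs.ne'
    field_simp
  · intro z t h0 h1
    have hsq : 0 < 1 + t ^ 2 := by positivity
    have hang : Real.pi * (2 * Real.arctan t / Real.pi) = 2 * Real.arctan t := by
      field_simp
    have hcos2 : Real.cos (Real.arctan t) ^ 2 = 1 / (1 + t ^ 2) := Real.cos_sq_arctan t
    have hsin : Real.sin (2 * Real.arctan t) = 2 * t / (1 + t ^ 2) := by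
      rw [Real.sin_two_mul]
      have hc : 0 < Real.cos (Real.arctan t) := Real.cos_arctan_pos t
      have htan : Real.sin (Real.arctan t) = t * Real.cos (Real.arctan t) := by
        have := Real.tan_arctan t
        rw [Real.tan_eq_sin_div_cos, div_eq_iff hc.ne'] at this
        exact this
      rw [htan]
      have : 2 * (t * Real.cos (Real.arctan t)) * Real.cos (Real.arctan t) =
        2 * t * Real.cos (Real.arctan t) ^ 2 := by ring
      rw [this, hcos2]; ring
    have hcos : Real.cos (2 * Real.arctan t) = (1 - t ^ 2) / (1 + t ^ 2) := by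
      rw [Real.cos_two_mul, hcos2]
      field_simp
      ring
    have e0 : ((eqp z : S2) : E3) 0 = (z : ℂ).re := by
      unfold eqp
      rw [mer_coord0]
      have : Real.pi * (1 / 2) = Real.pi / 2 := by ring
      rw [this, Real.sin_pi_div_two, one_mul]
    have e1 : ((eqp z : S2) : E3) 1 = (z : ℂ).im := by
      unfold eqp
      rw [mer_coord1]
      have : Real.pi * (1 / 2) = Real.pi / 2 := by ring
      rw [this, Real.sin_pi_div_two, one_mul]
    have e2 : ((eqp z : S2) : E3) 2 = 0 := by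
      unfold eqp
      rw [mer_coord2]
      have : Real.pi * (1 / 2) = Real.pi / 2 := by ring
      rw [this, Real.cos_pi_div_two]
    have n0 : ((nP : S2) : E3) 0 = 0 := rfl
    have n1 : ((nP : S2) : E3) 1 = 0 := rfl
    have n2 : ((nP : S2) : E3) 2 = 1 := rfl
    have hinner : inner ℝ ((nP : S2) : E3) ((eqp z : S2) : E3) = 0 := by
      rw [PiLp.inner_apply, Fin.sum_univ_three, e0, e1, e2, n0, n1, n2]
      simp
    have hval : arcE nP (eqp z) t = ((mer z (2 * Real.arctan t / Real.pi) : S2) : E3) := by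
      unfold arcE
      rw [hinner]
      apply mer_facts_ext
      · rw [mer_coord0, hang, hsin]
        show ((1 + 0 : ℝ) + t ^ 2 * (1 - 0))⁻¹ * (((1 + 0) - t ^ 2 * (1 - 0) - 2 * t * 0) *
          ((nP : S2) : E3) 0 + (2 * t) * ((eqp z : S2) : E3) 0) = _
        rw [n0, e0]
        field_simp
        ring
      · rw [mer_coord1, hang, hsin]
        show ((1 + 0 : ℝ) + t ^ 2 * (1 - 0))⁻¹ * (((1 + 0) - t ^ 2 * (1 - 0) - 2 * t * 0) *
          ((nP : S2) : E3) 1 + (2 * t) * ((eqp z : S2) : E3) 1) = _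
        rw [n1, e1]
        field_simp
        ring
      · rw [mer_coord2, hang, hcos]
        show ((1 + 0 : ℝ) + t ^ 2 * (1 - 0))⁻¹ * (((1 + 0) - t ^ 2 * (1 - 0) - 2 * t * 0) *
          ((nP : S2) : E3) 2 + (2 * t) * ((eqp z : S2) : E3) 2) = _
        rw [n2, e2]
        field_simp
        ring
    apply Subtype.ext
    unfold arcS
    rw [hval, toS2_val]
    exact mem_sphere_zero_iff_norm.mp (mer z (2 * Real.arctan t / Real.pi)).2

end Pool.Agent.Helper534.LS
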