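import Pool.Agent.Helper534.LS.Defs
import Pool.Agent.Helper534.LS.P_toS2_val
import Pool.Agent.Helper534.LS.P_toS2_cont
import Pool.Agent.Helper534.LS.P_mer_facts

open MeasureTheory

namespace Pool.Agent.Helper534.LS



theorem rot_facts : (∀ (s : Circle) (x : S2), ((rotS s x : S2) : E3) = rotE s x) ∧
    (Continuous fun p : Circle × S2 => rotS p.1 p.2) ∧ (∀ s, rotS s nP = nP) ∧
    (∀ s, rotS s sP = sP) ∧ (∀ x, rotS 1 x = x) ∧
    (∀ s z t, rotS s (mer z t) = mer (s * z) t) := by
  have hs2 : ∀ s : Circle, (s : ℂ).re ^ 2 + (s : ℂ).im ^ 2 = 1 := by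
    intro s
    have := Circle.normSq_coe s
    rw [Complex.normSq_apply] at this
    nlinarith
  have hnorm : ∀ (s : Circle) (v : E3), ‖rotE s v‖ = ‖v‖ := by
    intro s v
    rw [EuclideanSpace.norm_eq, EuclideanSpace.norm_eq]
    congr 1
    rw [Fin.sum_univ_three, Fin.sum_univ_three]
    simp only [Real.norm_eq_abs, sq_abs]
    have h0 : rotE s v 0 = (s : ℂ).re * v 0 - (s : ℂ).im * v 1 := rfl
    have h1 : rotE s v 1 = (s : ℂ).im * v 0 + (s : ℂ).re * v 1 := rfl
    have h2 : rotE s v 2 = v 2 := rfl
    rw [h0, h1, h2]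
    have := hs2 s
    linear_combination (v 0 ^ 2 + v 1 ^ 2) * this
  have hval : ∀ (s : Circle) (x : S2), ((rotS s x : S2) : E3) = rotE s x := by
    intro s x
    unfold rotS
    apply toS2_val
    rw [hnorm]
    exact mem_sphere_zero_iff_norm.1 x.2
  refine ⟨hval, ?_, ?_, ?_, ?_, ?_⟩
  · rw [continuous_induced_rng]
    have h1 : (Subtype.val ∘ fun p : Circle × S2 => rotS p.1 p.2) =
        fun p : Circle × S2 => rotE p.1 (p.2 : E3) := by
      funext p
      exact hval p.1 p.2
    rw [h1]
    unfold rotE
    refine (PiLp.continuous_toLp 2 _).comp ?_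
    refine continuous_pi (fun i => ?_)
    have hr : Continuous (fun p : Circle × S2 => ((p.1 : ℂ)).re) :=
      Complex.continuous_re.comp (continuous_subtype_val.comp continuous_fst)
    have him : Continuous (fun p : Circle × S2 => ((p.1 : ℂ)).im) :=
      Complex.continuous_im.comp (continuous_subtype_val.comp continuous_fst)
    have hc : ∀ i : Fin 3, Continuous (fun p : Circle × S2 => (p.2 : E3) i) := fun i =>
      (continuous_apply i).comp ((PiLp.continuous_ofLp 2 _).comp
        (continuous_subtype_val.comp continuous_snd))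
    fin_cases i
    · exact (hr.mul (hc 0)).sub (him.mul (hc 1))
    · exact (him.mul (hc 0)).add (hr.mul (hc 1))
    · exact hc 2
  · intro s
    apply Subtype.ext
    rw [hval]
    ext i
    fin_cases i <;> simp [rotE, nP]
  · intro s
    apply Subtype.ext
    rw [hval]
    ext i
    fin_cases i <;> simp [rotE, sP]
  · intro x
    apply Subtype.ext
    rw [hval]
    ext i
    fin_cases i <;> simp [rotE]
  · intro s z t
    apply Subtype.ext
    rw [hval]
    ext i
    fin_cases i
    · simp [rotE, mer, Complex.mul_re]; ring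
    · simp [rotE, mer, Complex.mul_im]; ring
    · simp [rotE, mer]

end Pool.Agent.Helper534.LS
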