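import Pool.Agent.Helper534.LS.Defs
import Pool.Agent.Helper534.LS.P_cat_cont
import Pool.Agent.Helper534.LS.P_mer_facts
import Pool.Agent.Helper534.LS.P_rot_facts
import Pool.Agent.Helper534.LS.P_mk_hloop

open MeasureTheory

namespace Pool.Agent.Helper534.LS



noncomputable def theta_e (i : Fin 3) : E3 := EuclideanSpace.single i 1

noncomputable def theta_m (z : Circle) (t : ℝ) : E3 :=
  (Real.sin (Real.pi * t) * (z : ℂ).re) • theta_e 0 +
    (Real.sin (Real.pi * t) * (z : ℂ).im) • theta_e 1 + Real.cos (Real.pi * t) • theta_e 2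

noncomputable def theta_d (z : Circle) (t : ℝ) : E3 :=
  (Real.pi * Real.cos (Real.pi * t) * (z : ℂ).re) • theta_e 0 +
    (Real.pi * Real.cos (Real.pi * t) * (z : ℂ).im) • theta_e 1 +
      (-(Real.pi * Real.sin (Real.pi * t))) • theta_e 2

theorem theta_mer (z : Circle) (t : ℝ) : ((mer z t : S2) : E3) = theta_m z t := by
  unfold mer theta_m theta_e
  ext i
  fin_cases i <;> simp

theorem theta_m_deriv (z : Circle) (t : ℝ) : HasDerivAt (theta_m z) (theta_d z t) t := by
  unfold theta_m theta_d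
  have hlin : HasDerivAt (fun t : ℝ => Real.pi * t) Real.pi t := by
    simpa using (hasDerivAt_id t).const_mul Real.pi
  have hsin : HasDerivAt (fun t : ℝ => Real.sin (Real.pi * t))
      (Real.cos (Real.pi * t) * Real.pi) t := hlin.sin
  have hcos : HasDerivAt (fun t : ℝ => Real.cos (Real.pi * t))
      (-Real.sin (Real.pi * t) * Real.pi) t := hlin.cos
  have h1 := (((hsin.mul_const (z : ℂ).re).smul_const (theta_e 0)).add
    ((hsin.mul_const (z : ℂ).im).smul_const (theta_e 1))).add (hcos.smul_const (theta_e 2))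
  refine h1.congr_deriv ?_
  congr 1
  · congr 1
    · congr 1
      ring
    · congr 1
      ring
  · congr 1
    ring

theorem theta_d_bound (z : Circle) (t : ℝ) : ‖theta_d z t‖ ≤ 3 * Real.pi := by
  unfold theta_d
  have hz : ‖(z : ℂ)‖ = 1 := Circle.norm_coe z
  have hre : |(z : ℂ).re| ≤ 1 := hz ▸ Complex.abs_re_le_norm (z : ℂ)
  have him : |(z : ℂ).im| ≤ 1 := hz ▸ Complex.abs_im_le_norm (z : ℂ)
  have he : ∀ i, ‖theta_e i‖ = 1 := by
    intro i
    unfold theta_e
    simp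
  have hpi := Real.pi_pos
  have hc : |Real.cos (Real.pi * t)| ≤ 1 := Real.abs_cos_le_one _
  have hs : |Real.sin (Real.pi * t)| ≤ 1 := Real.abs_sin_le_one _
  have hprod : ∀ a b : ℝ, |a| ≤ 1 → |b| ≤ 1 → |Real.pi * a * b| ≤ Real.pi := by
    intro a b ha hb
    rw [abs_mul, abs_mul, abs_of_pos hpi]
    have h1 : |a| * |b| ≤ 1 := mul_le_one₀ ha (abs_nonneg _) hb
    nlinarith
  have n0 : ‖(Real.pi * Real.cos (Real.pi * t) * (z : ℂ).re) • theta_e 0‖ ≤ Real.pi := by
    rw [norm_smul, he, mul_one, Real.norm_eq_abs]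
    exact hprod _ _ hc hre
  have n1 : ‖(Real.pi * Real.cos (Real.pi * t) * (z : ℂ).im) • theta_e 1‖ ≤ Real.pi := by
    rw [norm_smul, he, mul_one, Real.norm_eq_abs]
    exact hprod _ _ hc him
  have n2 : ‖(-(Real.pi * Real.sin (Real.pi * t))) • theta_e 2‖ ≤ Real.pi := by
    rw [norm_smul, he, mul_one, Real.norm_eq_abs, abs_neg]
    have := hprod _ 1 hs (by norm_num)
    rwa [mul_one] at this
  have h3 := norm_add₃_le (a := (Real.pi * Real.cos (Real.pi * t) * (z : ℂ).re) • theta_e 0)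
    (b := (Real.pi * Real.cos (Real.pi * t) * (z : ℂ).im) • theta_e 1)
    (c := (-(Real.pi * Real.sin (Real.pi * t))) • theta_e 2)
  linarith

theorem theta_d_cont : Continuous (fun q : Circle × ℝ => theta_d q.1 q.2) := by
  unfold theta_d
  fun_prop

theorem theta_cont_if {B : Type} [TopologicalSpace B] (c : ℝ) (f g : B × ℝ → E3) (U : Set (B × ℝ))
    (hU : ∀ q ∈ U, q.2 ≠ c) (hf : ContinuousOn f U) (hg : ContinuousOn g U) :
    ContinuousOn (fun q => if q.2 ≤ c then f q else g q) U := by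
  intro q hq
  rcases lt_or_gt_of_ne (hU q hq) with h | h
  · have h1 : ∀ᶠ q' in nhdsWithin q U, q'.2 < c :=
      mem_nhdsWithin_of_mem_nhds (continuous_snd.continuousAt.eventually_lt_const h)
    refine (hf q hq).congr_of_eventuallyEq (h1.mono (fun q' h' => ?_)) ?_
    · show (if q'.2 ≤ c then f q' else g q') = f q'
      rw [if_pos h'.le]
    · show (if q.2 ≤ c then f q else g q) = f q
      rw [if_pos h.le]
  · have h1 : ∀ᶠ q' in nhdsWithin q U, c < q'.2 :=
      mem_nhdsWithin_of_mem_nhds (continuous_snd.continuousAt.eventually_const_lt h)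
    refine (hg q hq).congr_of_eventuallyEq (h1.mono (fun q' h' => ?_)) ?_
    · show (if q'.2 ≤ c then f q' else g q') = g q'
      rw [if_neg (not_le.mpr h')]
    · show (if q.2 ≤ c then f q else g q) = g q
      rw [if_neg (not_le.mpr h)]

theorem theta_deriv_if (c : ℝ) (f g : ℝ → E3) (f' g' : E3) (t : ℝ) (ht : t ≠ c)
    (hf : HasDerivAt f f' t) (hg : HasDerivAt g g' t) :
    HasDerivAt (fun t => if t ≤ c then f t else g t) (if t ≤ c then f' else g') t := by
  rcases lt_or_gt_of_ne ht with h | h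
  · rw [if_pos h.le]
    refine hf.congr_of_eventuallyEq ((eventually_lt_nhds h).mono (fun t' h' => ?_))
    show (if t' ≤ c then f t' else g t') = f t'
    rw [if_pos (le_of_lt h')]
  · rw [if_neg (not_le.mpr h)]
    refine hg.congr_of_eventuallyEq ((eventually_gt_nhds h).mono (fun t' h' => ?_))
    show (if t' ≤ c then f t' else g t') = g t'
    rw [if_neg (not_le.mpr h')]

/-- the loop as a function with values in three space -/
noncomputable def theta_F (p : T4) (t : ℝ) : E3 :=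
  if t ≤ 1 / 2 then
    (if t ≤ 1 / 4 then
      (if t ≤ 1 / 8 then
        (if t ≤ 1 / 16 then (nP : E3) else theta_m (p.1 * p.2.2.2.1) (16 * t - 1))
        else theta_m (p.1 * p.2.2.1) (2 - 8 * t))
      else theta_m (p.1 * p.2.1) (4 * t - 1))
    else theta_m (p.1 * 1) (2 - 2 * t)

/-- its velocity -/
noncomputable def theta_V (p : T4) (t : ℝ) : E3 :=
  if t ≤ 1 / 2 then
    (if t ≤ 1 / 4 then
      (if t ≤ 1 / 8 then
        (if t ≤ 1 / 16 then (0 : E3) else (16 : ℝ) • theta_d (p.1 * p.2.2.2.1) (16 * t - 1))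
        else (-8 : ℝ) • theta_d (p.1 * p.2.2.1) (2 - 8 * t))
      else (4 : ℝ) • theta_d (p.1 * p.2.1) (4 * t - 1))
    else (-2 : ℝ) • theta_d (p.1 * 1) (2 - 2 * t)

theorem theta_F_eq (p : T4) (t : ℝ) :
    theta_F p t = ((rotS p.1 (m4f p.2.2.2.1 p.2.2.1 p.2.1 1 t) : S2) : E3) := by
  obtain ⟨-, -, hN, -, -, hrot⟩ := rot_facts
  unfold theta_F m4f cat
  by_cases h1 : t ≤ 1 / 2
  · rw [if_pos h1, if_pos h1]
    by_cases h2 : t ≤ 1 / 4
    · rw [if_pos h2, if_pos (show 2 * t ≤ 1 / 2 by linarith)]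
      by_cases h3 : t ≤ 1 / 8
      · rw [if_pos h3, if_pos (show 2 * (2 * t) ≤ 1 / 2 by linarith)]
        by_cases h4 : t ≤ 1 / 16
        · rw [if_pos h4, if_pos (show 2 * (2 * (2 * t)) ≤ 1 / 2 by linarith), hN]
        · rw [if_neg h4, if_neg (show ¬ 2 * (2 * (2 * t)) ≤ 1 / 2 by
            intro h; exact h4 (by linarith)), hrot, theta_mer]
          congr 1
          ring
      · rw [if_neg h3, if_neg (show ¬ 2 * (2 * t) ≤ 1 / 2 by intro h; exact h3 (by linarith))]
        unfold merR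
        rw [hrot, theta_mer]
        congr 1
        ring
    · rw [if_neg h2, if_neg (show ¬ 2 * t ≤ 1 / 2 by intro h; exact h2 (by linarith)), hrot,
        theta_mer]
      congr 1
      ring
  · rw [if_neg h1, if_neg h1]
    unfold merR
    rw [hrot, theta_mer]
    congr 1
    ring

theorem theta_comp_deriv (z : Circle) (a b : ℝ) (t : ℝ) :
    HasDerivAt (fun t => theta_m z (a * t + b)) (a • theta_d z (a * t + b)) t := by
  have h1 : HasDerivAt (fun t : ℝ => a * t + b) a t := by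
    simpa using ((hasDerivAt_id t).const_mul a).add_const b
  exact (theta_m_deriv z (a * t + b)).scomp t h1

theorem theta_F_deriv (p : T4) (t : ℝ) (h1 : t ≠ 1 / 2) (h2 : t ≠ 1 / 4) (h3 : t ≠ 1 / 8)
    (h4 : t ≠ 1 / 16) : HasDerivAt (theta_F p) (theta_V p t) t := by
  unfold theta_F theta_V
  refine theta_deriv_if _ _ _ _ _ t h1 (theta_deriv_if _ _ _ _ _ t h2
    (theta_deriv_if _ _ _ _ _ t h3 (theta_deriv_if _ _ _ _ _ t h4 ?_ ?_) ?_) ?_) ?_
  · exact hasDerivAt_const t _
  · exact theta_comp_deriv (p.1 * p.2.2.2.1) 16 (-1) t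
  · have h := theta_comp_deriv (p.1 * p.2.2.1) (-8) 2 t
    have e : ∀ t : ℝ, -8 * t + 2 = 2 - 8 * t := fun t => by ring
    simp only [e] at h
    exact h
  · exact theta_comp_deriv (p.1 * p.2.1) 4 (-1) t
  · have h := theta_comp_deriv (p.1 * 1) (-2) 2 t
    have e : ∀ t : ℝ, -2 * t + 2 = 2 - 2 * t := fun t => by ring
    simp only [e] at h
    exact h

theorem theta_V_bound (p : T4) (t : ℝ) : ‖theta_V p t‖ ≤ 48 * Real.pi := by
  have hpi := Real.pi_pos
  have hb : ∀ (a : ℝ) (z : Circle) (u : ℝ), |a| ≤ 16 → ‖a • theta_d z u‖ ≤ 48 * Real.pi := by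
    intro a z u ha
    rw [norm_smul, Real.norm_eq_abs]
    have h1 := theta_d_bound z u
    have h2 := norm_nonneg (theta_d z u)
    calc |a| * ‖theta_d z u‖ ≤ 16 * (3 * Real.pi) := mul_le_mul ha h1 h2 (by norm_num)
      _ = 48 * Real.pi := by ring
  unfold theta_V
  split_ifs
  · rw [norm_zero]; positivity
  · exact hb _ _ _ (by norm_num [abs_of_pos])
  · exact hb _ _ _ (by rw [abs_neg]; norm_num [abs_of_pos])
  · exact hb _ _ _ (by norm_num [abs_of_pos])
  · exact hb _ _ _ (by rw [abs_neg]; norm_num [abs_of_pos])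

theorem theta_V_gen {A : Type} [TopologicalSpace A] (f1 f2 f3 f4 : A → Circle)
    (h1 : Continuous f1) (h2 : Continuous f2) (h3 : Continuous f3) (h4 : Continuous f4) :
    ContinuousOn (fun q : A × ℝ => if q.2 ≤ 1 / 2 then
      (if q.2 ≤ 1 / 4 then
        (if q.2 ≤ 1 / 8 then
          (if q.2 ≤ 1 / 16 then (0 : E3) else (16 : ℝ) • theta_d (f1 q.1) (16 * q.2 - 1))
          else (-8 : ℝ) • theta_d (f2 q.1) (2 - 8 * q.2))
        else (4 : ℝ) • theta_d (f3 q.1) (4 * q.2 - 1))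
      else (-2 : ℝ) • theta_d (f4 q.1) (2 - 2 * q.2))
    {q | q.2 ∉ ({1 / 16, 1 / 8, 1 / 4, 1 / 2} : Finset ℝ)} := by
  have hne : ∀ q : A × ℝ, q ∈ {q : A × ℝ | q.2 ∉ ({1 / 16, 1 / 8, 1 / 4, 1 / 2} : Finset ℝ)} →
      q.2 ≠ 1 / 16 ∧ q.2 ≠ 1 / 8 ∧ q.2 ≠ 1 / 4 ∧ q.2 ≠ 1 / 2 := by
    intro q hq
    have hq' : q.2 ∉ ({1 / 16, 1 / 8, 1 / 4, 1 / 2} : Finset ℝ) := hq
    simp only [Finset.mem_insert, Finset.mem_singleton, not_or] at hq'
    exact hq'
  have hc : ∀ (a : ℝ) (f : A → Circle) (g : ℝ → ℝ), Continuous f → Continuous g →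
      Continuous (fun q : A × ℝ => a • theta_d (f q.1) (g q.2)) := by
    intro a f g hf hg
    have h0 : Continuous (fun q : A × ℝ => ((f q.1, g q.2) : Circle × ℝ)) :=
      (hf.comp continuous_fst).prodMk (hg.comp continuous_snd)
    have h1 : Continuous (fun q : A × ℝ => theta_d (f q.1) (g q.2)) :=
      Continuous.comp (g := fun q : Circle × ℝ => theta_d q.1 q.2)
        (f := fun q : A × ℝ => ((f q.1, g q.2) : Circle × ℝ)) theta_d_cont h0
    exact h1.const_smul a
  have k4 := theta_cont_if (1 / 16) (fun _ : A × ℝ => (0 : E3))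
    (fun q : A × ℝ => (16 : ℝ) • theta_d (f1 q.1) (16 * q.2 - 1)) _ (fun q hq => (hne q hq).1)
    continuousOn_const (hc 16 f1 (fun t => 16 * t - 1) h1 (by fun_prop)).continuousOn
  have k3 := theta_cont_if (1 / 8) _
    (fun q : A × ℝ => (-8 : ℝ) • theta_d (f2 q.1) (2 - 8 * q.2)) _ (fun q hq => (hne q hq).2.1)
    k4 (hc (-8) f2 (fun t => 2 - 8 * t) h2 (by fun_prop)).continuousOn
  have k2 := theta_cont_if (1 / 4) _
    (fun q : A × ℝ => (4 : ℝ) • theta_d (f3 q.1) (4 * q.2 - 1)) _ (fun q hq => (hne q hq).2.2.1)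
    k3 (hc 4 f3 (fun t => 4 * t - 1) h3 (by fun_prop)).continuousOn
  exact theta_cont_if (1 / 2) _
    (fun q : A × ℝ => (-2 : ℝ) • theta_d (f4 q.1) (2 - 2 * q.2)) _ (fun q hq => (hne q hq).2.2.2)
    k2 (hc (-2) f4 (fun t => 2 - 2 * t) h4 (by fun_prop)).continuousOn

theorem theta_V_cont : ContinuousOn (fun q : T4 × ℝ => theta_V q.1 q.2)
    {q | q.2 ∉ ({1 / 16, 1 / 8, 1 / 4, 1 / 2} : Finset ℝ)} :=
  theta_V_gen (A := T4) (fun p => p.1 * p.2.2.2.1) (fun p => p.1 * p.2.2.1)
    (fun p => p.1 * p.2.1) (fun p => p.1 * 1) (by fun_prop) (by fun_prop) (by fun_prop)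
    (by fun_prop)

theorem theta_F_gen {A : Type} [TopologicalSpace A] (s f1 f2 f3 f4 : A → Circle)
    (h0 : Continuous s)
    (h1 : Continuous f1) (h2 : Continuous f2) (h3 : Continuous f3) (h4 : Continuous f4) :
    Continuous (fun q : A × ℝ =>
      ((rotS (s q.1) (m4f (f1 q.1) (f2 q.1) (f3 q.1) (f4 q.1) q.2) : S2) : E3)) := by
  obtain ⟨hmc, hm0, hm1, -, -, -, -⟩ := mer_facts
  obtain ⟨-, hrc, -, -, -, -⟩ := rot_facts
  have hmer : ∀ f : A → Circle, Continuous f →
      Continuous fun p : A × ℝ => mer (f p.1) p.2 := by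
    intro f hf
    have h0 : Continuous (fun q : A × ℝ => ((f q.1, q.2) : Circle × ℝ)) :=
      (hf.comp continuous_fst).prodMk continuous_snd
    exact Continuous.comp (g := fun q : Circle × ℝ => mer q.1 q.2)
      (f := fun q : A × ℝ => ((f q.1, q.2) : Circle × ℝ)) hmc h0
  have hmerR : ∀ f : A → Circle, Continuous f →
      Continuous fun p : A × ℝ => merR (f p.1) p.2 := by
    intro f hf
    have h0 : Continuous (fun q : A × ℝ => ((f q.1, 1 - q.2) : Circle × ℝ)) :=
      (hf.comp continuous_fst).prodMk (continuous_const.sub continuous_snd)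
    exact Continuous.comp (g := fun q : Circle × ℝ => mer q.1 q.2)
      (f := fun q : A × ℝ => ((f q.1, 1 - q.2) : Circle × ℝ)) hmc h0
  have hcat1 : ∀ γ δ : ℝ → S2, cat γ δ 1 = δ 1 := by
    intro γ δ
    unfold cat
    rw [if_neg (by norm_num)]
    norm_num
  have hR0 : ∀ z, merR z 0 = mer z 1 := by
    intro z
    unfold merR
    rw [sub_zero]
  have hR1 : ∀ z, merR z 1 = mer z 0 := by
    intro z
    unfold merR
    rw [sub_self]
  have g1 := cat_cont (A := A) (fun _ _ => nP) (fun p => mer (f1 p)) continuous_const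
      (hmer f1 h1) (fun a => by rw [hm0])
  have g2 := cat_cont (A := A) (fun p => cat (fun _ => nP) (mer (f1 p)))
      (fun p => merR (f2 p)) g1 (hmerR f2 h2) (fun a => by rw [hcat1, hR0, hm1, hm1])
  have g3 := cat_cont (A := A)
      (fun p => cat (cat (fun _ => nP) (mer (f1 p))) (merR (f2 p)))
      (fun p => mer (f3 p)) g2 (hmer f3 h3) (fun a => by rw [hcat1, hR1, hm0, hm0])
  have g4 := cat_cont (A := A)
      (fun p => cat (cat (cat (fun _ => nP) (mer (f1 p))) (merR (f2 p))) (mer (f3 p)))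
      (fun p => merR (f4 p)) g3 (hmerR f4 h4) (fun a => by rw [hcat1, hR0, hm1, hm1])
  have g5 : Continuous fun q : A × ℝ => m4f (f1 q.1) (f2 q.1) (f3 q.1) (f4 q.1) q.2 := g4
  have g6 : Continuous fun q : A × ℝ =>
      ((s q.1, m4f (f1 q.1) (f2 q.1) (f3 q.1) (f4 q.1) q.2) : Circle × S2) :=
    (h0.comp continuous_fst).prodMk g5
  have g7 : Continuous fun q : A × ℝ =>
      rotS (s q.1) (m4f (f1 q.1) (f2 q.1) (f3 q.1) (f4 q.1) q.2) :=
    Continuous.comp (g := fun q : Circle × S2 => rotS q.1 q.2)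
      (f := fun q : A × ℝ =>
        ((s q.1, m4f (f1 q.1) (f2 q.1) (f3 q.1) (f4 q.1) q.2) : Circle × S2)) hrc g6
  exact continuous_subtype_val.comp g7

theorem theta_F_cont : Continuous (fun q : T4 × ℝ => theta_F q.1 q.2) := by
  have e : (fun q : T4 × ℝ => theta_F q.1 q.2) = fun q : T4 × ℝ =>
      ((rotS q.1.1 (m4f q.1.2.2.2.1 q.1.2.2.1 q.1.2.1 1 q.2) : S2) : E3) := by
    funext q
    exact theta_F_eq q.1 q.2
  rw [e]
  exact theta_F_gen (A := T4) (fun p => p.1) (fun p => p.2.2.2.1) (fun p => p.2.2.1)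
    (fun p => p.2.1) (fun _ => 1) (by fun_prop) (by fun_prop) (by fun_prop)
    (by fun_prop) (by fun_prop)

theorem theta_exists : ∃ Θ, IsTheta Θ := by
  obtain ⟨f, hf, -⟩ := mk_hloop (A := T4) theta_F theta_V theta_F_cont
    {1 / 16, 1 / 8, 1 / 4, 1 / 2} theta_V_cont
    (fun a => ⟨48 * Real.pi, Set.univ, Filter.univ_mem, fun b _ t _ => theta_V_bound b t⟩)
    (by
      intro a t _ ht
      simp only [Finset.mem_insert, Finset.mem_singleton, not_or] at ht
      exact theta_F_deriv a t ht.2.2.2 ht.2.2.1 ht.2.1 ht.1)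
    (by
      intro a t _
      rw [theta_F_eq]
      exact mem_sphere_zero_iff_norm.mp (rotS a.1 _).2)
    (by
      intro a
      obtain ⟨-, hm0, -, -, -, -, -⟩ := mer_facts
      unfold theta_F
      rw [if_pos (by norm_num), if_pos (by norm_num), if_pos (by norm_num), if_pos (by norm_num),
        if_neg (by norm_num)]
      have e : (2 : ℝ) - 2 * 1 = 0 := by norm_num
      rw [e, ← theta_mer, hm0])
  refine ⟨f, fun p t => ?_⟩
  rw [hf p t, theta_F_eq]

end Pool.Agent.Helper534.LS
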