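import Pool.Agent.Helper534.LS.Defs
import Pool.Agent.Helper534.LS.P_toS2_val

open MeasureTheory

namespace Pool.Agent.Helper534.LS



theorem rinv'_val_inner (x v : E3) : inner ℝ x v = x 0 * v 0 + x 1 * v 1 + x 2 * v 2 := by
  rw [PiLp.inner_apply, Fin.sum_univ_three]
  simp only [RCLike.inner_apply, conj_trivial]
  ring

theorem rinv'_val_norm (x : E3) : ‖x‖ = 1 ↔ x 0 ^ 2 + x 1 ^ 2 + x 2 ^ 2 = 1 := by
  rw [EuclideanSpace.norm_eq, Real.sqrt_eq_one, Fin.sum_univ_three]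
  simp only [Real.norm_eq_abs, sq_abs]

theorem rinv'_val_sP : ((sP : S2) : E3) 0 = 0 ∧ ((sP : S2) : E3) 1 = 0 ∧ ((sP : S2) : E3) 2 = -1 := by
  refine ⟨?_, ?_, ?_⟩ <;> simp [sP]

theorem rinv'_val_coord (x v : E3) :
    rinvE' x v 0 = -(v 0 - (x 0 * v 0 + x 1 * v 1 + (-1 + x 2) * v 2) / (1 - x 2) * x 0) ∧
    rinvE' x v 1 = v 1 - (x 0 * v 0 + x 1 * v 1 + (-1 + x 2) * v 2) / (1 - x 2) * x 1 ∧
    rinvE' x v 2 = -(v 2 - (x 0 * v 0 + x 1 * v 1 + (-1 + x 2) * v 2) / (1 - x 2) * (-1 + x 2)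
      - 2 * (x 0 * v 0 + x 1 * v 1 + x 2 * v 2)) := by
  obtain ⟨h0, h1, h2⟩ := rinv'_val_sP
  refine ⟨?_, ?_, ?_⟩
  · simp only [rinvE', rinv'_val_inner, PiLp.add_apply, PiLp.sub_apply, PiLp.smul_apply, h0, h1,
      h2, smul_eq_mul, Matrix.cons_val_zero, WithLp.toLp]
    simp
  · simp only [rinvE', rinv'_val_inner, PiLp.add_apply, PiLp.sub_apply, PiLp.smul_apply, h0, h1,
      h2, smul_eq_mul]
    simp
  · simp only [rinvE', rinv'_val_inner, PiLp.add_apply, PiLp.sub_apply, PiLp.smul_apply, h0, h1,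
      h2, smul_eq_mul]
    simp
    ring

theorem rinv'_val (x : S2) (hx : (x : E3) 2 < 1) :
    (∀ y : S2, ((rinv' x y : S2) : E3) = rinvE' x y) ∧ rinv' x x = nP := by
  have hx1 : ‖(x : E3)‖ = 1 := mem_sphere_zero_iff_norm.1 x.2
  have hxn := (rinv'_val_norm x).1 hx1
  have hc : 1 - (x : E3) 2 ≠ 0 := by
    intro h
    linarith
  have hval : ∀ y : S2, ((rinv' x y : S2) : E3) = rinvE' x y := by
    intro y
    have hy1 : ‖(y : E3)‖ = 1 := mem_sphere_zero_iff_norm.1 y.2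
    have hyn := (rinv'_val_norm y).1 hy1
    unfold rinv'
    refine toS2_val _ ?_
    rw [rinv'_val_norm]
    obtain ⟨e0, e1, e2⟩ := rinv'_val_coord x y
    rw [e0, e1, e2]
    generalize (x : E3) 0 = a at *
    generalize (x : E3) 1 = b at *
    generalize (x : E3) 2 = c at *
    generalize (y : E3) 0 = p at *
    generalize (y : E3) 1 = q at *
    generalize (y : E3) 2 = r at *
    set k := (a * p + b * q + (-1 + c) * r) / (1 - c) with hk
    have hk' : k * (1 - c) = a * p + b * q + (-1 + c) * r := by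
      rw [hk]; field_simp
    have e3 : r - k * (-1 + c) - 2 * (a * p + b * q + c * r) = -(a * p + b * q + c * r) := by
      linear_combination hk'
    rw [e3]
    have e4 : k ^ 2 * (a ^ 2 + b ^ 2) = (a * p + b * q + (-1 + c) * r) * (k * (1 + c)) := by
      have : a ^ 2 + b ^ 2 = (1 - c) * (1 + c) := by linear_combination hxn
      rw [this]
      linear_combination (k * (1 + c)) * hk'
    have e5 : (a * p + b * q + (-1 + c) * r) * (k * (1 + c)) - 2 * k * (a * p + b * q)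
        = - (a * p + b * q + (-1 + c) * r) * (a * p + b * q + (1 + c) * r) := by
      linear_combination (-(a * p + b * q) - (1 + c) * r) * hk'
    linear_combination e4 + e5 + hyn
  refine ⟨hval, ?_⟩
  apply Subtype.ext
  rw [hval x]
  obtain ⟨e0, e1, e2⟩ := rinv'_val_coord x x
  have hk : ((x : E3) 0 * (x : E3) 0 + (x : E3) 1 * (x : E3) 1 + (-1 + (x : E3) 2) * (x : E3) 2)
      / (1 - (x : E3) 2) = 1 := by
    rw [div_eq_one_iff_eq hc]
    linear_combination hxn
  rw [hk] at e0 e1 e2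
  ext i
  fin_cases i
  · show rinvE' x x 0 = _
    rw [e0]
    simp [nP]
  · show rinvE' x x 1 = _
    rw [e1]
    simp [nP]
  · show rinvE' x x 2 = _
    rw [e2]
    simp only [nP]
    simp
    linear_combination 2 * hxn

end Pool.Agent.Helper534.LS
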