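import Pool.Agent.Helper534.LS.Defs
import Pool.Agent.Helper534.LS.P_toS2_val
import Pool.Agent.Helper534.LS.P_toS2_cont
import Pool.Agent.Helper534.LS.P_rinvp_val

open MeasureTheory

namespace Pool.Agent.Helper534.LS



theorem rinv'_cont : ContinuousOn (fun p : S2 × S2 => rinv' p.1 p.2) {p | (p.1 : E3) 2 < 1} := by
  have hw : ContinuousOn (fun p : S2 × S2 => ((p.2 : E3) - ((inner ℝ ((sP : E3) + p.1) (p.2 : E3)) /
      (1 - (p.1 : E3) 2)) • ((sP : E3) + p.1) + (2 * inner ℝ (p.1 : E3) (p.2 : E3)) • (sP : E3)))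
      {p | (p.1 : E3) 2 < 1} := by
    have h2 : Continuous (fun p : S2 × S2 => (p.1 : E3) 2) := by fun_prop
    have h1 : Continuous (fun p : S2 × S2 => inner ℝ ((sP : E3) + p.1) (p.2 : E3)) := by fun_prop
    have h3 : ContinuousOn (fun p : S2 × S2 => (inner ℝ ((sP : E3) + p.1) (p.2 : E3)) /
      (1 - (p.1 : E3) 2)) {p | (p.1 : E3) 2 < 1} := by
      apply ContinuousOn.div h1.continuousOn (continuous_const.sub h2).continuousOn
      intro p hp h0
      have h7 : (p.1 : E3) 2 < 1 := hp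
      have h8 : 1 - (p.1 : E3) 2 = 0 := h0
      linarith
    have h4 : Continuous (fun p : S2 × S2 => (sP : E3) + (p.1 : E3)) := by fun_prop
    have h5 : Continuous (fun p : S2 × S2 => (2 * inner ℝ (p.1 : E3) (p.2 : E3)) • (sP : E3)) := by
      fun_prop
    have h6 : Continuous (fun p : S2 × S2 => (p.2 : E3)) := by fun_prop
    exact (h6.continuousOn.sub (h3.smul h4.continuousOn)).add h5.continuousOn
  have hk : Continuous (fun w : E3 => (!₂[-(w 0), w 1, -(w 2)] : E3)) := by
    apply (PiLp.continuous_toLp 2 _).comp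
    apply continuous_pi
    intro i
    fin_cases i
    · simp only [Fin.zero_eta, Matrix.cons_val_zero]
      fun_prop
    · simp only [Fin.mk_one, Matrix.cons_val_one, Matrix.cons_val_zero]
      fun_prop
    · simp only [Fin.reduceFinMk, Matrix.cons_val]
      fun_prop
  have hE : ContinuousOn (fun p : S2 × S2 => rinvE' p.1 p.2) {p | (p.1 : E3) 2 < 1} :=
    hk.comp_continuousOn hw
  refine toS2_cont.comp hE ?_
  intro p hp h0
  have h1 := (rinv'_val p.1 hp).1 p.2
  have h0' : rinvE' (p.1 : E3) (p.2 : E3) = 0 := h0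
  have h2 : ‖((rinv' p.1 p.2 : S2) : E3)‖ = 1 := mem_sphere_zero_iff_norm.mp (rinv' p.1 p.2).2
  rw [h1, h0', norm_zero] at h2
  exact zero_ne_one h2

end Pool.Agent.Helper534.LS
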