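import Pool.Agent.Helper534.LS.Defs
import Pool.Agent.Helper534.LS.P_rinvp_val
import Pool.Agent.Helper534.LS.P_rinvp_cont

open MeasureTheory

namespace Pool.Agent.Helper534.LS



theorem aZ_exists : ∃ a, IsAZ a := by
  have hcont : Continuous (fun p : ↥LZ × unitInterval => rinv' (p.1.1.1 0) (p.1.1.1 p.2)) := by
    have h1 : Continuous (fun p : ↥LZ × unitInterval => ((p.1.1.1 0, p.1.1.1 p.2) : S2 × S2)) := by
      refine Continuous.prodMk ?_ ?_
      · fun_prop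
      · fun_prop
    have h2 : ∀ p : ↥LZ × unitInterval, ((p.1.1.1 0, p.1.1.1 p.2) : S2 × S2) ∈
        {q : S2 × S2 | (q.1 : E3) 2 < 1} := by
      intro p
      have h3 : ((p.1.1.1 0 : S2) : E3) 2 < 1 := p.1.2
      exact h3
    have h4 := ContinuousOn.comp_continuous rinv'_cont h1 h2
    exact h4
  let F : C(↥LZ × unitInterval, S2) := ⟨_, hcont⟩
  have hF : ∀ (γ : ↥LZ) (t : unitInterval), (F.curry γ) t = rinv' (γ.1.1 0) (γ.1.1 t) :=
    fun γ t => rfl
  refine ⟨⟨fun γ => ⟨F.curry γ, ?_, ?_⟩, ?_⟩, ?_⟩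
  · rw [hF]
    exact (rinv'_val (γ.1.1 0) γ.2).2
  · rw [hF, ← γ.1.2]
    exact (rinv'_val (γ.1.1 0) γ.2).2
  · exact Continuous.subtype_mk F.curry.continuous _
  · intro γ t
    rfl

end Pool.Agent.Helper534.LS
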