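import Pool.Agent.Helper534.LS.Defs
import Pool.Agent.Helper534.LS.P_rot_facts

open MeasureTheory

namespace Pool.Agent.Helper534.LS



theorem act_exists : ∃ c, IsAct c := by
  obtain ⟨_, hc, hN, _⟩ := rot_facts
  have h2 : Continuous (fun q : (Circle × Om) × unitInterval => rotS q.1.1 (q.1.2.1 q.2)) := by
    have h3 : Continuous (fun q : (Circle × Om) × unitInterval => (q.1.1, q.1.2.1 q.2)) := by
      refine (continuous_fst.comp continuous_fst).prodMk ?_
      have h4 : Continuous (fun q : (Circle × Om) × unitInterval => q.1.2.1) :=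
        continuous_subtype_val.comp (continuous_snd.comp continuous_fst)
      exact h4.eval continuous_snd
    exact hc.comp h3
  let F : Circle × Om → C(unitInterval, S2) := fun p =>
    ⟨fun t => rotS p.1 (p.2.1 t), h2.comp (Continuous.prodMk_right p)⟩
  have hF : Continuous F := ContinuousMap.continuous_of_continuous_uncurry F h2
  refine ⟨⟨fun p => ⟨F p, ?_, ?_⟩, hF.subtype_mk _⟩, fun p t => rfl⟩
  · show rotS p.1 (p.2.1 0) = nP
    rw [p.2.2.1, hN]
  · show rotS p.1 (p.2.1 1) = nP
    rw [p.2.2.2, hN]

end Pool.Agent.Helper534.LS
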