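import Pool.Agent.Helper534.LS.Defs

open MeasureTheory

namespace Pool.Agent.Helper534.LS



theorem l_cov : (IsOpen LN ∧ IsOpen LZ ∧ ∀ γ, γ ∈ LN ∨ γ ∈ LZ) ∧
    (IsOpen PN ∧ IsOpen PZ ∧ ∀ x, x ∈ PN ∨ x ∈ PZ) ∧
    (IsOpen SN ∧ IsOpen SZ ∧ ∀ x, x ∈ SN ∨ x ∈ SZ) := by
  have hc : Continuous (fun x : S2 => (x : E3) 2) :=
    (EuclideanSpace.proj (2 : Fin 3) : E3 →L[ℝ] ℝ).continuous.comp continuous_subtype_val
  have hL : Continuous (fun γ : LL => ((γ.1 0 : S2) : E3) 2) :=
    hc.comp ((continuous_eval_const (F := C(unitInterval, S2)) (0 : unitInterval)).comp continuous_subtype_val)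
  have hP : Continuous (fun x : P3 => ((x.1.1 : S2) : E3) 2) :=
    hc.comp (continuous_fst.comp continuous_subtype_val)
  have key : ∀ r : ℝ, -1 < r ∨ r < 1 := by
    intro r
    rcases lt_or_ge (-1) r with h | h
    · exact Or.inl h
    · exact Or.inr (by linarith)
  exact ⟨⟨isOpen_lt continuous_const hL, isOpen_lt hL continuous_const, fun γ => key _⟩,
    ⟨isOpen_lt continuous_const hP, isOpen_lt hP continuous_const, fun x => key _⟩,
    ⟨isOpen_lt continuous_const hc, isOpen_lt hc continuous_const, fun x => key _⟩⟩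

end Pool.Agent.Helper534.LS
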