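import Pool.Agent.Helper534.LS.Defs
import Pool.Agent.Helper534.LS.P_raw_inj

open MeasureTheory

namespace Pool.Agent.Helper534.LS



theorem mv_exact3 {X : Type} [TopologicalSpace X] (U V : Set X) (hU : IsOpen U) (hV : IsOpen V)
    (hUV : ∀ x, x ∈ U ∨ x ∈ V) (n : ℕ) (u : HH U n) (v : HH V n)
    (h : hmap (sub U) n u + hmap (sub V) n v = 0) :
    ∃ d : HH ↥(U ∩ V) n, u = hmap (inl U V) n d ∧ v = - hmap (inr U V) n d := by
  obtain ⟨⟨u0, hu⟩, rfl⟩ := Submodule.Quotient.mk_surjective _ u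
  obtain ⟨⟨v0, hv⟩, rfl⟩ := Submodule.Quotient.mk_surjective _ v
  have h' : (Submodule.Quotient.mk (⟨push (sub U) n u0, push_mem_Cyc _ n u0 hu⟩ +
      ⟨push (sub V) n v0, push_mem_Cyc _ n v0 hv⟩) : HH X n) = 0 := h
  rw [Submodule.Quotient.mk_eq_zero] at h'
  have h'' : push (sub U) n u0 + push (sub V) n v0 ∈ Bdy X n := h'
  obtain ⟨d, hd, h1, h2⟩ := raw_inj U V hU hV hUV n u0 v0 hu hv h''
  refine ⟨Submodule.Quotient.mk ⟨d, hd⟩, ?_, ?_⟩
  · have e : hmap (inl U V) n (Submodule.Quotient.mk ⟨d, hd⟩) =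
        (Submodule.Quotient.mk ⟨push (inl U V) n d, push_mem_Cyc _ n d hd⟩ : HH U n) := rfl
    rw [e]
    apply (Submodule.Quotient.eq _).mpr
    exact h1
  · have e : hmap (inr U V) n (Submodule.Quotient.mk ⟨d, hd⟩) =
        (Submodule.Quotient.mk ⟨push (inr U V) n d, push_mem_Cyc _ n d hd⟩ : HH V n) := rfl
    rw [e, ← Submodule.Quotient.mk_neg]
    apply (Submodule.Quotient.eq _).mpr
    rw [sub_neg_eq_add]
    exact h2

end Pool.Agent.Helper534.LS
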