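import Pool.Agent.Helper534.LS.Defs
import Pool.Agent.Helper534.LS.P_toS2_val

open MeasureTheory

namespace Pool.Agent.Helper534.LS



theorem rinv_nP (y : S2) : rinv nP y = y := by
  have hi : inner ℝ (nP : E3) (y : E3) = (y : E3) 2 := by
    simp [nP, PiLp.inner_apply, Fin.sum_univ_three]
  have h2 : (nP : E3) 2 = 1 := by simp [nP]
  have hE : rinvE nP y = (y : E3) := by
    unfold rinvE
    rw [inner_add_left, hi, h2]
    have e : ((y : E3) 2 + (y : E3) 2) / (1 + 1) = (y : E3) 2 := by ring
    rw [e, smul_add, ← add_smul]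
    have e2 : (y : E3) 2 + (y : E3) 2 = 2 * (y : E3) 2 := by ring
    rw [e2, sub_add_cancel]
  apply Subtype.ext
  unfold rinv
  rw [hE, toS2_val]
  exact mem_sphere_zero_iff_norm.1 y.2

end Pool.Agent.Helper534.LS
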