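import Pool.Agent.Helper534.LS.Defs
import Pool.Agent.Helper534.LS.P_toS2_val
import Pool.Agent.Helper534.LS.P_rinv_val
import Pool.Agent.Helper534.LS.P_rinvp_val
import Pool.Agent.Helper534.LS.P_rot_facts

open MeasureTheory

namespace Pool.Agent.Helper534.LS



theorem aux_alg (a b c p q r : ℝ) (h : a ^ 2 + b ^ 2 + c ^ 2 = 1) (h1 : -1 < c) (h2 : c < 1) :
    -(p - (a * p + b * q + (-1 + c) * r) / (1 - c) * a)
      = (a ^ 2 - b ^ 2) / (a ^ 2 + b ^ 2) * (p - (a * p + b * q + (1 + c) * r) / (1 + c) * a)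
        - (-(2 * a * b) / (a ^ 2 + b ^ 2)) * (q - (a * p + b * q + (1 + c) * r) / (1 + c) * b) ∧
    (q - (a * p + b * q + (-1 + c) * r) / (1 - c) * b)
      = (-(2 * a * b) / (a ^ 2 + b ^ 2)) * (p - (a * p + b * q + (1 + c) * r) / (1 + c) * a)
        + (a ^ 2 - b ^ 2) / (a ^ 2 + b ^ 2) * (q - (a * p + b * q + (1 + c) * r) / (1 + c) * b) := by
  have hR : a ^ 2 + b ^ 2 = (1 - c) * (1 + c) := by linarith [h]
  have hc1 : 1 - c ≠ 0 := by linarith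
  have hc2 : 1 + c ≠ 0 := by linarith
  have hb2 : b ^ 2 = (1 - c) * (1 + c) - a ^ 2 := by linarith
  rw [hR]
  constructor
  · field_simp
    ring_nf
    have e3 : b ^ 3 = b * ((1 - c) * (1 + c) - a ^ 2) := by rw [← hb2]; ring
    have e4 : b ^ 4 = ((1 - c) * (1 + c) - a ^ 2) ^ 2 := by rw [← hb2]; ring
    simp only [e3, e4, hb2]
    ring
  · field_simp
    ring_nf
    have e3 : b ^ 3 = b * ((1 - c) * (1 + c) - a ^ 2) := by rw [← hb2]; ring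
    have e4 : b ^ 4 = ((1 - c) * (1 + c) - a ^ 2) ^ 2 := by rw [← hb2]; ring
    simp only [e3, e4, hb2]
    ring

theorem aux_lon (x : S2) (h : (x : E3) 0 ^ 2 + (x : E3) 1 ^ 2 ≠ 0) :
    (((lon x ^ 2)⁻¹ : Circle) : ℂ).re
      = ((x : E3) 0 ^ 2 - (x : E3) 1 ^ 2) / ((x : E3) 0 ^ 2 + (x : E3) 1 ^ 2) ∧
    (((lon x ^ 2)⁻¹ : Circle) : ℂ).im
      = -(2 * (x : E3) 0 * (x : E3) 1) / ((x : E3) 0 ^ 2 + (x : E3) 1 ^ 2) := by
  set a := (x : E3) 0 with ha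
  set b := (x : E3) 1 with hb
  have hz : (⟨a, b⟩ : ℂ) ≠ 0 := by
    intro h0
    apply h
    have h1 : a = 0 := congrArg Complex.re h0
    have h2 : b = 0 := congrArg Complex.im h0
    rw [h1, h2]; ring
  have hlon : ((lon x : Circle) : ℂ) = (⟨a, b⟩ : ℂ) / (‖(⟨a, b⟩ : ℂ)‖ : ℂ) := by
    unfold lon
    rw [dif_neg hz]
  have hn : ‖(⟨a, b⟩ : ℂ)‖ ^ 2 = a ^ 2 + b ^ 2 := by
    rw [Complex.sq_norm, Complex.normSq_mk]; ring
  have hsq : ((lon x : Circle) : ℂ) ^ 2 * (⟨(a ^ 2 - b ^ 2) / (a ^ 2 + b ^ 2),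
      -(2 * a * b) / (a ^ 2 + b ^ 2)⟩ : ℂ) = 1 := by
    rw [hlon, div_pow, ← Complex.ofReal_pow, hn]
    have hz2 : (⟨a, b⟩ : ℂ) ^ 2 = ⟨a ^ 2 - b ^ 2, 2 * a * b⟩ := by
      rw [sq]
      apply Complex.ext
      · simp; ring
      · simp; ring
    rw [hz2, div_mul_eq_mul_div, div_eq_iff (Complex.ofReal_ne_zero.2 h), one_mul]
    apply Complex.ext
    · rw [Complex.mul_re, Complex.ofReal_re]
      simp only
      field_simp
      ring
    · rw [Complex.mul_im, Complex.ofReal_im]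
      simp only
      field_simp
      ring
  have hinv : (((lon x ^ 2)⁻¹ : Circle) : ℂ) = (⟨(a ^ 2 - b ^ 2) / (a ^ 2 + b ^ 2),
      -(2 * a * b) / (a ^ 2 + b ^ 2)⟩ : ℂ) := by
    rw [Circle.coe_inv, Circle.coe_pow]
    exact (eq_inv_of_mul_eq_one_right hsq).symm
  rw [hinv]
  exact ⟨rfl, rfl⟩

theorem rinv_rel (x : S2) (hx : -1 < (x : E3) 2) (hx' : (x : E3) 2 < 1) (y : S2) :
    rinv' x y = rotS ((lon x ^ 2)⁻¹) (rinv x y) := by
  apply Subtype.ext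
  rw [(rinv'_val x hx').1, rot_facts.1, (rinv_val x hx).1]
  have hx1 : (x : E3) 0 ^ 2 + (x : E3) 1 ^ 2 + (x : E3) 2 ^ 2 = 1 := by
    have h1 : ‖(x : E3)‖ = 1 := mem_sphere_zero_iff_norm.1 x.2
    rw [EuclideanSpace.norm_eq, Real.sqrt_eq_one, Fin.sum_univ_three] at h1
    simpa using h1
  have hne : (x : E3) 0 ^ 2 + (x : E3) 1 ^ 2 ≠ 0 := by
    intro h0
    nlinarith
  obtain ⟨hre, him⟩ := aux_lon x hne
  obtain ⟨h3, h4⟩ := aux_alg ((x : E3) 0) ((x : E3) 1) ((x : E3) 2) ((y : E3) 0) ((y : E3) 1)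
    ((y : E3) 2) hx1 hx hx'
  have i1 : inner ℝ ((nP : E3) + (x : E3)) (y : E3) = (x : E3) 0 * (y : E3) 0
      + (x : E3) 1 * (y : E3) 1 + (1 + (x : E3) 2) * (y : E3) 2 := by
    rw [PiLp.inner_apply, Fin.sum_univ_three]
    simp [nP]
    ring
  have i2 : inner ℝ ((sP : E3) + (x : E3)) (y : E3) = (x : E3) 0 * (y : E3) 0
      + (x : E3) 1 * (y : E3) 1 + (-1 + (x : E3) 2) * (y : E3) 2 := by
    rw [PiLp.inner_apply, Fin.sum_univ_three]
    simp [sP]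
    ring
  have i0 : inner ℝ (x : E3) (y : E3) = (x : E3) 0 * (y : E3) 0
      + (x : E3) 1 * (y : E3) 1 + (x : E3) 2 * (y : E3) 2 := by
    rw [PiLp.inner_apply, Fin.sum_univ_three]
    simp
    ring
  have hc1 : 1 - (x : E3) 2 ≠ 0 := by linarith
  have hc2 : 1 + (x : E3) 2 ≠ 0 := by linarith
  have r0 : (rinvE x y) 0 = (y : E3) 0 - ((x : E3) 0 * (y : E3) 0
      + (x : E3) 1 * (y : E3) 1 + (1 + (x : E3) 2) * (y : E3) 2) / (1 + (x : E3) 2) * (x : E3) 0 := by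
    unfold rinvE
    rw [i1]
    simp [nP]
  have r1 : (rinvE x y) 1 = (y : E3) 1 - ((x : E3) 0 * (y : E3) 0
      + (x : E3) 1 * (y : E3) 1 + (1 + (x : E3) 2) * (y : E3) 2) / (1 + (x : E3) 2) * (x : E3) 1 := by
    unfold rinvE
    rw [i1]
    simp [nP]
  have r2 : (rinvE x y) 2 = inner ℝ (x : E3) (y : E3) := by
    unfold rinvE
    rw [i1, i0]
    simp [nP]
    field_simp
    ring
  have s0 : (rinvE' x y) 0 = -((y : E3) 0 - ((x : E3) 0 * (y : E3) 0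
      + (x : E3) 1 * (y : E3) 1 + (-1 + (x : E3) 2) * (y : E3) 2) / (1 - (x : E3) 2)
      * (x : E3) 0) := by
    unfold rinvE'
    rw [i2]
    simp [sP]
  have s1 : (rinvE' x y) 1 = ((y : E3) 1 - ((x : E3) 0 * (y : E3) 0
      + (x : E3) 1 * (y : E3) 1 + (-1 + (x : E3) 2) * (y : E3) 2) / (1 - (x : E3) 2)
      * (x : E3) 1) := by
    unfold rinvE'
    rw [i2]
    simp [sP]
  have s2 : (rinvE' x y) 2 = inner ℝ (x : E3) (y : E3) := by
    unfold rinvE'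
    rw [i2, i0]
    simp [sP]
    field_simp
    ring
  ext i
  fin_cases i
  · change (rinvE' x y) 0 = (rotE ((lon x ^ 2)⁻¹) (rinvE x y)) 0
    rw [s0, h3]
    unfold rotE
    simp only [Matrix.cons_val_zero]
    rw [hre, him, r0, r1]
  · change (rinvE' x y) 1 = (rotE ((lon x ^ 2)⁻¹) (rinvE x y)) 1
    rw [s1, h4]
    unfold rotE
    simp only [Matrix.cons_val_one, Matrix.cons_val_zero]
    rw [hre, him, r0, r1]
  · change (rinvE' x y) 2 = (rotE ((lon x ^ 2)⁻¹) (rinvE x y)) 2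
    rw [s2]
    unfold rotE
    simp only [Matrix.cons_val]
    rw [r2]

end Pool.Agent.Helper534.LS
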