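import Pool.Agent.Helper534.LS.Defs
import Pool.Agent.Helper534.LS.P_hmap_comp
import Pool.Agent.Helper534.LS.P_sig_spec
import Pool.Agent.Helper534.LS.P_sig_add

open MeasureTheory

namespace Pool.Agent.Helper534.LS



theorem sig_inv {Q Z : Type} [TopologicalSpace Q] [TopologicalSpace Z] (F G : C(Circle × Q, Z))
    (hG : ∀ p, G p = F (p.1⁻¹, p.2)) (n : ℕ) (z : HH Q n) :
    hmap G (n + 1) (sig Q n z) = - hmap F (n + 1) (sig Q n z) := by
  let F' : C(Circle × (Circle × Q), Z) :=
    ⟨fun p => F (p.1 * p.2.1⁻¹, p.2.2), by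
      have := F.continuous
      fun_prop⟩
  have h1 := sig_add F' ((F.comp (iota Q)).comp (prQ Q)) F G
    (by
      intro p
      show F (1, p.2) = F (p.1 * p.1⁻¹, p.2)
      rw [mul_inv_cancel])
    (by
      intro p
      show F p = F (p.1 * 1⁻¹, p.2)
      rw [inv_one, mul_one])
    (by
      intro p
      show G p = F (1 * p.1⁻¹, p.2)
      rw [one_mul, hG]) n z
  rw [hmap_comp, (sig_spec Q n z).1, map_zero] at h1
  exact eq_neg_of_add_eq_zero_right h1.symm

end Pool.Agent.Helper534.LS
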