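import Pool.Agent.Helper534.LS.Defs
import Pool.Agent.Helper534.LS.P_hmap_comp
import Pool.Agent.Helper534.LS.P_hmap_id
import Pool.Agent.Helper534.LS.P_mv_exact3
import Pool.Agent.Helper534.LS.P_par_spec
import Pool.Agent.Helper534.LS.P_sig_sq
import Pool.Agent.Helper534.LS.P_sig_inv
import Pool.Agent.Helper534.LS.P_rinv_nP
import Pool.Agent.Helper534.LS.P_rot_facts
import Pool.Agent.Helper534.LS.P_rinv_rel
import Pool.Agent.Helper534.LS.P_l_cov
import Pool.Agent.Helper534.LS.P_aN_exists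
import Pool.Agent.Helper534.LS.P_aZ_exists
import Pool.Agent.Helper534.LS.P_act_exists
import Pool.Agent.Helper534.LS.P_bL_exists

open MeasureTheory

namespace Pool.Agent.Helper534.LS



theorem ker_lemma (n : ℕ) (x : HH Om (n + 1)) (h : hmap iOm (n + 1) x = 0) :
    ∃ y, x = (2 : ℤ) • y := by
  obtain ⟨a, ha⟩ := aN_exists
  obtain ⟨a', ha'⟩ := aZ_exists
  obtain ⟨act, hact⟩ := act_exists
  obtain ⟨b, hb⟩ := bL_exists
  have hmem : ∀ γ : Om, iOm γ ∈ LN := by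
    intro γ
    change -1 < ((γ.1 0 : S2) : E3) 2
    rw [γ.2.1]
    simp [nP]
  let iN : C(Om, LN) := ⟨fun γ => ⟨iOm γ, hmem γ⟩, Continuous.subtype_mk iOm.continuous _⟩
  have e1 : (sub LN).comp iN = iOm := by
    ext γ : 1
    rfl
  have e2 : hmap (sub LN) (n + 1) (hmap iN (n + 1) x) + hmap (sub LZ) (n + 1) 0 = 0 := by
    rw [← hmap_comp, e1, h, map_zero, add_zero]
  obtain ⟨d, hd1, hd2⟩ := mv_exact3 LN LZ l_cov.1.1 l_cov.1.2.1 l_cov.1.2.2 (n + 1) _ _ e2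
  have e3 : a.comp iN = ContinuousMap.id Om := by
    ext γ : 1
    apply Subtype.ext
    ext t : 1
    change (a (iN γ)).1 t = γ.1 t
    rw [ha]
    change rinv (γ.1 0) (γ.1 t) = γ.1 t
    rw [γ.2.1, rinv_nP]
  have e4 : (prQ Om).comp b = a.comp (inl LN LZ) := by
    ext γ : 1
    apply Subtype.ext
    ext t : 1
    change (b γ).2.1 t = (a (inl LN LZ γ)).1 t
    rw [(hb γ).2 t, ha]
    rfl
  let F' : C(Circle × Om, Om) := act.comp ⟨fun p => (p.1 ^ 2, p.2), by fun_prop⟩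
  let G : C(Circle × Om, Om) := act.comp ⟨fun p => ((p.1 ^ 2)⁻¹, p.2), by fun_prop⟩
  have e5 : G.comp b = a'.comp (inr LN LZ) := by
    ext γ : 1
    apply Subtype.ext
    ext t : 1
    change (act (((b γ).1 ^ 2)⁻¹, (b γ).2)).1 t = (a' (inr LN LZ γ)).1 t
    rw [hact, ha']
    change rotS (((b γ).1 ^ 2)⁻¹) ((b γ).2.1 t) = rinv' (γ.1.1 0) (γ.1.1 t)
    rw [(hb γ).2 t, (hb γ).1, rinv_rel _ γ.2.1 γ.2.2]
  have x1 : x = hmap (prQ Om) (n + 1) (hmap b (n + 1) d) := by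
    rw [← hmap_comp, e4, hmap_comp, ← hd1, ← hmap_comp, e3, hmap_id]
  have x2 : hmap G (n + 1) (hmap b (n + 1) d) = 0 := by
    have hd3 : hmap (inr LN LZ) (n + 1) d = 0 := by
      rw [← neg_eq_zero, ← hd2]
    rw [← hmap_comp, e5, hmap_comp, hd3, map_zero]
  have x3 := par_spec Om n (hmap b (n + 1) d)
  rw [← x1] at x3
  rw [x3, map_add] at x2
  have e6 : G.comp (iota Om) = ContinuousMap.id Om := by
    ext γ : 1
    apply Subtype.ext
    ext t : 1
    change (act (((1 : Circle) ^ 2)⁻¹, γ)).1 t = γ.1 t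
    rw [hact]
    change rotS (((1 : Circle) ^ 2)⁻¹) (γ.1 t) = γ.1 t
    rw [one_pow, inv_one, rot_facts.2.2.2.2.1]
  rw [← hmap_comp, e6, hmap_id] at x2
  rw [sig_inv F' G (fun p => by
      change act ((p.1 ^ 2)⁻¹, p.2) = act ((p.1⁻¹) ^ 2, p.2)
      rw [inv_pow]) n,
    sig_sq act F' (fun p => rfl) n] at x2
  exact ⟨hmap act (n + 1) (sig Om n (par Om n (hmap b (n + 1) d))), add_neg_eq_zero.1 x2⟩

end Pool.Agent.Helper534.LS
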