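import Pool.Agent.Helper534.LS.Defs

open MeasureTheory

namespace Pool.Agent.Helper534.LS



theorem fn_cont : Continuous fun p : C(unitInterval, S2) × ℝ => fn p.1 p.2 := by
  have h : Continuous cl := by
    unfold cl
    exact continuous_projIcc
  unfold fn
  exact ContinuousEval.continuous_eval.comp (continuous_fst.prodMk (h.comp continuous_snd))

end Pool.Agent.Helper534.LS
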