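import Pool.Agent.Helper534.LS.Defs
import Pool.Agent.Helper534.LS.P_cat_cont
import Pool.Agent.Helper534.LS.P_fn_cont
import Pool.Agent.Helper534.LS.P_mk_path
import Pool.Agent.Helper534.LS.P_mer_facts

open MeasureTheory

namespace Pool.Agent.Helper534.LS



theorem kn_exists_fn_zero (γ : C(unitInterval, S2)) : fn γ 0 = γ 0 :=
  congrArg γ (Set.projIcc_left (a := (0 : ℝ)) (b := 1) (h := zero_le_one))

theorem kn_exists_fn_one (γ : C(unitInterval, S2)) : fn γ 1 = γ 1 :=
  congrArg γ (Set.projIcc_right (a := (0 : ℝ)) (b := 1) (h := zero_le_one))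

theorem kn_exists_c1 (x₀ : S2) : Continuous fun p : (Circle × PE x₀ nP) × ℝ => fn p.1.2.1 p.2 := by
  have h : Continuous fun p : (Circle × PE x₀ nP) × ℝ => ((p.1.2.1 : C(unitInterval, S2)), p.2) :=
    (continuous_subtype_val.comp (continuous_snd.comp continuous_fst)).prodMk continuous_snd
  have h2 := fn_cont
  have h3 := Continuous.comp h2 h
  exact h3

theorem kn_exists_c2 (x₀ : S2) : Continuous fun p : (Circle × PE x₀ nP) × ℝ => mer p.1.1 p.2 := by
  have h : Continuous fun p : (Circle × PE x₀ nP) × ℝ => (p.1.1, p.2) :=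
    (continuous_fst.comp continuous_fst).prodMk continuous_snd
  have h2 := mer_facts.1
  have h3 := Continuous.comp h2 h
  exact h3

theorem kn_exists (x₀ : S2) : ∃ k, IsKN x₀ k := by
  obtain ⟨-, hm0, hm1, -⟩ := mer_facts
  have h01 : ∀ a : Circle × PE x₀ nP, fn a.2.1 1 = mer a.1 0 := by
    intro a
    rw [kn_exists_fn_one, a.2.2.2, hm0]
  have hc : Continuous fun p : (Circle × PE x₀ nP) × ℝ =>
      cat (fn p.1.2.1) (mer p.1.1) p.2 :=
    cat_cont (fun a : Circle × PE x₀ nP => fn a.2.1) (fun a => mer a.1) (kn_exists_c1 x₀)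
      (kn_exists_c2 x₀) h01
  obtain ⟨f, hf⟩ := mk_path (A := Circle × PE x₀ nP) (fun a t => cat (fn a.2.1) (mer a.1) t) hc
  have h0 : ∀ a, f a 0 = x₀ := by
    intro a
    rw [hf]
    show cat (fn a.2.1) (mer a.1) (0 : ℝ) = x₀
    unfold cat
    rw [if_pos (by norm_num), mul_zero, kn_exists_fn_zero, a.2.2.1]
  have h1 : ∀ a, f a 1 = sP := by
    intro a
    rw [hf]
    show cat (fn a.2.1) (mer a.1) (1 : ℝ) = sP
    unfold cat
    rw [if_neg (by norm_num)]
    have : (2 * 1 - 1 : ℝ) = 1 := by norm_num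
    rw [this, hm1]
  refine ⟨⟨fun a => ⟨f a, h0 a, h1 a⟩, Continuous.subtype_mk f.continuous _⟩, ?_⟩
  intro p t
  exact hf p t

end Pool.Agent.Helper534.LS
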