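import Pool.Agent.Helper534.LS.Defs
import Pool.Agent.Helper534.LS.P_cat_cont
import Pool.Agent.Helper534.LS.P_fn_cont
import Pool.Agent.Helper534.LS.P_mk_path
import Pool.Agent.Helper534.LS.P_mer_facts

open MeasureTheory

namespace Pool.Agent.Helper534.LS



theorem cl_zero_ks : cl 0 = 0 := by
  unfold cl
  exact Set.projIcc_left (h := (zero_le_one : (0:ℝ) ≤ 1))

theorem cl_one_ks : cl 1 = 1 := by
  unfold cl
  exact Set.projIcc_right (h := (zero_le_one : (0:ℝ) ≤ 1))

theorem ks_exists (x₀ : S2) : ∃ k, IsKS x₀ k := by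
  obtain ⟨m1, m2, m3, -, -, -, -⟩ := mer_facts
  have hF : Continuous fun p : (Circle × PE x₀ sP) × ℝ =>
      cat (fn p.1.2.1) (merR p.1.1) p.2 := by
    have c1 : Continuous (fun p : (Circle × PE x₀ sP) × ℝ =>
        ((p.1.2.1 : C(unitInterval, S2)), p.2)) :=
      (continuous_subtype_val.comp (continuous_snd.comp continuous_fst)).prodMk continuous_snd
    have c2 : Continuous (fun p : (Circle × PE x₀ sP) × ℝ => (p.1.1, 1 - p.2)) :=
      (continuous_fst.comp continuous_fst).prodMk (continuous_const.sub continuous_snd)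
    have c3 : Continuous (fun p : (Circle × PE x₀ sP) × ℝ => fn p.1.2.1 p.2) := fn_cont.comp c1
    have c4 : Continuous (fun p : (Circle × PE x₀ sP) × ℝ => merR p.1.1 p.2) := by
      have e : (fun p : (Circle × PE x₀ sP) × ℝ => merR p.1.1 p.2) =
          (fun q : Circle × ℝ => mer q.1 q.2) ∘
            (fun p : (Circle × PE x₀ sP) × ℝ => (p.1.1, 1 - p.2)) := by
        funext p
        simp only [Function.comp, merR]
      rw [e]
      exact Continuous.comp m1 c2
    apply cat_cont (A := Circle × PE x₀ sP) (fun p => fn p.2.1) (fun p => merR p.1)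
    · exact c3
    · exact c4
    · intro a
      show a.2.1 (cl 1) = mer a.1 (1 - 0)
      rw [cl_one_ks, a.2.2.2, sub_zero, m3]
  obtain ⟨f, hf⟩ := mk_path (A := Circle × PE x₀ sP) (fun p => cat (fn p.2.1) (merR p.1)) hF
  refine ⟨⟨fun p => ⟨f p, ?_, ?_⟩, ?_⟩, ?_⟩
  · rw [hf]
    unfold cat
    rw [if_pos (by simp)]
    show p.2.1 (cl (2 * ((0 : unitInterval) : ℝ))) = x₀
    have : (2 * ((0 : unitInterval) : ℝ)) = 0 := by simp
    rw [this, cl_zero_ks, p.2.2.1]
  · rw [hf]
    unfold cat
    rw [if_neg (by norm_num)]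
    show mer p.1 (1 - (2 * ((1 : unitInterval) : ℝ) - 1)) = nP
    have : (1 - (2 * ((1 : unitInterval) : ℝ) - 1)) = 0 := by norm_num
    rw [this, m2]
  · exact Continuous.subtype_mk f.continuous _
  · intro p t
    exact hf p t

end Pool.Agent.Helper534.LS
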