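import Pool.Agent.Helper534.LS.Defs
import Pool.Agent.Helper534.LS.P_kn_exists
import Pool.Agent.Helper534.LS.P_ks_exists

open MeasureTheory

namespace Pool.Agent.Helper534.LS



theorem m4x_cat {γ γ' : ℝ → S2} (δ : ℝ → S2) (h : ∀ s ∈ Set.Icc (0:ℝ) 1, γ s = γ' s) (t : ℝ)
    (ht : t ∈ Set.Icc (0:ℝ) 1) : cat γ δ t = cat γ' δ t := by
  unfold cat
  split_ifs with h1
  · exact h _ ⟨by linarith [ht.1], by linarith⟩
  · rfl

theorem m4x_fn {ω : C(unitInterval, S2)} {f : ℝ → S2} (h : ∀ t : unitInterval, ω t = f t) :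
    ∀ s ∈ Set.Icc (0:ℝ) 1, fn ω s = f s := by
  intro s hs
  unfold fn cl
  rw [h, Set.projIcc_of_mem _ hs]

theorem m4x_step {ω : C(unitInterval, S2)} {f δ : ℝ → S2} (h : ∀ t : unitInterval, ω t = f t)
    {η : C(unitInterval, S2)} (hη : ∀ t : unitInterval, η t = cat (fn ω) δ t) :
    ∀ t : unitInterval, η t = cat f δ t := by
  intro t
  rw [hη]
  exact m4x_cat δ (m4x_fn h) t t.2

theorem m4_exists : ∃ m, IsM4 m := by
  obtain ⟨kN, hkN⟩ := kn_exists nP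
  obtain ⟨kS, hkS⟩ := ks_exists nP
  refine ⟨kS.comp (idx (kN.comp (idx (kS.comp (idx (kN.comp (idx
    (ContinuousMap.const Unit cN)))))))), ?_⟩
  rintro ⟨z₄, z₃, z₂, z₁, u⟩
  have h0 : ∀ t : unitInterval, cN.1 t = (fun _ : ℝ => nP) t := fun t => rfl
  have h1 := m4x_step (f := fun _ : ℝ => nP) h0 (hkN (z₁, cN))
  have h2 := m4x_step h1 (hkS (z₂, kN (z₁, cN)))
  have h3 := m4x_step h2 (hkN (z₃, kS (z₂, kN (z₁, cN))))
  have h4 := m4x_step h3 (hkS (z₄, kN (z₃, kS (z₂, kN (z₁, cN)))))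
  exact h4

end Pool.Agent.Helper534.LS
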