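import Pool.Agent.Helper534.LS.Defs
import Pool.Agent.Helper534.LS.P_cat_cont
import Pool.Agent.Helper534.LS.P_fn_cont
import Pool.Agent.Helper534.LS.P_mk_path
import Pool.Agent.Helper534.LS.P_arc_val
import Pool.Agent.Helper534.LS.P_arc_cont
import Pool.Agent.Helper534.LS.P_mer_facts

open MeasureTheory

namespace Pool.Agent.Helper534.LS



theorem a_exists_eqp2 (z : Circle) : ((eqp z : S2) : E3) 2 = 0 := by
  show Real.cos (Real.pi * (1 / 2)) = 0
  rw [mul_one_div]
  exact Real.cos_pi_div_two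

theorem a_exists_dt (z : Circle) : dt nP (eqp z) = 0 := by
  have h : dt nP (eqp z) = ((eqp z : S2) : E3) 2 := by
    unfold dt
    rw [PiLp.inner_apply, Fin.sum_univ_three]
    simp [nP]
  rw [h, a_exists_eqp2]

theorem a_exists_fn0 (γ : C(unitInterval, S2)) (t : unitInterval) : fn γ t = γ t := by
  unfold fn cl
  rw [Set.projIcc_val]

theorem a_exists (x₀ : S2) : ∃ a, IsA x₀ a := by
  have hdt : ∀ z : Circle, -1 < dt nP (eqp z) := by
    intro z
    rw [a_exists_dt]
    norm_num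
  have heqp : Continuous eqp := by
    have h1 : Continuous (fun z : Circle => ((z, 1 / 2) : Circle × ℝ)) := by fun_prop
    have h0 := mer_facts.1
    have h2 := h0.comp h1
    exact h2
  have hend : ∀ p : Circle × PE x₀ nP, fn p.2.1 1 = arcS nP (eqp p.1) 0 := by
    intro p
    rw [(arc_val nP (eqp p.1) (hdt _) 0).2.2.1]
    have h1 : fn p.2.1 ((1 : unitInterval) : ℝ) = p.2.1 1 := a_exists_fn0 _ _
    rw [Set.Icc.coe_one] at h1
    rw [h1, p.2.2.2]
  have hF : Continuous fun q : (Circle × PE x₀ nP) × ℝ =>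
      cat (fn q.1.2.1) (arcS nP (eqp q.1.1)) q.2 := by
    refine cat_cont (fun p : Circle × PE x₀ nP => fn p.2.1)
      (fun p : Circle × PE x₀ nP => arcS nP (eqp p.1)) ?_ ?_ hend
    · have h1 : Continuous (fun q : (Circle × PE x₀ nP) × ℝ => ((q.1.2.1, q.2) : C(unitInterval, S2) × ℝ)) := by
        fun_prop
      have h2 := fn_cont.comp h1
      exact h2
    · have h1 : Continuous (fun q : (Circle × PE x₀ nP) × ℝ => ((nP, eqp q.1.1, q.2) : S2 × S2 × ℝ)) := by
        fun_prop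
      have h2 := arc_cont.comp_continuous h1 (fun q => hdt q.1.1)
      exact h2
  obtain ⟨f, hf⟩ := mk_path (fun (p : Circle × PE x₀ nP) => cat (fn p.2.1) (arcS nP (eqp p.1))) hF
  have h0 : ∀ p, f p 0 = x₀ := by
    intro p
    rw [hf]
    show cat (fn p.2.1) (arcS nP (eqp p.1)) ((0 : unitInterval) : ℝ) = x₀
    unfold cat
    rw [Set.Icc.coe_zero, if_pos (by norm_num), mul_zero]
    have h1 : fn p.2.1 ((0 : unitInterval) : ℝ) = p.2.1 0 := a_exists_fn0 _ _
    rw [Set.Icc.coe_zero] at h1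
    rw [h1, p.2.2.1]
  have h1 : ∀ p, f p 1 = eqp p.1 := by
    intro p
    rw [hf]
    show cat (fn p.2.1) (arcS nP (eqp p.1)) ((1 : unitInterval) : ℝ) = eqp p.1
    unfold cat
    rw [Set.Icc.coe_one, if_neg (by norm_num), mul_one, show (2 : ℝ) - 1 = 1 by norm_num]
    exact (arc_val nP (eqp p.1) (hdt _) 0).2.2.2
  refine ⟨⟨fun p => ⟨⟨f p, h0 p⟩, ?_, ?_⟩, ?_⟩, ?_⟩
  · show -1 < ((f p 1 : S2) : E3) 2
    rw [h1, a_exists_eqp2]
    norm_num
  · show ((f p 1 : S2) : E3) 2 < 1
    rw [h1, a_exists_eqp2]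
    norm_num
  · exact Continuous.subtype_mk (Continuous.subtype_mk f.continuous _) _
  · intro p t
    exact hf p t

end Pool.Agent.Helper534.LS
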