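import Pool.Agent.Helper534.LS.Defs
import Pool.Agent.Helper534.LS.P_fn_cont
import Pool.Agent.Helper534.LS.P_mk_path

open MeasureTheory

namespace Pool.Agent.Helper534.LS



theorem cat_homotopy_cl0 : cl 0 = 0 := by
  unfold cl
  exact Set.projIcc_left (zero_le_one)

theorem cat_homotopy_cl1 : cl 1 = 1 := by
  unfold cl
  exact Set.projIcc_right (zero_le_one)

theorem cat_homotopy_clv (t : unitInterval) : cl (t : ℝ) = t := by
  unfold cl
  exact Set.projIcc_val (zero_le_one) t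

/-- the homotopy as a function -/
noncomputable def cat_homotopy_F {A : Type} [TopologicalSpace A] (f : C(A, C(unitInterval, S2)))
    (g : A → ℝ → S2) (p : A × unitInterval) (t : ℝ) : S2 :=
  if t ≤ 1 - (p.2 : ℝ) / 2 then fn (f p.1) (t / (1 - (p.2 : ℝ) / 2)) else g p.1 (2 * t - (2 - (p.2 : ℝ)))

theorem cat_homotopy_cont {A : Type} [TopologicalSpace A] (f : C(A, C(unitInterval, S2)))
    (g : A → ℝ → S2) (hg : Continuous fun p : A × ℝ => g p.1 p.2) (h : ∀ a, f a 1 = g a 0) :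
    Continuous fun p : (A × unitInterval) × ℝ => cat_homotopy_F f g p.1 p.2 := by
  unfold cat_homotopy_F
  have hne : ∀ p : (A × unitInterval) × ℝ, 1 - (p.1.2 : ℝ) / 2 ≠ 0 := by
    intro p
    have := p.1.2.2.2
    intro h0
    linarith
  have hs : Continuous fun p : (A × unitInterval) × ℝ => (p.1.2 : ℝ) := by fun_prop
  apply Continuous.if_le
  · have h1 : Continuous fun p : (A × unitInterval) × ℝ => p.2 / (1 - (p.1.2 : ℝ) / 2) :=
      continuous_snd.div (by fun_prop) hne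
    have h2 : Continuous fun p : (A × unitInterval) × ℝ => f p.1.1 := by fun_prop
    exact fn_cont.comp (h2.prodMk h1)
  · have h1 : Continuous fun p : (A × unitInterval) × ℝ => 2 * p.2 - (2 - (p.1.2 : ℝ)) := by fun_prop
    have h2 : Continuous fun p : (A × unitInterval) × ℝ => p.1.1 := by fun_prop
    exact hg.comp (h2.prodMk h1)
  · exact continuous_snd
  · fun_prop
  · intro p hp
    have h1 : p.2 / (1 - (p.1.2 : ℝ) / 2) = 1 := by rw [hp, div_self (hne p)]
    have h2 : 2 * p.2 - (2 - (p.1.2 : ℝ)) = 0 := by rw [hp]; ring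
    rw [h1, h2, ← h]
    unfold fn
    rw [cat_homotopy_cl1]

theorem cat_homotopy {A : Type} [TopologicalSpace A] (f : C(A, C(unitInterval, S2)))
    (g : A → ℝ → S2) (hg : Continuous fun p : A × ℝ => g p.1 p.2) (h : ∀ a, f a 1 = g a 0) :
    ∃ H : C(A × unitInterval, C(unitInterval, S2)), (∀ a, H (a, 0) = f a) ∧
      (∀ a (t : unitInterval), H (a, 1) t = cat (fn (f a)) (g a) t) ∧
      (∀ a s, H (a, s) 0 = f a 0) ∧ (∀ a s, H (a, s) 1 = g a s) := by
  obtain ⟨H, hH⟩ := mk_path (cat_homotopy_F f g) (cat_homotopy_cont f g hg h)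
  refine ⟨H, ?_, ?_, ?_, ?_⟩
  · intro a
    ext1 t
    rw [hH]
    unfold cat_homotopy_F
    have h1 : (t : ℝ) ≤ 1 - (((a, (0 : unitInterval)) : A × unitInterval).2 : ℝ) / 2 := by
      show (t : ℝ) ≤ 1 - (0 : ℝ) / 2
      have := t.2.2
      linarith
    rw [if_pos h1]
    show fn (f a) ((t : ℝ) / (1 - (0 : ℝ) / 2)) = f a t
    have h2 : (t : ℝ) / (1 - (0 : ℝ) / 2) = t := by ring
    rw [h2]
    unfold fn
    rw [cat_homotopy_clv]
  · intro a t
    rw [hH]
    unfold cat_homotopy_F cat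
    have e1 : 1 - (((a, (1 : unitInterval)) : A × unitInterval).2 : ℝ) / 2 = 1 / 2 := by
      show 1 - (1 : ℝ) / 2 = 1 / 2
      norm_num
    have e2 : 2 - (((a, (1 : unitInterval)) : A × unitInterval).2 : ℝ) = 1 := by
      show 2 - (1 : ℝ) = 1
      norm_num
    have e3 : (t : ℝ) / (1 / 2) = 2 * t := by ring
    rw [e1, e2, e3]
  · intro a s
    rw [hH]
    unfold cat_homotopy_F
    have h1 : ((0 : unitInterval) : ℝ) ≤ 1 - (((a, s) : A × unitInterval).2 : ℝ) / 2 := by
      show (0 : ℝ) ≤ 1 - (s : ℝ) / 2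
      have := s.2.2
      linarith
    rw [if_pos h1]
    show fn (f a) ((0 : ℝ) / (1 - (s : ℝ) / 2)) = f a 0
    rw [zero_div]
    unfold fn
    rw [cat_homotopy_cl0]
  · intro a s
    rw [hH]
    unfold cat_homotopy_F
    by_cases hs : (s : ℝ) = 0
    · have h1 : ((1 : unitInterval) : ℝ) ≤ 1 - (((a, s) : A × unitInterval).2 : ℝ) / 2 := by
        show (1 : ℝ) ≤ 1 - (s : ℝ) / 2
        rw [hs]
        norm_num
      rw [if_pos h1]
      show fn (f a) ((1 : ℝ) / (1 - (s : ℝ) / 2)) = g a s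
      have h2 : (1 : ℝ) / (1 - (s : ℝ) / 2) = 1 := by rw [hs]; norm_num
      rw [h2, hs, ← h]
      unfold fn
      rw [cat_homotopy_cl1]
    · have h1 : ¬ ((1 : unitInterval) : ℝ) ≤ 1 - (((a, s) : A × unitInterval).2 : ℝ) / 2 := by
        show ¬ (1 : ℝ) ≤ 1 - (s : ℝ) / 2
        have h2 : 0 < (s : ℝ) := lt_of_le_of_ne s.2.1 (Ne.symm hs)
        linarith
      rw [if_neg h1]
      show g a (2 * (1 : ℝ) - (2 - (s : ℝ))) = g a s
      congr 1
      ring

end Pool.Agent.Helper534.LS
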