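import Pool.Agent.Helper534.LS.Defs
import Pool.Agent.Helper534.LS.P_cat_cont
import Pool.Agent.Helper534.LS.P_fn_cont
import Pool.Agent.Helper534.LS.P_mk_path
import Pool.Agent.Helper534.LS.P_arc_val
import Pool.Agent.Helper534.LS.P_arc_cont
import Pool.Agent.Helper534.LS.P_mer_facts
import Pool.Agent.Helper534.LS.P_cat_homotopy

open MeasureTheory

namespace Pool.Agent.Helper534.LS



theorem a_inl_dt (v : S2) : dt nP v = (v : E3) 2 := by
  simp [dt, nP, PiLp.inner_apply, Fin.sum_univ_three]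

theorem a_inl_eqp (z : Circle) : -1 < dt nP (eqp z) := by
  rw [a_inl_dt]
  have h : ((eqp z : S2) : E3) 2 = Real.cos (Real.pi * (1 / 2)) := by
    simp [eqp, mer]
  rw [h, show Real.pi * (1 / 2) = Real.pi / 2 by ring, Real.cos_pi_div_two]
  norm_num

theorem a_inl (x₀ : S2) (a) (ha : IsA x₀ a) :
    ((inl (UN x₀) (VS x₀)).comp a).Homotopic ((iU x₀).comp (prQ (PE x₀ nP))) := by
  have hg : Continuous fun p : (Circle × PE x₀ nP) × ℝ => arcS nP (eqp p.1.1) p.2 := by
    have h1 : Continuous fun p : (Circle × PE x₀ nP) × ℝ => ((nP, eqp p.1.1, p.2) : S2 × S2 × ℝ) := by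
      have h3 : Continuous fun p : (Circle × PE x₀ nP) × ℝ => ((p.1.1, (1 / 2 : ℝ)) : Circle × ℝ) :=
        (continuous_fst.comp continuous_fst).prodMk continuous_const
      have h4 := mer_facts.1.comp h3
      have h5 : Continuous fun p : (Circle × PE x₀ nP) × ℝ => eqp p.1.1 := by
        have h6 : (fun p : (Circle × PE x₀ nP) × ℝ => eqp p.1.1) =
            (fun p : Circle × ℝ => mer p.1 p.2) ∘
              (fun p : (Circle × PE x₀ nP) × ℝ => ((p.1.1, (1 / 2 : ℝ)) : Circle × ℝ)) := by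
          funext p
          rw [Function.comp_apply, eqp]
        rw [h6]
        exact h4
      exact continuous_const.prodMk (h5.prodMk continuous_snd)
    have h2 : ∀ p : (Circle × PE x₀ nP) × ℝ, ((nP, eqp p.1.1, p.2) : S2 × S2 × ℝ) ∈
        {p : S2 × S2 × ℝ | -1 < dt p.1 p.2.1} := fun p => by
      show -1 < dt nP (eqp p.1.1)
      exact a_inl_eqp p.1.1
    have h7 := ContinuousOn.comp_continuous arc_cont h1 h2
    exact h7
  have hf : Continuous fun p : Circle × PE x₀ nP => (p.2.1 : C(unitInterval, S2)) := by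
    fun_prop
  obtain ⟨H, hH0, hH1, hHa, hHb⟩ := cat_homotopy
    (⟨fun p : Circle × PE x₀ nP => p.2.1, hf⟩ : C(Circle × PE x₀ nP, C(unitInterval, S2)))
    (fun p => arcS nP (eqp p.1)) hg (by
      intro p
      show p.2.1 1 = arcS nP (eqp p.1) 0
      rw [p.2.2.2, (arc_val nP (eqp p.1) (a_inl_eqp p.1) 0).2.2.1])
  have hHb' : ∀ p s, H (p, s) 1 = arcS nP (eqp p.1) s := hHb
  have hHa' : ∀ p s, H (p, s) 0 = x₀ := by
    intro p s
    have h1 := hHa p s
    exact h1.trans p.2.2.1
  have hU : ∀ p s, -1 < ((H (p, s) 1 : S2) : E3) 2 := by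
    intro p s
    rw [hHb', ← a_inl_dt]
    exact (arc_val nP (eqp p.1) (a_inl_eqp p.1) s).2.1
  refine ContinuousMap.Homotopic.symm ⟨⟨⟨fun q => ⟨⟨H (q.2, q.1), hHa' q.2 q.1⟩, hU q.2 q.1⟩, ?_⟩,
    ?_, ?_⟩⟩
  · refine Continuous.subtype_mk (Continuous.subtype_mk ?_ _) _
    exact H.continuous.comp (continuous_snd.prodMk continuous_fst)
  · intro p
    apply Subtype.ext
    apply Subtype.ext
    exact hH0 p
  · intro p
    apply Subtype.ext
    apply Subtype.ext
    apply ContinuousMap.ext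
    intro t
    exact (hH1 p t).trans (ha p t).symm

end Pool.Agent.Helper534.LS
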