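import Pool.Agent.Helper534.LS.Defs
import Pool.Agent.Helper534.LS.P_cat_cont
import Pool.Agent.Helper534.LS.P_fn_cont
import Pool.Agent.Helper534.LS.P_mk_path
import Pool.Agent.Helper534.LS.P_mer_facts

open MeasureTheory

namespace Pool.Agent.Helper534.LS



theorem ai_cl0 : cl 0 = 0 := by
  unfold cl
  exact Set.projIcc_left (zero_le_one' ℝ)

theorem ai_cl1 : cl 1 = 1 := by
  unfold cl
  exact Set.projIcc_right (zero_le_one' ℝ)

/-- the homotopy -/
noncomputable def aiF (x₀ : S2) (q : unitInterval × (Circle × PE x₀ nP)) (t : ℝ) : S2 :=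
  cat (fn q.2.2.1) (fun τ => mer q.2.1
    ((1 - (q.1 : ℝ)) * (2 * Real.arctan τ / Real.pi) + (q.1 : ℝ) * τ)) t

theorem ai_c1 (x₀ : S2) : Continuous fun p : (unitInterval × (Circle × PE x₀ nP)) × ℝ =>
    fn p.1.2.2.1 p.2 := by
  have h1 : Continuous fun p : (unitInterval × (Circle × PE x₀ nP)) × ℝ =>
      ((p.1.2.2.1, p.2) : C(unitInterval, S2) × ℝ) :=
    (continuous_subtype_val.comp (continuous_snd.comp (continuous_snd.comp continuous_fst))).prodMk
      continuous_snd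
  exact (fn_cont.comp h1).congr (fun p => rfl)

theorem ai_c2 (x₀ : S2) : Continuous fun p : (unitInterval × (Circle × PE x₀ nP)) × ℝ =>
    ((1 - (p.1.1 : ℝ)) * (2 * Real.arctan p.2 / Real.pi) + (p.1.1 : ℝ) * p.2) := by
  have h2 : Continuous fun p : (unitInterval × (Circle × PE x₀ nP)) × ℝ =>
      Real.arctan p.2 := Real.continuous_arctan.comp continuous_snd
  have h3 : Continuous fun p : (unitInterval × (Circle × PE x₀ nP)) × ℝ => (p.1.1 : ℝ) :=
    continuous_subtype_val.comp (continuous_fst.comp continuous_fst)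
  exact ((continuous_const.sub h3).mul ((continuous_const.mul h2).div_const _)).add
    (h3.mul continuous_snd)

theorem ai_c3 (x₀ : S2) : Continuous fun p : (unitInterval × (Circle × PE x₀ nP)) × ℝ =>
    mer p.1.2.1 ((1 - (p.1.1 : ℝ)) * (2 * Real.arctan p.2 / Real.pi) + (p.1.1 : ℝ) * p.2) := by
  have h4 : Continuous fun p : (unitInterval × (Circle × PE x₀ nP)) × ℝ => p.1.2.1 :=
    continuous_fst.comp (continuous_snd.comp continuous_fst)
  have h1 := h4.prodMk (ai_c2 x₀)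
  exact (mer_facts.1.comp h1).congr (fun p => rfl)

theorem aiF_cont (x₀ : S2) : Continuous fun p : (unitInterval × (Circle × PE x₀ nP)) × ℝ =>
    aiF x₀ p.1 p.2 := by
  refine cat_cont (fun (q : unitInterval × (Circle × PE x₀ nP)) τ => fn q.2.2.1 τ)
    (fun (q : unitInterval × (Circle × PE x₀ nP)) τ => mer q.2.1
      ((1 - (q.1 : ℝ)) * (2 * Real.arctan τ / Real.pi) + (q.1 : ℝ) * τ)) ?_ ?_ ?_
  · exact ai_c1 x₀
  · exact ai_c3 x₀
  · intro q
    show fn q.2.2.1 1 = mer q.2.1 ((1 - (q.1 : ℝ)) * (2 * Real.arctan 0 / Real.pi) + (q.1 : ℝ) * 0)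
    rw [Real.arctan_zero]
    have e : (1 - (q.1 : ℝ)) * (2 * 0 / Real.pi) + (q.1 : ℝ) * 0 = 0 := by ring
    rw [e, mer_facts.2.1]
    unfold fn
    rw [ai_cl1]
    exact q.2.2.2.2

theorem aiF_zero (x₀ : S2) (q : unitInterval × (Circle × PE x₀ nP)) : aiF x₀ q 0 = x₀ := by
  unfold aiF cat
  rw [if_pos (by norm_num)]
  unfold fn
  rw [mul_zero, ai_cl0]
  exact q.2.2.2.1

theorem aiF_one (x₀ : S2) (q : unitInterval × (Circle × PE x₀ nP)) :
    aiF x₀ q 1 = mer q.2.1 ((1 + (q.1 : ℝ)) / 2) := by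
  unfold aiF cat
  rw [if_neg (by norm_num)]
  have e : (2 * 1 - 1 : ℝ) = 1 := by norm_num
  rw [e]
  show mer q.2.1 ((1 - (q.1 : ℝ)) * (2 * Real.arctan 1 / Real.pi) + (q.1 : ℝ) * 1) = _
  rw [Real.arctan_one]
  congr 1
  have := Real.pi_ne_zero
  field_simp
  ring

theorem aiF_end (x₀ : S2) (q : unitInterval × (Circle × PE x₀ nP)) :
    ((aiF x₀ q 1 : S2) : E3) 2 < 1 := by
  rw [aiF_one]
  have h0 := q.1.2.1
  have h1 := q.1.2.2
  apply mer_facts.2.2.2.2.1
  · linarith
  · linarith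

theorem aiF_s0 (x₀ : S2) (p : Circle × PE x₀ nP) (t : unitInterval) :
    aiF x₀ (0, p) t = cat (fn p.2.1) (arcS nP (eqp p.1)) t := by
  unfold aiF cat
  split_ifs with h
  · rfl
  · have h0 := t.2.2
    push Not at h
    have e := mer_facts.2.2.2.2.2.2 p.1 (2 * (t : ℝ) - 1) (by linarith) (by linarith)
    rw [e]
    show mer p.1 ((1 - ((0 : unitInterval) : ℝ)) * (2 * Real.arctan (2 * (t : ℝ) - 1) / Real.pi) +
      ((0 : unitInterval) : ℝ) * (2 * (t : ℝ) - 1)) = _
    congr 1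
    rw [Set.Icc.coe_zero]
    ring

theorem aiF_s1 (x₀ : S2) (p : Circle × PE x₀ nP) (t : unitInterval) :
    aiF x₀ (1, p) t = cat (fn p.2.1) (mer p.1) t := by
  unfold aiF cat
  split_ifs with h
  · rfl
  · show mer p.1 ((1 - ((1 : unitInterval) : ℝ)) * (2 * Real.arctan (2 * (t : ℝ) - 1) / Real.pi) +
      ((1 : unitInterval) : ℝ) * (2 * (t : ℝ) - 1)) = _
    congr 1
    rw [Set.Icc.coe_one]
    ring

theorem a_inr (x₀ : S2) (a) (ha : IsA x₀ a) (k) (hk : IsKN x₀ k) :
    ((inr (UN x₀) (VS x₀)).comp a).Homotopic ((iV x₀).comp k) := by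
  obtain ⟨f, hf⟩ := mk_path (aiF x₀) (aiF_cont x₀)
  have hf0 : ∀ q, f q 0 = x₀ := by
    intro q
    have := hf q 0
    rw [Set.Icc.coe_zero, aiF_zero] at this
    exact this
  have hf1 : ∀ q, ((f q 1 : S2) : E3) 2 < 1 := by
    intro q
    have := hf q 1
    rw [Set.Icc.coe_one] at this
    rw [this]
    exact aiF_end x₀ q
  refine ⟨{ toFun := fun q => ⟨⟨f q, hf0 q⟩, hf1 q⟩
            continuous_toFun := by
              exact Continuous.subtype_mk (Continuous.subtype_mk f.continuous _) _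
            map_zero_left := ?_
            map_one_left := ?_ }⟩
  · intro p
    apply Subtype.ext
    apply Subtype.ext
    apply ContinuousMap.ext
    intro t
    show f (0, p) t = (a p).1.1 t
    rw [hf, aiF_s0, ha p t]
  · intro p
    apply Subtype.ext
    apply Subtype.ext
    apply ContinuousMap.ext
    intro t
    show f (1, p) t = (k p).1 t
    rw [hf, aiF_s1, hk p t]

end Pool.Agent.Helper534.LS
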