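import Pool.Agent.Helper534.LS.Defs
import Pool.Agent.Helper534.LS.P_arc_val

open MeasureTheory

namespace Pool.Agent.Helper534.LS



theorem arc_north_lon_aux (x y : S2) (k : ℝ) (hk : 0 < k)
    (h0 : (y : E3) 0 = k * (x : E3) 0) (h1 : (y : E3) 1 = k * (x : E3) 1) : lon y = lon x := by
  have hz : (⟨(y : E3) 0, (y : E3) 1⟩ : ℂ) = (k : ℂ) * (⟨(x : E3) 0, (x : E3) 1⟩ : ℂ) := by
    apply Complex.ext <;> simp [h0, h1]
  have hkc : (k : ℂ) ≠ 0 := by exact_mod_cast hk.ne'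
  by_cases hx : (⟨(x : E3) 0, (x : E3) 1⟩ : ℂ) = 0
  · have hy : (⟨(y : E3) 0, (y : E3) 1⟩ : ℂ) = 0 := by rw [hz, hx, mul_zero]
    rw [lon, lon, dif_pos hx, dif_pos hy]
  · have hy : (⟨(y : E3) 0, (y : E3) 1⟩ : ℂ) ≠ 0 := by
      rw [hz]
      exact mul_ne_zero hkc hx
    rw [lon, lon, dif_neg hx, dif_neg hy]
    apply Subtype.ext
    show (⟨(y : E3) 0, (y : E3) 1⟩ : ℂ) / ‖(⟨(y : E3) 0, (y : E3) 1⟩ : ℂ)‖ =
      (⟨(x : E3) 0, (x : E3) 1⟩ : ℂ) / ‖(⟨(x : E3) 0, (x : E3) 1⟩ : ℂ)‖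
    rw [hz, norm_mul, Complex.norm_real, Real.norm_of_nonneg hk.le]
    push_cast
    rw [mul_div_mul_left _ _ hkc]

theorem arc_north (x : S2) (h : -1 < (x : E3) 2) (h' : (x : E3) 2 < 1) (τ : ℝ) (hτ : 0 < τ) :
    -1 < ((arcS nP x τ : S2) : E3) 2 ∧ ((arcS nP x τ : S2) : E3) 2 < 1 ∧
    lon (arcS nP x τ) = lon x := by
  have hin : inner ℝ (nP : E3) (x : E3) = (x : E3) 2 := by
    simp [nP, PiLp.inner_apply, Fin.sum_univ_three]
  have hdt : -1 < dt nP x := by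
    rw [dt, hin]
    exact h
  have hval := (arc_val nP x hdt τ).1
  set c : ℝ := (x : E3) 2 with hc
  have hD : 0 < (1 + c) + τ ^ 2 * (1 - c) := by
    have h1 : 0 < τ ^ 2 * (1 - c) := mul_pos (by positivity) (by linarith)
    linarith
  have e0 : ((arcS nP x τ : S2) : E3) 0 =
      (((1 + c) + τ ^ 2 * (1 - c))⁻¹ * (2 * τ)) * (x : E3) 0 := by
    rw [hval, arcE, hin]
    simp [nP]
    ring
  have e1 : ((arcS nP x τ : S2) : E3) 1 =
      (((1 + c) + τ ^ 2 * (1 - c))⁻¹ * (2 * τ)) * (x : E3) 1 := by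
    rw [hval, arcE, hin]
    simp [nP]
    ring
  have e2 : ((arcS nP x τ : S2) : E3) 2 =
      ((1 + c) - τ ^ 2 * (1 - c)) / ((1 + c) + τ ^ 2 * (1 - c)) := by
    rw [hval, arcE, hin]
    simp [nP]
    rw [← hc]
    field_simp
    ring
  refine ⟨?_, ?_, ?_⟩
  · rw [e2, lt_div_iff₀ hD]
    linarith
  · rw [e2, div_lt_one hD]
    have h1 : 0 < τ ^ 2 * (1 - c) := mul_pos (by positivity) (by linarith)
    linarith
  · exact arc_north_lon_aux x (arcS nP x τ) _ (by positivity) e0 e1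

end Pool.Agent.Helper534.LS
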