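import Pool.Agent.Helper534.LS.Defs
import Pool.Agent.Helper534.LS.P_cat_cont
import Pool.Agent.Helper534.LS.P_fn_cont
import Pool.Agent.Helper534.LS.P_mk_path
import Pool.Agent.Helper534.LS.P_arc_val
import Pool.Agent.Helper534.LS.P_arc_cont
import Pool.Agent.Helper534.LS.P_arc_north
import Pool.Agent.Helper534.LS.P_mer_facts
import Pool.Agent.Helper534.LS.P_lon_cont
import Pool.Agent.Helper534.LS.P_cat_homotopy

open MeasureTheory

namespace Pool.Agent.Helper534.LS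



theorem ai_dt (y : S2) : dt nP y = (y : E3) 2 := by
  unfold dt
  rw [PiLp.inner_apply, Fin.sum_univ_three]
  simp [nP]

theorem ai_sq (y : S2) : ((y : E3) 0) ^ 2 + ((y : E3) 1) ^ 2 + ((y : E3) 2) ^ 2 = 1 := by
  have h := y.2
  rw [mem_sphere_zero_iff_norm, EuclideanSpace.norm_eq, Real.sqrt_eq_one,
    Fin.sum_univ_three] at h
  simpa only [Real.norm_eq_abs, sq_abs] using h

/-- radial coordinate -/
noncomputable def airr (y : S2) : ℝ :=
  ‖(⟨(y : E3) 0, (y : E3) 1⟩ : ℂ)‖ / (1 + (y : E3) 2)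

theorem ai_nsq (y : S2) : ‖(⟨(y : E3) 0, (y : E3) 1⟩ : ℂ)‖ ^ 2 =
    (1 - (y : E3) 2) * (1 + (y : E3) 2) := by
  rw [← Complex.normSq_eq_norm_sq, Complex.normSq_apply]
  have := ai_sq y
  simp only
  linear_combination this

theorem ai_npos (y : S2) (h1 : -1 < (y : E3) 2) (h2 : (y : E3) 2 < 1) :
    0 < ‖(⟨(y : E3) 0, (y : E3) 1⟩ : ℂ)‖ := by
  have h3 := ai_nsq y
  have h4 : 0 < (1 - (y : E3) 2) * (1 + (y : E3) 2) := mul_pos (by linarith) (by linarith)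
  rcases (norm_nonneg (⟨(y : E3) 0, (y : E3) 1⟩ : ℂ)).eq_or_lt with h5 | h5
  · rw [← h5] at h3
    nlinarith
  · exact h5

theorem ai_rpos (y : S2) (h1 : -1 < (y : E3) 2) (h2 : (y : E3) 2 < 1) : 0 < airr y :=
  div_pos (ai_npos y h1 h2) (by linarith)

theorem ai_eqp (z : Circle) : (eqp z : E3) = !₂[(z : ℂ).re, (z : ℂ).im, 0] := by
  unfold eqp mer
  have h1 : Real.pi * (1 / 2) = Real.pi / 2 := by ring
  simp only [h1, Real.sin_pi_div_two, Real.cos_pi_div_two, one_mul]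

theorem ai_lon (y : S2) (h1 : -1 < (y : E3) 2) (h2 : (y : E3) 2 < 1) :
    (lon y : ℂ).re = (y : E3) 0 / ‖(⟨(y : E3) 0, (y : E3) 1⟩ : ℂ)‖ ∧
    (lon y : ℂ).im = (y : E3) 1 / ‖(⟨(y : E3) 0, (y : E3) 1⟩ : ℂ)‖ := by
  have hn := ai_npos y h1 h2
  have hne : ¬ (⟨(y : E3) 0, (y : E3) 1⟩ : ℂ) = 0 := norm_pos_iff.1 hn
  have hl : (lon y : ℂ) = (⟨(y : E3) 0, (y : E3) 1⟩ : ℂ) /
      (‖(⟨(y : E3) 0, (y : E3) 1⟩ : ℂ)‖ : ℝ) := by
    have h0 : lon y = _ := dif_neg hne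
    rw [h0]
  rw [hl]
  constructor
  · exact Complex.div_ofReal_re _ _
  · exact Complex.div_ofReal_im _ _

theorem ai_arc (y : S2) (h1 : -1 < (y : E3) 2) (h2 : (y : E3) 2 < 1) (τ : ℝ) :
    arcS nP y τ = arcS nP (eqp (lon y)) (τ * airr y) := by
  unfold arcS
  congr 1
  obtain ⟨hre, him⟩ := ai_lon y h1 h2
  have hn := ai_npos y h1 h2
  have hn2 := ai_nsq y
  have e1 : inner ℝ (nP : E3) (y : E3) = (y : E3) 2 := ai_dt y
  have e2 : inner ℝ (nP : E3) (eqp (lon y) : E3) = 0 := by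
    have h3 : inner ℝ (nP : E3) (eqp (lon y) : E3) = (eqp (lon y) : E3) 2 := ai_dt _
    rw [h3, ai_eqp]
    simp
  have hq0 : (eqp (lon y) : E3) 0 = (lon y : ℂ).re := by rw [ai_eqp]; simp
  have hq1 : (eqp (lon y) : E3) 1 = (lon y : ℂ).im := by rw [ai_eqp]; simp
  have hq2 : (eqp (lon y) : E3) 2 = 0 := by rw [ai_eqp]; simp
  have hnP0 : (nP : E3) 0 = 0 := by simp [nP]
  have hnP1 : (nP : E3) 1 = 0 := by simp [nP]
  have hnP2 : (nP : E3) 2 = 1 := by simp [nP]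
  unfold arcE
  rw [e1, e2]
  set h := (y : E3) 2 with hh
  set n := ‖(⟨(y : E3) 0, (y : E3) 1⟩ : ℂ)‖ with hndef
  have hr : airr y = n / (1 + h) := rfl
  rw [hr]
  have hp : 0 < 1 + h := by linarith
  have hm : 0 < 1 - h := by linarith
  have hD : 0 < (1 + h) + τ ^ 2 * (1 - h) := by positivity
  have hρ2 : (τ * (n / (1 + h))) ^ 2 = τ ^ 2 * (1 - h) / (1 + h) := by
    rw [mul_pow, div_pow, hn2]
    field_simp
  have hc2 : (1 + 0 + (τ * (n / (1 + h))) ^ 2 * (1 - 0)) =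
      ((1 + h) + τ ^ 2 * (1 - h)) / (1 + h) := by
    rw [hρ2]
    field_simp
    ring
  rw [hc2]
  ext i
  simp only [PiLp.smul_apply, PiLp.add_apply, smul_eq_mul]
  fin_cases i
  · simp only [Fin.zero_eta, Fin.mk_one, Fin.reduceFinMk]
    rw [hq0, hnP0, hre]
    field_simp
    try ring
  · simp only [Fin.zero_eta, Fin.mk_one, Fin.reduceFinMk]
    rw [hq1, hnP1, him]
    field_simp
    try ring
  · simp only [Fin.zero_eta, Fin.mk_one, Fin.reduceFinMk]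
    rw [hq2, hnP2, hρ2]
    field_simp
    try ring

theorem ai_cont {T : Type} [TopologicalSpace T] (x : T → S2) (τ : T → ℝ) (hx : Continuous x)
    (hτ : Continuous τ) (h : ∀ t, -1 < (x t : E3) 2) :
    Continuous (fun t => arcS nP (x t) (τ t)) := by
  rw [← continuousOn_univ]
  refine arc_cont.comp (f := fun t : T => ((nP, x t, τ t) : S2 × S2 × ℝ)) ?_ ?_
  · exact (continuous_const.prodMk (hx.prodMk hτ)).continuousOn
  · intro t _
    show -1 < dt nP (x t)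
    rw [ai_dt]
    exact h t

theorem ai_coord (i : Fin 3) : Continuous (fun y : S2 => (y : E3) i) := by
  fun_prop

theorem ai_heqc : Continuous eqp := by
  have h1 : Continuous (fun z : Circle => ((z, (1 / 2 : ℝ)) : Circle × ℝ)) :=
    continuous_id.prodMk continuous_const
  have h2 := mer_facts.1.comp h1
  have h3 : eqp = (fun p : Circle × ℝ => mer p.1 p.2) ∘ (fun z : Circle => ((z, (1 / 2 : ℝ)) : Circle × ℝ)) := by
    funext z
    rfl
  rw [h3]
  exact h2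

theorem ai_rrc {T : Type} [TopologicalSpace T] (x : T → S2) (hx : Continuous x)
    (h : ∀ t, -1 < (x t : E3) 2) : Continuous (fun t => airr (x t)) := by
  unfold airr
  apply Continuous.div
  · apply Continuous.norm
    have h1 : (fun t => (⟨(x t : E3) 0, (x t : E3) 1⟩ : ℂ)) =
        fun t => (((x t : E3) 0 : ℝ) : ℂ) + (((x t : E3) 1 : ℝ) : ℂ) * Complex.I := by
      funext t
      exact Complex.mk_eq_add_mul_I _ _
    rw [h1]
    exact (Complex.continuous_ofReal.comp ((ai_coord 0).comp hx)).add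
      ((Complex.continuous_ofReal.comp ((ai_coord 1).comp hx)).mul continuous_const)
  · exact continuous_const.add ((ai_coord 2).comp hx)
  · intro t
    have := h t
    linarith

theorem ab_id (x₀ : S2) (a) (ha : IsA x₀ a) (b) (hb : IsB x₀ b) :
    (a.comp b).Homotopic (ContinuousMap.id _) := by
  have hU : ∀ γ : ↥(UN x₀ ∩ VS x₀), -1 < ((γ.1.1 1 : S2) : E3) 2 := fun γ => γ.2.1
  have hV : ∀ γ : ↥(UN x₀ ∩ VS x₀), ((γ.1.1 1 : S2) : E3) 2 < 1 := fun γ => γ.2.2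
  have hx : ∀ γ : ↥(UN x₀ ∩ VS x₀), γ.1.1 0 = x₀ := fun γ => γ.1.2
  have hcl0 : cl 0 = 0 := by
    unfold cl
    exact Set.projIcc_left (zero_le_one' ℝ)
  have hcl1 : cl 1 = 1 := by
    unfold cl
    exact Set.projIcc_right (zero_le_one' ℝ)
  have hfn0 : ∀ γ : C(unitInterval, S2), fn γ 0 = γ 0 := fun γ => by unfold fn; rw [hcl0]
  have hfn1 : ∀ γ : C(unitInterval, S2), fn γ 1 = γ 1 := fun γ => by unfold fn; rw [hcl1]
  have hcat0 : ∀ f g : ℝ → S2, cat f g 0 = f 0 := by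
    intro f g
    unfold cat
    rw [if_pos (by norm_num), mul_zero]
  have hcat1 : ∀ f g : ℝ → S2, cat f g 1 = g 1 := by
    intro f g
    unfold cat
    rw [if_neg (by norm_num)]
    norm_num
  -- the first map
  have hEnd : Continuous (fun γ : ↥(UN x₀ ∩ VS x₀) => (γ.1.1 1 : S2)) := by
    exact (continuous_eval_const (1 : unitInterval)).comp
      (continuous_subtype_val.comp continuous_subtype_val)
  have hInc : Continuous (fun γ : ↥(UN x₀ ∩ VS x₀) => (γ.1.1 : C(unitInterval, S2))) :=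
    continuous_subtype_val.comp continuous_subtype_val
  set u : ↥(UN x₀ ∩ VS x₀) × unitInterval → ℝ → S2 :=
    fun p τ => arcS nP (p.1.1.1 1) (1 - (p.2 : ℝ) * τ) with hu
  set v : ↥(UN x₀ ∩ VS x₀) × unitInterval → ℝ → S2 :=
    fun p τ => arcS nP (eqp (lon (p.1.1.1 1)))
      ((1 - (p.2 : ℝ)) * airr (p.1.1.1 1) + τ * (p.2 : ℝ)) with hv
  have huc : Continuous fun q : (↥(UN x₀ ∩ VS x₀) × unitInterval) × ℝ => u q.1 q.2 :=
    ai_cont (fun q : (↥(UN x₀ ∩ VS x₀) × unitInterval) × ℝ => (q.1.1.1.1 1 : S2))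
      (fun q => 1 - (q.1.2 : ℝ) * q.2) (hEnd.comp (continuous_fst.comp continuous_fst))
      (by fun_prop) (fun q => hU _)
  have hlonc : Continuous (fun γ : ↥(UN x₀ ∩ VS x₀) => lon (γ.1.1 1)) := by
    rw [← continuousOn_univ]
    refine lon_cont.comp (f := fun γ : ↥(UN x₀ ∩ VS x₀) => (γ.1.1 1 : S2)) hEnd.continuousOn ?_
    intro γ _
    exact ⟨hU γ, hV γ⟩
  have hrc : Continuous (fun γ : ↥(UN x₀ ∩ VS x₀) => airr (γ.1.1 1)) :=
    ai_rrc _ hEnd hU
  have heqc : Continuous eqp := ai_heqc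
  have heq0 : ∀ z : Circle, (eqp z : E3) 2 = 0 := by
    intro z
    rw [ai_eqp]
    simp
  have hvc : Continuous fun q : (↥(UN x₀ ∩ VS x₀) × unitInterval) × ℝ => v q.1 q.2 := by
    refine ai_cont (fun q : (↥(UN x₀ ∩ VS x₀) × unitInterval) × ℝ => eqp (lon (q.1.1.1.1 1)))
      (fun q => (1 - (q.1.2 : ℝ)) * airr (q.1.1.1.1 1) + q.2 * (q.1.2 : ℝ))
      ((heqc.comp hlonc).comp (continuous_fst.comp continuous_fst)) ?_ ?_
    · apply Continuous.add
      · apply Continuous.mul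
        · fun_prop
        · exact hrc.comp (continuous_fst.comp continuous_fst)
      · fun_prop
    · intro q
      rw [heq0]
      norm_num
  have hu0 : ∀ p, u p 0 = p.1.1.1 1 := by
    intro p
    show arcS nP (p.1.1.1 1) (1 - (p.2 : ℝ) * 0) = _
    rw [mul_zero, sub_zero]
    exact (arc_val nP _ (by rw [ai_dt]; exact hU _) 0).2.2.2
  have hu1 : ∀ p, u p 1 = v p 0 := by
    intro p
    show arcS nP (p.1.1.1 1) (1 - (p.2 : ℝ) * 1) = arcS nP (eqp (lon (p.1.1.1 1)))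
      ((1 - (p.2 : ℝ)) * airr (p.1.1.1 1) + 0 * (p.2 : ℝ))
    rw [mul_one, zero_mul, add_zero]
    exact ai_arc _ (hU _) (hV _) _
  have hv1 : ∀ p, -1 < ((v p 1 : S2) : E3) 2 ∧ ((v p 1 : S2) : E3) 2 < 1 := by
    intro p
    have hr := ai_rpos _ (hU p.1) (hV p.1)
    have hs0 := p.2.2.1
    have hs1 := p.2.2.2
    have hpos : 0 < (1 - (p.2 : ℝ)) * airr (p.1.1.1 1) + 1 * (p.2 : ℝ) := by
      rcases hs0.eq_or_lt with h | h
      · rw [← h]
        linarith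
      · have := mul_nonneg (sub_nonneg.2 hs1) hr.le
        linarith
    have h1 := arc_north (eqp (lon (p.1.1.1 1))) (by rw [heq0]; norm_num) (by rw [heq0]; norm_num)
      _ hpos
    exact ⟨h1.1, h1.2.1⟩
  have hF1 : Continuous fun q : (↥(UN x₀ ∩ VS x₀) × unitInterval) × ℝ =>
      cat (fn q.1.1.1.1) (u q.1) q.2 := by
    apply cat_cont (fun p : ↥(UN x₀ ∩ VS x₀) × unitInterval => fn p.1.1.1) u _ huc
    · intro p
      rw [hfn1, hu0]
    · exact fn_cont.comp (((hInc.comp continuous_fst).comp continuous_fst).prodMk continuous_snd)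
  obtain ⟨f1, hf1⟩ := mk_path (fun p : ↥(UN x₀ ∩ VS x₀) × unitInterval =>
    cat (fn p.1.1.1) (u p)) hF1
  have hf11 : ∀ p, f1 p 1 = u p 1 := by
    intro p
    rw [hf1]
    show cat (fn p.1.1.1) (u p) ((1 : unitInterval) : ℝ) = u p 1
    rw [Set.Icc.coe_one, hcat1]
  have hf10 : ∀ p, f1 p 0 = x₀ := by
    intro p
    rw [hf1]
    show cat (fn p.1.1.1) (u p) ((0 : unitInterval) : ℝ) = x₀
    rw [Set.Icc.coe_zero, hcat0, hfn0, hx]
  have hF2 : Continuous fun q : (↥(UN x₀ ∩ VS x₀) × unitInterval) × ℝ =>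
      cat (fn (f1 q.1)) (v q.1) q.2 := by
    apply cat_cont (fun p : ↥(UN x₀ ∩ VS x₀) × unitInterval => fn (f1 p)) v _ hvc
    · intro p
      rw [hfn1, hf11, hu1]
    · exact fn_cont.comp ((f1.continuous.comp continuous_fst).prodMk continuous_snd)
  obtain ⟨f2, hf2⟩ := mk_path (fun p : ↥(UN x₀ ∩ VS x₀) × unitInterval =>
    cat (fn (f1 p)) (v p)) hF2
  have hf21 : ∀ p, f2 p 1 = v p 1 := by
    intro p
    rw [hf2]
    show cat (fn (f1 p)) (v p) ((1 : unitInterval) : ℝ) = v p 1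
    rw [Set.Icc.coe_one, hcat1]
  have hf20 : ∀ p, f2 p 0 = x₀ := by
    intro p
    rw [hf2]
    show cat (fn (f1 p)) (v p) ((0 : unitInterval) : ℝ) = x₀
    rw [Set.Icc.coe_zero, hcat0, hfn0, hf10]
  -- general principle
  have hom : ∀ (H : C(↥(UN x₀ ∩ VS x₀) × unitInterval, C(unitInterval, S2)))
      (φ ψ : C(↥(UN x₀ ∩ VS x₀), ↥(UN x₀ ∩ VS x₀))), (∀ p, H p 0 = x₀) →
      (∀ p, -1 < ((H p 1 : S2) : E3) 2 ∧ ((H p 1 : S2) : E3) 2 < 1) →
      (∀ γ, H (γ, 0) = (φ γ).1.1) → (∀ γ, H (γ, 1) = (ψ γ).1.1) → φ.Homotopic ψ := by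
    intro H φ ψ h0 h1 hφ hψ
    refine ⟨⟨⟨fun q => ⟨⟨H (q.2, q.1), h0 _⟩, h1 _⟩, ?_⟩, ?_, ?_⟩⟩
    · exact Continuous.subtype_mk (Continuous.subtype_mk
        (H.continuous.comp (continuous_snd.prodMk continuous_fst)) _) _
    · intro γ
      apply Subtype.ext
      apply Subtype.ext
      exact hφ γ
    · intro γ
      apply Subtype.ext
      apply Subtype.ext
      exact hψ γ
  -- the three homotopies
  have hvy : ∀ γ : ↥(UN x₀ ∩ VS x₀), ∀ τ : ℝ, v (γ, 0) τ = γ.1.1 1 := by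
    intro γ τ
    show arcS nP (eqp (lon (γ.1.1 1)))
      ((1 - ((0 : unitInterval) : ℝ)) * airr (γ.1.1 1) + τ * ((0 : unitInterval) : ℝ)) = _
    rw [Set.Icc.coe_zero, sub_zero, mul_zero, add_zero, ← ai_arc _ (hU _) (hV _) 1]
    exact (arc_val nP _ (by rw [ai_dt]; exact hU _) 0).2.2.2
  have huy : ∀ γ : ↥(UN x₀ ∩ VS x₀), ∀ τ : ℝ, u (γ, 0) τ = γ.1.1 1 := by
    intro γ τ
    show arcS nP (γ.1.1 1) (1 - ((0 : unitInterval) : ℝ) * τ) = _
    rw [Set.Icc.coe_zero, zero_mul, sub_zero]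
    exact (arc_val nP _ (by rw [ai_dt]; exact hU _) 0).2.2.2
  let inc : C(↥(UN x₀ ∩ VS x₀), C(unitInterval, S2)) := ⟨fun γ => γ.1.1, hInc⟩
  have hgc : Continuous fun p : ↥(UN x₀ ∩ VS x₀) × ℝ => (p.1.1.1 1 : S2) :=
    hEnd.comp continuous_fst
  obtain ⟨H1, H1a, H1b, H1c, H1d⟩ := cat_homotopy inc (fun γ _ => γ.1.1 1) hgc (fun γ => rfl)
  let g1 : C(↥(UN x₀ ∩ VS x₀), C(unitInterval, S2)) :=
    ⟨fun γ => f1 (γ, 0), f1.continuous.comp (continuous_id.prodMk continuous_const)⟩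
  have hg11 : ∀ γ, g1 γ 1 = γ.1.1 1 := by
    intro γ
    show f1 (γ, 0) 1 = _
    rw [hf11, huy]
  obtain ⟨H2, H2a, H2b, H2c, H2d⟩ := cat_homotopy g1 (fun γ _ => γ.1.1 1) hgc hg11
  have H1e : ∀ γ, H1 (γ, 1) = f1 (γ, 0) := by
    intro γ
    ext1 t
    rw [H1b, hf1]
    show cat (fn γ.1.1) (fun _ => γ.1.1 1) t = cat (fn γ.1.1) (u (γ, 0)) t
    rw [show (fun _ : ℝ => (γ.1.1 1 : S2)) = u (γ, 0) from (funext (huy γ)).symm]
  have H2e : ∀ γ, H2 (γ, 1) = f2 (γ, 0) := by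
    intro γ
    ext1 t
    rw [H2b, hf2]
    show cat (fn (f1 (γ, 0))) (fun _ => γ.1.1 1) t = cat (fn (f1 (γ, 0))) (v (γ, 0)) t
    rw [show (fun _ : ℝ => (γ.1.1 1 : S2)) = v (γ, 0) from (funext (hvy γ)).symm]
  -- the intermediate maps
  have mk : ∀ h : C(↥(UN x₀ ∩ VS x₀), C(unitInterval, S2)), (∀ γ, h γ 0 = x₀) →
      (∀ γ, -1 < ((h γ 1 : S2) : E3) 2 ∧ ((h γ 1 : S2) : E3) 2 < 1) →
      ∃ φ : C(↥(UN x₀ ∩ VS x₀), ↥(UN x₀ ∩ VS x₀)), ∀ γ, (φ γ).1.1 = h γ := by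
    intro h h0 h1
    exact ⟨⟨fun γ => ⟨⟨h γ, h0 γ⟩, h1 γ⟩,
      Continuous.subtype_mk (Continuous.subtype_mk h.continuous _) _⟩, fun γ => rfl⟩
  obtain ⟨m1, hm1⟩ := mk g1 (fun γ => hf10 _) (fun γ => by
    rw [hg11]
    exact ⟨hU γ, hV γ⟩)
  let g2 : C(↥(UN x₀ ∩ VS x₀), C(unitInterval, S2)) :=
    ⟨fun γ => f2 (γ, 0), f2.continuous.comp (continuous_id.prodMk continuous_const)⟩
  obtain ⟨m2, hm2⟩ := mk g2 (fun γ => hf20 _) (fun γ => by
    show -1 < ((f2 (γ, 0) 1 : S2) : E3) 2 ∧ ((f2 (γ, 0) 1 : S2) : E3) 2 < 1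
    rw [hf21]
    exact hv1 _)
  have k1 : (ContinuousMap.id _).Homotopic m1 := by
    apply hom H1 (ContinuousMap.id _) m1
    · intro p
      rw [show p = (p.1, p.2) from rfl, H1c]
      exact hx p.1
    · intro p
      rw [show p = (p.1, p.2) from rfl, H1d]
      exact ⟨hU p.1, hV p.1⟩
    · intro γ
      rw [H1a]
      rfl
    · intro γ
      rw [H1e, hm1]
      rfl
  have k2 : m1.Homotopic m2 := by
    apply hom H2 m1 m2
    · intro p
      rw [show p = (p.1, p.2) from rfl, H2c]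
      exact hf10 _
    · intro p
      rw [show p = (p.1, p.2) from rfl, H2d]
      exact ⟨hU p.1, hV p.1⟩
    · intro γ
      rw [H2a, hm1]
    · intro γ
      rw [H2e, hm2]
      rfl
  have k3 : m2.Homotopic (a.comp b) := by
    apply hom f2 m2 (a.comp b) hf20
    · intro p
      rw [hf21]
      exact hv1 p
    · intro γ
      rw [hm2]
      rfl
    · intro γ
      obtain ⟨hb1, hb2⟩ := hb γ
      have e1 : f1 (γ, 1) = (b γ).2.1 := by
        ext1 t
        rw [hf1, hb2]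
        show cat (fn γ.1.1) (u (γ, 1)) t = _
        have : u (γ, 1) = fun τ => arcS nP (γ.1.1 1) (1 - τ) := by
          funext τ
          show arcS nP (γ.1.1 1) (1 - ((1 : unitInterval) : ℝ) * τ) = _
          rw [Set.Icc.coe_one, one_mul]
        rw [this]
      ext1 t
      rw [hf2]
      show cat (fn (f1 (γ, 1))) (v (γ, 1)) t = (a (b γ)).1.1 t
      rw [ha, e1, hb1]
      have : v (γ, 1) = arcS nP (eqp (lon (γ.1.1 1))) := by
        funext τ
        show arcS nP (eqp (lon (γ.1.1 1)))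
          ((1 - ((1 : unitInterval) : ℝ)) * airr (γ.1.1 1) + τ * ((1 : unitInterval) : ℝ)) = _
        rw [Set.Icc.coe_one, sub_self, zero_mul, zero_add, mul_one]
      rw [this]
  exact ((k1.trans k2).trans k3).symm

end Pool.Agent.Helper534.LS
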