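import Pool.Agent.Helper534.LS.Defs
import Pool.Agent.Helper534.LS.P_cat_cont
import Pool.Agent.Helper534.LS.P_fn_cont
import Pool.Agent.Helper534.LS.P_mk_path
import Pool.Agent.Helper534.LS.P_arc_val
import Pool.Agent.Helper534.LS.P_arc_cont
import Pool.Agent.Helper534.LS.P_lon_cont

open MeasureTheory

namespace Pool.Agent.Helper534.LS



theorem bex_dt (y : S2) : dt nP y = (y : E3) 2 := by
  unfold dt
  rw [PiLp.inner_apply, Fin.sum_univ_three]
  simp [nP]

theorem bex_cl0 : cl 0 = 0 := by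
  show Set.projIcc (0:ℝ) 1 zero_le_one 0 = _
  rw [Set.projIcc_left]
  rfl

theorem bex_cl1 : cl 1 = 1 := by
  show Set.projIcc (0:ℝ) 1 zero_le_one 1 = _
  rw [Set.projIcc_right]
  rfl

theorem b_exists (x₀ : S2) : ∃ b, IsB x₀ b := by
  have hUV : ∀ a : ↥(UN x₀ ∩ VS x₀), -1 < ((a.1.1 1 : S2) : E3) 2 ∧ ((a.1.1 1 : S2) : E3) 2 < 1 :=
    fun a => ⟨a.2.1, a.2.2⟩
  have hdt : ∀ a : ↥(UN x₀ ∩ VS x₀), -1 < dt nP (a.1.1 1) := by
    intro a
    rw [bex_dt]
    exact (hUV a).1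
  have hev : Continuous fun a : ↥(UN x₀ ∩ VS x₀) => (a.1.1 1 : S2) := by
    have h1 : Continuous fun γ : C(unitInterval, S2) => γ 1 := continuous_eval_const (1 : unitInterval)
    exact h1.comp (continuous_subtype_val.comp continuous_subtype_val)
  have hf : Continuous fun p : ↥(UN x₀ ∩ VS x₀) × ℝ => fn p.1.1.1 p.2 := by
    have h1 : Continuous fun p : ↥(UN x₀ ∩ VS x₀) × ℝ => ((p.1.1.1, p.2) : C(unitInterval, S2) × ℝ) :=
      ((continuous_subtype_val.comp continuous_subtype_val).comp continuous_fst).prodMk continuous_snd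
    exact fn_cont.comp h1
  have hg : Continuous fun p : ↥(UN x₀ ∩ VS x₀) × ℝ => arcS nP (p.1.1.1 1) (1 - p.2) := by
    have h1 : Continuous fun p : ↥(UN x₀ ∩ VS x₀) × ℝ =>
        ((nP, p.1.1.1 1, 1 - p.2) : S2 × S2 × ℝ) :=
      continuous_const.prodMk ((hev.comp continuous_fst).prodMk (continuous_const.sub continuous_snd))
    exact arc_cont.comp_continuous h1 (fun p => hdt p.1)
  have hcat := cat_cont (A := ↥(UN x₀ ∩ VS x₀)) (fun a s => fn a.1.1 s)
    (fun a s => arcS nP (a.1.1 1) (1 - s)) hf hg (by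
      intro a
      beta_reduce
      rw [sub_zero, (arc_val nP (a.1.1 1) (hdt a) 0).2.2.2]
      unfold fn
      rw [bex_cl1])
  obtain ⟨f, hf2⟩ := mk_path (A := ↥(UN x₀ ∩ VS x₀))
    (fun a t => cat (fun s => fn a.1.1 s) (fun s => arcS nP (a.1.1 1) (1 - s)) t) hcat
  have h0 : ∀ a, f a 0 = x₀ := by
    intro a
    rw [hf2]
    unfold cat
    rw [if_pos (by norm_num)]
    unfold fn
    have h1 : (2 * ((0 : unitInterval) : ℝ)) = 0 := by simp
    beta_reduce
    rw [h1, bex_cl0]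
    exact a.1.2
  have h1 : ∀ a, f a 1 = nP := by
    intro a
    rw [hf2]
    unfold cat
    rw [if_neg (by norm_num)]
    have h1 : (1 - (2 * ((1 : unitInterval) : ℝ) - 1)) = 0 := by simp; norm_num
    beta_reduce
    rw [h1, (arc_val nP (a.1.1 1) (hdt a) 0).2.2.1]
  refine ⟨⟨fun γ => (lon (γ.1.1 1), ⟨f γ, h0 γ, h1 γ⟩), ?_⟩, ?_⟩
  · refine Continuous.prodMk ?_ (Continuous.subtype_mk f.continuous _)
    exact lon_cont.comp_continuous hev hUV
  · intro γ
    exact ⟨rfl, fun t => hf2 γ t⟩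

end Pool.Agent.Helper534.LS
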