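import Pool.Agent.Helper534.LS.Defs
import Pool.Agent.Helper534.LS.P_cat_cont
import Pool.Agent.Helper534.LS.P_fn_cont
import Pool.Agent.Helper534.LS.P_mk_path
import Pool.Agent.Helper534.LS.P_arc_val
import Pool.Agent.Helper534.LS.P_arc_cont
import Pool.Agent.Helper534.LS.P_mer_facts
import Pool.Agent.Helper534.LS.P_cat_homotopy

open MeasureTheory

namespace Pool.Agent.Helper534.LS



theorem baid_dt (x : S2) : dt nP x = (x : E3) 2 := by
  unfold dt nP
  rw [PiLp.inner_apply, Fin.sum_univ_three]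
  simp

theorem baid_dt_eqp (z : Circle) : -1 < dt nP (eqp z) := by
  rw [baid_dt]
  have h := mer_facts.2.2.2.1
  have h2 := h z (1 / 2) (by norm_num) (by norm_num)
  unfold eqp
  exact h2

theorem baid_eqp_cont : Continuous eqp := by
  have h := mer_facts.1
  have h2 : Continuous (fun z : Circle => (z, (1 / 2 : ℝ))) := by fun_prop
  have h3 := h.comp h2
  unfold eqp
  exact h3

theorem baid_fn0 (γ : C(unitInterval, S2)) : fn γ 0 = γ 0 := by
  unfold fn cl
  rw [Set.projIcc_left]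
  rfl

theorem baid_fn1 (γ : C(unitInterval, S2)) : fn γ 1 = γ 1 := by
  unfold fn cl
  rw [Set.projIcc_right]
  rfl

theorem baid_cat0 (f g : ℝ → S2) : cat f g 0 = f 0 := by
  unfold cat
  rw [if_pos (by norm_num), mul_zero]

theorem baid_cat1 (f g : ℝ → S2) : cat f g 1 = g 1 := by
  unfold cat
  rw [if_neg (by norm_num)]
  norm_num

theorem baid_step (x₀ : S2) (K : C((Circle × PE x₀ nP) × unitInterval, C(unitInterval, S2)))
    (h0 : ∀ a s, K (a, s) 0 = x₀) (h1 : ∀ a s, K (a, s) 1 = nP)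
    (u v : C(Circle × PE x₀ nP, Circle × PE x₀ nP))
    (hu : ∀ a, (u a).1 = a.1 ∧ ∀ t, (u a).2.1 t = K (a, 0) t)
    (hv : ∀ a, (v a).1 = a.1 ∧ ∀ t, (v a).2.1 t = K (a, 1) t) : u.Homotopic v := by
  refine ⟨⟨⟨fun p => (p.2.1, ⟨K (p.2, p.1), h0 _ _, h1 _ _⟩), ?_⟩, ?_, ?_⟩⟩
  · exact (continuous_fst.comp continuous_snd).prodMk
      (Continuous.subtype_mk (K.continuous.comp (by fun_prop)) _)
  · intro a
    exact Prod.ext (hu a).1.symm (Subtype.ext (ContinuousMap.ext fun t => ((hu a).2 t).symm))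
  · intro a
    exact Prod.ext (hv a).1.symm (Subtype.ext (ContinuousMap.ext fun t => ((hv a).2 t).symm))

theorem baid_arc_cont {A : Type} [TopologicalSpace A] (z : A → Circle) (r : A → ℝ)
    (hz : Continuous z) (hr : Continuous r) : Continuous fun a => arcS nP (eqp (z a)) (r a) := by
  have h0 : Continuous (fun a => eqp (z a)) := baid_eqp_cont.comp hz
  have h : Continuous (fun a => ((nP, eqp (z a), r a) : S2 × S2 × ℝ)) :=
    continuous_const.prodMk (h0.prodMk hr)
  have h1 : ∀ a, ((nP, eqp (z a), r a) : S2 × S2 × ℝ) ∈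
      {p : S2 × S2 × ℝ | -1 < dt p.1 p.2.1} := by
    intro a
    show -1 < dt nP (eqp (z a))
    exact baid_dt_eqp (z a)
  have h2 := ContinuousOn.comp_continuous arc_cont h h1
  exact h2

theorem ba_id (x₀ : S2) (a) (ha : IsA x₀ a) (b) (hb : IsB x₀ b) :
    (b.comp a).Homotopic (ContinuousMap.id _) := by
  have e0 : ∀ z, arcS nP (eqp z) 0 = nP := fun z => (arc_val nP (eqp z) (baid_dt_eqp z) 0).2.2.1
  have e1 : ∀ z, arcS nP (eqp z) 1 = eqp z := fun z =>
    (arc_val nP (eqp z) (baid_dt_eqp z) 0).2.2.2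
  -- the first map
  have hfw : Continuous fun p : ((Circle × PE x₀ nP) × unitInterval) × ℝ => fn p.1.1.2.1 p.2 := by
    have hq : Continuous (fun p : ((Circle × PE x₀ nP) × unitInterval) × ℝ =>
        ((p.1.1.2.1, p.2) : C(unitInterval, S2) × ℝ)) := by fun_prop
    have hq2 := fn_cont.comp hq
    exact hq2
  obtain ⟨F1, hF1⟩ := mk_path (A := (Circle × PE x₀ nP) × unitInterval)
    (fun q => cat (fn q.1.2.1) (fun τ => arcS nP (eqp q.1.1) ((q.2 : ℝ) * τ)))
    (cat_cont (fun q : (Circle × PE x₀ nP) × unitInterval => fn q.1.2.1)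
      (fun q τ => arcS nP (eqp q.1.1) ((q.2 : ℝ) * τ)) hfw
      (baid_arc_cont (fun p : ((Circle × PE x₀ nP) × unitInterval) × ℝ => p.1.1.1)
        (fun p => (p.1.2 : ℝ) * p.2) (by fun_prop) (by fun_prop))
      (by
        intro q
        rw [baid_fn1, q.1.2.2.2, mul_zero, e0]))
  have hF10 : ∀ q, F1 q 0 = x₀ := by
    intro q
    rw [hF1, Set.Icc.coe_zero, baid_cat0, baid_fn0, q.1.2.2.1]
  have hF11 : ∀ q, F1 q 1 = arcS nP (eqp q.1.1) (q.2 : ℝ) := by
    intro q
    rw [hF1, Set.Icc.coe_one, baid_cat1, mul_one]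
  -- the second map
  have hfw2 : Continuous fun p : ((Circle × PE x₀ nP) × unitInterval) × ℝ => fn (F1 p.1) p.2 := by
    have hq : Continuous (fun p : ((Circle × PE x₀ nP) × unitInterval) × ℝ =>
        ((F1 p.1, p.2) : C(unitInterval, S2) × ℝ)) := by fun_prop
    have hq2 := fn_cont.comp hq
    exact hq2
  obtain ⟨F2, hF2⟩ := mk_path (A := (Circle × PE x₀ nP) × unitInterval)
    (fun q => cat (fn (F1 q)) (fun τ => arcS nP (eqp q.1.1) ((q.2 : ℝ) * (1 - τ))))
    (cat_cont (fun q : (Circle × PE x₀ nP) × unitInterval => fn (F1 q))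
      (fun q τ => arcS nP (eqp q.1.1) ((q.2 : ℝ) * (1 - τ))) hfw2
      (baid_arc_cont (fun p : ((Circle × PE x₀ nP) × unitInterval) × ℝ => p.1.1.1)
        (fun p => (p.1.2 : ℝ) * (1 - p.2)) (by fun_prop) (by fun_prop))
      (by
        intro q
        rw [baid_fn1, hF11, sub_zero, mul_one]))
  have hF20 : ∀ q, F2 q 0 = x₀ := by
    intro q
    rw [hF2, Set.Icc.coe_zero, baid_cat0, baid_fn0, hF10]
  have hF21 : ∀ q, F2 q 1 = nP := by
    intro q
    rw [hF2, Set.Icc.coe_one, baid_cat1, sub_self, mul_zero, e0]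
  -- the intermediate maps
  let j0 : C(Circle × PE x₀ nP, (Circle × PE x₀ nP) × unitInterval) := ⟨fun a => (a, 0), by fun_prop⟩
  let m1 : C(Circle × PE x₀ nP, Circle × PE x₀ nP) :=
    ⟨fun a => (a.1, ⟨F1 (a, 0), hF10 _, by rw [hF11, Set.Icc.coe_zero, e0]⟩), by
      refine continuous_fst.prodMk (Continuous.subtype_mk (F1.continuous.comp (by fun_prop)) _)⟩
  let m2 : C(Circle × PE x₀ nP, Circle × PE x₀ nP) :=
    ⟨fun a => (a.1, ⟨F2 (a, 0), hF20 _, hF21 _⟩), by
      refine continuous_fst.prodMk (Continuous.subtype_mk (F2.continuous.comp (by fun_prop)) _)⟩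
  -- `m2 ∼ b a`
  have k1 : m2.Homotopic (b.comp a) := by
    refine baid_step x₀ F2 (fun _ _ => hF20 _) (fun _ _ => hF21 _) _ _ ?_ ?_
    · intro p
      exact ⟨rfl, fun t => rfl⟩
    · intro p
      have hend : (a p).1.1 1 = eqp p.1 := by
        rw [ha, Set.Icc.coe_one, baid_cat1, e1]
      have hpath : (a p).1.1 = F1 (p, 1) := by
        apply ContinuousMap.ext
        intro t
        rw [ha, hF1]
        simp only [Set.Icc.coe_one, one_mul]
      refine ⟨?_, ?_⟩
      · show (b (a p)).1 = p.1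
        rw [(hb (a p)).1, hend]
        exact mer_facts.2.2.2.2.2.1 p.1 (1 / 2) (by norm_num) (by norm_num)
      · intro t
        show (b (a p)).2.1 t = F2 (p, 1) t
        rw [(hb (a p)).2, hend, hF2, hpath]
        simp only [Set.Icc.coe_one, one_mul]
  -- `m1 ∼ m2`
  have k2 : m1.Homotopic m2 := by
    obtain ⟨H, H0, H1, H2, H3⟩ := cat_homotopy (F1.comp j0) (fun _ _ => nP) continuous_const
      (by
        intro a
        show F1 (a, 0) 1 = nP
        rw [hF11, Set.Icc.coe_zero, e0])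
    refine baid_step x₀ H (fun p s => ?_) (fun p s => H3 p s) _ _ ?_ ?_
    · rw [H2]
      exact hF10 _
    · intro p
      refine ⟨rfl, fun t => ?_⟩
      rw [H0]
      rfl
    · intro p
      refine ⟨rfl, fun t => ?_⟩
      show F2 (p, 0) t = _
      rw [H1, hF2]
      simp only [Set.Icc.coe_zero, zero_mul, e0]
      rfl
  -- `id ∼ m1`
  have k3 : (ContinuousMap.id (Circle × PE x₀ nP)).Homotopic m1 := by
    let w0 : C(Circle × PE x₀ nP, C(unitInterval, S2)) := ⟨fun a => a.2.1, by fun_prop⟩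
    obtain ⟨H, H0, H1, H2, H3⟩ := cat_homotopy w0 (fun _ _ => nP) continuous_const
      (fun a => a.2.2.2)
    refine baid_step x₀ H (fun p s => ?_) (fun p s => H3 p s) _ _ ?_ ?_
    · rw [H2]
      exact p.2.2.1
    · intro p
      refine ⟨rfl, fun t => ?_⟩
      rw [H0]
      rfl
    · intro p
      refine ⟨rfl, fun t => ?_⟩
      show F1 (p, 0) t = _
      rw [H1, hF1]
      simp only [Set.Icc.coe_zero, zero_mul, e0]
      rfl
  exact ((k3.trans k2).trans k1).symm

end Pool.Agent.Helper534.LS
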