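import Pool.Agent.Helper534.LS.Defs
import Pool.Agent.Helper534.LS.P_hmap_comp
import Pool.Agent.Helper534.LS.P_hmap_id
import Pool.Agent.Helper534.LS.P_hmap_homotopic
import Pool.Agent.Helper534.LS.P_cat_cont
import Pool.Agent.Helper534.LS.P_fn_cont
import Pool.Agent.Helper534.LS.P_mk_path
import Pool.Agent.Helper534.LS.P_arc_val
import Pool.Agent.Helper534.LS.P_arc_cont
import Pool.Agent.Helper534.LS.P_cat_homotopy

open MeasureTheory

namespace Pool.Agent.Helper534.LS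



theorem auxU_dt (y : S2) : dt nP y = (y : E3) 2 := by
  simp [dt, nP, PiLp.inner_apply, Fin.sum_univ_three]

theorem auxU_const (τ : ℝ) : arcS nP nP τ = nP := by
  have h1 : inner ℝ (nP : E3) (nP : E3) = (1:ℝ) := by
    rw [real_inner_self_eq_norm_sq, mem_sphere_zero_iff_norm.mp nP.2, one_pow]
  have h : -1 < dt nP nP := by rw [dt, h1]; norm_num
  apply Subtype.ext
  rw [(arc_val nP nP h τ).1, arcE, h1]
  have e1 : ((1 + 1 : ℝ) + τ ^ 2 * (1 - 1))⁻¹ = 1 / 2 := by norm_num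
  have e2 : ((1 + 1 : ℝ) - τ ^ 2 * (1 - 1) - 2 * τ * 1) = 2 - 2 * τ := by ring
  rw [e1, e2, ← add_smul, smul_smul]
  have e3 : (1 / 2 : ℝ) * (2 - 2 * τ + 2 * τ) = 1 := by ring
  rw [e3, one_smul]

theorem iU_bij (x₀ : S2) (n : ℕ) : Function.Bijective (hmap (iU x₀) n) := by
  let f : C(UN x₀, C(unitInterval, S2)) := ⟨fun γ => γ.1.1, by fun_prop⟩
  let g : UN x₀ → ℝ → S2 := fun γ τ => arcS nP (γ.1.1 1) (1 - τ)
  have hdt : ∀ γ : UN x₀, -1 < dt nP (γ.1.1 1) := by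
    intro γ
    rw [auxU_dt]
    exact γ.2
  have hg : Continuous fun p : UN x₀ × ℝ => g p.1 p.2 := by
    have h1 : Continuous fun p : UN x₀ × ℝ => ((nP, p.1.1.1 1, 1 - p.2) : S2 × S2 × ℝ) := by
      fun_prop
    have h2 : ∀ p : UN x₀ × ℝ, ((nP, p.1.1.1 1, 1 - p.2) : S2 × S2 × ℝ) ∈
        {p : S2 × S2 × ℝ | -1 < dt p.1 p.2.1} := fun p => hdt p.1
    have h3 := ContinuousOn.comp_continuous (f := fun p : UN x₀ × ℝ =>
      ((nP, p.1.1.1 1, 1 - p.2) : S2 × S2 × ℝ)) arc_cont h1 h2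
    exact h3
  have hfg : ∀ a, f a 1 = g a 0 := by
    intro a
    show a.1.1 1 = arcS nP (a.1.1 1) (1 - 0)
    rw [sub_zero]
    exact (arc_val nP _ (hdt a) 0).2.2.2.symm
  obtain ⟨H, H0, -, Hs, He⟩ := cat_homotopy f g hg hfg
  have hst : ∀ a s, H (a, s) 0 = x₀ := fun a s => (Hs a s).trans a.1.2
  have hend : ∀ a s, H (a, s) 1 = arcS nP (a.1.1 1) (1 - s) := fun a s => He a s
  have hU : ∀ a s, -1 < ((H (a, s) 1 : S2) : E3) 2 := by
    intro a s
    rw [hend, ← auxU_dt]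
    exact (arc_val nP _ (hdt a) _).2.1
  let r : C(UN x₀, PE x₀ nP) := ⟨fun a => ⟨H (a, 1), hst a 1, by
    rw [hend]
    have : (1 : ℝ) - ((1 : unitInterval) : ℝ) = 0 := by simp
    rw [this]
    exact (arc_val nP _ (hdt a) 0).2.2.1⟩, by fun_prop⟩
  have h1 : ((iU x₀).comp r).Homotopic (ContinuousMap.id _) := by
    refine ContinuousMap.Homotopic.symm ⟨⟨⟨fun q => ⟨⟨H (q.2, q.1), hst _ _⟩, hU _ _⟩, by fun_prop⟩,
      ?_, ?_⟩⟩
    · intro a
      apply Subtype.ext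
      apply Subtype.ext
      exact H0 a
    · intro a
      rfl
  have h2 : (r.comp (iU x₀)).Homotopic (ContinuousMap.id _) := by
    refine ContinuousMap.Homotopic.symm ⟨⟨⟨fun q => ⟨H (iU x₀ q.2, q.1), hst _ _, by
      rw [hend]
      have : (iU x₀ q.2).1.1 1 = nP := q.2.2.2
      rw [this]
      exact auxU_const _⟩, by fun_prop⟩, ?_, ?_⟩⟩
    · intro a
      apply Subtype.ext
      exact H0 (iU x₀ a)
    · intro a
      rfl
  rw [Function.bijective_iff_has_inverse]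
  refine ⟨hmap r n, fun z => ?_, fun z => ?_⟩
  · rw [← hmap_comp, hmap_homotopic _ _ h2, hmap_id]
  · rw [← hmap_comp, hmap_homotopic _ _ h1, hmap_id]

end Pool.Agent.Helper534.LS
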