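import Pool.Agent.Helper534.LS.Defs
import Pool.Agent.Helper534.LS.P_hmap_comp
import Pool.Agent.Helper534.LS.P_hmap_id
import Pool.Agent.Helper534.LS.P_hmap_homotopic
import Pool.Agent.Helper534.LS.P_cat_cont
import Pool.Agent.Helper534.LS.P_fn_cont
import Pool.Agent.Helper534.LS.P_mk_path
import Pool.Agent.Helper534.LS.P_arc_val
import Pool.Agent.Helper534.LS.P_arc_cont
import Pool.Agent.Helper534.LS.P_cat_homotopy

open MeasureTheory

namespace Pool.Agent.Helper534.LS



theorem iVb_dt (y : S2) : dt sP y = -((y : E3) 2) := by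
  unfold dt
  rw [PiLp.inner_apply]
  simp [sP, Fin.sum_univ_three]

theorem iVb_lt (y : S2) (h : ((y : S2) : E3) 2 < 1) : -1 < dt sP y := by
  rw [iVb_dt]; linarith

theorem iVb_self : dt sP sP = 1 := by
  rw [iVb_dt]; simp [sP]

theorem iVb_arc_self (τ : ℝ) : arcS sP sP τ = sP := by
  have h := (arc_val sP sP (by rw [iVb_self]; norm_num) τ).1
  apply Subtype.ext
  rw [h]
  have h1 : inner ℝ (sP : E3) (sP : E3) = 1 := iVb_self
  unfold arcE
  rw [h1]
  have e : ((1 + 1 : ℝ) + τ ^ 2 * (1 - 1)) = 2 := by ring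
  rw [e, ← add_smul, smul_smul]
  have e2 : ((2 : ℝ)⁻¹ * (1 + 1 - τ ^ 2 * (1 - 1) - 2 * τ * 1 + 2 * τ)) = 1 := by ring
  rw [e2, one_smul]

theorem iVb_fn_one (γ : C(unitInterval, S2)) : fn γ 1 = γ 1 := by
  have h : Set.projIcc (0:ℝ) 1 zero_le_one 1 = (1 : unitInterval) := by
    rw [Set.projIcc_right]; rfl
  unfold fn cl
  rw [h]

theorem iVb_fn_zero (γ : C(unitInterval, S2)) : fn γ 0 = γ 0 := by
  have h : Set.projIcc (0:ℝ) 1 zero_le_one 0 = (0 : unitInterval) := by
    rw [Set.projIcc_left]; rfl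
  unfold fn cl
  rw [h]

/-- TARGET -/
theorem iV_bij (x₀ : S2) (n : ℕ) : Function.Bijective (hmap (iV x₀) n) := by
  -- the arc from the end point to the south pole
  have hgc : Continuous fun p : VS x₀ × ℝ => arcS sP (p.1.1.1 1) (1 - p.2) := by
    refine arc_cont.comp_continuous (f := fun p : VS x₀ × ℝ => (sP, p.1.1.1 1, 1 - p.2)) ?_ ?_
    · refine Continuous.prodMk continuous_const (Continuous.prodMk ?_ (by fun_prop))
      have h1 : Continuous fun p : VS x₀ × ℝ => p.1.1.1 := by fun_prop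
      exact (ContinuousEvalConst.continuous_eval_const (1 : unitInterval)).comp h1
    · intro p
      exact iVb_lt _ p.1.2
  have hg0 : ∀ a : VS x₀, a.1.1 1 = arcS sP (a.1.1 1) (1 - 0) := by
    intro a
    rw [sub_zero, (arc_val sP (a.1.1 1) (iVb_lt _ a.2) 0).2.2.2]
  have hfc : Continuous fun p : VS x₀ × ℝ => fn p.1.1.1 p.2 := by
    have h1 : Continuous fun p : VS x₀ × ℝ => (p.1.1.1, p.2) := by fun_prop
    exact fn_cont.comp h1
  obtain ⟨r0, hr0⟩ := mk_path (A := VS x₀)
    (fun a t => cat (fn a.1.1) (fun τ => arcS sP (a.1.1 1) (1 - τ)) t)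
    (cat_cont (fun a : VS x₀ => fn a.1.1) (fun a τ => arcS sP (a.1.1 1) (1 - τ)) hfc hgc
      (fun a => by rw [iVb_fn_one]; exact hg0 a))
  have hr00 : ∀ a, r0 a 0 = x₀ := by
    intro a
    rw [hr0 a 0]
    unfold cat
    rw [if_pos (by norm_num)]
    have : (2 : ℝ) * ((0 : unitInterval) : ℝ) = 0 := by simp
    rw [this, iVb_fn_zero]
    exact a.1.2
  have hr01 : ∀ a, r0 a 1 = sP := by
    intro a
    rw [hr0 a 1]
    unfold cat
    rw [if_neg (by norm_num)]
    have e : (1 : ℝ) - (2 * ((1 : unitInterval) : ℝ) - 1) = 0 := by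
      rw [Set.Icc.coe_one]; norm_num
    show arcS sP (a.1.1 1) (1 - (2 * ((1 : unitInterval) : ℝ) - 1)) = sP
    rw [e, (arc_val sP (a.1.1 1) (iVb_lt _ a.2) 0).2.2.1]
  let r : C(VS x₀, PE x₀ sP) := ⟨fun a => ⟨r0 a, hr00 a, hr01 a⟩, by
    exact Continuous.subtype_mk r0.continuous _⟩
  -- first homotopy
  have H1 : (ContinuousMap.id (VS x₀)).Homotopic ((iV x₀).comp r) := by
    let f1 : C(VS x₀, C(unitInterval, S2)) := ⟨fun a => a.1.1, by fun_prop⟩
    obtain ⟨H, h0, h1, h2, h3⟩ := cat_homotopy f1 (fun a τ => arcS sP (a.1.1 1) (1 - τ)) hgc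
      (fun a => hg0 a)
    have hP : ∀ (a : VS x₀) (s : unitInterval), H (a, s) 0 = x₀ := by
      intro a s
      rw [h2]; exact a.1.2
    have hV : ∀ (a : VS x₀) (s : unitInterval), ((H (a, s) 1 : S2) : E3) 2 < 1 := by
      intro a s
      rw [h3]
      have := (arc_val sP (a.1.1 1) (iVb_lt _ a.2) (1 - s)).2.1
      rw [iVb_dt] at this
      linarith
    refine ⟨⟨⟨fun p => ⟨⟨H (p.2, p.1), hP p.2 p.1⟩, hV p.2 p.1⟩, ?_⟩, ?_, ?_⟩⟩
    · refine Continuous.subtype_mk (Continuous.subtype_mk ?_ _) _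
      exact H.continuous.comp (by fun_prop)
    · intro a
      apply Subtype.ext
      apply Subtype.ext
      exact h0 a
    · intro a
      apply Subtype.ext
      apply Subtype.ext
      apply ContinuousMap.ext
      intro t
      have e1 := h1 a t
      have e2 := hr0 a t
      exact e1.trans e2.symm
  -- second homotopy
  have H2 : (ContinuousMap.id (PE x₀ sP)).Homotopic (r.comp (iV x₀)) := by
    let f2 : C(PE x₀ sP, C(unitInterval, S2)) := ⟨fun a => a.1, by fun_prop⟩
    have hlt2 : ∀ a : PE x₀ sP, -1 < dt sP (a.1 1) := by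
      intro a
      rw [a.2.2, iVb_self]; norm_num
    have hgc2 : Continuous fun p : PE x₀ sP × ℝ => arcS sP (p.1.1 1) (1 - p.2) := by
      refine arc_cont.comp_continuous
        (f := fun p : PE x₀ sP × ℝ => (sP, p.1.1 1, 1 - p.2)) ?_ ?_
      · refine Continuous.prodMk continuous_const (Continuous.prodMk ?_ (by fun_prop))
        have h1 : Continuous fun p : PE x₀ sP × ℝ => p.1.1 := by fun_prop
        exact (ContinuousEvalConst.continuous_eval_const (1 : unitInterval)).comp h1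
      · intro p
        exact hlt2 p.1
    have hg02 : ∀ a : PE x₀ sP, a.1 1 = arcS sP (a.1 1) (1 - 0) := by
      intro a
      rw [sub_zero, (arc_val sP (a.1 1) (hlt2 a) 0).2.2.2]
    obtain ⟨H, h0, h1, h2, h3⟩ := cat_homotopy f2 (fun a τ => arcS sP (a.1 1) (1 - τ)) hgc2
      hg02
    have hP : ∀ (a : PE x₀ sP) (s : unitInterval), H (a, s) 0 = x₀ := by
      intro a s
      rw [h2]; exact a.2.1
    have hE : ∀ (a : PE x₀ sP) (s : unitInterval), H (a, s) 1 = sP := by
      intro a s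
      rw [h3]
      rw [a.2.2, iVb_arc_self]
    refine ⟨⟨⟨fun p => ⟨H (p.2, p.1), hP p.2 p.1, hE p.2 p.1⟩, ?_⟩, ?_, ?_⟩⟩
    · refine Continuous.subtype_mk ?_ _
      exact H.continuous.comp (by fun_prop)
    · intro a
      apply Subtype.ext
      exact h0 a
    · intro a
      apply Subtype.ext
      apply ContinuousMap.ext
      intro t
      have e1 := h1 a t
      have e2 := hr0 (iV x₀ a) t
      have e3 : (iV x₀ a).1.1 = a.1 := rfl
      rw [e3] at e2
      exact e1.trans e2.symm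
  have K1 := hmap_homotopic _ _ H1 n
  have K2 := hmap_homotopic _ _ H2 n
  rw [Function.bijective_iff_has_inverse]
  refine ⟨hmap r n, ?_, ?_⟩
  · intro x
    rw [← hmap_comp, ← K2, hmap_id]
  · intro x
    rw [← hmap_comp, ← K1, hmap_id]

end Pool.Agent.Helper534.LS
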