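import Pool.Agent.Helper534.LS.Defs
import Pool.Agent.Helper534.LS.P_fn_cont
import Pool.Agent.Helper534.LS.P_mk_path

open MeasureTheory

namespace Pool.Agent.Helper534.LS



theorem ps_contr (x₀ : S2) : ContractibleSpace (PS x₀) := by
  rw [contractible_iff_id_nullhomotopic]
  obtain ⟨f, hf⟩ := mk_path (A := unitInterval × PS x₀)
    (fun p t => fn p.2.1 ((p.1 : ℝ) * t)) (by
      have h1 : Continuous fun p : (unitInterval × PS x₀) × ℝ =>
          ((p.1.2.1, (p.1.1 : ℝ) * p.2) : C(unitInterval, S2) × ℝ) := by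
        fun_prop
      exact fn_cont.comp h1)
  have hcl : ∀ t : unitInterval, cl (t : ℝ) = t := by
    intro t
    simp [cl]
  have h0 : ∀ p : unitInterval × PS x₀, f p 0 = x₀ := by
    intro p
    rw [hf]
    show fn p.2.1 ((p.1 : ℝ) * ((0 : unitInterval) : ℝ)) = x₀
    have h2 : (p.1 : ℝ) * ((0 : unitInterval) : ℝ) = ((0 : unitInterval) : ℝ) := by simp
    rw [h2]
    unfold fn
    rw [hcl]
    exact p.2.2
  refine ⟨⟨ContinuousMap.const _ x₀, rfl⟩, ?_⟩
  apply ContinuousMap.Homotopic.symm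
  refine ⟨⟨⟨fun p => ⟨f p, h0 p⟩, ?_⟩, ?_, ?_⟩⟩
  · exact f.continuous.subtype_mk _
  · intro γ
    apply Subtype.ext
    apply ContinuousMap.ext
    intro t
    show f (0, γ) t = x₀
    rw [hf]
    show fn γ.1 (((0 : unitInterval) : ℝ) * (t : ℝ)) = x₀
    have h2 : ((0 : unitInterval) : ℝ) * (t : ℝ) = ((0 : unitInterval) : ℝ) := by simp
    rw [h2]
    unfold fn
    rw [hcl]
    exact γ.2
  · intro γ
    apply Subtype.ext
    apply ContinuousMap.ext
    intro t
    show f (1, γ) t = γ.1 t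
    rw [hf]
    show fn γ.1 (((1 : unitInterval) : ℝ) * (t : ℝ)) = γ.1 t
    have h2 : ((1 : unitInterval) : ℝ) * (t : ℝ) = ((t : unitInterval) : ℝ) := by simp
    rw [h2]
    unfold fn
    rw [hcl]

end Pool.Agent.Helper534.LS
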