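import Pool.Agent.Helper534.LS.Defs
import Pool.Agent.Helper534.LS.P_hmap_comp
import Pool.Agent.Helper534.LS.P_hmap_id
import Pool.Agent.Helper534.LS.P_hmap_homotopic
import Pool.Agent.Helper534.LS.P_mv_exact2
import Pool.Agent.Helper534.LS.P_mv_exact3
import Pool.Agent.Helper534.LS.P_hh_contr
import Pool.Agent.Helper534.LS.P_sig_spec
import Pool.Agent.Helper534.LS.P_sig_inj
import Pool.Agent.Helper534.LS.P_par_spec
import Pool.Agent.Helper534.LS.P_ps_contr
import Pool.Agent.Helper534.LS.P_ps_cov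
import Pool.Agent.Helper534.LS.P_iU_bij
import Pool.Agent.Helper534.LS.P_iV_bij
import Pool.Agent.Helper534.LS.P_a_exists
import Pool.Agent.Helper534.LS.P_b_exists
import Pool.Agent.Helper534.LS.P_ba_id
import Pool.Agent.Helper534.LS.P_ab_id
import Pool.Agent.Helper534.LS.P_a_inl
import Pool.Agent.Helper534.LS.P_a_inr

open MeasureTheory

namespace Pool.Agent.Helper534.LS



theorem kn_bij (x₀ : S2) (k) (hk : IsKN x₀ k) (n : ℕ) :
    Function.Bijective (fun z => hmap k (n + 1) (sig (PE x₀ nP) n z)) := by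
  obtain ⟨a, ha⟩ := a_exists x₀
  obtain ⟨b, hb⟩ := b_exists x₀
  haveI := ps_contr x₀
  obtain ⟨hU, hV, hUV⟩ := ps_cov x₀
  have hL : ∀ c : HH (Circle × PE x₀ nP) (n + 1),
      hmap (inl (UN x₀) (VS x₀)) (n + 1) (hmap a (n + 1) c) =
        hmap (iU x₀) (n + 1) (hmap (prQ (PE x₀ nP)) (n + 1) c) := by
    intro c
    rw [← hmap_comp, ← hmap_comp, hmap_homotopic _ _ (a_inl x₀ a ha)]
  have hR : ∀ c : HH (Circle × PE x₀ nP) (n + 1),
      hmap (inr (UN x₀) (VS x₀)) (n + 1) (hmap a (n + 1) c) =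
        hmap (iV x₀) (n + 1) (hmap k (n + 1) c) := by
    intro c
    rw [← hmap_comp, ← hmap_comp, hmap_homotopic _ _ (a_inr x₀ a ha k hk)]
  have hba : ∀ c : HH (Circle × PE x₀ nP) (n + 1), hmap b (n + 1) (hmap a (n + 1) c) = c := by
    intro c
    rw [← hmap_comp, hmap_homotopic _ _ (ba_id x₀ a ha b hb), hmap_id]
  have hab : ∀ d : HH ↥(UN x₀ ∩ VS x₀) (n + 1), hmap a (n + 1) (hmap b (n + 1) d) = d := by
    intro d
    rw [← hmap_comp, hmap_homotopic _ _ (ab_id x₀ a ha b hb), hmap_id]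
  constructor
  · have key : ∀ z : HH (PE x₀ nP) n, hmap k (n + 1) (sig (PE x₀ nP) n z) = 0 → z = 0 := by
      intro z hz
      apply sig_inj (PE x₀ nP) n z
      have h1 := (sig_spec (PE x₀ nP) n z).1
      have h2 : hmap (inl (UN x₀) (VS x₀)) (n + 1)
          (hmap a (n + 1) (sig (PE x₀ nP) n z)) = 0 := by
        rw [hL, h1, map_zero]
      have h3 : hmap (inr (UN x₀) (VS x₀)) (n + 1)
          (hmap a (n + 1) (sig (PE x₀ nP) n z)) = 0 := by
        rw [hR, hz, map_zero]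
      obtain ⟨x, hx⟩ := mv_exact2 (UN x₀) (VS x₀) hU hV hUV (n + 1) _ h2 h3
      have h4 : x = 0 := hh_contr (n + 1) x
      rw [h4, map_zero] at hx
      rw [← hba (sig (PE x₀ nP) n z), ← hx, map_zero]
    intro z z' hzz
    have h1 : hmap k (n + 1) (sig (PE x₀ nP) n z) = hmap k (n + 1) (sig (PE x₀ nP) n z') := hzz
    have h2 : hmap k (n + 1) (sig (PE x₀ nP) n (z - z')) = 0 := by
      rw [map_sub, map_sub, h1, sub_self]
    exact sub_eq_zero.mp (key _ h2)
  · intro y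
    obtain ⟨d, hd1, hd2⟩ := mv_exact3 (UN x₀) (VS x₀) hU hV hUV (n + 1) 0
      (hmap (iV x₀) (n + 1) y) (hh_contr n _)
    have hc1 : hmap (prQ (PE x₀ nP)) (n + 1) (hmap b (n + 1) d) = 0 := by
      apply (iU_bij x₀ (n + 1)).1
      rw [map_zero, ← hL, hab, ← hd1]
    have hc2 := par_spec (PE x₀ nP) n (hmap b (n + 1) d)
    rw [hc1, map_zero, zero_add] at hc2
    refine ⟨- par (PE x₀ nP) n (hmap b (n + 1) d), ?_⟩
    show hmap k (n + 1) (sig (PE x₀ nP) n (- par (PE x₀ nP) n (hmap b (n + 1) d))) = y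
    rw [map_neg, map_neg, ← hc2]
    apply (iV_bij x₀ (n + 1)).1
    rw [map_neg, ← hR, hab, hd2]

end Pool.Agent.Helper534.LS
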