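import Pool.Agent.Helper534.LS.Defs
import Pool.Agent.Helper534.LS.P_hmap_comp
import Pool.Agent.Helper534.LS.P_hmap_id
import Pool.Agent.Helper534.LS.P_sig_nat
import Pool.Agent.Helper534.LS.P_toS2_val
import Pool.Agent.Helper534.LS.P_mer_facts
import Pool.Agent.Helper534.LS.P_kn_exists
import Pool.Agent.Helper534.LS.P_kn_bij

open MeasureTheory

namespace Pool.Agent.Helper534.LS



theorem ks_bij_refv (x : S2) :
    ((refS x : S2) : E3) = !₂[(x : E3) 0, (x : E3) 1, -(x : E3) 2] := by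
  unfold refS
  apply toS2_val
  have hx : ‖(x : E3)‖ = 1 := mem_sphere_zero_iff_norm.1 x.2
  rw [EuclideanSpace.norm_eq, Real.sqrt_eq_one, Fin.sum_univ_three] at hx ⊢
  simpa using hx

theorem ks_bij_ref0 (x : S2) : ((refS x : S2) : E3) 0 = (x : E3) 0 := by
  rw [ks_bij_refv]; rfl

theorem ks_bij_ref1 (x : S2) : ((refS x : S2) : E3) 1 = (x : E3) 1 := by
  rw [ks_bij_refv]; rfl

theorem ks_bij_ref2 (x : S2) : ((refS x : S2) : E3) 2 = -(x : E3) 2 := by
  rw [ks_bij_refv]; rfl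

theorem ks_bij_ext (x y : S2) (h0 : (x : E3) 0 = (y : E3) 0) (h1 : (x : E3) 1 = (y : E3) 1)
    (h2 : (x : E3) 2 = (y : E3) 2) : x = y := by
  apply Subtype.ext
  ext i
  fin_cases i
  · exact h0
  · exact h1
  · exact h2

theorem ks_bij_invol (x : S2) : refS (refS x) = x := by
  apply ks_bij_ext
  · rw [ks_bij_ref0, ks_bij_ref0]
  · rw [ks_bij_ref1, ks_bij_ref1]
  · rw [ks_bij_ref2, ks_bij_ref2, neg_neg]

theorem ks_bij_nP : refS nP = sP := by
  apply ks_bij_ext
  · rw [ks_bij_ref0]; rfl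
  · rw [ks_bij_ref1]; rfl
  · rw [ks_bij_ref2]
    simp [nP, sP]

theorem ks_bij_sP : refS sP = nP := by
  rw [← ks_bij_nP, ks_bij_invol]

theorem ks_bij_mer (z : Circle) (t : ℝ) : refS (mer z t) = merR z t := by
  have h1 : Real.sin (Real.pi * (1 - t)) = Real.sin (Real.pi * t) := by
    rw [show Real.pi * (1 - t) = Real.pi - Real.pi * t by ring, Real.sin_pi_sub]
  have h2 : Real.cos (Real.pi * (1 - t)) = - Real.cos (Real.pi * t) := by
    rw [show Real.pi * (1 - t) = Real.pi - Real.pi * t by ring, Real.cos_pi_sub]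
  apply ks_bij_ext
  · rw [ks_bij_ref0]
    show Real.sin (Real.pi * t) * (z : ℂ).re = Real.sin (Real.pi * (1 - t)) * (z : ℂ).re
    rw [h1]
  · rw [ks_bij_ref1]
    show Real.sin (Real.pi * t) * (z : ℂ).im = Real.sin (Real.pi * (1 - t)) * (z : ℂ).im
    rw [h1]
  · rw [ks_bij_ref2]
    show -Real.cos (Real.pi * t) = Real.cos (Real.pi * (1 - t))
    rw [h2]

/-- the reflection as a continuous map -/
noncomputable def ksRefC : C(S2, S2) := ⟨refS, by
  rw [continuous_induced_rng]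
  have h : (Subtype.val ∘ refS : S2 → E3) =
      fun x : S2 => !₂[(x : E3) 0, (x : E3) 1, -(x : E3) 2] := funext ks_bij_refv
  rw [h]
  fun_prop⟩

/-- composition with the reflection -/
noncomputable def ksRefP (x e x' e' : S2) (hx : refS x = x') (he : refS e = e') :
    C(PE x e, PE x' e') :=
  ⟨fun γ => ⟨ksRefC.comp γ.1, by
    constructor
    · show refS (γ.1 0) = x'
      rw [γ.2.1, hx]
    · show refS (γ.1 1) = e'
      rw [γ.2.2, he]⟩,
    Continuous.subtype_mk
      ((ContinuousMap.continuous_postcomp ksRefC).comp continuous_subtype_val) _⟩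

theorem ks_bij_RR (x e x' e' : S2) (hx : refS x = x') (he : refS e = e') (hx' : refS x' = x)
    (he' : refS e' = e) :
    (ksRefP x' e' x e hx' he').comp (ksRefP x e x' e' hx he) = ContinuousMap.id _ := by
  ext1 γ
  apply Subtype.ext
  ext1 t
  show refS (refS (γ.1 t)) = γ.1 t
  exact ks_bij_invol _

theorem ks_bij_homeo {X : Type} [TopologicalSpace X] {Y : Type} [TopologicalSpace Y]
    (f : C(X, Y)) (g : C(Y, X)) (h1 : g.comp f = ContinuousMap.id X)
    (h2 : f.comp g = ContinuousMap.id Y) (n : ℕ) : Function.Bijective (hmap f n) := by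
  refine Function.bijective_iff_has_inverse.2 ⟨hmap g n, ?_, ?_⟩
  · intro x
    rw [← hmap_comp, h1, hmap_id]
  · intro x
    rw [← hmap_comp, h2, hmap_id]

theorem ks_bij_R (x e x' e' : S2) (hx : refS x = x') (he : refS e = e') (n : ℕ) :
    Function.Bijective (hmap (ksRefP x e x' e' hx he) n) := by
  have hx' : refS x' = x := by rw [← hx, ks_bij_invol]
  have he' : refS e' = e := by rw [← he, ks_bij_invol]
  exact ks_bij_homeo _ (ksRefP x' e' x e hx' he') (ks_bij_RR x e x' e' hx he hx' he')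
    (ks_bij_RR x' e' x e hx' he' hx he) n

theorem ks_bij (x₀ : S2) (k) (hk : IsKS x₀ k) (n : ℕ) :
    Function.Bijective (fun z => hmap k (n + 1) (sig (PE x₀ sP) n z)) := by
  obtain ⟨kN, hkN⟩ := kn_exists (refS x₀)
  have hcomp : k = (ksRefP (refS x₀) sP x₀ nP (ks_bij_invol x₀) ks_bij_sP).comp
      (kN.comp (idx (ksRefP x₀ sP (refS x₀) nP rfl ks_bij_sP))) := by
    ext1 p
    apply Subtype.ext
    ext1 t
    rw [hk p t]
    show cat (fn p.2.1) (merR p.1) t =
      refS ((kN (p.1, ksRefP x₀ sP (refS x₀) nP rfl ks_bij_sP p.2)).1 t)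
    rw [hkN]
    unfold cat
    by_cases ht : (t : ℝ) ≤ 1 / 2
    · rw [if_pos ht, if_pos ht]
      show p.2.1 (cl (2 * t)) = refS (refS (p.2.1 (cl (2 * t))))
      rw [ks_bij_invol]
    · rw [if_neg ht, if_neg ht]
      exact (ks_bij_mer p.1 _).symm
  have hfun : (fun z => hmap k (n + 1) (sig (PE x₀ sP) n z)) =
      (hmap (ksRefP (refS x₀) sP x₀ nP (ks_bij_invol x₀) ks_bij_sP) (n + 1)) ∘
        (fun z => hmap kN (n + 1) (sig (PE (refS x₀) nP) n z)) ∘
          (hmap (ksRefP x₀ sP (refS x₀) nP rfl ks_bij_sP) n) := by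
    funext z
    rw [hcomp, hmap_comp, hmap_comp, sig_nat]
    rfl
  rw [hfun]
  exact (ks_bij_R _ _ _ _ _ _ _).comp ((kn_bij (refS x₀) kN hkN n).comp
    (ks_bij_R _ _ _ _ _ _ _))

end Pool.Agent.Helper534.LS
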