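import Pool.Agent.Helper534.LS.Defs
import Pool.Agent.Helper534.LS.P_hmap_comp
import Pool.Agent.Helper534.LS.P_aug_exists
import Pool.Agent.Helper534.LS.P_sig_nat
import Pool.Agent.Helper534.LS.P_kn_exists
import Pool.Agent.Helper534.LS.P_ks_exists
import Pool.Agent.Helper534.LS.P_kn_bij
import Pool.Agent.Helper534.LS.P_ks_bij

open MeasureTheory

namespace Pool.Agent.Helper534.LS



theorem m4n_cat (γ : C(unitInterval, S2)) (F δ : ℝ → S2)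
    (h : ∀ t : unitInterval, γ t = F t) (t : unitInterval) :
    cat (fn γ) δ t = cat F δ t := by
  unfold cat
  split_ifs with h1
  · unfold fn
    have h0 : (0 : ℝ) ≤ 2 * (t : ℝ) := by linarith [t.2.1]
    have h2 : 2 * (t : ℝ) ≤ 1 := by linarith
    have h3 : ((cl (2 * (t : ℝ)) : unitInterval) : ℝ) = 2 * (t : ℝ) := by
      unfold cl
      rw [Set.projIcc_of_mem zero_le_one (⟨h0, h2⟩ : 2 * (t : ℝ) ∈ Set.Icc (0 : ℝ) 1)]
    rw [h, h3]
  · rfl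

theorem m4n_half {A : Type} [TopologicalSpace A] {Q : Type} [TopologicalSpace Q] (n : ℕ)
    (k : C(Circle × Q, A)) (hk : Function.Bijective (fun z => hmap k (n + 1) (sig Q n z)))
    (x : HH Q n) (y : HH A (n + 1)) (hxy : hmap k (n + 1) (sig Q n x) = (2 : ℤ) • y) :
    ∃ y' : HH Q n, x = (2 : ℤ) • y' := by
  obtain ⟨y', hy'⟩ := hk.2 y
  refine ⟨y', hk.1 ?_⟩
  change hmap k (n + 1) (sig Q n x) = hmap k (n + 1) (sig Q n ((2 : ℤ) • y'))
  rw [hxy, map_smul, map_smul]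
  congr 1
  exact hy'.symm

theorem m4_nondiv (m) (hm : IsM4 m) (y : HH Om 4) : hmap m 4 tor4 ≠ (2 : ℤ) • y := by
  intro hy
  obtain ⟨kN, hkN⟩ := kn_exists nP
  obtain ⟨kS, hkS⟩ := ks_exists nP
  obtain ⟨c0, hc0⟩ : ∃ c0 : C(Unit, Om), c0 = ContinuousMap.const Unit cN := ⟨_, rfl⟩
  obtain ⟨m1, hm1⟩ : ∃ m1 : C(T1, PE nP sP), m1 = kN.comp (idx c0) := ⟨_, rfl⟩
  obtain ⟨m2, hm2⟩ : ∃ m2 : C(T2, PE nP nP), m2 = kS.comp (idx m1) := ⟨_, rfl⟩
  obtain ⟨m3, hm3⟩ : ∃ m3 : C(T3, PE nP sP), m3 = kN.comp (idx m2) := ⟨_, rfl⟩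
  obtain ⟨m4, hm4⟩ : ∃ m4 : C(T4, PE nP nP), m4 = kS.comp (idx m3) := ⟨_, rfl⟩
  have f1 : ∀ p : T1, ∀ t : unitInterval, (m1 p).1 t = cat (fun _ => nP) (mer p.1) t := by
    intro p t
    have e : (m1 p).1 t = cat (fn (c0 p.2).1) (mer p.1) t := by
      rw [hm1]
      exact hkN (idx c0 p) t
    rw [e]
    refine m4n_cat _ _ _ (fun t => ?_) t
    rw [hc0]
    rfl
  have f2 : ∀ p : T2, ∀ t : unitInterval,
      (m2 p).1 t = cat (cat (fun _ => nP) (mer p.2.1)) (merR p.1) t := by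
    intro p t
    have e : (m2 p).1 t = cat (fn (m1 p.2).1) (merR p.1) t := by
      rw [hm2]
      exact hkS (idx m1 p) t
    rw [e]
    exact m4n_cat _ _ _ (f1 p.2) t
  have f3 : ∀ p : T3, ∀ t : unitInterval,
      (m3 p).1 t = cat (cat (cat (fun _ => nP) (mer p.2.2.1)) (merR p.2.1)) (mer p.1) t := by
    intro p t
    have e : (m3 p).1 t = cat (fn (m2 p.2).1) (mer p.1) t := by
      rw [hm3]
      exact hkN (idx m2 p) t
    rw [e]
    exact m4n_cat _ _ _ (f2 p.2) t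
  have f4 : ∀ p : T4, ∀ t : unitInterval,
      (m4 p).1 t = m4f p.2.2.2.1 p.2.2.1 p.2.1 p.1 t := by
    intro p t
    have e : (m4 p).1 t = cat (fn (m3 p.2).1) (merR p.1) t := by
      rw [hm4]
      exact hkS (idx m3 p) t
    rw [e]
    exact m4n_cat _ _ _ (f3 p.2) t
  have hmm : m = m4 := by
    refine ContinuousMap.ext fun p => Subtype.ext (ContinuousMap.ext fun t => ?_)
    rw [f4]
    exact hm p t
  have g4 : hmap m4 4 tor4 = hmap kS 4 (sig (PE nP sP) 3 (hmap m3 3 tor3)) := by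
    rw [hm4, hmap_comp, tor4, sig_nat]
  have g3 : hmap m3 3 tor3 = hmap kN 3 (sig (PE nP nP) 2 (hmap m2 2 tor2)) := by
    rw [hm3, hmap_comp, tor3, sig_nat]
  have g2 : hmap m2 2 tor2 = hmap kS 2 (sig (PE nP sP) 1 (hmap m1 1 tor1)) := by
    rw [hm2, hmap_comp, tor2, sig_nat]
  have g1 : hmap m1 1 tor1 = hmap kN 1 (sig (PE nP nP) 0 (ptc cN)) := by
    rw [hm1, hmap_comp, tor1, sig_nat, hc0]
    rfl
  rw [hmm, g4] at hy
  obtain ⟨y3, h3⟩ := m4n_half 3 kS (ks_bij nP kS hkS 3) _ _ hy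
  rw [g3] at h3
  obtain ⟨y2, h2⟩ := m4n_half 2 kN (kn_bij nP kN hkN 2) _ _ h3
  rw [g2] at h2
  obtain ⟨y1, h1⟩ := m4n_half 1 kS (ks_bij nP kS hkS 1) _ _ h2
  rw [g1] at h1
  obtain ⟨y0, h0⟩ := m4n_half 0 kN (kn_bij nP kN hkN 0) _ _ h1
  obtain ⟨a, ha⟩ := aug_exists (PE nP nP)
  have h5 := ha cN
  rw [h0, map_smul, smul_eq_mul] at h5
  omega

end Pool.Agent.Helper534.LS
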