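import Pool.Agent.Helper534.LS.Defs
import Pool.Agent.Helper534.LS.P_rot_facts

open MeasureTheory

namespace Pool.Agent.Helper534.LS



theorem theta_j_cat (s : Circle) (γ δ : ℝ → S2) (t : ℝ) :
    rotS s (cat γ δ t) = cat (fun t => rotS s (γ t)) (fun t => rotS s (δ t)) t := by
  unfold cat
  split_ifs <;> rfl

theorem theta_j_m4f (s z₁ z₂ z₃ z₄ : Circle) (t : ℝ) :
    rotS s (m4f z₁ z₂ z₃ z₄ t) = m4f (s * z₁) (s * z₂) (s * z₃) (s * z₄) t := by
  obtain ⟨-, -, h3, -, -, h6⟩ := rot_facts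
  have h7 : ∀ (z : Circle) (t : ℝ), rotS s (merR z t) = merR (s * z) t := by
    intro z t
    unfold merR
    exact h6 s z (1 - t)
  unfold m4f
  simp only [theta_j_cat, h3, h6, h7]

theorem theta_j (Θ) (hΘ : IsTheta Θ) (j) (hj : IsJ j) (m) (hm : IsM4 m) (A) (hA : IsA4 A) :
    j.comp Θ = iOm.comp (m.comp A) := by
  refine ContinuousMap.ext fun p => ?_
  apply Subtype.ext
  refine ContinuousMap.ext fun t => ?_
  apply Subtype.ext
  have h1 := hj (Θ p) t
  have h2 := hΘ p t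
  have h3 := hm (A p) t
  have h4 : ((iOm.comp (m.comp A)) p).1 t = (m (A p)).1 t := rfl
  rw [h4, h3, hA p]
  show (((j (Θ p)).1 t : S2) : E3) = _
  rw [h1, h2, theta_j_m4f, mul_one]

end Pool.Agent.Helper534.LS
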