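import Pool.Agent.Helper534.LS.Defs
import Pool.Agent.Helper534.LS.P_hmap_comp
import Pool.Agent.Helper534.LS.P_hmap_id
import Pool.Agent.Helper534.LS.P_tor_gen
import Pool.Agent.Helper534.LS.P_tor_free

open MeasureTheory

namespace Pool.Agent.Helper534.LS



theorem tor4_homeo (A B : C(T4, T4)) (hA : ∀ x, B (A x) = x) (hB : ∀ x, A (B x) = x) :
    hmap A 4 tor4 = tor4 ∨ hmap A 4 tor4 = -tor4 := by
  obtain ⟨m, hm⟩ := tor_gen.2.2.2 (hmap A 4 tor4)
  obtain ⟨k, hk⟩ := tor_gen.2.2.2 (hmap B 4 tor4)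
  have h1 : hmap B 4 (hmap A 4 tor4) = tor4 := by
    rw [← hmap_comp]
    have : B.comp A = ContinuousMap.id T4 := by
      ext1 x
      exact hA x
    rw [this, hmap_id]
  rw [hm, map_zsmul, hk, smul_smul] at h1
  have h2 : (m * k - 1) • tor4 = 0 := by
    rw [sub_smul, one_smul, h1, sub_self]
  have h3 := (tor_free (m * k - 1)).2 h2
  have h4 : m * k = 1 := by linarith
  rcases Int.eq_one_or_neg_one_of_mul_eq_one h4 with h | h
  · left; rw [hm, h, one_smul]
  · right; rw [hm, h, neg_smul, one_smul]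

end Pool.Agent.Helper534.LS
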