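import Pool.Agent.Helper534.LS.Defs
import Pool.Agent.Helper534.LS.P_hmap_comp
import Pool.Agent.Helper534.LS.P_tor4_homeo
import Pool.Agent.Helper534.LS.P_m4_exists
import Pool.Agent.Helper534.LS.P_m4_nondiv
import Pool.Agent.Helper534.LS.P_ker_lemma
import Pool.Agent.Helper534.LS.P_theta_j

open MeasureTheory

namespace Pool.Agent.Helper534.LS



theorem theta_ne (Θ) (hΘ : IsTheta Θ) (j) (hj : IsJ j) : hmap j 4 (hmap Θ 4 tor4) ≠ 0 := by
  intro h0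
  obtain ⟨m, hm⟩ := m4_exists
  let A : C(T4, T4) := ⟨fun p => (p.1, (p.1 * p.2.1, (p.1 * p.2.2.1, (p.1 * p.2.2.2.1, ())))),
    by fun_prop⟩
  let B : C(T4, T4) := ⟨fun p => (p.1, (p.1⁻¹ * p.2.1, (p.1⁻¹ * p.2.2.1,
    (p.1⁻¹ * p.2.2.2.1, ())))), by fun_prop⟩
  have hA : IsA4 A := fun p => rfl
  have hBA : ∀ x, B (A x) = x := by
    rintro ⟨a, b, c, d, ⟨⟩⟩
    show (a, (a⁻¹ * (a * b), (a⁻¹ * (a * c), (a⁻¹ * (a * d), ())))) = (a, (b, (c, (d, ()))))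
    rw [inv_mul_cancel_left, inv_mul_cancel_left, inv_mul_cancel_left]
  have hAB : ∀ x, A (B x) = x := by
    rintro ⟨a, b, c, d, ⟨⟩⟩
    show (a, (a * (a⁻¹ * b), (a * (a⁻¹ * c), (a * (a⁻¹ * d), ())))) = (a, (b, (c, (d, ()))))
    rw [mul_inv_cancel_left, mul_inv_cancel_left, mul_inv_cancel_left]
  have h1 := theta_j Θ hΘ j hj m hm A hA
  rw [← hmap_comp, h1, hmap_comp, hmap_comp] at h0
  have h2 : hmap iOm 4 (hmap m 4 tor4) = 0 := by
    rcases tor4_homeo A B hBA hAB with h | h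
    · rw [h] at h0
      exact h0
    · rw [h, map_neg, map_neg, neg_eq_zero] at h0
      exact h0
  obtain ⟨y, hy⟩ := ker_lemma 3 (hmap m 4 tor4) h2
  exact m4_nondiv m hm y hy

end Pool.Agent.Helper534.LS
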