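import Pool.Agent.Helper534.LS.Defs

open MeasureTheory

namespace Pool.Agent.Helper534.LS



theorem zz_cont : Continuous (fun q : (E3 →L[ℝ] E3) × L2 => (q.1.compLp q.2 : L2)) := by
  let B : (E3 →L[ℝ] E3) →ₗ[ℝ] L2 →ₗ[ℝ] L2 :=
    LinearMap.mk₂ ℝ (fun (L : E3 →L[ℝ] E3) (v : L2) => (L.compLp v : L2))
      (fun L M v => L.add_compLp M v) (fun c L v => L.smul_compLp c v)
      (fun L v w => by exact (L.compLpₗ 2 volume).map_add v w)
      (fun c L v => by exact (L.compLpₗ 2 volume).map_smul c v)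
  let C := LinearMap.mkContinuous₂ B 1 (fun L v => by
    rw [one_mul]
    exact L.norm_compLp_le v)
  exact C.continuous₂

theorem zz_pth (L : E3 →L[ℝ] E3) (p : E3) (v : L2) (t : unitInterval) :
    pth (L p) (L.compLp v) t = L (pth p v t) := by
  unfold pth
  rw [map_add, L.setIntegral_compLp v measurableSet_Iic, L.integral_comp_comm]
  exact ((Lp.memLp v).integrable (by norm_num)).integrableOn

theorem lin_act {A : Type} [TopologicalSpace A] (L : C(A, E3 →L[ℝ] E3))
    (hL : ∀ a v, ‖L a v‖ = ‖v‖) (x : C(A, HLoop)) :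
    ∃ y : C(A, HLoop), ∀ a t, pth (y a).1.1 (y a).1.2 t = L a (pth (x a).1.1 (x a).1.2 t) := by
  have h1 : Continuous (fun a => L a (x a).1.1) := by
    have h2 : Continuous (fun a => (x a).1.1) := by fun_prop
    exact L.continuous.clm_apply h2
  have h2 : Continuous (fun a => ((L a).compLp (x a).1.2 : L2)) := by
    have h3 : Continuous (fun a => (x a).1.2) := by fun_prop
    exact zz_cont.comp (L.continuous.prodMk h3)
  refine ⟨⟨fun a => ⟨(L a (x a).1.1, (L a).compLp (x a).1.2), ?_, ?_⟩,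
    Continuous.subtype_mk (h1.prodMk h2) _⟩, ?_⟩
  · intro t
    change ‖pth (L a (x a).1.1) ((L a).compLp (x a).1.2) t‖ = 1
    rw [zz_pth, hL]
    exact (x a).2.1 t
  · change pth (L a (x a).1.1) ((L a).compLp (x a).1.2) 1 = L a (x a).1.1
    rw [zz_pth, (x a).2.2]
  · intro a t
    exact zz_pth _ _ _ _

end Pool.Agent.Helper534.LS
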