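import Pool.Agent.Helper534.LS.Defs
import Pool.Agent.Helper534.LS.P_hmap_comp
import Pool.Agent.Helper534.LS.P_hmap_homotopic
import Pool.Agent.Helper534.LS.P_sig_spec
import Pool.Agent.Helper534.LS.P_sig_sq
import Pool.Agent.Helper534.LS.P_rot_facts
import Pool.Agent.Helper534.LS.P_pth_inj
import Pool.Agent.Helper534.LS.P_lin_act

open MeasureTheory

namespace Pool.Agent.Helper534.LS



/-- matrix unit -/
noncomputable def tw_E (i j : Fin 3) : E3 →L[ℝ] E3 :=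
  (EuclideanSpace.proj j : E3 →L[ℝ] ℝ).smulRight (EuclideanSpace.single i (1:ℝ))

theorem tw_E_apply (i j k : Fin 3) (v : E3) : tw_E i j v k = if k = i then v j else 0 := by
  unfold tw_E
  by_cases h : k = i
  · subst h
    simp
  · simp [h]

/-- rotation matrix of a quaternion -/
noncomputable def tw_L (w x z : ℝ) : E3 →L[ℝ] E3 :=
  (w ^ 2 + x ^ 2 - z ^ 2) • tw_E 0 0 + (-2 * w * z) • tw_E 0 1 + (2 * x * z) • tw_E 0 2 +
  ((2 * w * z) • tw_E 1 0 + (w ^ 2 - x ^ 2 - z ^ 2) • tw_E 1 1 + (-2 * w * x) • tw_E 1 2) +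
  ((2 * x * z) • tw_E 2 0 + (2 * w * x) • tw_E 2 1 + (w ^ 2 - x ^ 2 + z ^ 2) • tw_E 2 2)

theorem tw_L0 (w x z : ℝ) (v : E3) : tw_L w x z v 0 =
    (w ^ 2 + x ^ 2 - z ^ 2) * v 0 + (-2 * w * z) * v 1 + (2 * x * z) * v 2 := by
  simp [tw_L, tw_E_apply]

theorem tw_L1 (w x z : ℝ) (v : E3) : tw_L w x z v 1 =
    (2 * w * z) * v 0 + (w ^ 2 - x ^ 2 - z ^ 2) * v 1 + (-2 * w * x) * v 2 := by
  simp [tw_L, tw_E_apply]

theorem tw_L2 (w x z : ℝ) (v : E3) : tw_L w x z v 2 =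
    (2 * x * z) * v 0 + (2 * w * x) * v 1 + (w ^ 2 - x ^ 2 + z ^ 2) * v 2 := by
  simp [tw_L, tw_E_apply]

theorem tw_L_norm (w x z : ℝ) (h : w ^ 2 + x ^ 2 + z ^ 2 = 1) (v : E3) :
    ‖tw_L w x z v‖ = ‖v‖ := by
  rw [EuclideanSpace.norm_eq, EuclideanSpace.norm_eq, Fin.sum_univ_three, Fin.sum_univ_three]
  congr 1
  simp only [Real.norm_eq_abs, sq_abs]
  rw [tw_L0, tw_L1, tw_L2]
  have h2 : (w ^ 2 + x ^ 2 + z ^ 2) ^ 2 = 1 := by rw [h]; norm_num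
  have h3 : v 0 ^ 2 + v 1 ^ 2 + v 2 ^ 2 =
      (w ^ 2 + x ^ 2 + z ^ 2) ^ 2 * (v 0 ^ 2 + v 1 ^ 2 + v 2 ^ 2) := by rw [h2, one_mul]
  rw [h3]
  ring

theorem tw_L_cont : Continuous fun p : ℝ × ℝ × ℝ => tw_L p.1 p.2.1 p.2.2 := by
  unfold tw_L
  fun_prop

theorem tw_circ (α : Circle) : (α : ℂ).re ^ 2 + (α : ℂ).im ^ 2 = 1 := by
  have := Circle.normSq_coe α
  rw [Complex.normSq_apply] at this
  nlinarith

/-- the family of rotations -/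
noncomputable def tw_F : C(unitInterval × T4, E3 →L[ℝ] E3) :=
  ⟨fun p => tw_L (Real.cos (Real.pi * p.1 / 2) * (p.2.1 : ℂ).re) (Real.sin (Real.pi * p.1 / 2))
    (Real.cos (Real.pi * p.1 / 2) * (p.2.1 : ℂ).im), by
    refine tw_L_cont.comp (f := fun p : unitInterval × T4 =>
      (Real.cos (Real.pi * p.1 / 2) * (p.2.1 : ℂ).re, Real.sin (Real.pi * p.1 / 2),
        Real.cos (Real.pi * p.1 / 2) * (p.2.1 : ℂ).im)) ?_
    fun_prop⟩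

theorem tw_F_norm (p : unitInterval × T4) (v : E3) : ‖tw_F p v‖ = ‖v‖ := by
  apply tw_L_norm
  have h1 := tw_circ p.2.1
  have h2 := Real.sin_sq_add_cos_sq (Real.pi * p.1 / 2)
  calc _ = Real.sin (Real.pi * p.1 / 2) ^ 2 + Real.cos (Real.pi * p.1 / 2) ^ 2 *
        ((p.2.1 : ℂ).re ^ 2 + (p.2.1 : ℂ).im ^ 2) := by ring
    _ = 1 := by rw [h1, mul_one, h2]

theorem tw_F_zero (q : T4) (v : E3) : tw_F (0, q) v = rotE (q.1 ^ 2) v := by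
  show tw_L (Real.cos (Real.pi * ((0 : unitInterval) : ℝ) / 2) * (q.1 : ℂ).re)
    (Real.sin (Real.pi * ((0 : unitInterval) : ℝ) / 2))
    (Real.cos (Real.pi * ((0 : unitInterval) : ℝ) / 2) * (q.1 : ℂ).im) v = _
  have h0 : Real.pi * ((0 : unitInterval) : ℝ) / 2 = 0 := by simp
  rw [h0, Real.cos_zero, Real.sin_zero, one_mul, one_mul]
  have h1 := tw_circ q.1
  have h2 : ((q.1 ^ 2 : Circle) : ℂ).re = (q.1 : ℂ).re ^ 2 - (q.1 : ℂ).im ^ 2 := by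
    rw [Circle.coe_pow, pow_two, Complex.mul_re]; ring
  have h3 : ((q.1 ^ 2 : Circle) : ℂ).im = 2 * (q.1 : ℂ).re * (q.1 : ℂ).im := by
    rw [Circle.coe_pow, pow_two, Complex.mul_im]; ring
  ext k
  unfold rotE
  rw [h2, h3]
  fin_cases k
  · show tw_L _ _ _ v 0 = ((q.1 : ℂ).re ^ 2 - (q.1 : ℂ).im ^ 2) * v 0 -
      2 * (q.1 : ℂ).re * (q.1 : ℂ).im * v 1
    rw [tw_L0]; ring
  · show tw_L _ _ _ v 1 = 2 * (q.1 : ℂ).re * (q.1 : ℂ).im * v 0 +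
      ((q.1 : ℂ).re ^ 2 - (q.1 : ℂ).im ^ 2) * v 1
    rw [tw_L1]; ring
  · show tw_L _ _ _ v 2 = v 2
    rw [tw_L2]
    calc _ = ((q.1 : ℂ).re ^ 2 + (q.1 : ℂ).im ^ 2) * v 2 := by ring
      _ = v 2 := by rw [h1, one_mul]

theorem tw_F_one (q q' : T4) : tw_F (1, q) = tw_F (1, q') := by
  show tw_L (Real.cos (Real.pi * ((1 : unitInterval) : ℝ) / 2) * (q.1 : ℂ).re)
    (Real.sin (Real.pi * ((1 : unitInterval) : ℝ) / 2))
    (Real.cos (Real.pi * ((1 : unitInterval) : ℝ) / 2) * (q.1 : ℂ).im) =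
    tw_L (Real.cos (Real.pi * ((1 : unitInterval) : ℝ) / 2) * (q'.1 : ℂ).re)
    (Real.sin (Real.pi * ((1 : unitInterval) : ℝ) / 2))
    (Real.cos (Real.pi * ((1 : unitInterval) : ℝ) / 2) * (q'.1 : ℂ).im)
  have h0 : Real.pi * ((1 : unitInterval) : ℝ) / 2 = Real.pi / 2 := by simp
  rw [h0, Real.cos_pi_div_two, zero_mul, zero_mul, zero_mul, zero_mul]

theorem tw_ext (x y : HLoop) (h : ∀ t, pth x.1.1 x.1.2 t = pth y.1.1 y.1.2 t) : x = y := by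
  obtain ⟨h1, h2⟩ := pth_inj x.1.1 y.1.1 x.1.2 y.1.2 h
  exact Subtype.ext (Prod.ext h1 h2)

theorem theta_two (Θ) (hΘ : IsTheta Θ) : (2 : ℤ) • hmap Θ 4 tor4 = 0 := by
  obtain ⟨G, hG⟩ : ∃ G : C(T4, HLoop), ∀ p, G p = Θ (p.1 ^ 2, p.2) :=
    ⟨⟨fun p => Θ (p.1 ^ 2, p.2), by fun_prop⟩, fun _ => rfl⟩
  have h1 := sig_sq Θ G hG 3 tor3
  show (2 : ℤ) • hmap Θ 4 (sig T3 3 tor3) = 0
  rw [← h1]
  obtain ⟨x, hx⟩ : ∃ x : C(unitInterval × T4, HLoop), ∀ p, x p = Θ (1, p.2.2) :=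
    ⟨⟨fun p => Θ (1, p.2.2), by fun_prop⟩, fun _ => rfl⟩
  obtain ⟨y, hy⟩ := lin_act tw_F tw_F_norm x
  obtain ⟨h, hh⟩ : ∃ h : C(T3, HLoop), ∀ q, h q = y (1, (1, q)) :=
    ⟨⟨fun q => y (1, (1, q)), by fun_prop⟩, fun _ => rfl⟩
  have hbase : ∀ (q : T3) (t : unitInterval), pth (Θ (1, q)).1.1 (Θ (1, q)).1.2 t =
      (m4f q.2.2.1 q.2.1 q.1 1 t : S2) := by
    intro q t
    rw [hΘ, rot_facts.2.2.2.2.1]
  have hhom : G.Homotopic (h.comp (prQ T3)) := by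
    refine ⟨⟨⟨y, y.continuous⟩, ?_, ?_⟩⟩
    · intro q
      show y (0, q) = G q
      apply tw_ext
      intro t
      rw [hy, hx, hbase, tw_F_zero, hG, hΘ, rot_facts.1]
    · intro q
      show y (1, q) = h q.2
      rw [hh]
      apply tw_ext
      intro t
      rw [hy, hy, hx, hx, tw_F_one q (1, q.2)]
  rw [hmap_homotopic G _ hhom, hmap_comp, (sig_spec T3 3 tor3).1, map_zero]

end Pool.Agent.Helper534.LS
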