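import Pool.Agent.Helper534.LS.Defs
import Pool.Agent.Helper534.LS.P_hmap_comp
import Pool.Agent.Helper534.LS.P_sig_inj
import Pool.Agent.Helper534.LS.P_par_spec
import Pool.Agent.Helper534.LS.P_sig_nat

open MeasureTheory

namespace Pool.Agent.Helper534.LS



theorem par_nat {Q Q' : Type} [TopologicalSpace Q] [TopologicalSpace Q'] (f : C(Q, Q')) (n : ℕ)
    (c : HH (Circle × Q) (n + 1)) : par Q' n (hmap (idx f) (n + 1) c) = hmap f n (par Q n c) := by
  have h1 := par_spec Q' n (hmap (idx f) (n + 1) c)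
  have h2 := congrArg (hmap (idx f) (n + 1)) (par_spec Q n c)
  have e1 : (idx f).comp (iota Q) = (iota Q').comp f := rfl
  have e2 : f.comp (prQ Q) = (prQ Q').comp (idx f) := rfl
  have h3 : hmap (idx f) (n + 1) (hmap (iota Q) (n + 1) (hmap (prQ Q) (n + 1) c))
      = hmap (iota Q') (n + 1) (hmap (prQ Q') (n + 1) (hmap (idx f) (n + 1) c)) := by
    rw [← hmap_comp, e1, hmap_comp, ← hmap_comp (prQ Q) f, e2, hmap_comp (idx f) (prQ Q')]
  rw [map_add, h3, sig_nat] at h2
  have h4 := h1.symm.trans h2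
  have h5 := add_left_cancel h4
  have h6 : sig Q' n (par Q' n (hmap (idx f) (n + 1) c) - hmap f n (par Q n c)) = 0 := by
    rw [map_sub, h5, sub_self]
  exact sub_eq_zero.mp (sig_inj Q' n _ h6)

end Pool.Agent.Helper534.LS
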