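import Pool.Agent.Helper534.LS.Defs
import Pool.Agent.Helper534.LS.P_hmap_comp
import Pool.Agent.Helper534.LS.P_mv_nat
import Pool.Agent.Helper534.LS.P_hh_contr
import Pool.Agent.Helper534.LS.P_par_nat
import Pool.Agent.Helper534.LS.P_lon_cont
import Pool.Agent.Helper534.LS.P_rinv_val
import Pool.Agent.Helper534.LS.P_l_cov

open MeasureTheory

namespace Pool.Agent.Helper534.LS



theorem w_cst (bL) (hbL : IsBL bL) (s : HH S2 4) : wL bL (hmap cst 4 s) = 0 := by
  obtain ⟨⟨hLN, hLZ, hLc⟩, _, ⟨hSN, hSZ, hSc⟩⟩ := l_cov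
  let c' : C(↥(SN ∩ SZ), ↥(LN ∩ LZ)) := ⟨fun x => ⟨cst x.1, x.2.1, x.2.2⟩,
    Continuous.subtype_mk (cst.continuous.comp continuous_subtype_val) _⟩
  have h1 : delta LN LZ 3 (hmap cst 4 s) = hmap c' 3 (delta SN SZ 3 s) :=
    mv_nat SN SZ hSN hSZ hSc LN LZ hLN hLZ hLc cst (fun x hx => hx) (fun x hx => hx) c'
      (fun x => rfl) 3 s
  have hlon : Continuous (fun x : ↥(SN ∩ SZ) => lon x.1) := by
    have h := lon_cont.restrict
    exact h
  let u : C(↥(SN ∩ SZ), Circle × Unit) := ⟨fun x => (lon x.1, ()), hlon.prodMk continuous_const⟩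
  let k : C(Unit, Om) := ContinuousMap.const _ cN
  have h2 : bL.comp c' = (idx k).comp u := by
    refine ContinuousMap.ext fun x => Prod.ext ?_ (Subtype.ext (ContinuousMap.ext fun t => ?_))
    · exact (hbL (c' x)).1
    · refine ((hbL (c' x)).2 t).trans ?_
      exact (rinv_val x.1 x.2.1).2.2
  unfold wL
  rw [h1, ← hmap_comp, h2, hmap_comp, par_nat, hh_contr 1 (par Unit 2 _), map_zero]

end Pool.Agent.Helper534.LS
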