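import Pool.Agent.Helper534.LS.Defs
import Pool.Agent.Helper534.LS.P_lon_cont
import Pool.Agent.Helper534.LS.P_rinv_val
import Pool.Agent.Helper534.LS.P_rinv_cont

open MeasureTheory

namespace Pool.Agent.Helper534.LS



theorem bP_exists : ∃ b, IsBP b := by
  have hc0 : Continuous fun x : ↥(PN ∩ PZ) => x.1.1.1 :=
    continuous_fst.comp (continuous_subtype_val.comp continuous_subtype_val)
  have hc1 : Continuous fun x : ↥(PN ∩ PZ) => x.1.1.2.1 :=
    (continuous_fst.comp continuous_snd).comp (continuous_subtype_val.comp continuous_subtype_val)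
  have hc2 : Continuous fun x : ↥(PN ∩ PZ) => x.1.1.2.2 :=
    (continuous_snd.comp continuous_snd).comp (continuous_subtype_val.comp continuous_subtype_val)
  have hN : ∀ x : ↥(PN ∩ PZ), -1 < ((x.1.1.1 : S2) : E3) 2 := fun x => x.2.1
  have hZ : ∀ x : ↥(PN ∩ PZ), ((x.1.1.1 : S2) : E3) 2 < 1 := fun x => x.2.2
  have hmem : ∀ x : ↥(PN ∩ PZ), -1 < dt nP (rinv x.1.1.1 x.1.1.2.1) ∧
      -1 < dt (rinv x.1.1.1 x.1.1.2.1) (rinv x.1.1.1 x.1.1.2.2) ∧
      -1 < dt (rinv x.1.1.1 x.1.1.2.2) nP := by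
    intro x
    obtain ⟨_, h2, h3⟩ := rinv_val x.1.1.1 (hN x)
    have h4 := x.1.2
    rw [← h3, h2, h2, h2]
    exact h4
  refine ⟨⟨fun x => (lon x.1.1.1, ⟨(rinv x.1.1.1 x.1.1.2.1, rinv x.1.1.1 x.1.1.2.2), hmem x⟩), ?_⟩,
    fun x => ⟨rfl, rfl⟩⟩
  apply Continuous.prodMk
  · exact lon_cont.comp_continuous hc0 (fun x => ⟨hN x, hZ x⟩)
  · apply Continuous.subtype_mk
    apply Continuous.prodMk
    · exact rinv_cont.comp_continuous (hc0.prodMk hc1) (fun x => hN x)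
    · exact rinv_cont.comp_continuous (hc0.prodMk hc2) (fun x => hN x)

end Pool.Agent.Helper534.LS
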