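import Pool.Agent.Helper534.LS.Defs
import Pool.Agent.Helper534.LS.P_arc_val
import Pool.Agent.Helper534.LS.P_arc_cont

open MeasureTheory

namespace Pool.Agent.Helper534.LS



theorem triQ_cont : Continuous (fun p : Q3 × ℝ => tri nP p.1.1.1 p.1.1.2 p.2) := by
  have h1 : Continuous (fun p : Q3 × ℝ => arcS nP p.1.1.1 (3 * p.2)) := by
    have := arc_cont.comp_continuous (f := fun p : Q3 × ℝ => ((nP, p.1.1.1, 3 * p.2) : S2 × S2 × ℝ))
      (by fun_prop) (fun p => p.1.2.1)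
    exact this
  have h2 : Continuous (fun p : Q3 × ℝ => arcS p.1.1.1 p.1.1.2 (3 * p.2 - 1)) := by
    have := arc_cont.comp_continuous
      (f := fun p : Q3 × ℝ => ((p.1.1.1, p.1.1.2, 3 * p.2 - 1) : S2 × S2 × ℝ))
      (by fun_prop) (fun p => p.1.2.2.1)
    exact this
  have h3 : Continuous (fun p : Q3 × ℝ => arcS p.1.1.2 nP (3 * p.2 - 2)) := by
    have := arc_cont.comp_continuous
      (f := fun p : Q3 × ℝ => ((p.1.1.2, nP, 3 * p.2 - 2) : S2 × S2 × ℝ))
      (by fun_prop) (fun p => p.1.2.2.2)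
    exact this
  have h23 : Continuous (fun p : Q3 × ℝ => if p.2 ≤ 2 / 3 then arcS p.1.1.1 p.1.1.2 (3 * p.2 - 1)
      else arcS p.1.1.2 nP (3 * p.2 - 2)) := by
    apply Continuous.if_le h2 h3 continuous_snd continuous_const
    intro p hp
    rw [hp]
    rw [show (3 * (2 / 3 : ℝ) - 1) = 1 by norm_num, show (3 * (2 / 3 : ℝ) - 2) = 0 by norm_num,
      (arc_val _ _ p.1.2.2.1 0).2.2.2, (arc_val _ _ p.1.2.2.2 0).2.2.1]
  unfold tri
  apply Continuous.if_le h1 h23 continuous_snd continuous_const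
  intro p hp
  rw [hp, if_pos (by norm_num)]
  rw [show (3 * (1 / 3 : ℝ)) = 1 by norm_num, show ((1 : ℝ) - 1) = 0 by norm_num,
    (arc_val _ _ p.1.2.1 0).2.2.2, (arc_val _ _ p.1.2.2.1 0).2.2.1]

theorem gQ_exists : ∃ g, IsGQ g := by
  have hc : Continuous (fun p : Q3 × unitInterval => tri nP p.1.1.1 p.1.1.2 (p.2 : ℝ)) :=
    triQ_cont.comp (by fun_prop : Continuous (fun p : Q3 × unitInterval => (p.1, (p.2 : ℝ))))
  let F : C(Q3, C(unitInterval, S2)) := ContinuousMap.curry ⟨_, hc⟩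
  have hF : ∀ x t, F x t = tri nP x.1.1 x.1.2 (t : ℝ) := fun x t => rfl
  have h0 : ∀ x, F x 0 = nP := by
    intro x
    rw [hF]
    simp only [Set.Icc.coe_zero]
    unfold tri
    rw [if_pos (by norm_num), mul_zero, (arc_val _ _ x.2.1 0).2.2.1]
  have h1 : ∀ x, F x 1 = nP := by
    intro x
    rw [hF]
    simp only [Set.Icc.coe_one]
    unfold tri
    rw [if_neg (by norm_num), if_neg (by norm_num), show ((3 : ℝ) * 1 - 2) = 1 by norm_num,
      (arc_val _ _ x.2.2.2 0).2.2.2]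
  refine ⟨⟨fun x => ⟨F x, h0 x, h1 x⟩, Continuous.subtype_mk F.continuous _⟩, ?_⟩
  intro x t
  exact hF x t

end Pool.Agent.Helper534.LS
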