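import Pool.Agent.Helper534.LS.Defs
import Pool.Agent.Helper534.LS.P_kn_exists
import Pool.Agent.Helper534.LS.P_ks_exists

open MeasureTheory

namespace Pool.Agent.Helper534.LS



theorem m2_exists_cat {γ γ' δ : ℝ → S2} {t : ℝ} (h : t ≤ 1 / 2 → γ (2 * t) = γ' (2 * t)) :
    cat γ δ t = cat γ' δ t := by
  unfold cat
  by_cases ht : t ≤ 1 / 2
  · rw [if_pos ht, if_pos ht, h ht]
  · rw [if_neg ht, if_neg ht]

theorem m2_exists : ∃ m, IsM2 m := by
  obtain ⟨kN, hN⟩ := kn_exists nP
  obtain ⟨kS, hS⟩ := ks_exists nP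
  refine ⟨⟨fun p => kS (p.1, kN (p.2.1, cN)), ?_⟩, ?_⟩
  · refine kS.continuous.comp (continuous_fst.prodMk (kN.continuous.comp ?_))
    exact (continuous_fst.comp continuous_snd).prodMk continuous_const
  · intro p t
    show (kS (p.1, kN (p.2.1, cN))).1 t = _
    rw [hS]
    unfold m2f
    apply m2_exists_cat
    intro h
    show (kN (p.2.1, cN)).1 (cl (2 * t)) = _
    rw [hN]
    have h0 := t.2.1
    have hcl : ((cl (2 * t) : unitInterval) : ℝ) = 2 * t := by
      unfold cl
      rw [Set.projIcc_of_mem zero_le_one ⟨by linarith, by linarith⟩]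
    have hfn : fn (cN.1) = fun _ => nP := by
      funext s
      rfl
    show cat (fn cN.1) (mer p.2.1) (cl (2 * t)) = _
    rw [hcl, hfn]

end Pool.Agent.Helper534.LS
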