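import Pool.Agent.Helper534.LS.Defs
import Pool.Agent.Helper534.LS.P_hmap_comp
import Pool.Agent.Helper534.LS.P_aug_exists
import Pool.Agent.Helper534.LS.P_sig_nat
import Pool.Agent.Helper534.LS.P_kn_exists
import Pool.Agent.Helper534.LS.P_ks_exists
import Pool.Agent.Helper534.LS.P_kn_bij
import Pool.Agent.Helper534.LS.P_ks_bij

open MeasureTheory

namespace Pool.Agent.Helper534.LS



theorem m2_free_eq (m : C(T2, Om)) (hm : IsM2 m) (kN : C(Circle × PE nP nP, PE nP sP))
    (hN : IsKN nP kN) (kS : C(Circle × PE nP sP, PE nP nP)) (hS : IsKS nP kS) :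
    m = kS.comp (idx (kN.comp (idx (ContinuousMap.const Unit cN)))) := by
  refine ContinuousMap.ext fun p => ?_
  refine Subtype.ext ?_
  refine ContinuousMap.ext fun t => ?_
  rw [hm p t]
  change m2f p.2.1 p.1 t = (kS (p.1, kN (p.2.1, cN))).1 t
  rw [hS (p.1, kN (p.2.1, cN)) t]
  unfold m2f
  unfold cat
  have ht0 := t.2.1
  by_cases h : (t : ℝ) ≤ 1 / 2
  · rw [if_pos h, if_pos h]
    have hcl : ((cl (2 * (t : ℝ)) : unitInterval) : ℝ) = 2 * (t : ℝ) := by
      unfold cl
      rw [Set.projIcc_of_mem zero_le_one (show 2 * (t : ℝ) ∈ Set.Icc (0:ℝ) 1 from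
        ⟨by linarith, by linarith⟩)]
    change _ = fn (kN (p.2.1, cN)).1 (2 * (t : ℝ))
    unfold fn
    rw [hN (p.2.1, cN) (cl (2 * (t : ℝ)))]
    rw [hcl]
    rfl
  · rw [if_neg h, if_neg h]

theorem m2_free (m) (hm : IsM2 m) (k : ℤ) (h : k • hmap m 2 tor2 = 0) : k = 0 := by
  obtain ⟨kN, hN⟩ := kn_exists nP
  obtain ⟨kS, hS⟩ := ks_exists nP
  obtain ⟨a, ha⟩ := aug_exists Om
  have bN := kn_bij nP kN hN 0
  have bS := ks_bij nP kS hS 1
  rw [m2_free_eq m hm kN hN kS hS, hmap_comp] at h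
  unfold tor2 at h
  rw [sig_nat, hmap_comp] at h
  unfold tor1 at h
  rw [sig_nat] at h
  rw [← map_smul, ← map_smul] at h
  have h1 : k • hmap kN (0 + 1) (sig Om 0 (hmap (ContinuousMap.const Unit cN) 0 ptU)) = 0 := by
    apply bS.1
    simp only
    rw [map_zero, map_zero]
    exact h
  rw [← map_smul, ← map_smul] at h1
  have h2 : k • ptc cN = 0 := by
    apply bN.1
    simp only
    rw [map_zero, map_zero]
    exact h1
  have h3 := congrArg a h2
  rw [map_smul, ha, map_zero] at h3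
  simpa using h3

end Pool.Agent.Helper534.LS

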