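import Pool.Agent.Helper534.LS.Defs
import Pool.Agent.Helper534.LS.P_hmap_comp
import Pool.Agent.Helper534.LS.P_hmap_id
import Pool.Agent.Helper534.LS.P_tor_gen
import Pool.Agent.Helper534.LS.P_tor_free

open MeasureTheory

namespace Pool.Agent.Helper534.LS



theorem tor2_homeo (A B : C(T2, T2)) (hA : ∀ x, B (A x) = x) (hB : ∀ x, A (B x) = x) :
    hmap A 2 tor2 = tor2 ∨ hmap A 2 tor2 = -tor2 := by
  obtain ⟨m, hm⟩ := tor_gen.2.1 (hmap A 2 tor2)
  obtain ⟨k, hk⟩ := tor_gen.2.1 (hmap B 2 tor2)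
  have h1 : B.comp A = ContinuousMap.id T2 := ContinuousMap.ext hA
  have h2 : hmap B 2 (hmap A 2 tor2) = tor2 := by
    rw [← hmap_comp, h1, hmap_id]
  rw [hm, map_zsmul, hk, smul_smul] at h2
  have h3 : (m * k - 1) • tor2 = 0 := by
    rw [sub_smul, h2, one_smul, sub_self]
  have h4 := (tor_free _).1 h3
  have h5 : m * k = 1 := by omega
  rcases Int.eq_one_or_neg_one_of_mul_eq_one h5 with h6 | h6
  · left
    rw [hm, h6, one_smul]
  · right
    rw [hm, h6, neg_smul, one_smul]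

end Pool.Agent.Helper534.LS
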