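import Pool.Agent.Helper534.LS.Defs
import Pool.Agent.Helper534.LS.P_mk_path
import Pool.Agent.Helper534.LS.P_mer_facts

open MeasureTheory

namespace Pool.Agent.Helper534.LS



/-- first parameter function -/
noncomputable def via_exists_u (t : ℝ) : ℝ :=
  if t ≤ 1 / 3 then 2 * Real.arctan (2 * (3 * t)) / Real.pi
      else th0 + (1 - th0) * (6 * t - 2)

/-- second parameter function -/
noncomputable def via_exists_v (t : ℝ) : ℝ :=
  if t ≤ 2 / 3 then 1 - (1 - th0) * (6 * t - 3)
      else th0 - 2 * Real.arctan (2 * (3 * t - 2)) / Real.pi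

theorem via_exists_u_cont : Continuous via_exists_u := by
  unfold via_exists_u
  refine Continuous.if_le ?_ ?_ continuous_id continuous_const ?_
  · exact (continuous_const.mul (Real.continuous_arctan.comp (by fun_prop))).div_const _
  · fun_prop
  · intro x hx
    have hx' : x = 1 / 3 := hx
    rw [hx', th0]
    norm_num

theorem via_exists_v_cont : Continuous via_exists_v := by
  unfold via_exists_v
  refine Continuous.if_le ?_ ?_ continuous_id continuous_const ?_
  · fun_prop
  · exact continuous_const.sub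
      ((continuous_const.mul (Real.continuous_arctan.comp (by fun_prop))).div_const _)
  · intro x hx
    have hx' : x = 2 / 3 := hx
    rw [hx']
    norm_num

theorem via_exists_eq (z₁ z₂ : Circle) (t : ℝ) : viaS z₁ z₂ t =
    if t ≤ 1 / 2 then mer z₁ (via_exists_u t) else mer z₂ (via_exists_v t) := rfl

theorem via_exists_u_half : via_exists_u (1 / 2) = 1 := by
  unfold via_exists_u
  rw [if_neg (by norm_num)]
  norm_num

theorem via_exists_v_half : via_exists_v (1 / 2) = 1 := by
  unfold via_exists_v
  rw [if_pos (by norm_num)]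
  norm_num

theorem via_exists_u_zero : via_exists_u 0 = 0 := by
  unfold via_exists_u
  rw [if_pos (by norm_num)]
  norm_num

theorem via_exists_v_one : via_exists_v 1 = 0 := by
  unfold via_exists_v
  rw [if_neg (by norm_num), th0]
  norm_num

theorem via_exists_comp {A : Type} [TopologicalSpace A] (z : A → Circle) (w : A → ℝ)
    (hz : Continuous z) (hw : Continuous w) : Continuous fun a => mer (z a) (w a) := by
  have h := mer_facts.1
  exact Continuous.comp (g := fun q : Circle × ℝ => mer q.1 q.2) (f := fun a => (z a, w a)) h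
    (hz.prodMk hw)

theorem via_exists_cont : Continuous (fun p : T2 × ℝ => viaS p.1.2.1 (p.1.1⁻¹ * p.1.2.1) p.2) := by
  have hz : Continuous (fun p : T2 × ℝ => p.1.2.1) := by fun_prop
  have hz' : Continuous (fun p : T2 × ℝ => p.1.1⁻¹ * p.1.2.1) :=
    (continuous_fst.comp continuous_fst).inv.mul hz
  have h1 : Continuous (fun p : T2 × ℝ => mer p.1.2.1 (via_exists_u p.2)) :=
    via_exists_comp (fun p : T2 × ℝ => p.1.2.1) (fun p => via_exists_u p.2) hz
      (via_exists_u_cont.comp continuous_snd)
  have h2 : Continuous (fun p : T2 × ℝ => mer (p.1.1⁻¹ * p.1.2.1) (via_exists_v p.2)) :=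
    via_exists_comp (fun p : T2 × ℝ => p.1.1⁻¹ * p.1.2.1) (fun p => via_exists_v p.2) hz'
      (via_exists_v_cont.comp continuous_snd)
  have h3 : Continuous (fun p : T2 × ℝ => if p.2 ≤ 1 / 2 then mer p.1.2.1 (via_exists_u p.2)
      else mer (p.1.1⁻¹ * p.1.2.1) (via_exists_v p.2)) := by
    refine Continuous.if_le h1 h2 continuous_snd continuous_const ?_
    intro p hp
    have hp' : p.2 = 1 / 2 := hp
    rw [hp', via_exists_u_half, via_exists_v_half, mer_facts.2.2.1, mer_facts.2.2.1]
  exact h3

theorem via_exists : ∃ K : C(T2, Om), ∀ p (t : unitInterval),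
    (K p).1 t = viaS p.2.1 (p.1⁻¹ * p.2.1) t := by
  obtain ⟨f, hf⟩ := mk_path (A := T2) (fun p t => viaS p.2.1 (p.1⁻¹ * p.2.1) t) via_exists_cont
  have h0 : ∀ p : T2, f p 0 = nP := by
    intro p
    rw [hf]
    show viaS p.2.1 (p.1⁻¹ * p.2.1) ((0 : unitInterval) : ℝ) = nP
    rw [via_exists_eq, Set.Icc.coe_zero, if_pos (by norm_num), via_exists_u_zero, mer_facts.2.1]
  have h1 : ∀ p : T2, f p 1 = nP := by
    intro p
    rw [hf]
    show viaS p.2.1 (p.1⁻¹ * p.2.1) ((1 : unitInterval) : ℝ) = nP
    rw [via_exists_eq, Set.Icc.coe_one, if_neg (by norm_num), via_exists_v_one, mer_facts.2.1]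
  refine ⟨⟨fun p => ⟨f p, h0 p, h1 p⟩, Continuous.subtype_mk f.continuous _⟩, ?_⟩
  intro p t
  exact hf p t

end Pool.Agent.Helper534.LS
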