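import Pool.Agent.Helper534.LS.Defs
import Pool.Agent.Helper534.LS.P_toS2_val
import Pool.Agent.Helper534.LS.P_arc_val
import Pool.Agent.Helper534.LS.P_mer_facts

open MeasureTheory

namespace Pool.Agent.Helper534.LS



theorem circ_sq_23504 (z : Circle) :
    (z : ℂ).re * (z : ℂ).re + (z : ℂ).im * (z : ℂ).im = 1 := by
  have := Circle.normSq_coe z
  rwa [Complex.normSq_apply] at this

theorem e3_ext_23504 {v w : E3} (h0 : v 0 = w 0) (h1 : v 1 = w 1) (h2 : v 2 = w 2) : v = w := by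
  ext i
  fin_cases i
  · exact h0
  · exact h1
  · exact h2

theorem inner_23504 (x y : E3) : inner ℝ x y = x 0 * y 0 + x 1 * y 1 + x 2 * y 2 := by
  rw [PiLp.inner_apply, Fin.sum_univ_three]
  simp [mul_comm]

theorem lat_val_23504 (z : Circle) :
    ((lat z : S2) : E3) = !₂[4 / 5 * (z : ℂ).re, 4 / 5 * (z : ℂ).im, -(3 / 5)] := by
  have hz := circ_sq_23504 z
  have hn : ‖(!₂[4 * (z : ℂ).re, 4 * (z : ℂ).im, -3] : E3)‖ = 5 := by
    rw [EuclideanSpace.norm_eq, Fin.sum_univ_three]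
    simp only [Real.norm_eq_abs, sq_abs, Matrix.cons_val_zero, Matrix.cons_val_one,
      Matrix.cons_val]
    rw [Real.sqrt_eq_iff_mul_self_eq (by positivity) (by norm_num)]
    nlinarith
  have hne : (!₂[4 * (z : ℂ).re, 4 * (z : ℂ).im, -3] : E3) ≠ 0 := by
    intro h
    rw [h, norm_zero] at hn
    norm_num at hn
  unfold lat toS2
  rw [dif_neg hne]
  show ‖(!₂[4 * (z : ℂ).re, 4 * (z : ℂ).im, -3] : E3)‖⁻¹ •
    (!₂[4 * (z : ℂ).re, 4 * (z : ℂ).im, -3] : E3) = _
  rw [hn]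
  apply e3_ext_23504
  · show (5 : ℝ)⁻¹ * (4 * (z : ℂ).re) = 4 / 5 * (z : ℂ).re
    ring
  · show (5 : ℝ)⁻¹ * (4 * (z : ℂ).im) = 4 / 5 * (z : ℂ).im
    ring
  · show (5 : ℝ)⁻¹ * (-3) = -(3 / 5)
    ring

theorem lat0_23504 (z : Circle) : ((lat z : S2) : E3) 0 = 4 / 5 * (z : ℂ).re := by
  rw [lat_val_23504]; rfl
theorem lat1_23504 (z : Circle) : ((lat z : S2) : E3) 1 = 4 / 5 * (z : ℂ).im := by
  rw [lat_val_23504]; rfl
theorem lat2_23504 (z : Circle) : ((lat z : S2) : E3) 2 = -(3 / 5) := by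
  rw [lat_val_23504]; rfl
theorem nP0_23504 : ((nP : S2) : E3) 0 = 0 := rfl
theorem nP1_23504 : ((nP : S2) : E3) 1 = 0 := rfl
theorem nP2_23504 : ((nP : S2) : E3) 2 = 1 := rfl
theorem mer0_23504 (z : Circle) (t : ℝ) :
    ((mer z t : S2) : E3) 0 = Real.sin (Real.pi * t) * (z : ℂ).re := rfl
theorem mer1_23504 (z : Circle) (t : ℝ) :
    ((mer z t : S2) : E3) 1 = Real.sin (Real.pi * t) * (z : ℂ).im := rfl
theorem mer2_23504 (z : Circle) (t : ℝ) :
    ((mer z t : S2) : E3) 2 = Real.cos (Real.pi * t) := rfl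

theorem arcE_apply_23504 (x y : E3) (τ : ℝ) (i : Fin 3) :
    arcE x y τ i = ((1 + inner ℝ x y) + τ ^ 2 * (1 - inner ℝ x y))⁻¹ *
      (((1 + inner ℝ x y) - τ ^ 2 * (1 - inner ℝ x y) - 2 * τ * inner ℝ x y) * x i
        + (2 * τ) * y i) := rfl

theorem sin2_23504 (x : ℝ) : Real.sin (2 * Real.arctan x) = 2 * x / (1 + x ^ 2) := by
  have h1 := Real.cos_sq_arctan x
  have h2 : Real.sin (Real.arctan x) = x * Real.cos (Real.arctan x) := by
    rw [Real.sin_arctan, Real.cos_arctan]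
    ring
  rw [Real.sin_two_mul, h2]
  have h3 : 2 * (x * Real.cos (Real.arctan x)) * Real.cos (Real.arctan x) =
      2 * x * (Real.cos (Real.arctan x) ^ 2) := by ring
  rw [h3, h1]
  ring

theorem cos2_23504 (x : ℝ) : Real.cos (2 * Real.arctan x) = (1 - x ^ 2) / (1 + x ^ 2) := by
  have h1 := Real.cos_sq_arctan x
  rw [Real.cos_two_mul, h1]
  have : (1 + x ^ 2) ≠ 0 := by positivity
  field_simp
  ring

theorem th0_angle_23504 : Real.pi * th0 = 2 * Real.arctan 2 := by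
  unfold th0
  field_simp

theorem angle_23504 (x : ℝ) : Real.pi * (2 * Real.arctan x / Real.pi) = 2 * Real.arctan x := by
  field_simp

theorem lat_arc : (∀ z τ, 0 ≤ τ → τ ≤ 1 →
      arcS nP (lat z) τ = mer z (2 * Real.arctan (2 * τ) / Real.pi)) ∧
    (∀ z τ, 0 ≤ τ → τ ≤ 1 →
      arcS (lat z) nP τ = mer z (th0 - 2 * Real.arctan (2 * τ) / Real.pi)) ∧
    (∀ z, lat z = mer z th0) ∧ (0 < th0 ∧ th0 < 1) ∧
    (∀ z z' τ, 0 ≤ τ → τ ≤ 1 → ((arcS (lat z) (lat z') τ : S2) : E3) 2 < 0) ∧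
    (∀ z t, th0 ≤ t → t ≤ 1 → ((mer z t : S2) : E3) 2 < 0) := by
  have hpi := Real.pi_pos
  have hdn : ∀ z, inner ℝ ((nP : S2) : E3) ((lat z : S2) : E3) = -(3 / 5) := by
    intro z
    rw [inner_23504, lat0_23504, lat1_23504, lat2_23504, nP0_23504, nP1_23504, nP2_23504]
    ring
  have hdn' : ∀ z, inner ℝ ((lat z : S2) : E3) ((nP : S2) : E3) = -(3 / 5) := by
    intro z
    rw [real_inner_comm]
    exact hdn z
  have hA : Real.sin (2 * Real.arctan 2) = 4 / 5 := by
    rw [sin2_23504]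
    norm_num
  have hA' : Real.cos (2 * Real.arctan 2) = -(3 / 5) := by
    rw [cos2_23504]
    norm_num
  refine ⟨?_, ?_, ?_, ⟨?_, ?_⟩, ?_, ?_⟩
  · intro z τ h0 h1
    have hv := (arc_val nP (lat z) (by unfold dt; rw [hdn]; norm_num) τ).1
    apply Subtype.ext
    rw [hv]
    have hne : (1 + 4 * τ ^ 2) ≠ 0 := by positivity
    have hne2 : (1 + -(3 / 5) + τ ^ 2 * (1 - -(3 / 5))) = 2 / 5 * (1 + 4 * τ ^ 2) := by ring
    have e1 : (1 + (2 * τ) ^ 2) = 1 + 4 * τ ^ 2 := by ring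
    apply e3_ext_23504
    · rw [arcE_apply_23504, hdn, nP0_23504, lat0_23504, mer0_23504, angle_23504, sin2_23504, hne2, e1]
      field_simp
      ring
    · rw [arcE_apply_23504, hdn, nP1_23504, lat1_23504, mer1_23504, angle_23504, sin2_23504, hne2, e1]
      field_simp
      ring
    · rw [arcE_apply_23504, hdn, nP2_23504, lat2_23504, mer2_23504, angle_23504, cos2_23504, hne2, e1]
      field_simp
      ring
  · intro z τ h0 h1
    have hv := (arc_val (lat z) nP (by unfold dt; rw [hdn']; norm_num) τ).1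
    apply Subtype.ext
    rw [hv]
    have hne : (1 + 4 * τ ^ 2) ≠ 0 := by positivity
    have hne2 : (1 + -(3 / 5) + τ ^ 2 * (1 - -(3 / 5))) = 2 / 5 * (1 + 4 * τ ^ 2) := by ring
    have e1 : (1 + (2 * τ) ^ 2) = 1 + 4 * τ ^ 2 := by ring
    have hang : Real.pi * (th0 - 2 * Real.arctan (2 * τ) / Real.pi) =
        2 * Real.arctan 2 - 2 * Real.arctan (2 * τ) := by
      rw [mul_sub, th0_angle_23504, angle_23504]
    apply e3_ext_23504
    · rw [arcE_apply_23504, hdn', nP0_23504, lat0_23504, mer0_23504, hang, Real.sin_sub, hA, hA',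
        sin2_23504, cos2_23504, hne2, e1]
      field_simp
      ring
    · rw [arcE_apply_23504, hdn', nP1_23504, lat1_23504, mer1_23504, hang, Real.sin_sub, hA, hA',
        sin2_23504, cos2_23504, hne2, e1]
      field_simp
      ring
    · rw [arcE_apply_23504, hdn', nP2_23504, lat2_23504, mer2_23504, hang, Real.cos_sub, hA, hA',
        sin2_23504, cos2_23504, hne2, e1]
      field_simp
      ring
  · intro z
    apply Subtype.ext
    apply e3_ext_23504
    · rw [lat0_23504, mer0_23504, th0_angle_23504, hA]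
    · rw [lat1_23504, mer1_23504, th0_angle_23504, hA]
    · rw [lat2_23504, mer2_23504, th0_angle_23504, hA']
  · unfold th0
    have : 0 < Real.arctan 2 := Real.arctan_pos.2 (by norm_num)
    positivity
  · unfold th0
    rw [div_lt_one hpi]
    have := Real.arctan_lt_pi_div_two 2
    linarith
  · intro z z' τ h0 h1
    have hz := circ_sq_23504 z
    have hz' := circ_sq_23504 z'
    have hdd : inner ℝ ((lat z : S2) : E3) ((lat z' : S2) : E3) =
        16 / 25 * ((z : ℂ).re * (z' : ℂ).re + (z : ℂ).im * (z' : ℂ).im) + 9 / 25 := by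
      rw [inner_23504, lat0_23504, lat1_23504, lat2_23504, lat0_23504, lat1_23504, lat2_23504]
      ring
    have hb1 : (z : ℂ).re * (z' : ℂ).re + (z : ℂ).im * (z' : ℂ).im ≤ 1 := by
      nlinarith [sq_nonneg ((z : ℂ).re - (z' : ℂ).re), sq_nonneg ((z : ℂ).im - (z' : ℂ).im)]
    have hb2 : -1 ≤ (z : ℂ).re * (z' : ℂ).re + (z : ℂ).im * (z' : ℂ).im := by
      nlinarith [sq_nonneg ((z : ℂ).re + (z' : ℂ).re), sq_nonneg ((z : ℂ).im + (z' : ℂ).im)]
    have hd1 : inner ℝ ((lat z : S2) : E3) ((lat z' : S2) : E3) ≤ 1 := by rw [hdd]; linarith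
    have hd2 : -1 < inner ℝ ((lat z : S2) : E3) ((lat z' : S2) : E3) := by rw [hdd]; linarith
    have hv := (arc_val (lat z) (lat z') hd2 τ).1
    rw [hv, arcE_apply_23504, lat2_23504, lat2_23504]
    set D := inner ℝ ((lat z : S2) : E3) ((lat z' : S2) : E3) with hD
    have hc : 0 < (1 + D + τ ^ 2 * (1 - D))⁻¹ := by
      apply inv_pos.2
      have : 0 ≤ τ ^ 2 * (1 - D) := mul_nonneg (sq_nonneg _) (by linarith)
      linarith
    have hneg : (1 + D - τ ^ 2 * (1 - D) - 2 * τ * D) * (-(3 / 5)) + 2 * τ * (-(3 / 5)) < 0 := by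
      have h2 : 0 ≤ τ * (2 - τ) * (1 - D) :=
        mul_nonneg (mul_nonneg h0 (by linarith)) (by linarith)
      nlinarith
    exact mul_neg_of_pos_of_neg hc hneg
  · intro z t h0 h1
    rw [mer2_23504]
    have h2 : Real.pi / 4 < Real.arctan 2 := by
      rw [← Real.arctan_one]
      exact Real.arctan_strictMono (by norm_num)
    have h3 : Real.pi * th0 ≤ Real.pi * t := mul_le_mul_of_nonneg_left h0 hpi.le
    rw [th0_angle_23504] at h3
    apply Real.cos_neg_of_pi_div_two_lt_of_lt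
    · linarith
    · nlinarith

end Pool.Agent.Helper534.LS

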