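import Pool.Agent.Helper534.LS.Defs
import Pool.Agent.Helper534.LS.P_mk_path
import Pool.Agent.Helper534.LS.P_toS2_val
import Pool.Agent.Helper534.LS.P_toS2_cont
import Pool.Agent.Helper534.LS.P_arc_val
import Pool.Agent.Helper534.LS.P_mer_facts
import Pool.Agent.Helper534.LS.P_lat_arc

open MeasureTheory

namespace Pool.Agent.Helper534.LS



theorem via_one_toS2 (x : S2) : toS2 (x : E3) = x :=
  Subtype.ext (toS2_val _ (mem_sphere_zero_iff_norm.mp x.2))

theorem via_one_cases (z₁ z₂ : Circle) (t : ℝ) (h0 : 0 ≤ t) (h1 : t ≤ 1) :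
    tri nP (lat z₁) (lat z₂) t = viaS z₁ z₂ t ∨
      (((tri nP (lat z₁) (lat z₂) t : S2) : E3) 2 < 0 ∧ ((viaS z₁ z₂ t : S2) : E3) 2 < 0) := by
  obtain ⟨l1, l2, l3, l4, l5, l6⟩ := lat_arc
  unfold tri viaS
  by_cases ha : t ≤ 1 / 3
  · left
    rw [if_pos ha, if_pos (by linarith : t ≤ 1 / 2), if_pos ha, l1 _ _ (by linarith) (by linarith)]
  · rw [if_neg ha, if_neg ha]
    push Not at ha
    by_cases hb : t ≤ 2 / 3
    · right
      rw [if_pos hb, if_pos hb]
      refine ⟨l5 _ _ _ (by linarith) (by linarith), ?_⟩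
      by_cases hc : t ≤ 1 / 2
      · rw [if_pos hc]
        apply l6
        · nlinarith [l4.2]
        · nlinarith [l4.2]
      · rw [if_neg hc]
        push Not at hc
        apply l6
        · nlinarith [l4.2]
        · nlinarith [l4.2]
    · left
      push Not at hb
      rw [if_neg (not_le.2 hb), if_neg (not_le.2 hb), if_neg (by linarith : ¬ t ≤ 1 / 2),
        l2 _ _ (by linarith) (by linarith)]

theorem via_one (gQ) (hgQ : IsGQ gQ) (tQ) (htQ : IsTQ tQ) (K : C(T2, Om))
    (hK : ∀ p (t : unitInterval), (K p).1 t = viaS p.2.1 (p.1⁻¹ * p.2.1) t) :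
    (gQ.comp tQ).Homotopic K := by
  have hP : ∀ p (t : unitInterval),
      ((gQ.comp tQ) p).1 t = tri nP (lat p.2.1) (lat (p.1⁻¹ * p.2.1)) t := by
    intro p t
    rw [ContinuousMap.comp_apply, hgQ, htQ]
  have hcont : ∀ F : C(T2, Om), Continuous fun x : T2 × unitInterval => ((F x.1).1 x.2 : S2) := by
    intro F
    have h1 : Continuous fun x : T2 × unitInterval => (F x.1).1 :=
      continuous_subtype_val.comp (F.continuous.comp continuous_fst)
    exact h1.eval continuous_snd
  set V : (unitInterval × T2) × unitInterval → E3 := fun x =>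
    (1 - (x.1.1 : ℝ)) • ((((gQ.comp tQ) x.1.2).1 x.2 : S2) : E3) +
      (x.1.1 : ℝ) • (((K x.1.2).1 x.2 : S2) : E3) with hV
  have hVc : Continuous V := by
    have c1 : Continuous fun x : (unitInterval × T2) × unitInterval => (x.1.1 : ℝ) :=
      continuous_subtype_val.comp (continuous_fst.comp continuous_fst)
    have c2 : Continuous fun x : (unitInterval × T2) × unitInterval => (x.1.2, x.2) :=
      (continuous_snd.comp continuous_fst).prodMk continuous_snd
    have c3 : Continuous fun x : (unitInterval × T2) × unitInterval =>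
        ((((gQ.comp tQ) x.1.2).1 x.2 : S2) : E3) :=
      continuous_subtype_val.comp ((hcont (gQ.comp tQ)).comp c2)
    have c4 : Continuous fun x : (unitInterval × T2) × unitInterval =>
        (((K x.1.2).1 x.2 : S2) : E3) :=
      continuous_subtype_val.comp ((hcont K).comp c2)
    exact ((continuous_const.sub c1).smul c3).add (c1.smul c4)
  have hVne : ∀ x, V x ≠ 0 := by
    intro x hx
    rcases via_one_cases x.1.2.2.1 (x.1.2.1⁻¹ * x.1.2.2.1) x.2 x.2.2.1 x.2.2.2 with h | ⟨h1, h2⟩
    · rw [← hP, ← hK] at h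
      have h3 : V x = (((K x.1.2).1 x.2 : S2) : E3) := by
        rw [hV]
        simp only
        rw [h, ← add_smul, sub_add_cancel, one_smul]
      rw [h3] at hx
      have h4 : ‖(((K x.1.2).1 x.2 : S2) : E3)‖ = 1 := mem_sphere_zero_iff_norm.mp
        ((K x.1.2).1 x.2).2
      rw [hx, norm_zero] at h4
      exact zero_ne_one h4
    · rw [← hP] at h1
      rw [← hK] at h2
      have h3 : V x 2 = (1 - (x.1.1 : ℝ)) * ((((gQ.comp tQ) x.1.2).1 x.2 : S2) : E3) 2 +
          (x.1.1 : ℝ) * (((K x.1.2).1 x.2 : S2) : E3) 2 := rfl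
      rw [hx] at h3
      have h4 : (0 : E3) 2 = 0 := rfl
      rw [h4] at h3
      have h5 : (0 : ℝ) ≤ x.1.1 := x.1.1.2.1
      have h6 : (x.1.1 : ℝ) ≤ 1 := x.1.1.2.2
      rcases lt_or_eq_of_le h5 with h7 | h7
      · nlinarith [mul_pos h7 (neg_pos.2 h2), mul_nonneg (sub_nonneg.2 h6) (neg_pos.2 h1).le]
      · rw [← h7] at h3
        linarith
  have hT : Continuous fun x => toS2 (V x) := toS2_cont.comp_continuous hVc hVne
  let Hc : C(unitInterval × T2, C(unitInterval, S2)) := ContinuousMap.curry ⟨fun x => toS2 (V x), hT⟩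
  have hHc : ∀ x t, Hc x t = toS2 (V (x, t)) := fun x t => rfl
  have hend : ∀ (x : unitInterval × T2) (t : unitInterval),
      ((gQ.comp tQ) x.2).1 t = (K x.2).1 t → Hc x t = (K x.2).1 t := by
    intro x t h
    rw [hHc, hV]
    simp only
    rw [h, ← add_smul, sub_add_cancel, one_smul, via_one_toS2]
  refine ⟨⟨⟨fun x => ⟨Hc x, ?_, ?_⟩, ?_⟩, ?_, ?_⟩⟩
  · rw [hend x 0 (by rw [((gQ.comp tQ) x.2).2.1, (K x.2).2.1]), (K x.2).2.1]
  · rw [hend x 1 (by rw [((gQ.comp tQ) x.2).2.2, (K x.2).2.2]), (K x.2).2.2]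
  · exact Continuous.subtype_mk Hc.continuous _
  · intro p
    apply Subtype.ext
    apply ContinuousMap.ext
    intro t
    change Hc (0, p) t = _
    rw [hHc, hV]
    simp only [Set.Icc.coe_zero, sub_zero, one_smul, zero_smul, add_zero]
    exact via_one_toS2 _
  · intro p
    apply Subtype.ext
    apply ContinuousMap.ext
    intro t
    change Hc (1, p) t = _
    rw [hHc, hV]
    simp only [Set.Icc.coe_one, sub_self, one_smul, zero_smul, zero_add]
    exact via_one_toS2 _

end Pool.Agent.Helper534.LS
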