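import Pool.Agent.Helper534.LS.Defs
import Pool.Agent.Helper534.LS.P_mk_path
import Pool.Agent.Helper534.LS.P_mer_facts
import Pool.Agent.Helper534.LS.P_lat_arc

open MeasureTheory

namespace Pool.Agent.Helper534.LS



/-- first parameter of `viaS` -/
noncomputable def via_two_u (t : ℝ) : ℝ :=
  if t ≤ 1 / 3 then 2 * Real.arctan (2 * (3 * t)) / Real.pi else th0 + (1 - th0) * (6 * t - 2)

/-- second parameter of `viaS` -/
noncomputable def via_two_v (t : ℝ) : ℝ :=
  if t ≤ 2 / 3 then 1 - (1 - th0) * (6 * t - 3) else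
    th0 - 2 * Real.arctan (2 * (3 * t - 2)) / Real.pi

lemma via_two_u_cont : Continuous via_two_u := by
  unfold via_two_u
  refine Continuous.if_le ?_ ?_ continuous_id continuous_const ?_
  · fun_prop
  · fun_prop
  · intro t ht
    have ht' : t = 1 / 3 := ht
    subst ht'
    unfold th0
    norm_num

lemma via_two_v_cont : Continuous via_two_v := by
  unfold via_two_v
  refine Continuous.if_le ?_ ?_ continuous_id continuous_const ?_
  · fun_prop
  · fun_prop
  · intro t ht
    have ht' : t = 2 / 3 := ht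
    subst ht'
    norm_num

lemma via_two_u0 : via_two_u 0 = 0 := by
  unfold via_two_u
  rw [if_pos (by norm_num)]
  simp

lemma via_two_u1 : via_two_u (1 / 2) = 1 := by
  unfold via_two_u
  rw [if_neg (by norm_num)]
  ring

lemma via_two_v0 : via_two_v (1 / 2) = 1 := by
  unfold via_two_v
  rw [if_pos (by norm_num)]
  ring

lemma via_two_v1 : via_two_v 1 = 0 := by
  unfold via_two_v th0
  rw [if_neg (by norm_num)]
  norm_num

/-- the homotopy as a function -/
noncomputable def via_two_F (a : unitInterval × T2) (t : ℝ) : S2 :=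
  if t ≤ 1 / 2 then
    mer a.2.2.1 ((1 - (a.1 : ℝ)) * via_two_u t + (a.1 : ℝ) * max 0 (4 * t - 1))
  else
    mer (a.2.1⁻¹ * a.2.2.1) ((1 - (a.1 : ℝ)) * via_two_v t + (a.1 : ℝ) * (2 - 2 * t))

lemma via_two_mer {A : Type} [TopologicalSpace A] (z : A → Circle) (t : A → ℝ)
    (hz : Continuous z) (ht : Continuous t) : Continuous fun a => mer (z a) (t a) := by
  have h0 : Continuous fun a => (z a, t a) := hz.prodMk ht
  obtain ⟨h1, -⟩ := mer_facts
  have h2 : Continuous ((fun p : Circle × ℝ => mer p.1 p.2) ∘ (fun a => (z a, t a))) :=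
    Continuous.comp h1 h0
  have h3 : ((fun p : Circle × ℝ => mer p.1 p.2) ∘ (fun a => (z a, t a))) =
    fun a => mer (z a) (t a) := by funext a; rfl
  rw [h3] at h2
  exact h2

lemma via_two_F_cont : Continuous fun p : (unitInterval × T2) × ℝ => via_two_F p.1 p.2 := by
  have hu := via_two_u_cont
  have hv := via_two_v_cont
  have h1 : Continuous fun p : (unitInterval × T2) × ℝ => (p.1.1 : ℝ) := by fun_prop
  have h2 : Continuous fun p : (unitInterval × T2) × ℝ => p.2 := continuous_snd
  unfold via_two_F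
  refine Continuous.if_le ?_ ?_ continuous_snd continuous_const ?_
  · exact via_two_mer _ _ (by fun_prop)
      (((continuous_const.sub h1).mul (hu.comp h2)).add
        (h1.mul (continuous_const.max ((continuous_const.mul h2).sub continuous_const))))
  · exact via_two_mer _ _ (by fun_prop)
      (((continuous_const.sub h1).mul (hv.comp h2)).add
        (h1.mul (continuous_const.sub (continuous_const.mul h2))))
  · intro p hp
    have hp' : p.2 = 1 / 2 := hp
    show mer _ _ = mer _ _
    rw [hp', via_two_u1, via_two_v0]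
    have e1 : (1 - (p.1.1 : ℝ)) * 1 + (p.1.1 : ℝ) * max 0 (4 * (1 / 2) - 1) = 1 := by
      rw [max_eq_right (by norm_num)]; ring
    have e2 : (1 - (p.1.1 : ℝ)) * 1 + (p.1.1 : ℝ) * (2 - 2 * (1 / 2)) = 1 := by ring
    rw [e1, e2, mer_facts.2.2.1, mer_facts.2.2.1]

lemma via_two_F0 (a : unitInterval × T2) : via_two_F a 0 = nP := by
  unfold via_two_F
  rw [if_pos (by norm_num), via_two_u0, max_eq_left (by norm_num), mul_zero, mul_zero, add_zero,
    mer_facts.2.1]

lemma via_two_F1 (a : unitInterval × T2) : via_two_F a 1 = nP := by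
  unfold via_two_F
  rw [if_neg (by norm_num), via_two_v1]
  have : (1 - (a.1 : ℝ)) * 0 + (a.1 : ℝ) * (2 - 2 * 1) = 0 := by ring
  rw [this, mer_facts.2.1]

lemma via_two_start (p : T2) (t : ℝ) : via_two_F (0, p) t = viaS p.2.1 (p.1⁻¹ * p.2.1) t := by
  unfold via_two_F viaS
  have e1 : ∀ x y : ℝ, (1 - (((0 : unitInterval), p).1 : ℝ)) * x +
      (((0 : unitInterval), p).1 : ℝ) * y = x := by
    intro x y
    simp
  rw [e1, e1]
  rfl

lemma via_two_end (p : T2) (t : ℝ) : via_two_F (1, p) t = m2f p.2.1 (p.1⁻¹ * p.2.1) t := by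
  unfold via_two_F m2f cat merR
  have e1 : ∀ x y : ℝ, (1 - (((1 : unitInterval), p).1 : ℝ)) * x +
      (((1 : unitInterval), p).1 : ℝ) * y = y := by
    intro x y
    simp
  rw [e1, e1]
  by_cases h : t ≤ 1 / 2
  · rw [if_pos h, if_pos h]
    by_cases h2 : 2 * t ≤ 1 / 2
    · rw [if_pos h2, max_eq_left (by linarith), mer_facts.2.1]
    · rw [if_neg h2, max_eq_right (by linarith)]
      show mer _ _ = mer _ _
      congr 1
      ring
  · rw [if_neg h, if_neg h]
    congr 1
    ring

theorem via_two (m) (hm : IsM2 m) (A) (hA : IsA2 A) (K : C(T2, Om))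
    (hK : ∀ p (t : unitInterval), (K p).1 t = viaS p.2.1 (p.1⁻¹ * p.2.1) t) :
    K.Homotopic (m.comp A) := by
  obtain ⟨f, hf⟩ := mk_path via_two_F via_two_F_cont
  have h0 : ∀ a, f a 0 = nP := by
    intro a
    rw [hf]
    exact via_two_F0 a
  have h1 : ∀ a, f a 1 = nP := by
    intro a
    rw [hf]
    exact via_two_F1 a
  refine ⟨{ toFun := fun a => ⟨f a, h0 a, h1 a⟩
            continuous_toFun := Continuous.subtype_mk f.continuous _
            map_zero_left := fun p => ?_
            map_one_left := fun p => ?_ }⟩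
  · apply Subtype.ext
    ext1 t
    show f (0, p) t = (K p).1 t
    rw [hf, hK, via_two_start]
  · apply Subtype.ext
    ext1 t
    show f (1, p) t = (m (A p)).1 t
    rw [hf, hm, hA, via_two_end]

end Pool.Agent.Helper534.LS
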