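import Pool.Agent.Helper534.LS.Defs
import Pool.Agent.Helper534.LS.P_hmap_comp
import Pool.Agent.Helper534.LS.P_hmap_homotopic
import Pool.Agent.Helper534.LS.P_tor2_homeo
import Pool.Agent.Helper534.LS.P_m2_exists
import Pool.Agent.Helper534.LS.P_m2_free
import Pool.Agent.Helper534.LS.P_via_exists
import Pool.Agent.Helper534.LS.P_via_one
import Pool.Agent.Helper534.LS.P_via_two

open MeasureTheory

namespace Pool.Agent.Helper534.LS



theorem gq_free (gQ) (hgQ : IsGQ gQ) (tQ) (htQ : IsTQ tQ) (k : ℤ)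
    (h : k • hmap gQ 2 (hmap tQ 2 tor2) = 0) : k = 0 := by
  obtain ⟨m, hm⟩ := m2_exists
  obtain ⟨K, hK⟩ := via_exists
  let A : C(T2, T2) := ⟨fun p => (p.1⁻¹ * p.2.1, (p.2.1, ())), by fun_prop⟩
  let B : C(T2, T2) := ⟨fun q => (q.2.1 * q.1⁻¹, (q.2.1, ())), by fun_prop⟩
  have hA : IsA2 A := fun p => rfl
  have hBA : ∀ x, B (A x) = x := by
    rintro ⟨x, y, u⟩
    change ((y * (x⁻¹ * y)⁻¹, (y, ())) : T2) = (x, y, u)
    rw [mul_inv, inv_inv, mul_comm x y⁻¹, mul_inv_cancel_left]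
  have hAB : ∀ x, A (B x) = x := by
    rintro ⟨x, y, u⟩
    change (((y * x⁻¹)⁻¹ * y, (y, ())) : T2) = (x, y, u)
    rw [mul_inv, inv_inv, mul_comm y⁻¹ x, inv_mul_cancel_right]
  have h1 : hmap gQ 2 (hmap tQ 2 tor2) = hmap m 2 (hmap A 2 tor2) := by
    rw [← hmap_comp, ← hmap_comp, hmap_homotopic _ _ (via_one gQ hgQ tQ htQ K hK),
      hmap_homotopic _ _ (via_two m hm A hA K hK)]
  rw [h1] at h
  rcases tor2_homeo A B hBA hAB with h2 | h2
  · rw [h2] at h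
    exact m2_free m hm k h
  · rw [h2, map_neg, smul_neg, neg_eq_zero] at h
    exact m2_free m hm k h

end Pool.Agent.Helper534.LS
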