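import Pool.Agent.Helper534.LS.Defs
import Pool.Agent.Helper534.LS.P_hh_contr

open MeasureTheory

namespace Pool.Agent.Helper534.LS



theorem cc_U_mem (a b : ℂ) (s : ℝ) (hs0 : 0 ≤ s) (hs1 : s ≤ 1)
    (h : 1 + a * b ∈ Complex.slitPlane) :
    1 + ((1 - s : ℝ) * a) * ((1 - s : ℝ) * b) ∈ Complex.slitPlane := by
  have h1 := Complex.starConvex_one_slitPlane
  have h2 : (0 : ℝ) ≤ (1 - s) ^ 2 := by positivity
  have h3 : (1 - s) ^ 2 ≤ 1 := by nlinarith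
  have h4 := h1 h (a := 1 - (1 - s) ^ 2) (b := (1 - s) ^ 2) (by linarith) h2 (by ring)
  have e : 1 + (((1 - s : ℝ) : ℂ) * a) * (((1 - s : ℝ) : ℂ) * b)
      = (1 - (1 - s) ^ 2 : ℝ) • (1 : ℂ) + ((1 - s) ^ 2 : ℝ) • (1 + a * b) := by
    simp only [Complex.real_smul]
    push_cast
    ring
  rw [e]
  exact h4

theorem cc_U_ne (a b : ℂ) (h : 1 + a * b ∈ Complex.slitPlane) : a * b ≠ -1 := by
  intro h1
  rw [h1] at h
  simp at h

instance cc_U_contr : ContractibleSpace CU := by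
  rw [contractible_iff_id_nullhomotopic]
  refine ⟨⟨⟨((0 : ℂ), (0 : ℂ)), by simp⟩, by
      show 1 + (0 : ℂ) * 0 ∈ Complex.slitPlane
      simp⟩, ⟨?_⟩⟩
  refine
    { toFun := fun x => ⟨⟨(((1 - (x.1 : ℝ) : ℝ) : ℂ) * x.2.1.1.1,
        ((1 - (x.1 : ℝ) : ℝ) : ℂ) * x.2.1.1.2), ?_⟩, ?_⟩
      continuous_toFun := ?_
      map_zero_left := ?_
      map_one_left := ?_ }
  · exact cc_U_ne _ _ (cc_U_mem _ _ _ x.1.2.1 x.1.2.2 x.2.2)
  · exact cc_U_mem _ _ _ x.1.2.1 x.1.2.2 x.2.2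
  · refine Continuous.subtype_mk (Continuous.subtype_mk ?_ _) _
    fun_prop
  · intro x
    apply Subtype.ext
    apply Subtype.ext
    simp
  · intro x
    apply Subtype.ext
    apply Subtype.ext
    simp

theorem cc_U (n : ℕ) (x : HH CU (n + 1)) : x = 0 :=
  hh_contr n x

end Pool.Agent.Helper534.LS
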