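import Pool.Agent.Helper534.LS.Defs
import Pool.Agent.Helper534.LS.P_hmap_comp
import Pool.Agent.Helper534.LS.P_hmap_id
import Pool.Agent.Helper534.LS.P_hmap_homotopic

open MeasureTheory

namespace Pool.Agent.Helper534.LS



theorem cc_V_ne (p : CV) : p.1.1.1 ≠ 0 := by
  intro h
  have h1 : -(1 + p.1.1.1 * p.1.1.2) ∈ Complex.slitPlane := p.2
  rw [h, zero_mul, add_zero, Complex.mem_slitPlane_iff] at h1
  simp only [Complex.neg_re, Complex.one_re, Complex.neg_im, Complex.one_im] at h1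
  rcases h1 with h1 | h1
  · linarith
  · simp at h1

/-- first coordinate of the homotopy -/
noncomputable def cc_as (s : ℝ) (a : ℂ) : ℂ := a * (((1 - s) / ‖a‖ + s : ℝ) : ℂ)

/-- the slit plane coordinate of the homotopy -/
noncomputable def cc_ws (s : ℝ) (w : ℂ) : ℂ := ((1 - s : ℝ) : ℂ) + (s : ℂ) * w

theorem cc_as_ne (s : ℝ) (h0 : 0 ≤ s) (h1 : s ≤ 1) (a : ℂ) (ha : a ≠ 0) : cc_as s a ≠ 0 := by
  have hn : 0 < ‖a‖ := norm_pos_iff.2 ha
  have hpos : 0 < (1 - s) / ‖a‖ + s := by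
    rcases h0.eq_or_lt with h | h
    · rw [← h]; simp only [sub_zero, add_zero]; positivity
    · have : 0 ≤ (1 - s) / ‖a‖ := div_nonneg (by linarith) hn.le
      linarith
  rw [cc_as]
  exact mul_ne_zero ha (Complex.ofReal_ne_zero.2 hpos.ne')

theorem cc_ws_mem (s : ℝ) (h0 : 0 ≤ s) (h1 : s ≤ 1) (w : ℂ) (hw : w ∈ Complex.slitPlane) :
    cc_ws s w ∈ Complex.slitPlane := by
  rw [Complex.mem_slitPlane_iff] at hw ⊢
  have hr : (cc_ws s w).re = (1 - s) + s * w.re := by simp [cc_ws]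
  have hi : (cc_ws s w).im = s * w.im := by simp [cc_ws]
  rw [hr, hi]
  rcases hw with hw | hw
  · left
    rcases h0.eq_or_lt with h | h
    · rw [← h]; norm_num
    · have := mul_pos h hw
      linarith
  · rcases h0.eq_or_lt with h | h
    · left
      rw [← h]; norm_num
    · right
      exact mul_ne_zero h.ne' hw

theorem cc_ne_of_mem (a b w : ℂ) (h : a * b = -(1 + w)) (hw : w ∈ Complex.slitPlane) :
    a * b ≠ -1 := by
  rw [h]
  intro hc
  have : w = 0 := by linear_combination -hc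
  exact Complex.slitPlane_ne_zero hw this

theorem cc_mem_of_mem (a b w : ℂ) (h : a * b = -(1 + w)) (hw : w ∈ Complex.slitPlane) :
    -(1 + a * b) ∈ Complex.slitPlane := by
  rw [h]
  have : -(1 + -(1 + w)) = w := by ring
  rwa [this]

theorem cc_prod (s : ℝ) (h0 : 0 ≤ s) (h1 : s ≤ 1) (a w : ℂ) (ha : a ≠ 0) :
    cc_as s a * (-(1 + cc_ws s w) / cc_as s a) = -(1 + cc_ws s w) := by
  have := cc_as_ne s h0 h1 a ha
  field_simp

/-- the homotopy -/
noncomputable def cc_H : C(unitInterval × CV, CV) where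
  toFun q := ⟨⟨(cc_as q.1 q.2.1.1.1, -(1 + cc_ws q.1 (-(1 + q.2.1.1.1 * q.2.1.1.2))) /
      cc_as q.1 q.2.1.1.1),
      cc_ne_of_mem _ _ _ (cc_prod _ q.1.2.1 q.1.2.2 _ _ (cc_V_ne q.2))
        (cc_ws_mem _ q.1.2.1 q.1.2.2 _ q.2.2)⟩,
      cc_mem_of_mem _ _ _ (cc_prod _ q.1.2.1 q.1.2.2 _ _ (cc_V_ne q.2))
        (cc_ws_mem _ q.1.2.1 q.1.2.2 _ q.2.2)⟩
  continuous_toFun := by
    have hs : Continuous (fun q : unitInterval × CV => (q.1 : ℝ)) := by fun_prop
    have ha : Continuous (fun q : unitInterval × CV => q.2.1.1.1) := by fun_prop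
    have hb : Continuous (fun q : unitInterval × CV => q.2.1.1.2) := by fun_prop
    have has : Continuous (fun q : unitInterval × CV => cc_as q.1 q.2.1.1.1) := by
      unfold cc_as
      refine ha.mul (Complex.continuous_ofReal.comp ?_)
      refine Continuous.add (Continuous.div (continuous_const.sub hs) ha.norm ?_) hs
      intro q
      exact norm_ne_zero_iff.2 (cc_V_ne q.2)
    have hws : Continuous (fun q : unitInterval × CV =>
        cc_ws q.1 (-(1 + q.2.1.1.1 * q.2.1.1.2))) := by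
      unfold cc_ws
      exact (Complex.continuous_ofReal.comp (continuous_const.sub hs)).add
        ((Complex.continuous_ofReal.comp hs).mul ((continuous_const.add (ha.mul hb)).neg))
    refine Continuous.subtype_mk (Continuous.subtype_mk (Continuous.prodMk has ?_) _) _
    refine Continuous.div ((continuous_const.add hws).neg) has ?_
    intro q
    exact cc_as_ne _ q.1.2.1 q.1.2.2 _ (cc_V_ne q.2)

/-- the retraction -/
noncomputable def cc_r : C(CV, Circle) where
  toFun p := ⟨p.1.1.1 / ‖p.1.1.1‖, mem_sphere_zero_iff_norm.mpr (by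
    rw [norm_div, Complex.norm_real, norm_norm]
    exact div_self (norm_ne_zero_iff.2 (cc_V_ne p)))⟩
  continuous_toFun := by
    refine Continuous.subtype_mk ?_ _
    have ha : Continuous (fun q : CV => q.1.1.1) := by fun_prop
    refine Continuous.div ha (Complex.continuous_ofReal.comp ha.norm) ?_
    intro q
    exact Complex.ofReal_ne_zero.2 (norm_ne_zero_iff.2 (cc_V_ne q))

theorem cc_one_mem : (1:ℂ) ∈ Complex.slitPlane := by
  rw [Complex.mem_slitPlane_iff]; left; simp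

theorem cc_c_prod (z : Circle) : (z:ℂ) * (-2 / z) = -(1 + 1) := by
  have : (z:ℂ) ≠ 0 := z.coe_ne_zero
  field_simp
  norm_num

/-- the section -/
noncomputable def cc_c : C(Circle, CV) where
  toFun z := ⟨⟨((z:ℂ), -2 / z), cc_ne_of_mem _ _ 1 (cc_c_prod z) cc_one_mem⟩,
    cc_mem_of_mem _ _ 1 (cc_c_prod z) cc_one_mem⟩
  continuous_toFun := by
    refine Continuous.subtype_mk (Continuous.subtype_mk (Continuous.prodMk ?_ ?_) _) _
    · exact continuous_subtype_val
    · exact Continuous.div continuous_const continuous_subtype_val (fun z => z.coe_ne_zero)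

theorem cc_rc : cc_r.comp cc_c = ContinuousMap.id Circle := by
  ext z
  show (z:ℂ) / ‖(z:ℂ)‖ = z
  rw [Circle.norm_coe]
  simp

theorem cc_hom : (cc_c.comp cc_r).Homotopic (ContinuousMap.id CV) := by
  refine ⟨⟨cc_H, ?_, ?_⟩⟩
  · intro p
    have ha := cc_V_ne p
    have hn : (‖p.1.1.1‖:ℂ) ≠ 0 := Complex.ofReal_ne_zero.2 (norm_ne_zero_iff.2 ha)
    apply Subtype.ext
    apply Subtype.ext
    have e1 : cc_as ((0 : unitInterval) : ℝ) p.1.1.1 = p.1.1.1 / ‖p.1.1.1‖ := by
      simp [cc_as, div_eq_mul_inv]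
    have e2 : cc_ws ((0 : unitInterval) : ℝ) (-(1 + p.1.1.1 * p.1.1.2)) = 1 := by
      simp [cc_ws]
    show (cc_as ((0 : unitInterval) : ℝ) p.1.1.1,
      -(1 + cc_ws ((0 : unitInterval) : ℝ) (-(1 + p.1.1.1 * p.1.1.2))) /
        cc_as ((0 : unitInterval) : ℝ) p.1.1.1) =
      (p.1.1.1 / ‖p.1.1.1‖, -2 / (p.1.1.1 / ‖p.1.1.1‖))
    rw [e1, e2]
    norm_num
  · intro p
    have ha := cc_V_ne p
    apply Subtype.ext
    apply Subtype.ext
    have e1 : cc_as ((1 : unitInterval) : ℝ) p.1.1.1 = p.1.1.1 := by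
      simp [cc_as]
    have e2 : cc_ws ((1 : unitInterval) : ℝ) (-(1 + p.1.1.1 * p.1.1.2)) =
        -(1 + p.1.1.1 * p.1.1.2) := by
      simp [cc_ws]
    show (cc_as ((1 : unitInterval) : ℝ) p.1.1.1,
      -(1 + cc_ws ((1 : unitInterval) : ℝ) (-(1 + p.1.1.1 * p.1.1.2))) /
        cc_as ((1 : unitInterval) : ℝ) p.1.1.1) = p.1.1
    rw [e1, e2]
    apply Prod.ext
    · rfl
    · show -(1 + -(1 + p.1.1.1 * p.1.1.2)) / p.1.1.1 = p.1.1.2
      field_simp
      ring

theorem cc_V : ∃ r : C(CV, Circle), (∀ p, ((r p : Circle) : ℂ) = p.1.1.1 / ‖p.1.1.1‖) ∧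
    ∀ n, Function.Bijective (hmap r n) := by
  refine ⟨cc_r, fun p => rfl, fun n => ?_⟩
  refine Function.bijective_iff_has_inverse.2 ⟨hmap cc_c n, ?_, ?_⟩
  · intro x
    rw [← hmap_comp, hmap_homotopic _ _ cc_hom, hmap_id]
  · intro x
    rw [← hmap_comp, cc_rc, hmap_id]

end Pool.Agent.Helper534.LS
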