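import Pool.Agent.Helper534.LS.Defs

open MeasureTheory

namespace Pool.Agent.Helper534.LS



theorem cc_cov : IsOpen CV ∧ IsOpen CU ∧ ∀ p, p ∈ CV ∨ p ∈ CU := by
  have hc : Continuous (fun p : CC2 => (1 : ℂ) + p.1.1 * p.1.2) := by fun_prop
  refine ⟨Complex.isOpen_slitPlane.preimage hc.neg, Complex.isOpen_slitPlane.preimage hc, ?_⟩
  intro p
  by_cases h : (1 : ℂ) + p.1.1 * p.1.2 ∈ Complex.slitPlane
  · exact Or.inr h
  · left
    change -((1 : ℂ) + p.1.1 * p.1.2) ∈ Complex.slitPlane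
    have hw : (1 : ℂ) + p.1.1 * p.1.2 ≠ 0 := by
      intro h0
      apply p.2
      exact (neg_eq_of_add_eq_zero_right h0).symm
    revert h hw
    generalize (1 : ℂ) + p.1.1 * p.1.2 = w
    intro h hw
    rw [Complex.mem_slitPlane_iff] at h ⊢
    push Not at h
    left
    rw [Complex.neg_re]
    rcases h.1.lt_or_eq with h1 | h1
    · linarith
    · exact absurd (Complex.ext h1 h.2) hw

end Pool.Agent.Helper534.LS
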