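import Pool.Agent.Helper534.LS.Defs
import Pool.Agent.Helper534.LS.P_hmap_comp
import Pool.Agent.Helper534.LS.P_hmap_id
import Pool.Agent.Helper534.LS.P_hmap_homotopic
import Pool.Agent.Helper534.LS.P_hh_union

open MeasureTheory

namespace Pool.Agent.Helper534.LS



/-- the piece of the intersection on which `a b` has positive component along `e` -/
def cciA (e : Circle) : Set ↥(CV ∩ CU) :=
  {x | 0 < ((x.1.1.1 * x.1.1.2) * (starRingEnd ℂ) (e : ℂ)).re}

theorem cci_mem (e : Circle) (he : (e : ℂ).re = 0) (a b : ℂ)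
    (h : 0 < ((a * b) * (starRingEnd ℂ) (e : ℂ)).re) :
    a * b ≠ -1 ∧ -(1 + a * b) ∈ Complex.slitPlane ∧ 1 + a * b ∈ Complex.slitPlane := by
  have h1 : (a * b).im ≠ 0 := by
    intro h0
    rw [Complex.mul_re, Complex.conj_re, Complex.conj_im, he, h0] at h
    simp at h
  refine ⟨?_, ?_, ?_⟩
  · intro h2
    rw [h2] at h1
    simp at h1
  · rw [Complex.mem_slitPlane_iff]
    right
    rw [Complex.neg_im, Complex.add_im, Complex.one_im, zero_add]
    exact neg_ne_zero.2 h1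
  · rw [Complex.mem_slitPlane_iff]
    right
    rw [Complex.add_im, Complex.one_im, zero_add]
    exact h1

theorem cci_open (e : Circle) : IsOpen (cciA e) := by
  unfold cciA
  refine isOpen_lt continuous_const ?_
  refine Complex.continuous_re.comp ?_
  refine Continuous.mul ?_ continuous_const
  exact (continuous_fst.comp (continuous_subtype_val.comp continuous_subtype_val)).mul
    (continuous_snd.comp (continuous_subtype_val.comp continuous_subtype_val))

/-- constructor of points of the piece -/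
def cciMk (e : Circle) (he : (e : ℂ).re = 0) (p : ℂ × ℂ)
    (h : 0 < ((p.1 * p.2) * (starRingEnd ℂ) (e : ℂ)).re) : cciA e :=
  ⟨⟨⟨p, (cci_mem e he p.1 p.2 h).1⟩, (cci_mem e he p.1 p.2 h).2.1, (cci_mem e he p.1 p.2 h).2.2⟩, h⟩

theorem cciMk_cont {Z : Type} [TopologicalSpace Z] (e : Circle) (he : (e : ℂ).re = 0)
    (p : Z → ℂ × ℂ) (h : ∀ z, 0 < (((p z).1 * (p z).2) * (starRingEnd ℂ) (e : ℂ)).re)
    (hp : Continuous p) : Continuous (fun z => cciMk e he (p z) (h z)) := by
  unfold cciMk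
  exact Continuous.subtype_mk (Continuous.subtype_mk (Continuous.subtype_mk hp _) _) _

theorem cciMk_ext (e : Circle) (x y : cciA e) (h : x.1.1.1 = y.1.1.1) : x = y :=
  Subtype.ext (Subtype.ext (Subtype.ext h))

theorem cci_ec (e : Circle) : (e : ℂ) * (starRingEnd ℂ) (e : ℂ) = 1 := by
  rw [Complex.mul_conj, Circle.normSq_coe, Complex.ofReal_one]

theorem cci_jpos (e z : Circle) :
    0 < ((((2 : ℂ) * (z : Circle), (2 : ℂ) * (e * z⁻¹ : Circle)) : ℂ × ℂ).1 *
      (((2 : ℂ) * (z : Circle), (2 : ℂ) * (e * z⁻¹ : Circle)) : ℂ × ℂ).2 *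
        (starRingEnd ℂ) (e : ℂ)).re := by
  have hz : (z : ℂ) ≠ 0 := Circle.coe_ne_zero z
  have h : ((2 : ℂ) * (z : Circle)) * ((2 : ℂ) * (e * z⁻¹ : Circle)) *
      (starRingEnd ℂ) (e : ℂ) = 4 := by
    rw [Circle.coe_mul, Circle.coe_inv]
    have h1 := cci_ec e
    have h2 : (z : ℂ) * (z : ℂ)⁻¹ = 1 := mul_inv_cancel₀ hz
    linear_combination (4 * ((z : ℂ) * (z : ℂ)⁻¹)) * h1 + 4 * h2
  show 0 < (((2 : ℂ) * (z : Circle)) * ((2 : ℂ) * (e * z⁻¹ : Circle)) *
      (starRingEnd ℂ) (e : ℂ)).re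
  rw [h]
  norm_num

theorem cci_a_ne (e : Circle) (x : cciA e) : x.1.1.1.1 ≠ 0 := by
  intro h0
  have h := x.2
  change 0 < ((x.1.1.1.1 * x.1.1.1.2) * (starRingEnd ℂ) (e : ℂ)).re at h
  rw [h0, zero_mul, zero_mul] at h
  simp at h

theorem cci_piece (e : Circle) (he : (e : ℂ).re = 0) :
    ∃ j : C(Circle, ↥(CV ∩ CU)), IsJe e j ∧
      ∀ n (α : HH (cciA e) n), ∃ a : HH Circle n, hmap (sub (cciA e)) n α = hmap j n a := by
  -- the map into the piece
  let j' : C(Circle, cciA e) :=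
    ⟨fun z => cciMk e he ((2 : ℂ) * (z : Circle), (2 : ℂ) * (e * z⁻¹ : Circle)) (cci_jpos e z), by
      refine cciMk_cont e he _ _ ?_
      refine Continuous.prodMk ?_ ?_
      · have hc : Continuous (fun z : Circle => (z : ℂ)) := by fun_prop
        exact continuous_const.mul hc
      · have hc : Continuous (fun z : Circle => (z : ℂ)) := by fun_prop
        exact continuous_const.mul (hc.comp (continuous_const.mul continuous_inv))⟩
  let q : C(cciA e, Circle) :=
    ⟨fun x => ⟨x.1.1.1.1 / (‖x.1.1.1.1‖ : ℂ), mem_sphere_zero_iff_norm.mpr (by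
        rw [norm_div, Complex.norm_real, norm_norm,
          div_self (norm_ne_zero_iff.mpr (cci_a_ne e x))])⟩, by
      have h1 : Continuous (fun x : cciA e => x.1.1.1.1) :=
        continuous_fst.comp (continuous_subtype_val.comp
          (continuous_subtype_val.comp continuous_subtype_val))
      have h2 : Continuous (fun x : cciA e => x.1.1.1.1 / (‖x.1.1.1.1‖ : ℂ)) :=
        h1.div (Complex.continuous_ofReal.comp (continuous_norm.comp h1))
          (fun x => by
            rw [Ne, Complex.ofReal_eq_zero, norm_eq_zero]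
            exact cci_a_ne e x)
      exact Continuous.subtype_mk h2 _⟩
  -- the homotopy
  have hr : ∀ p : unitInterval × cciA e,
      0 < (1 - (p.1 : ℝ)) * (2 / ‖p.2.1.1.1.1‖) + (p.1 : ℝ) := by
    rintro ⟨s, x⟩
    have h0 : 0 < ‖x.1.1.1.1‖ := norm_pos_iff.2 (cci_a_ne e x)
    have h1 : 0 < 2 / ‖x.1.1.1.1‖ := by positivity
    have hs0 := s.2.1
    have hs1 := s.2.2
    show 0 < (1 - (s : ℝ)) * (2 / ‖x.1.1.1.1‖) + (s : ℝ)
    rcases eq_or_lt_of_le hs0 with h | h
    · rw [← h]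
      linarith
    · have : 0 ≤ (1 - (s : ℝ)) * (2 / ‖x.1.1.1.1‖) := mul_nonneg (by linarith) h1.le
      linarith
  let as : unitInterval × cciA e → ℂ := fun p =>
    p.2.1.1.1.1 * (((1 - (p.1 : ℝ)) * (2 / ‖p.2.1.1.1.1‖) + (p.1 : ℝ) : ℝ) : ℂ)
  let cs : unitInterval × cciA e → ℂ := fun p =>
    (((1 - (p.1 : ℝ)) * 4 : ℝ) : ℂ) * (e : ℂ) + ((p.1 : ℝ) : ℂ) * (p.2.1.1.1.1 * p.2.1.1.1.2)
  have has : ∀ p, as p ≠ 0 := by
    intro p
    refine mul_ne_zero (cci_a_ne e p.2) ?_
    rw [Ne, Complex.ofReal_eq_zero]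
    exact (hr p).ne'
  have hcs : ∀ p, 0 < (cs p * (starRingEnd ℂ) (e : ℂ)).re := by
    rintro ⟨s, x⟩
    have hx : 0 < ((x.1.1.1.1 * x.1.1.1.2) * (starRingEnd ℂ) (e : ℂ)).re := x.2
    have h1 : cs (s, x) * (starRingEnd ℂ) (e : ℂ) = (((1 - (s : ℝ)) * 4 : ℝ) : ℂ) +
        ((s : ℝ) : ℂ) * ((x.1.1.1.1 * x.1.1.1.2) * (starRingEnd ℂ) (e : ℂ)) := by
      show ((((1 - (s : ℝ)) * 4 : ℝ) : ℂ) * (e : ℂ) +
        ((s : ℝ) : ℂ) * (x.1.1.1.1 * x.1.1.1.2)) * (starRingEnd ℂ) (e : ℂ) = _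
      linear_combination (((1 - (s : ℝ)) * 4 : ℝ) : ℂ) * cci_ec e
    rw [h1, Complex.add_re, Complex.ofReal_re, Complex.re_ofReal_mul]
    have hs0 := s.2.1
    have hs1 := s.2.2
    rcases eq_or_lt_of_le hs0 with h | h
    · rw [← h]
      norm_num
    · have h2 : 0 < (s : ℝ) * ((x.1.1.1.1 * x.1.1.1.2) * (starRingEnd ℂ) (e : ℂ)).re :=
        mul_pos h hx
      have h3 : 0 ≤ (1 - (s : ℝ)) * 4 := mul_nonneg (by linarith) (by norm_num)
      linarith
  have hab : ∀ p, 0 < (((as p, cs p / as p) : ℂ × ℂ).1 * ((as p, cs p / as p) : ℂ × ℂ).2 *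
      (starRingEnd ℂ) (e : ℂ)).re := by
    intro p
    show 0 < (as p * (cs p / as p) * (starRingEnd ℂ) (e : ℂ)).re
    rw [mul_div_cancel₀ _ (has p)]
    exact hcs p
  have hcont_a : Continuous (fun p : unitInterval × cciA e => p.2.1.1.1.1) :=
    continuous_fst.comp (continuous_subtype_val.comp
      (continuous_subtype_val.comp (continuous_subtype_val.comp continuous_snd)))
  have hcont_b : Continuous (fun p : unitInterval × cciA e => p.2.1.1.1.2) :=
    continuous_snd.comp (continuous_subtype_val.comp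
      (continuous_subtype_val.comp (continuous_subtype_val.comp continuous_snd)))
  have hcont_s : Continuous (fun p : unitInterval × cciA e => (p.1 : ℝ)) :=
    continuous_subtype_val.comp continuous_fst
  have hcas : Continuous as := by
    refine hcont_a.mul (Complex.continuous_ofReal.comp ?_)
    refine Continuous.add (Continuous.mul (continuous_const.sub hcont_s) ?_) hcont_s
    exact continuous_const.div (continuous_norm.comp hcont_a)
      (fun p => norm_ne_zero_iff.2 (cci_a_ne e p.2))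
  have hccs : Continuous cs := by
    refine Continuous.add (Continuous.mul ?_ continuous_const) (Continuous.mul ?_ ?_)
    · exact Complex.continuous_ofReal.comp ((continuous_const.sub hcont_s).mul continuous_const)
    · exact Complex.continuous_ofReal.comp hcont_s
    · exact hcont_a.mul hcont_b
  have hhom : (j'.comp q).Homotopic (ContinuousMap.id (cciA e)) := by
    refine ⟨⟨⟨fun p => cciMk e he (as p, cs p / as p) (hab p), ?_⟩, ?_, ?_⟩⟩
    · exact cciMk_cont e he _ _ (hcas.prodMk (hccs.div hcas has))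
    · intro x
      apply cciMk_ext
      have hn : (‖x.1.1.1.1‖ : ℂ) ≠ 0 := by
        rw [Ne, Complex.ofReal_eq_zero, norm_eq_zero]
        exact cci_a_ne e x
      have hx := cci_a_ne e x
      have h1 : as (0, x) = 2 * (x.1.1.1.1 / (‖x.1.1.1.1‖ : ℂ)) := by
        show x.1.1.1.1 * (((1 - ((0 : unitInterval) : ℝ)) * (2 / ‖x.1.1.1.1‖) +
          ((0 : unitInterval) : ℝ) : ℝ) : ℂ) = _
        push_cast
        field_simp
        simp
      have h2 : cs (0, x) = 4 * (e : ℂ) := by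
        show (((1 - ((0 : unitInterval) : ℝ)) * 4 : ℝ) : ℂ) * (e : ℂ) +
          (((0 : unitInterval) : ℝ) : ℂ) * (x.1.1.1.1 * x.1.1.1.2) = _
        push_cast
        simp
      show (as (0, x), cs (0, x) / as (0, x)) =
        ((2 : ℂ) * (q x : Circle), (2 : ℂ) * (e * (q x)⁻¹ : Circle))
      have h3 : ((q x : Circle) : ℂ) = x.1.1.1.1 / (‖x.1.1.1.1‖ : ℂ) := rfl
      rw [Circle.coe_mul, Circle.coe_inv, h3, h1, h2]
      congr 1
      field_simp
      norm_num
    · intro x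
      apply cciMk_ext
      have h1 : as (1, x) = x.1.1.1.1 := by
        show x.1.1.1.1 * (((1 - ((1 : unitInterval) : ℝ)) * (2 / ‖x.1.1.1.1‖) +
          ((1 : unitInterval) : ℝ) : ℝ) : ℂ) = _
        simp
      have h2 : cs (1, x) = x.1.1.1.1 * x.1.1.1.2 := by
        show (((1 - ((1 : unitInterval) : ℝ)) * 4 : ℝ) : ℂ) * (e : ℂ) +
          (((1 : unitInterval) : ℝ) : ℂ) * (x.1.1.1.1 * x.1.1.1.2) = _
        simp
      show (as (1, x), cs (1, x) / as (1, x)) = x.1.1.1
      rw [h1, h2, mul_div_cancel_left₀ _ (cci_a_ne e x)]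
  refine ⟨(sub (cciA e)).comp j', fun z => rfl, fun n α => ⟨hmap q n α, ?_⟩⟩
  rw [hmap_comp, ← hmap_comp q j', hmap_homotopic _ _ hhom, hmap_id]

theorem cci_im (x : ↥(CV ∩ CU)) : (x.1.1.1 * x.1.1.2).im ≠ 0 := by
  intro h0
  have h1 : -(1 + x.1.1.1 * x.1.1.2) ∈ Complex.slitPlane := x.2.1
  have h2 : 1 + x.1.1.1 * x.1.1.2 ∈ Complex.slitPlane := x.2.2
  rw [Complex.mem_slitPlane_iff, Complex.neg_re, Complex.neg_im, Complex.add_im, Complex.one_im,
    zero_add, h0] at h1
  rw [Complex.mem_slitPlane_iff, Complex.add_im, Complex.one_im, zero_add, h0] at h2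
  rcases h1 with h1 | h1
  · rcases h2 with h2 | h2
    · linarith
    · exact h2 rfl
  · exact h1 neg_zero

theorem cci_I (w : ℂ) : (w * (starRingEnd ℂ) ((cI : Circle) : ℂ)).re = w.im := by
  have h : ((cI : Circle) : ℂ) = Complex.I := rfl
  rw [h, Complex.conj_I]
  simp

theorem cci_J (w : ℂ) : (w * (starRingEnd ℂ) ((cJ : Circle) : ℂ)).re = -w.im := by
  have h : ((cJ : Circle) : ℂ) = -Complex.I := rfl
  rw [h, map_neg, Complex.conj_I]
  simp

theorem cc_int : ∃ jP jM : C(Circle, ↥(CV ∩ CU)), IsJe cI jP ∧ IsJe cJ jM ∧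
    ∀ n (d : HH ↥(CV ∩ CU) n), ∃ a b : HH Circle n, d = hmap jP n a + hmap jM n b := by
  obtain ⟨jP, hjP, hP⟩ := cci_piece cI (by
    have h : ((cI : Circle) : ℂ) = Complex.I := rfl
    rw [h, Complex.I_re])
  obtain ⟨jM, hjM, hM⟩ := cci_piece cJ (by
    have h : ((cJ : Circle) : ℂ) = -Complex.I := rfl
    rw [h, Complex.neg_re, Complex.I_re, neg_zero])
  refine ⟨jP, jM, hjP, hjM, fun n d => ?_⟩
  obtain ⟨a, b, h⟩ := (hh_union (cciA cI) (cciA cJ) (cci_open cI) (cci_open cJ)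
    (fun x => by
      have h1 := cci_im x
      rcases lt_or_gt_of_ne h1 with h2 | h2
      · right
        show 0 < ((x.1.1.1 * x.1.1.2) * (starRingEnd ℂ) ((cJ : Circle) : ℂ)).re
        rw [cci_J]
        linarith
      · left
        show 0 < ((x.1.1.1 * x.1.1.2) * (starRingEnd ℂ) ((cI : Circle) : ℂ)).re
        rw [cci_I]
        exact h2)
    (fun x hx => by
      have h1 : 0 < ((x.1.1.1 * x.1.1.2) * (starRingEnd ℂ) ((cI : Circle) : ℂ)).re := hx.1
      have h2 : 0 < ((x.1.1.1 * x.1.1.2) * (starRingEnd ℂ) ((cJ : Circle) : ℂ)).re := hx.2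
      rw [cci_I] at h1
      rw [cci_J] at h2
      linarith) n).1 d
  obtain ⟨a', ha⟩ := hP n a
  obtain ⟨b', hb⟩ := hM n b
  exact ⟨a', b', by rw [h, ha, hb]⟩

end Pool.Agent.Helper534.LS
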