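import Pool.Agent.Helper534.LS.Defs
import Pool.Agent.Helper534.LS.P_hmap_comp
import Pool.Agent.Helper534.LS.P_hmap_id
import Pool.Agent.Helper534.LS.P_tor_vanish
import Pool.Agent.Helper534.LS.P_tor_gen

open MeasureTheory

namespace Pool.Agent.Helper534.LS



theorem circle_hh : ∃ (e : C(T1, Circle)), (∀ p, e p = p.1) ∧
    (∀ n (x : HH Circle (n + 2)), x = 0) ∧ (∀ x : HH Circle 1, ∃ m : ℤ, x = m • hmap e 1 tor1) := by
  obtain ⟨e, he⟩ : ∃ e : C(T1, Circle), ∀ p, e p = p.1 :=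
    ⟨⟨fun p => p.1, continuous_fst⟩, fun p => rfl⟩
  obtain ⟨i, hi⟩ : ∃ i : C(Circle, T1), ∀ z, i z = (z, ()) :=
    ⟨⟨fun z => (z, ()), by fun_prop⟩, fun z => rfl⟩
  have hei : e.comp i = ContinuousMap.id Circle := by
    ext z
    rw [ContinuousMap.comp_apply, hi, he, ContinuousMap.id_apply]
  have hx : ∀ (n : ℕ) (x : HH Circle n), x = hmap e n (hmap i n x) := by
    intro n x
    rw [← hmap_comp, hei, hmap_id]
  refine ⟨e, he, fun n x => ?_, fun x => ?_⟩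
  · rw [hx _ x, (tor_vanish n).2.1 (hmap i (n + 2) x), map_zero]
  · obtain ⟨m, hm⟩ := tor_gen.1 (hmap i 1 x)
    refine ⟨m, ?_⟩
    rw [hx _ x, hm, map_smul]

end Pool.Agent.Helper534.LS
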