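import Pool.Agent.Helper534.LS.Defs
import Pool.Agent.Helper534.LS.P_hmap_comp
import Pool.Agent.Helper534.LS.P_mv_nat
import Pool.Agent.Helper534.LS.P_circ_cov
import Pool.Agent.Helper534.LS.P_sig_spec
import Pool.Agent.Helper534.LS.P_cc_cov

open MeasureTheory

namespace Pool.Agent.Helper534.LS



theorem circ_real_aux (s : Circle) (h : (s : ℂ).im = 0) : (s : ℂ) = 1 ∨ (s : ℂ) = -1 := by
  have h1 := Circle.normSq_coe s
  rw [Complex.normSq_apply, h] at h1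
  have h2 : ((s : ℂ).re - 1) * ((s : ℂ).re + 1) = 0 := by linarith
  rcases mul_eq_zero.1 h2 with h3 | h3
  · left
    apply Complex.ext
    · simp; linarith
    · simp [h]
  · right
    apply Complex.ext
    · simp; linarith
    · simp [h]

theorem tC_prod_aux (z s : Circle) :
    ((2 : ℂ) * (z : ℂ)) * ((2 : ℂ) * ((s * z⁻¹ : Circle) : ℂ)) = 4 * (s : ℂ) := by
  have h : (z : ℂ) * ((s * z⁻¹ : Circle) : ℂ) = (s : ℂ) := by
    rw [← Circle.coe_mul]
    congr 1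
    rw [mul_comm s, mul_inv_cancel_left]
  calc ((2 : ℂ) * (z : ℂ)) * ((2 : ℂ) * ((s * z⁻¹ : Circle) : ℂ))
      = 4 * ((z : ℂ) * ((s * z⁻¹ : Circle) : ℂ)) := by ring
    _ = 4 * (s : ℂ) := by rw [h]

theorem tC_CV_aux (tC : C(T2, CC2)) (h : IsTC tC) (x : T2) (hx : x ∈ cU T1) : tC x ∈ CV := by
  change -(1 + (tC x).1.1 * (tC x).1.2) ∈ Complex.slitPlane
  rw [h x]
  simp only
  rw [tC_prod_aux, Complex.mem_slitPlane_iff]
  by_cases hi : ((x.1 : Circle) : ℂ).im = 0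
  · left
    rcases circ_real_aux x.1 hi with h1 | h1
    · exact absurd h1 hx
    · rw [h1]
      norm_num
  · right
    simpa using hi

theorem tC_CU_aux (tC : C(T2, CC2)) (h : IsTC tC) (x : T2) (hx : x ∈ cV T1) : tC x ∈ CU := by
  change 1 + (tC x).1.1 * (tC x).1.2 ∈ Complex.slitPlane
  rw [h x]
  simp only
  rw [tC_prod_aux, Complex.mem_slitPlane_iff]
  by_cases hi : ((x.1 : Circle) : ℂ).im = 0
  · left
    rcases circ_real_aux x.1 hi with h1 | h1
    · rw [h1]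
      norm_num
    · exact absurd h1 hx
  · right
    simpa using hi

theorem tC_delta (tC) (h : IsTC tC) (jP jM : C(Circle, ↥(CV ∩ CU))) (hP : IsJe cI jP)
    (hM : IsJe cJ jM) (e : C(T1, Circle)) (he : ∀ p, e p = p.1) :
    delta CV CU 1 (hmap tC 2 tor2) = hmap jP 1 (hmap e 1 tor1) - hmap jM 1 (hmap e 1 tor1) := by
  obtain ⟨o1, o2, o3⟩ := circ_cov T1
  obtain ⟨c1, c2, c3⟩ := cc_cov
  let t' : C(↥(cU T1 ∩ cV T1), ↥(CV ∩ CU)) :=
    ⟨fun x => ⟨tC x.1, tC_CV_aux tC h x.1 x.2.1, tC_CU_aux tC h x.1 x.2.2⟩,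
      Continuous.subtype_mk (tC.continuous.comp continuous_subtype_val) _⟩
  have h1 := mv_nat (cU T1) (cV T1) o1 o2 o3 CV CU c1 c2 c3 tC (tC_CV_aux tC h)
    (tC_CU_aux tC h) t' (fun x => rfl) 1 (sig T1 1 tor1)
  have h2 : delta CV CU 1 (hmap tC 2 tor2) = hmap t' 1 (delta (cU T1) (cV T1) 1 (sig T1 1 tor1)) :=
    h1
  rw [h2, (sig_spec T1 1 tor1).2, map_sub, ← hmap_comp, ← hmap_comp, ← hmap_comp, ← hmap_comp]
  have e1 : t'.comp (kP T1) = jP.comp e := by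
    ext1 q
    apply Subtype.ext
    apply Subtype.ext
    change (tC (cI, q)).1 = (jP (e q)).1.1
    rw [h, hP, he]
  have e2 : t'.comp (kM T1) = jM.comp e := by
    ext1 q
    apply Subtype.ext
    apply Subtype.ext
    change (tC (cJ, q)).1 = (jM (e q)).1.1
    rw [h, hM, he]
  rw [e1, e2]

end Pool.Agent.Helper534.LS
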