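import Pool.Agent.Helper534.LS.Defs
import Pool.Agent.Helper534.LS.P_hmap_comp
import Pool.Agent.Helper534.LS.P_hmap_id
import Pool.Agent.Helper534.LS.P_mv_exact1
import Pool.Agent.Helper534.LS.P_mv_delta_inl
import Pool.Agent.Helper534.LS.P_cc_cov
import Pool.Agent.Helper534.LS.P_cc_U
import Pool.Agent.Helper534.LS.P_cc_V
import Pool.Agent.Helper534.LS.P_cc_int
import Pool.Agent.Helper534.LS.P_circle_hh
import Pool.Agent.Helper534.LS.P_tC_delta

open MeasureTheory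

namespace Pool.Agent.Helper534.LS



theorem cc_gen (tC) (h : IsTC tC) (x : HH CC2 2) : ∃ m : ℤ, x = m • hmap tC 2 tor2 := by
  obtain ⟨hCV, hCU, hcov⟩ := cc_cov
  obtain ⟨r, hr, hrb⟩ := cc_V
  obtain ⟨jP, jM, hjP, hjM, hgen⟩ := cc_int
  obtain ⟨e, he, hc2, hc1⟩ := circle_hh
  obtain ⟨a, b, hd⟩ := hgen 1 (delta CV CU 1 x)
  have hinl := (mv_delta_inl CV CU hCV hCU hcov 1 x).1
  have cP : ∀ (ε : Circle) (j : C(Circle, ↥(CV ∩ CU))), IsJe ε j →
      (r.comp ((inl CV CU).comp j)) = ContinuousMap.id Circle := by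
    intro ε j hj
    refine ContinuousMap.ext fun z => Circle.ext ?_
    change ((r ((inl CV CU) (j z)) : Circle) : ℂ) = (z : ℂ)
    rw [hr]
    have h1 : ((inl CV CU) (j z)).1.1.1 = (2 : ℂ) * (z : Circle) := congrArg Prod.fst (hj z)
    rw [h1, norm_mul, Circle.norm_coe]
    simp
  have hX : ∀ (ε : Circle) (j : C(Circle, ↥(CV ∩ CU))), IsJe ε j → ∀ a : HH Circle 1,
      hmap r 1 (hmap (inl CV CU) 1 (hmap j 1 a)) = a := by
    intro ε j hj a
    rw [← hmap_comp, ← hmap_comp, ContinuousMap.comp_assoc, cP ε j hj, hmap_id]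
  have hab : a + b = 0 := by
    have h2 : hmap r 1 (hmap (inl CV CU) 1 (delta CV CU 1 x)) = 0 := by rw [hinl, map_zero]
    rw [hd, map_add, map_add, hX cI jP hjP a, hX cJ jM hjM b] at h2
    exact h2
  obtain ⟨m, hm⟩ := hc1 a
  have hb : b = - (m • hmap e 1 tor1) := by
    rw [← hm]
    exact eq_neg_of_add_eq_zero_right hab
  have hdel : delta CV CU 1 (hmap tC 2 tor2) =
      hmap jP 1 (hmap e 1 tor1) - hmap jM 1 (hmap e 1 tor1) := tC_delta tC h jP jM hjP hjM e he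
  have h0 : delta CV CU 1 (x - m • hmap tC 2 tor2) = 0 := by
    rw [map_sub, map_smul, hd, hm, hb, map_neg, map_smul, map_smul]
    erw [hdel]
    rw [smul_sub]
    abel
  obtain ⟨u, v, huv⟩ := mv_exact1 CV CU hCV hCU hcov 1 _ h0
  have hv : v = 0 := cc_U 1 v
  have hu : u = 0 := by
    apply (hrb 2).1
    rw [map_zero]
    exact hc2 0 _
  refine ⟨m, ?_⟩
  rw [hu, hv, map_zero, map_zero, add_zero] at huv
  exact sub_eq_zero.mp huv

end Pool.Agent.Helper534.LS
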