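import Pool.Agent.Helper534.LS.Defs
import Pool.Agent.Helper534.LS.P_mv_exact1
import Pool.Agent.Helper534.LS.P_cc_cov
import Pool.Agent.Helper534.LS.P_cc_U
import Pool.Agent.Helper534.LS.P_cc_V
import Pool.Agent.Helper534.LS.P_cc_int
import Pool.Agent.Helper534.LS.P_circle_hh

open MeasureTheory

namespace Pool.Agent.Helper534.LS



theorem cc_vanish (n : ℕ) (x : HH CC2 (n + 3)) : x = 0 := by
  obtain ⟨hV, hU, hcov⟩ := cc_cov
  obtain ⟨e, -, hc, -⟩ := circle_hh
  obtain ⟨r, -, hr⟩ := cc_V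
  obtain ⟨jP, jM, -, -, hint⟩ := cc_int
  have h1 : delta CV CU (n + 2) x = 0 := by
    obtain ⟨a, b, hab⟩ := hint (n + 2) (delta CV CU (n + 2) x)
    rw [hab, hc n a, hc n b, map_zero, map_zero, add_zero]
  obtain ⟨u, v, huv⟩ := mv_exact1 CV CU hV hU hcov (n + 2) x h1
  have hu : u = 0 := by
    apply (hr (n + 2 + 1)).1
    rw [map_zero]
    exact hc (n + 1) _
  have hv : v = 0 := cc_U (n + 2) v
  rw [huv, hu, hv, map_zero, map_zero, add_zero]

end Pool.Agent.Helper534.LS
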