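import Pool.Agent.Helper534.LS.Defs
import Pool.Agent.Helper534.LS.P_toS2_val
import Pool.Agent.Helper534.LS.P_toS2_cont

open MeasureTheory

namespace Pool.Agent.Helper534.LS



theorem q3_dt (x y : S2) : dt x y = (x : E3) 0 * (y : E3) 0 + (x : E3) 1 * (y : E3) 1
    + (x : E3) 2 * (y : E3) 2 := by
  unfold dt
  rw [PiLp.inner_apply, Fin.sum_univ_three]
  simp only [RCLike.inner_apply, conj_trivial]
  ring

theorem q3_norm (x : S2) : (x : E3) 0 ^ 2 + (x : E3) 1 ^ 2 + (x : E3) 2 ^ 2 = 1 := by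
  have h := mem_sphere_zero_iff_norm.mp x.2
  rw [EuclideanSpace.norm_eq, Real.sqrt_eq_one, Fin.sum_univ_three] at h
  simpa using h

theorem q3_norm1 (v : E3) (h : v 0 ^ 2 + v 1 ^ 2 + v 2 ^ 2 = 1) : v ∈ Metric.sphere (0 : E3) 1 := by
  rw [mem_sphere_zero_iff_norm, EuclideanSpace.norm_eq, Real.sqrt_eq_one, Fin.sum_univ_three]
  simpa using h

/-- stereographic projection -/
noncomputable def q3_st (x : S2) : ℂ :=
  (((x : E3) 0 / (1 + (x : E3) 2) : ℝ) : ℂ) + (((x : E3) 1 / (1 + (x : E3) 2) : ℝ) : ℂ) * Complex.I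

theorem q3_st_re (x : S2) : (q3_st x).re = (x : E3) 0 / (1 + (x : E3) 2) := by
  unfold q3_st
  rw [Complex.add_re, Complex.ofReal_re, Complex.mul_re, Complex.ofReal_re, Complex.ofReal_im,
    Complex.I_re, Complex.I_im]
  ring

theorem q3_st_im (x : S2) : (q3_st x).im = (x : E3) 1 / (1 + (x : E3) 2) := by
  unfold q3_st
  rw [Complex.add_im, Complex.ofReal_im, Complex.mul_im, Complex.ofReal_re, Complex.ofReal_im,
    Complex.I_re, Complex.I_im]
  ring

/-- squared norm -/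
noncomputable def q3_n (w : ℂ) : ℝ := w.re ^ 2 + w.im ^ 2

theorem q3_n_nonneg (w : ℂ) : 0 ≤ q3_n w := by unfold q3_n; positivity

/-- the inverse of the stereographic projection, as a vector -/
noncomputable def q3_v (w : ℂ) : E3 :=
  !₂[2 * w.re / (1 + q3_n w), 2 * w.im / (1 + q3_n w), (1 - q3_n w) / (1 + q3_n w)]

theorem q3_v0 (w : ℂ) : q3_v w 0 = 2 * w.re / (1 + q3_n w) := rfl
theorem q3_v1 (w : ℂ) : q3_v w 1 = 2 * w.im / (1 + q3_n w) := rfl
theorem q3_v2 (w : ℂ) : q3_v w 2 = (1 - q3_n w) / (1 + q3_n w) := rfl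

theorem q3_v_mem (w : ℂ) : q3_v w ∈ Metric.sphere (0 : E3) 1 := by
  apply q3_norm1
  rw [q3_v0, q3_v1, q3_v2]
  have h := q3_n_nonneg w
  have h2 : 1 + q3_n w ≠ 0 := by positivity
  field_simp
  unfold q3_n
  ring

/-- the inverse of the stereographic projection -/
noncomputable def q3_I (w : ℂ) : S2 := ⟨q3_v w, q3_v_mem w⟩

theorem q3_I_val (w : ℂ) : ((q3_I w : S2) : E3) = q3_v w := rfl

theorem q3_ext (x y : S2) (h0 : (x : E3) 0 = (y : E3) 0) (h1 : (x : E3) 1 = (y : E3) 1)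
    (h2 : (x : E3) 2 = (y : E3) 2) : x = y := by
  apply Subtype.ext
  ext i
  fin_cases i
  · exact h0
  · exact h1
  · exact h2

theorem q3_I_st (x : S2) (h : -1 < (x : E3) 2) : q3_I (q3_st x) = x := by
  have hx := q3_norm x
  have h1 : 1 + (x : E3) 2 ≠ 0 := by linarith
  have hn : q3_n (q3_st x) = (1 - (x : E3) 2) / (1 + (x : E3) 2) := by
    unfold q3_n
    rw [q3_st_re, q3_st_im]
    field_simp
    nlinarith
  have hn1 : 1 + q3_n (q3_st x) = 2 / (1 + (x : E3) 2) := by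
    rw [hn]
    field_simp
    ring
  have hn2 : 1 - q3_n (q3_st x) = 2 * (x : E3) 2 / (1 + (x : E3) 2) := by
    rw [hn]
    field_simp
    ring
  apply q3_ext
  · rw [q3_I_val, q3_v0, hn1, q3_st_re]
    field_simp
  · rw [q3_I_val, q3_v1, hn1, q3_st_im]
    field_simp
  · rw [q3_I_val, q3_v2, hn1, hn2]
    field_simp

theorem q3_one_add (w : ℂ) : 1 + ((q3_I w : S2) : E3) 2 = 2 / (1 + q3_n w) := by
  have h := q3_n_nonneg w
  rw [q3_I_val, q3_v2]
  field_simp
  ring

theorem q3_gt (w : ℂ) : -1 < ((q3_I w : S2) : E3) 2 := by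
  have h := q3_n_nonneg w
  have h1 := q3_one_add w
  have h2 : 0 < 2 / (1 + q3_n w) := by positivity
  linarith

theorem q3_st_I (w : ℂ) : q3_st (q3_I w) = w := by
  have h := q3_n_nonneg w
  have h2 : 1 + q3_n w ≠ 0 := by positivity
  apply Complex.ext
  · rw [q3_st_re, q3_one_add, q3_I_val, q3_v0]
    field_simp
  · rw [q3_st_im, q3_one_add, q3_I_val, q3_v1]
    field_simp

theorem q3_dt_I (a b : ℂ) : 1 + dt (q3_I a) (q3_I b) =
    2 * Complex.normSq (1 + a * (starRingEnd ℂ) b) / ((1 + q3_n a) * (1 + q3_n b)) := by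
  have ha := q3_n_nonneg a
  have hb := q3_n_nonneg b
  have ha2 : 1 + q3_n a ≠ 0 := by positivity
  have hb2 : 1 + q3_n b ≠ 0 := by positivity
  rw [q3_dt, q3_I_val, q3_I_val, q3_v0, q3_v1, q3_v2, q3_v0, q3_v1, q3_v2,
    Complex.normSq_apply]
  field_simp
  simp only [Complex.add_re, Complex.add_im, Complex.one_re, Complex.one_im, Complex.mul_re,
    Complex.mul_im, Complex.conj_re, Complex.conj_im]
  unfold q3_n
  ring

theorem q3_dt_iff (a b : ℂ) : -1 < dt (q3_I a) (q3_I b) ↔ a * (starRingEnd ℂ) b ≠ -1 := by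
  have ha := q3_n_nonneg a
  have hb := q3_n_nonneg b
  have h := q3_dt_I a b
  constructor
  · intro h1 h2
    rw [h2] at h
    simp at h
    linarith
  · intro h1
    have h3 : 1 + a * (starRingEnd ℂ) b ≠ 0 := by
      intro h0
      apply h1
      linear_combination h0
    have h4 : 0 < Complex.normSq (1 + a * (starRingEnd ℂ) b) := Complex.normSq_pos.mpr h3
    have h5 : 0 < 2 * Complex.normSq (1 + a * (starRingEnd ℂ) b) /
        ((1 + q3_n a) * (1 + q3_n b)) := by positivity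
    linarith

theorem q3_nP (x : S2) : dt nP x = (x : E3) 2 := by
  rw [q3_dt]
  simp [nP]

theorem q3_nP' (x : S2) : dt x nP = (x : E3) 2 := by
  rw [q3_dt]
  simp [nP]

theorem q3_lat (z : Circle) : q3_st (lat z) = 2 * (z : ℂ) := by
  have hz : (z : ℂ).re * (z : ℂ).re + (z : ℂ).im * (z : ℂ).im = 1 := by
    have := Circle.normSq_coe z
    rwa [Complex.normSq_apply] at this
  have hn : ‖(!₂[4 * (z : ℂ).re, 4 * (z : ℂ).im, -3] : E3)‖ = 5 := by
    rw [EuclideanSpace.norm_eq, Real.sqrt_eq_iff_mul_self_eq (by positivity) (by norm_num),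
      Fin.sum_univ_three]
    simp only [Real.norm_eq_abs, sq_abs, Matrix.cons_val_zero, Matrix.cons_val_one,
      Matrix.cons_val]
    nlinarith
  have hne : (!₂[4 * (z : ℂ).re, 4 * (z : ℂ).im, -3] : E3) ≠ 0 := by
    intro h0
    rw [h0, norm_zero] at hn
    norm_num at hn
  have hv : ((lat z : S2) : E3) = (5 : ℝ)⁻¹ • !₂[4 * (z : ℂ).re, 4 * (z : ℂ).im, -3] := by
    unfold lat toS2
    rw [dif_neg hne]
    show ‖(!₂[4 * (z : ℂ).re, 4 * (z : ℂ).im, -3] : E3)‖⁻¹ • _ = _
    rw [hn]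
  have h0 : ((lat z : S2) : E3) 0 = 4 / 5 * (z : ℂ).re := by
    rw [hv]
    simp
    ring
  have h1 : ((lat z : S2) : E3) 1 = 4 / 5 * (z : ℂ).im := by
    rw [hv]
    simp
    ring
  have h2 : ((lat z : S2) : E3) 2 = -3 / 5 := by
    rw [hv]
    simp
    ring
  apply Complex.ext
  · rw [q3_st_re, h0, h2]
    simp
    ring
  · rw [q3_st_im, h1, h2]
    simp
    ring

theorem q3_st_cont {Z : Type} [TopologicalSpace Z] (g : Z → S2) (hg : Continuous g)
    (h : ∀ z, -1 < (g z : E3) 2) : Continuous (fun z => q3_st (g z)) := by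
  have hc : ∀ i : Fin 3, Continuous (fun z => (g z : E3) i) := fun i =>
    (EuclideanSpace.proj (𝕜 := ℝ) i).continuous.comp (continuous_subtype_val.comp hg)
  unfold q3_st
  refine Continuous.add ?_ (Continuous.mul ?_ continuous_const)
  · exact Complex.continuous_ofReal.comp ((hc 0).div (continuous_const.add (hc 2))
      (fun z => by have := h z; linarith))
  · exact Complex.continuous_ofReal.comp ((hc 1).div (continuous_const.add (hc 2))
      (fun z => by have := h z; linarith))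

theorem q3_I_cont : Continuous q3_I := by
  have hn : Continuous q3_n := by unfold q3_n; fun_prop
  have h1 : ∀ w, 1 + q3_n w ≠ 0 := fun w => by have := q3_n_nonneg w; positivity
  refine Continuous.subtype_mk ?_ _
  refine (PiLp.continuous_toLp 2 (fun _ : Fin 3 => ℝ)).comp (continuous_pi fun i => ?_)
  fin_cases i
  · exact (continuous_const.mul Complex.continuous_re).div (continuous_const.add hn) h1
  · exact (continuous_const.mul Complex.continuous_im).div (continuous_const.add hn) h1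
  · exact (continuous_const.sub hn).div (continuous_const.add hn) h1

theorem q3_mem1 (x : Q3) : -1 < (x.1.1 : E3) 2 := by
  have := x.2.1
  rwa [q3_nP] at this

theorem q3_mem2 (x : Q3) : -1 < (x.1.2 : E3) 2 := by
  have := x.2.2.2
  rwa [q3_nP'] at this

theorem q3_ne (x : Q3) : q3_st x.1.1 * (starRingEnd ℂ) (q3_st x.1.2) ≠ -1 := by
  rw [← q3_dt_iff, q3_I_st _ (q3_mem1 x), q3_I_st _ (q3_mem2 x)]
  exact x.2.2.1

theorem q3_homeo : ∃ (h : C(Q3, CC2)) (h' : C(CC2, Q3)), (∀ x, h' (h x) = x) ∧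
    (∀ y, h (h' y) = y) ∧ ∀ tQ, IsTQ tQ → IsTC (h.comp tQ) := by
  let h : C(Q3, CC2) := ⟨fun x => ⟨(q3_st x.1.1, (starRingEnd ℂ) (q3_st x.1.2)), q3_ne x⟩, by
    refine Continuous.subtype_mk ?_ _
    refine Continuous.prodMk ?_ ?_
    · exact q3_st_cont _ (by fun_prop) q3_mem1
    · exact Complex.continuous_conj.comp (q3_st_cont _ (by fun_prop) q3_mem2)⟩
  let h' : C(CC2, Q3) := ⟨fun p => ⟨(q3_I p.1.1, q3_I ((starRingEnd ℂ) p.1.2)), by
      refine ⟨?_, ?_, ?_⟩
      · rw [q3_nP]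
        exact q3_gt _
      · rw [q3_dt_iff, Complex.conj_conj]
        exact p.2
      · rw [q3_nP']
        exact q3_gt _⟩, by
    refine Continuous.subtype_mk ?_ _
    refine Continuous.prodMk ?_ ?_
    · exact q3_I_cont.comp (by fun_prop)
    · exact q3_I_cont.comp (Complex.continuous_conj.comp (by fun_prop))⟩
  refine ⟨h, h', ?_, ?_, ?_⟩
  · intro x
    apply Subtype.ext
    apply Prod.ext
    · exact q3_I_st _ (q3_mem1 x)
    · show q3_I ((starRingEnd ℂ) ((starRingEnd ℂ) (q3_st x.1.2))) = x.1.2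
      rw [Complex.conj_conj]
      exact q3_I_st _ (q3_mem2 x)
  · intro y
    apply Subtype.ext
    apply Prod.ext
    · exact q3_st_I _
    · show (starRingEnd ℂ) (q3_st (q3_I ((starRingEnd ℂ) y.1.2))) = y.1.2
      rw [q3_st_I, Complex.conj_conj]
  · intro tQ htQ p
    show (q3_st (tQ p).1.1, (starRingEnd ℂ) (q3_st (tQ p).1.2)) = _
    rw [htQ p]
    show (q3_st (lat p.2.1), (starRingEnd ℂ) (q3_st (lat (p.1⁻¹ * p.2.1)))) = _
    rw [q3_lat, q3_lat, map_mul, ← Circle.coe_inv_eq_conj, mul_inv, inv_inv]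
    simp [map_ofNat]

end Pool.Agent.Helper534.LS
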