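import Pool.Agent.Helper534.LS.Defs
import Pool.Agent.Helper534.LS.P_hmap_comp
import Pool.Agent.Helper534.LS.P_hmap_id
import Pool.Agent.Helper534.LS.P_q3_homeo
import Pool.Agent.Helper534.LS.P_cc_vanish
import Pool.Agent.Helper534.LS.P_cc_gen

open MeasureTheory

namespace Pool.Agent.Helper534.LS



theorem q3_facts : (∀ n (x : HH Q3 (n + 3)), x = 0) ∧
    ∀ tQ, IsTQ tQ → ∀ x : HH Q3 2, ∃ m : ℤ, x = m • hmap tQ 2 tor2 := by
  obtain ⟨h, h', h1, h2, h3⟩ := q3_homeo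
  have hcomp : h'.comp h = ContinuousMap.id Q3 := ContinuousMap.ext h1
  have key : ∀ n (x : HH Q3 n), hmap h' n (hmap h n x) = x := by
    intro n x
    rw [← hmap_comp, hcomp, hmap_id]
  constructor
  · intro n x
    rw [← key (n + 3) x, cc_vanish n (hmap h (n + 3) x), map_zero]
  · intro tQ htQ x
    obtain ⟨m, hm⟩ := cc_gen (h.comp tQ) (h3 tQ htQ) (hmap h 2 x)
    refine ⟨m, ?_⟩
    rw [← key 2 x, hm, map_zsmul, hmap_comp, key]

end Pool.Agent.Helper534.LS
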