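import Pool.Agent.Helper534.LS.Defs
import Pool.Agent.Helper534.LS.P_toS2_val
import Pool.Agent.Helper534.LS.P_toS2_cont

open MeasureTheory

namespace Pool.Agent.Helper534.LS



theorem circ_sq' (z : Circle) :
    (z : ℂ).re * (z : ℂ).re + (z : ℂ).im * (z : ℂ).im = 1 := by
  have := Circle.normSq_coe z
  rwa [Complex.normSq_apply] at this

theorem lat_norm' (z : Circle) : ‖(!₂[4 * (z : ℂ).re, 4 * (z : ℂ).im, -3] : E3)‖ = 5 := by
  rw [EuclideanSpace.norm_eq, Fin.sum_univ_three]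
  have hz := circ_sq' z
  rw [show (5:ℝ) = Real.sqrt (5^2) by rw [Real.sqrt_sq]; norm_num]
  congr 1
  simp only [Real.norm_eq_abs, sq_abs, Matrix.cons_val_zero, Matrix.cons_val_one, Matrix.cons_val]
  nlinarith

theorem lat_val' (z : Circle) :
    ((lat z : S2) : E3) = !₂[4/5 * (z : ℂ).re, 4/5 * (z : ℂ).im, -3/5] := by
  have hne : (!₂[4 * (z : ℂ).re, 4 * (z : ℂ).im, -3] : E3) ≠ 0 := by
    intro h
    have := congrArg norm h
    rw [lat_norm', norm_zero] at this
    norm_num at this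
  unfold lat toS2
  rw [dif_neg hne]
  change ‖(!₂[4 * (z : ℂ).re, 4 * (z : ℂ).im, -3] : E3)‖⁻¹ •
    (!₂[4 * (z : ℂ).re, 4 * (z : ℂ).im, -3] : E3) = _
  rw [lat_norm']
  ext i
  fin_cases i <;> simp <;> ring

theorem lat_cont' : Continuous lat := by
  refine continuous_induced_rng.mpr ?_
  have : (Subtype.val ∘ lat) = fun z : Circle =>
      (!₂[4/5 * (z : ℂ).re, 4/5 * (z : ℂ).im, -3/5] : E3) := by
    funext z
    exact lat_val' z
  rw [this]
  refine (PiLp.continuous_toLp 2 _).comp (continuous_pi ?_)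
  intro i
  fin_cases i
  · simp; fun_prop
  · simp; fun_prop
  · simp; fun_prop

theorem lat_dt' (a b : Circle) : -1 < dt (lat a) (lat b) := by
  unfold dt
  rw [lat_val', lat_val']
  simp [PiLp.inner_apply, Fin.sum_univ_three]
  have ha := circ_sq' a
  have hb := circ_sq' b
  nlinarith [sq_nonneg ((a : ℂ).re + (b : ℂ).re), sq_nonneg ((a : ℂ).im + (b : ℂ).im)]

theorem lat_nP' (a : Circle) : -1 < dt nP (lat a) := by
  unfold dt
  rw [lat_val']
  simp [nP, PiLp.inner_apply, Fin.sum_univ_three]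
  norm_num

theorem lat_nP'' (a : Circle) : -1 < dt (lat a) nP := by
  unfold dt
  rw [lat_val']
  simp [nP, PiLp.inner_apply, Fin.sum_univ_three]
  norm_num

theorem tQ_exists : ∃ g, IsTQ g := by
  refine ⟨⟨fun p => ⟨(lat p.2.1, lat (p.1⁻¹ * p.2.1)), lat_nP' _, lat_dt' _ _, lat_nP'' _⟩, ?_⟩, ?_⟩
  · refine Continuous.subtype_mk ?_ _
    refine Continuous.prodMk ?_ ?_
    · exact lat_cont'.comp (by fun_prop)
    · exact lat_cont'.comp (by fun_prop)
  · intro p
    rfl

end Pool.Agent.Helper534.LS
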