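import Pool.Agent.Helper534.LS.Defs
import Pool.Agent.Helper534.LS.P_toS2_val
import Pool.Agent.Helper534.LS.P_arc_val
import Pool.Agent.Helper534.LS.P_rinv_val

open MeasureTheory

namespace Pool.Agent.Helper534.LS



theorem rinv_arc_lin (x v w : E3) (a b : ℝ) :
    rinvE x (a • v + b • w) = a • rinvE x v + b • rinvE x w := by
  unfold rinvE
  rw [inner_add_right, inner_smul_right, inner_smul_right, inner_add_right, inner_smul_right,
    inner_smul_right, add_div, mul_div_assoc, mul_div_assoc]
  module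

theorem rinv_arc_smul (x v : E3) (a : ℝ) : rinvE x (a • v) = a • rinvE x v := by
  have := rinv_arc_lin x v v a 0
  rwa [zero_smul, zero_smul, add_zero, add_zero] at this

theorem rinv_arc (x : S2) (hx : -1 < (x : E3) 2) (y z : S2) (h : -1 < dt y z) (τ : ℝ) :
    rinv x (arcS y z τ) = arcS (rinv x y) (rinv x z) τ := by
  obtain ⟨h1, h2, _⟩ := rinv_val x hx
  have h3 : -1 < dt (rinv x y) (rinv x z) := by rw [h2]; exact h
  have h4 : inner ℝ (rinvE x (y : E3)) (rinvE x (z : E3)) = inner ℝ (y : E3) (z : E3) := by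
    have := h2 y z
    unfold dt at this
    rwa [h1, h1] at this
  apply Subtype.ext
  rw [h1, (arc_val y z h τ).1, (arc_val _ _ h3 τ).1, h1, h1]
  unfold arcE
  rw [h4, rinv_arc_smul, rinv_arc_lin]

end Pool.Agent.Helper534.LS
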