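import Pool.Agent.Helper534.LS.Defs
import Pool.Agent.Helper534.LS.P_hmap_comp
import Pool.Agent.Helper534.LS.P_mv_nat
import Pool.Agent.Helper534.LS.P_par_nat
import Pool.Agent.Helper534.LS.P_arc_val
import Pool.Agent.Helper534.LS.P_rinv_val
import Pool.Agent.Helper534.LS.P_rinv_arc
import Pool.Agent.Helper534.LS.P_l_cov

open MeasureTheory

namespace Pool.Agent.Helper534.LS



theorem wg_tri0 (x y z : S2) (h : -1 < dt x y) : tri x y z ((0 : unitInterval) : ℝ) = x := by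
  have h0 : ((0 : unitInterval) : ℝ) = 0 := rfl
  rw [h0, tri, if_pos (by norm_num), mul_zero]
  exact (arc_val x y h 0).2.2.1

theorem wg_rinv_tri (x y z : S2) (hx : -1 < (x : E3) 2) (h1 : -1 < dt x y) (h2 : -1 < dt y z)
    (h3 : -1 < dt z x) (t : ℝ) :
    rinv x (tri x y z t) = tri nP (rinv x y) (rinv x z) t := by
  have hn : rinv x x = nP := (rinv_val x hx).2.2
  unfold tri
  split_ifs
  · rw [rinv_arc x hx x y h1, hn]
  · rw [rinv_arc x hx y z h2]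
  · rw [rinv_arc x hx z x h3, hn]

theorem w_g (g) (hg : IsG g) (gQ) (hgQ : IsGQ gQ) (bL) (hbL : IsBL bL) (bP) (hbP : IsBP bP)
    (p : HH P3 4) : wL bL (hmap g 4 p) = hmap gQ 2 (wP bP p) := by
  have hg0 : ∀ x : P3, (g x).1 0 = x.1.1 := by
    intro x
    rw [hg x 0]
    exact wg_tri0 _ _ _ x.2.1
  have hLN : ∀ x ∈ PN, g x ∈ LN := by
    intro x hx
    show -1 < (((g x).1 0 : S2) : E3) 2
    rw [hg0]; exact hx
  have hLZ : ∀ x ∈ PZ, g x ∈ LZ := by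
    intro x hx
    show (((g x).1 0 : S2) : E3) 2 < 1
    rw [hg0]; exact hx
  let g' : C(↥(PN ∩ PZ), ↥(LN ∩ LZ)) :=
    ⟨fun x => ⟨g x.1, hLN _ x.2.1, hLZ _ x.2.2⟩, by fun_prop⟩
  have hg' : ∀ x, (g' x : LL) = g x := fun x => rfl
  obtain ⟨⟨hL1, hL2, hL3⟩, ⟨hP1, hP2, hP3⟩, -⟩ := l_cov
  have e1 := mv_nat PN PZ hP1 hP2 hP3 LN LZ hL1 hL2 hL3 g hLN hLZ g' hg' 3 p
  have e2 : bL.comp g' = (idx gQ).comp bP := by
    ext1 x
    show bL (g' x) = ((bP x).1, gQ (bP x).2)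
    have hx0 : (g' x).1.1 0 = x.1.1.1 := hg0 x.1
    refine Prod.ext ?_ ?_
    · rw [(hbL (g' x)).1, hx0]
      exact (hbP x).1.symm
    · apply Subtype.ext
      ext1 t
      rw [(hbL (g' x)).2 t, hx0]
      have h1 : (g' x).1.1 t = tri x.1.1.1 x.1.1.2.1 x.1.1.2.2 t := hg x.1 t
      rw [h1]
      show _ = (gQ (bP x).2).1 t
      rw [hgQ (bP x).2 t, (hbP x).2]
      exact wg_rinv_tri _ _ _ x.2.1 x.1.2.1 x.1.2.2.1 x.1.2.2.2 t
  unfold wL wP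
  have e1' : delta LN LZ 3 (hmap g 4 p) = hmap g' 3 (delta PN PZ 3 p) := e1
  rw [e1', ← hmap_comp, e2, hmap_comp]
  exact par_nat gQ 2 _

end Pool.Agent.Helper534.LS
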