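import Pool.Agent.Helper534.LS.Defs
import Pool.Agent.Helper534.LS.P_toS2_val
import Pool.Agent.Helper534.LS.P_toS2_cont
import Pool.Agent.Helper534.LS.P_rinv_val

open MeasureTheory

namespace Pool.Agent.Helper534.LS



theorem h355_inner (v w : E3) : inner ℝ v w = v 0 * w 0 + v 1 * w 1 + v 2 * w 2 := by
  rw [PiLp.inner_apply, Fin.sum_univ_three]
  simp only [RCLike.inner_apply, conj_trivial]
  ring

theorem h355_nP : ((nP : S2) : E3) 0 = 0 ∧ ((nP : S2) : E3) 1 = 0 ∧ ((nP : S2) : E3) 2 = 1 := by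
  simp [nP]

theorem h355_unit (x : S2) : (x : E3) 0 * (x : E3) 0 + (x : E3) 1 * (x : E3) 1
    + (x : E3) 2 * (x : E3) 2 = 1 := by
  rw [← h355_inner, real_inner_self_eq_norm_sq, mem_sphere_zero_iff_norm.mp x.2]
  norm_num

/-- coordinates of the inverse rotation -/
noncomputable def h355FE (x v : E3) : E3 :=
  !₂[v 0 - (x 0 * v 0 + x 1 * v 1) / (1 + x 2) * x 0 + v 2 * x 0,
    v 1 - (x 0 * v 0 + x 1 * v 1) / (1 + x 2) * x 1 + v 2 * x 1,
    x 2 * v 2 - (x 0 * v 0 + x 1 * v 1)]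

theorem h355_FE_coord (x v : E3) :
    h355FE x v 0 = v 0 - (x 0 * v 0 + x 1 * v 1) / (1 + x 2) * x 0 + v 2 * x 0 ∧
    h355FE x v 1 = v 1 - (x 0 * v 0 + x 1 * v 1) / (1 + x 2) * x 1 + v 2 * x 1 ∧
    h355FE x v 2 = x 2 * v 2 - (x 0 * v 0 + x 1 * v 1) := by
  simp [h355FE]

theorem h355_rinvE_coord (x v : E3) (hx : 1 + x 2 ≠ 0) :
    rinvE x v 0 = v 0 - (x 0 * v 0 + x 1 * v 1) / (1 + x 2) * x 0 - v 2 * x 0 ∧
    rinvE x v 1 = v 1 - (x 0 * v 0 + x 1 * v 1) / (1 + x 2) * x 1 - v 2 * x 1 ∧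
    rinvE x v 2 = x 2 * v 2 + (x 0 * v 0 + x 1 * v 1) := by
  obtain ⟨h0, h1, h2⟩ := h355_nP
  have e : ∀ i, rinvE x v i = v i - ((inner ℝ ((nP : E3) + x) v) / (1 + x 2)) *
      (((nP : S2) : E3) i + x i) + (2 * inner ℝ x v) * ((nP : S2) : E3) i := by
    intro i
    simp only [rinvE, PiLp.add_apply, PiLp.sub_apply, PiLp.smul_apply, smul_eq_mul]
  have e2 : inner ℝ ((nP : E3) + x) v = x 0 * v 0 + x 1 * v 1 + (1 + x 2) * v 2 := by
    rw [h355_inner]
    simp only [PiLp.add_apply, h0, h1, h2]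
    ring
  have e3 : inner ℝ x v = x 0 * v 0 + x 1 * v 1 + x 2 * v 2 := h355_inner x v
  refine ⟨?_, ?_, ?_⟩
  · rw [e, e2, e3, h0]
    field_simp
    ring
  · rw [e, e2, e3, h1]
    field_simp
    ring
  · rw [e, e2, e3, h2]
    field_simp
    ring

theorem h355_ext (v w : E3) (h0 : v 0 = w 0) (h1 : v 1 = w 1) (h2 : v 2 = w 2) : v = w := by
  ext i
  fin_cases i
  · exact h0
  · exact h1
  · exact h2

theorem h355_FE_inner (x v w : E3) (hx : x 0 * x 0 + x 1 * x 1 + x 2 * x 2 = 1)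
    (h : 1 + x 2 ≠ 0) : inner ℝ (h355FE x v) (h355FE x w) = inner ℝ v w := by
  obtain ⟨a0, a1, a2⟩ := h355_FE_coord x v
  obtain ⟨b0, b1, b2⟩ := h355_FE_coord x w
  rw [h355_inner, h355_inner, a0, a1, a2, b0, b1, b2]
  have hx' : x 0 * x 0 + x 1 * x 1 = (1 + x 2) * (1 - x 2) := by linarith
  set p := x 0 * v 0 + x 1 * v 1 with hp
  set q := x 0 * w 0 + x 1 * w 1 with hq
  have hp' : p / (1 + x 2) * (1 + x 2) = p := div_mul_cancel₀ _ h
  have hq' : q / (1 + x 2) * (1 + x 2) = q := div_mul_cancel₀ _ h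
  set P := p / (1 + x 2)
  set Q := q / (1 + x 2)
  have key : (v 0 - P * x 0 + v 2 * x 0) * (w 0 - Q * x 0 + w 2 * x 0)
      + (v 1 - P * x 1 + v 2 * x 1) * (w 1 - Q * x 1 + w 2 * x 1)
      = v 0 * w 0 + v 1 * w 1 + (v 2 - P) * q + (w 2 - Q) * p
        + (v 2 - P) * (w 2 - Q) * (x 0 * x 0 + x 1 * x 1) := by
    rw [hp, hq]
    ring
  have : (v 0 - P * x 0 + v 2 * x 0) * (w 0 - Q * x 0 + w 2 * x 0)
      + (v 1 - P * x 1 + v 2 * x 1) * (w 1 - Q * x 1 + w 2 * x 1)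
      + (x 2 * v 2 - p) * (x 2 * w 2 - q)
      = v 0 * w 0 + v 1 * w 1 + v 2 * w 2 := by
    rw [key, hx', ← hp', ← hq']
    ring
  linarith

theorem h355_FE_norm (x v : S2) (h : -1 < (x : E3) 2) : ‖h355FE x v‖ = 1 := by
  have h1 := h355_FE_inner x v v (h355_unit x) (by linarith)
  rw [real_inner_self_eq_norm_sq, real_inner_self_eq_norm_sq,
    mem_sphere_zero_iff_norm.mp v.2] at h1
  have h2 := norm_nonneg (h355FE (x : E3) v)
  nlinarith

theorem h355_FE_rinvE (x v : E3) (hx : x 0 * x 0 + x 1 * x 1 + x 2 * x 2 = 1)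
    (h : 1 + x 2 ≠ 0) : h355FE x (rinvE x v) = v := by
  obtain ⟨b0, b1, b2⟩ := h355_rinvE_coord x v h
  obtain ⟨a0, a1, a2⟩ := h355_FE_coord x (rinvE x v)
  have hx' : x 0 * x 0 + x 1 * x 1 = (1 + x 2) * (1 - x 2) := by linarith
  set p := x 0 * v 0 + x 1 * v 1 with hp
  have hp' : p / (1 + x 2) * (1 + x 2) = p := div_mul_cancel₀ _ h
  have hq : x 0 * rinvE x v 0 + x 1 * rinvE x v 1
      = (x 2 * p / (1 + x 2) - v 2 * (1 - x 2)) * (1 + x 2) := by
    have e1 : x 0 * rinvE x v 0 + x 1 * rinvE x v 1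
      = p - (p / (1 + x 2) + v 2) * (x 0 * x 0 + x 1 * x 1) := by
      rw [b0, b1, hp]; ring
    rw [e1, hx']
    field_simp
    ring
  have hq2 : (x 0 * rinvE x v 0 + x 1 * rinvE x v 1) / (1 + x 2)
      = x 2 * p / (1 + x 2) - v 2 * (1 - x 2) := by
    rw [hq, mul_div_cancel_right₀ _ h]
  apply h355_ext
  · rw [a0, hq2, b0, b2]
    field_simp
    ring
  · rw [a1, hq2, b1, b2]
    field_simp
    ring
  · rw [a2, hq, b2]
    field_simp
    ring

theorem h355_rinvE_FE (x v : E3) (hx : x 0 * x 0 + x 1 * x 1 + x 2 * x 2 = 1)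
    (h : 1 + x 2 ≠ 0) : rinvE x (h355FE x v) = v := by
  obtain ⟨b0, b1, b2⟩ := h355_rinvE_coord x (h355FE x v) h
  obtain ⟨a0, a1, a2⟩ := h355_FE_coord x v
  have hx' : x 0 * x 0 + x 1 * x 1 = (1 + x 2) * (1 - x 2) := by linarith
  set p := x 0 * v 0 + x 1 * v 1 with hp
  have hq : x 0 * h355FE x v 0 + x 1 * h355FE x v 1
      = (x 2 * p / (1 + x 2) + v 2 * (1 - x 2)) * (1 + x 2) := by
    have e1 : x 0 * h355FE x v 0 + x 1 * h355FE x v 1
      = p - (p / (1 + x 2) - v 2) * (x 0 * x 0 + x 1 * x 1) := by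
      rw [a0, a1, hp]; ring
    rw [e1, hx']
    field_simp
    ring
  have hq2 : (x 0 * h355FE x v 0 + x 1 * h355FE x v 1) / (1 + x 2)
      = x 2 * p / (1 + x 2) + v 2 * (1 - x 2) := by
    rw [hq, mul_div_cancel_right₀ _ h]
  apply h355_ext
  · rw [b0, hq2, a0, a2]
    field_simp
    ring
  · rw [b1, hq2, a1, a2]
    field_simp
    ring
  · rw [b2, hq, a2]
    field_simp
    ring

theorem h355_F_val (x v : S2) (h : -1 < (x : E3) 2) :
    ((toS2 (h355FE x v) : S2) : E3) = h355FE x v := toS2_val _ (h355_FE_norm x v h)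

theorem rinv_inv : ∃ F : S2 → S2 → S2, (ContinuousOn (fun p : S2 × S2 => F p.1 p.2)
      {p | -1 < (p.1 : E3) 2}) ∧ ∀ x : S2, -1 < (x : E3) 2 → (F x nP = x) ∧
      (∀ y, F x (rinv x y) = y) ∧ (∀ y, rinv x (F x y) = y) ∧
      (∀ y z, dt (F x y) (F x z) = dt y z) := by
  refine ⟨fun x y => toS2 (h355FE x y), ?_, ?_⟩
  · have hc : ContinuousOn (fun p : S2 × S2 => h355FE p.1 p.2) {p | -1 < (p.1 : E3) 2} := by
      have hc0 : ∀ i : Fin 3, Continuous (fun p : S2 × S2 => ((p.1 : S2) : E3) i) := by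
        intro i
        fun_prop
      have hc1 : ∀ i : Fin 3, Continuous (fun p : S2 × S2 => ((p.2 : S2) : E3) i) := by
        intro i
        fun_prop
      have hd : ContinuousOn (fun p : S2 × S2 => (((p.1 : S2) : E3) 0 * ((p.2 : S2) : E3) 0
          + ((p.1 : S2) : E3) 1 * ((p.2 : S2) : E3) 1) / (1 + ((p.1 : S2) : E3) 2))
          {p | -1 < (p.1 : E3) 2} := by
        apply ContinuousOn.div
        · exact (((hc0 0).mul (hc1 0)).add ((hc0 1).mul (hc1 1))).continuousOn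
        · exact (continuous_const.add (hc0 2)).continuousOn
        · intro p hp
          have : -1 < (p.1 : E3) 2 := hp
          linarith
      unfold h355FE
      refine (PiLp.continuous_toLp 2 _).comp_continuousOn ?_
      rw [continuousOn_pi]
      intro i
      fin_cases i
      · exact (((hc1 0).continuousOn.sub (hd.mul (hc0 0).continuousOn)).add
          ((hc1 2).mul (hc0 0)).continuousOn)
      · exact (((hc1 1).continuousOn.sub (hd.mul (hc0 1).continuousOn)).add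
          ((hc1 2).mul (hc0 1)).continuousOn)
      · exact (((hc0 2).mul (hc1 2)).sub
          (((hc0 0).mul (hc1 0)).add ((hc0 1).mul (hc1 1)))).continuousOn
    refine toS2_cont.comp hc ?_
    intro p hp h0
    have h1 := h355_FE_norm p.1 p.2 hp
    have h2 : h355FE (p.1 : E3) (p.2 : E3) = 0 := h0
    rw [h2, norm_zero] at h1
    norm_num at h1
  · intro x hx
    obtain ⟨r1, r2, r3⟩ := rinv_val x hx
    have hu := h355_unit x
    have hne : 1 + (x : E3) 2 ≠ 0 := by linarith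
    refine ⟨?_, ?_, ?_, ?_⟩
    · apply Subtype.ext
      change ((toS2 (h355FE x nP) : S2) : E3) = x
      rw [h355_F_val x nP hx]
      obtain ⟨n0, n1, n2⟩ := h355_nP
      obtain ⟨a0, a1, a2⟩ := h355_FE_coord x nP
      apply h355_ext
      · rw [a0, n0, n1, n2]; simp
      · rw [a1, n0, n1, n2]; simp
      · rw [a2, n0, n1, n2]; simp
    · intro y
      apply Subtype.ext
      change ((toS2 (h355FE x (rinv x y)) : S2) : E3) = y
      rw [h355_F_val x _ hx, r1 y, h355_FE_rinvE _ _ hu hne]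
    · intro y
      apply Subtype.ext
      change ((rinv x (toS2 (h355FE x y)) : S2) : E3) = y
      rw [r1, h355_F_val x _ hx, h355_rinvE_FE _ _ hu hne]
    · intro y z
      change inner ℝ ((toS2 (h355FE x y) : S2) : E3) ((toS2 (h355FE x z) : S2) : E3) = _
      rw [h355_F_val x _ hx, h355_F_val x _ hx, h355_FE_inner _ _ _ hu hne]
      rfl

end Pool.Agent.Helper534.LS
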