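import Pool.Agent.Helper534.LS.Defs
import Pool.Agent.Helper534.LS.P_hmap_comp
import Pool.Agent.Helper534.LS.P_hmap_id
import Pool.Agent.Helper534.LS.P_hmap_homotopic
import Pool.Agent.Helper534.LS.P_toS2_val
import Pool.Agent.Helper534.LS.P_toS2_cont
import Pool.Agent.Helper534.LS.P_mer_facts
import Pool.Agent.Helper534.LS.P_lon_cont
import Pool.Agent.Helper534.LS.P_rinv_val
import Pool.Agent.Helper534.LS.P_rinv_cont
import Pool.Agent.Helper534.LS.P_rinv_inv

open MeasureTheory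

namespace Pool.Agent.Helper534.LS



/-- the sphere without the two poles -/
abbrev bp_bij_A : Type := {x : S2 // -1 < (x : E3) 2 ∧ (x : E3) 2 < 1}

theorem bp_bij_t0_mem (x : bp_bij_A) : 0 < Real.arccos ((x.1 : E3) 2) / Real.pi ∧
    Real.arccos ((x.1 : E3) 2) / Real.pi < 1 := by
  have h1 : 0 < Real.arccos ((x.1 : E3) 2) := Real.arccos_pos.2 x.2.2
  have h2 : Real.arccos ((x.1 : E3) 2) < Real.pi := by
    refine lt_of_le_of_ne (Real.arccos_le_pi _) fun h => ?_
    have := Real.arccos_eq_pi.1 h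
    linarith [x.2.1]
  exact ⟨div_pos h1 Real.pi_pos, (div_lt_one Real.pi_pos).2 h2⟩

theorem bp_bij_mer (x : bp_bij_A) :
    mer (lon x.1) (Real.arccos ((x.1 : E3) 2) / Real.pi) = x.1 := by
  have hn : ((x.1 : E3) 0) ^ 2 + ((x.1 : E3) 1) ^ 2 + ((x.1 : E3) 2) ^ 2 = 1 := by
    have h1 := EuclideanSpace.real_norm_sq_eq (x.1 : E3)
    rw [mem_sphere_zero_iff_norm.1 x.1.2, Fin.sum_univ_three] at h1
    linarith
  have hc : ((x.1 : E3) 2) ^ 2 < 1 := by nlinarith [x.2.1, x.2.2]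
  obtain ⟨z, hz⟩ : ∃ z : ℂ, z = (⟨(x.1 : E3) 0, (x.1 : E3) 1⟩ : ℂ) := ⟨_, rfl⟩
  have hzre : z.re = (x.1 : E3) 0 := by rw [hz]
  have hzim : z.im = (x.1 : E3) 1 := by rw [hz]
  have hzn : ‖z‖ ^ 2 = 1 - ((x.1 : E3) 2) ^ 2 := by
    rw [← Complex.normSq_eq_norm_sq, Complex.normSq_apply, hzre, hzim]
    linarith
  have hz0 : z ≠ 0 := by
    intro h
    rw [h, norm_zero] at hzn
    nlinarith
  have hzpos : 0 < ‖z‖ := norm_pos_iff.2 hz0
  have hlon : ((lon x.1 : Circle) : ℂ) = z / ‖z‖ := by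
    unfold lon
    rw [dif_neg (by rw [← hz]; exact hz0)]
    show (⟨(x.1 : E3) 0, (x.1 : E3) 1⟩ : ℂ) / ‖(⟨(x.1 : E3) 0, (x.1 : E3) 1⟩ : ℂ)‖ = z / ‖z‖
    rw [← hz]
  have hre : ((lon x.1 : Circle) : ℂ).re = (x.1 : E3) 0 / ‖z‖ := by
    rw [hlon, Complex.div_ofReal_re, hzre]
  have him : ((lon x.1 : Circle) : ℂ).im = (x.1 : E3) 1 / ‖z‖ := by
    rw [hlon, Complex.div_ofReal_im, hzim]
  have hang : Real.pi * (Real.arccos ((x.1 : E3) 2) / Real.pi) = Real.arccos ((x.1 : E3) 2) := by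
    field_simp
  have hsin : Real.sin (Real.arccos ((x.1 : E3) 2)) = ‖z‖ := by
    rw [Real.sin_arccos, ← hzn, Real.sqrt_sq hzpos.le]
  have hcos : Real.cos (Real.arccos ((x.1 : E3) 2)) = (x.1 : E3) 2 :=
    Real.cos_arccos x.2.1.le x.2.2.le
  apply Subtype.ext
  ext i
  unfold mer
  fin_cases i
  · show Real.sin (Real.pi * (Real.arccos ((x.1 : E3) 2) / Real.pi)) *
      ((lon x.1 : Circle) : ℂ).re = (x.1 : E3) 0
    rw [hang, hsin, hre]
    field_simp
  · show Real.sin (Real.pi * (Real.arccos ((x.1 : E3) 2) / Real.pi)) *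
      ((lon x.1 : Circle) : ℂ).im = (x.1 : E3) 1
    rw [hang, hsin, him]
    field_simp
  · show Real.cos (Real.pi * (Real.arccos ((x.1 : E3) 2) / Real.pi)) = (x.1 : E3) 2
    rw [hang, hcos]

theorem bp_bij_mc {A : Type} [TopologicalSpace A] {f : A → Circle} {g : A → ℝ}
    (hf : Continuous f) (hg : Continuous g) : Continuous fun a => mer (f a) (g a) := by
  have h1 := Continuous.comp mer_facts.1 (hf.prodMk hg)
  exact h1

theorem bp_bij (bP) (hbP : IsBP bP) (n : ℕ) : Function.Bijective (hmap bP n) := by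
  obtain ⟨F, hFc, hF⟩ := rinv_inv
  obtain ⟨hm1, -, -, hm4, hm5, hm6, -⟩ := mer_facts
  -- the inverse trivialisation
  have hΨ : ∃ Ψ : C(bp_bij_A × Q3, ↥(PN ∩ PZ)), ∀ q, (Ψ q).1.1 =
      (q.1.1, F q.1.1 q.2.1.1, F q.1.1 q.2.1.2) := by
    refine ⟨⟨fun q => ⟨⟨(q.1.1, F q.1.1 q.2.1.1, F q.1.1 q.2.1.2), ?_, ?_, ?_⟩, ?_, ?_⟩, ?_⟩,
      fun q => rfl⟩
    · obtain ⟨h1, h2, h3, h4⟩ := hF q.1.1 q.1.2.1
      have h5 := h4 nP q.2.1.1
      rw [h1] at h5
      show -1 < dt q.1.1 (F q.1.1 q.2.1.1)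
      rw [h5]
      exact q.2.2.1
    · obtain ⟨h1, h2, h3, h4⟩ := hF q.1.1 q.1.2.1
      show -1 < dt (F q.1.1 q.2.1.1) (F q.1.1 q.2.1.2)
      rw [h4]
      exact q.2.2.2.1
    · obtain ⟨h1, h2, h3, h4⟩ := hF q.1.1 q.1.2.1
      have h5 := h4 q.2.1.2 nP
      rw [h1] at h5
      show -1 < dt (F q.1.1 q.2.1.2) q.1.1
      rw [h5]
      exact q.2.2.2.2
    · exact q.1.2.1
    · exact q.1.2.2
    · refine Continuous.subtype_mk (Continuous.subtype_mk ?_ _) _
      have c0 : Continuous fun q : bp_bij_A × Q3 => q.1.1 :=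
        continuous_subtype_val.comp continuous_fst
      have c1 : Continuous fun q : bp_bij_A × Q3 => q.2.1.1 :=
        continuous_fst.comp (continuous_subtype_val.comp continuous_snd)
      have c2 : Continuous fun q : bp_bij_A × Q3 => q.2.1.2 :=
        continuous_snd.comp (continuous_subtype_val.comp continuous_snd)
      refine c0.prodMk (Continuous.prodMk ?_ ?_)
      · exact hFc.comp_continuous (c0.prodMk c1) fun q => q.1.2.1
      · exact hFc.comp_continuous (c0.prodMk c2) fun q => q.1.2.1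
  obtain ⟨Ψ, hΨ⟩ := hΨ
  -- the equator
  have hE : ∃ eq : C(Circle, bp_bij_A), ∀ z, (eq z).1 = mer z (1 / 2) := by
    refine ⟨⟨fun z => ⟨mer z (1 / 2), hm4 z _ (by norm_num) (by norm_num),
      hm5 z _ (by norm_num) (by norm_num)⟩, ?_⟩, fun z => rfl⟩
    exact Continuous.subtype_mk (bp_bij_mc continuous_id continuous_const) _
  obtain ⟨eq, heq⟩ := hE
  -- the homotopy on the sphere without poles
  have hH : ∃ H : C(unitInterval × bp_bij_A, bp_bij_A), ∀ p, (H p).1 = mer (lon p.2.1)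
      ((1 - (p.1 : ℝ)) * (1 / 2) + (p.1 : ℝ) * (Real.arccos ((p.2.1 : E3) 2) / Real.pi)) := by
    have hmem : ∀ p : unitInterval × bp_bij_A, 0 < (1 - (p.1 : ℝ)) * (1 / 2) +
        (p.1 : ℝ) * (Real.arccos ((p.2.1 : E3) 2) / Real.pi) ∧ (1 - (p.1 : ℝ)) * (1 / 2) +
        (p.1 : ℝ) * (Real.arccos ((p.2.1 : E3) 2) / Real.pi) < 1 := by
      intro p
      obtain ⟨h1, h2⟩ := bp_bij_t0_mem p.2
      have h3 := p.1.2.1
      have h4 := p.1.2.2
      constructor
      · rcases h3.eq_or_lt with h | h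
        · rw [← h]
          norm_num
        · have : 0 < (p.1 : ℝ) * (Real.arccos ((p.2.1 : E3) 2) / Real.pi) := mul_pos h h1
          nlinarith
      · rcases h3.eq_or_lt with h | h
        · rw [← h]
          norm_num
        · have : (p.1 : ℝ) * (Real.arccos ((p.2.1 : E3) 2) / Real.pi) < (p.1 : ℝ) * 1 :=
            mul_lt_mul_of_pos_left h2 h
          nlinarith
    refine ⟨⟨fun p => ⟨mer (lon p.2.1) ((1 - (p.1 : ℝ)) * (1 / 2) +
        (p.1 : ℝ) * (Real.arccos ((p.2.1 : E3) 2) / Real.pi)),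
        hm4 _ _ (hmem p).1.le (hmem p).2, hm5 _ _ (hmem p).1 (hmem p).2.le⟩, ?_⟩, fun p => rfl⟩
    refine Continuous.subtype_mk ?_ _
    have c1 : Continuous fun p : unitInterval × bp_bij_A => lon p.2.1 :=
      lon_cont.comp_continuous (continuous_subtype_val.comp continuous_snd) fun p => p.2.2
    have c0 : Continuous fun p : unitInterval × bp_bij_A => (p.1 : ℝ) :=
      continuous_subtype_val.comp continuous_fst
    have c2 : Continuous fun p : unitInterval × bp_bij_A => ((p.2.1 : S2) : E3) 2 := by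
      have h1 : Continuous fun v : E3 => v 2 := by fun_prop
      exact h1.comp (continuous_subtype_val.comp (continuous_subtype_val.comp continuous_snd))
    have c3 : Continuous fun p : unitInterval × bp_bij_A => (1 - (p.1 : ℝ)) * (1 / 2) +
        (p.1 : ℝ) * (Real.arccos ((p.2.1 : E3) 2) / Real.pi) :=
      ((continuous_const.sub c0).mul continuous_const).add
        (c0.mul ((Real.continuous_arccos.comp c2).div_const _))
    exact bp_bij_mc c1 c3
  obtain ⟨H, hH⟩ := hH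
  -- the homotopy inverse
  obtain ⟨c, hc⟩ : ∃ c : C(Circle × Q3, ↥(PN ∩ PZ)), ∀ p, c p = Ψ (eq p.1, p.2) :=
    ⟨⟨fun p => Ψ (eq p.1, p.2), Ψ.continuous.comp
      ((eq.continuous.comp continuous_fst).prodMk continuous_snd)⟩, fun p => rfl⟩
  have h1 : bP.comp c = ContinuousMap.id _ := by
    ext1 p
    show bP (c p) = p
    obtain ⟨e1, e2⟩ := hbP (c p)
    have e3 : (c p).1.1 = (mer p.1 (1 / 2), F (mer p.1 (1 / 2)) p.2.1.1,
        F (mer p.1 (1 / 2)) p.2.1.2) := by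
      rw [hc, hΨ, heq]
    have hpos : -1 < ((mer p.1 (1 / 2) : S2) : E3) 2 := hm4 _ _ (by norm_num) (by norm_num)
    obtain ⟨g1, g2, g3, g4⟩ := hF (mer p.1 (1 / 2)) hpos
    refine Prod.ext ?_ (Subtype.ext ?_)
    · rw [e1, e3]
      exact hm6 _ _ (by norm_num) (by norm_num)
    · rw [e2, e3]
      show (rinv (mer p.1 (1 / 2)) (F (mer p.1 (1 / 2)) p.2.1.1),
        rinv (mer p.1 (1 / 2)) (F (mer p.1 (1 / 2)) p.2.1.2)) = p.2.1
      rw [g3, g3]
  have h2 : (c.comp bP).Homotopic (ContinuousMap.id _) := by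
    obtain ⟨x0, hx0⟩ : ∃ x0 : C(↥(PN ∩ PZ), bp_bij_A), ∀ x, (x0 x).1 = x.1.1.1 :=
      ⟨⟨fun x => ⟨x.1.1.1, x.2.1, x.2.2⟩, Continuous.subtype_mk
        (continuous_fst.comp (continuous_subtype_val.comp continuous_subtype_val)) _⟩, fun x => rfl⟩
    refine ⟨⟨⟨fun q => Ψ (H (q.1, x0 q.2), (bP q.2).2), ?_⟩, ?_, ?_⟩⟩
    · exact Ψ.continuous.comp ((H.continuous.comp (continuous_fst.prodMk
        (x0.continuous.comp continuous_snd))).prodMk
          (continuous_snd.comp (bP.continuous.comp continuous_snd)))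
    · intro x
      show Ψ (H (0, x0 x), (bP x).2) = c (bP x)
      rw [hc]
      congr 2
      apply Subtype.ext
      rw [hH, heq, (hbP x).1, hx0]
      norm_num
    · intro x
      show Ψ (H (1, x0 x), (bP x).2) = x
      apply Subtype.ext
      apply Subtype.ext
      have e4 : H (1, x0 x) = x0 x := by
        apply Subtype.ext
        rw [hH]
        have e5 := bp_bij_mer (x0 x)
        have e6 : (1 - ((1 : unitInterval) : ℝ)) * (1 / 2) + ((1 : unitInterval) : ℝ) *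
            (Real.arccos (((x0 x).1 : E3) 2) / Real.pi) =
            Real.arccos (((x0 x).1 : E3) 2) / Real.pi := by
          rw [Set.Icc.coe_one]
          ring
        rw [e6]
        exact e5
      rw [hΨ, e4, hx0, (hbP x).2]
      obtain ⟨g1, g2, g3, g4⟩ := hF x.1.1.1 x.2.1
      show (x.1.1.1, F x.1.1.1 (rinv x.1.1.1 x.1.1.2.1), F x.1.1.1 (rinv x.1.1.1 x.1.1.2.2)) = x.1.1
      rw [g2, g2]
  constructor
  · intro a b hab
    have e : ∀ y, hmap c n (hmap bP n y) = y := by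
      intro y
      rw [← hmap_comp, hmap_homotopic _ _ h2, hmap_id]
    rw [← e a, ← e b, hab]
  · intro b
    refine ⟨hmap c n b, ?_⟩
    rw [← hmap_comp, h1, hmap_id]

end Pool.Agent.Helper534.LS
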