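import Pool.Agent.Helper534.LS.Defs
import Pool.Agent.Helper534.LS.P_hmap_comp
import Pool.Agent.Helper534.LS.P_hmap_id
import Pool.Agent.Helper534.LS.P_hmap_homotopic
import Pool.Agent.Helper534.LS.P_arc_val
import Pool.Agent.Helper534.LS.P_arc_cont
import Pool.Agent.Helper534.LS.P_rinv_val
import Pool.Agent.Helper534.LS.P_rinv_nP
import Pool.Agent.Helper534.LS.P_rinv_cont
import Pool.Agent.Helper534.LS.P_rinv_inv

open MeasureTheory

namespace Pool.Agent.Helper534.LS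



theorem dt_nP_aux (v : S2) : dt nP v = (v : E3) 2 := by
  simp [dt, nP, PiLp.inner_apply, Fin.sum_univ_three]

theorem dt_comm_aux (v w : S2) : dt v w = dt w v := by
  unfold dt
  exact real_inner_comm _ _

theorem pn_zero (n : ℕ) (h : ∀ y : HH Q3 n, y = 0) : ∀ x : HH PN n, x = 0 := by
  obtain ⟨F, hFc, hF⟩ := rinv_inv
  -- continuity of the components
  have c0 : Continuous (fun x : PN => x.1.1.1) := by fun_prop
  have c1 : Continuous (fun x : PN => x.1.1.2.1) := by fun_prop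
  have c2 : Continuous (fun x : PN => x.1.1.2.2) := by fun_prop
  have hp : ∀ x : PN, -1 < ((x.1.1.1 : S2) : E3) 2 := fun x => x.2
  have r1 : Continuous (fun x : PN => rinv x.1.1.1 x.1.1.2.1) :=
    rinv_cont.comp_continuous (f := fun x : PN => (x.1.1.1, x.1.1.2.1)) (c0.prodMk c1)
      (fun x => hp x)
  have r2 : Continuous (fun x : PN => rinv x.1.1.1 x.1.1.2.2) :=
    rinv_cont.comp_continuous (f := fun x : PN => (x.1.1.1, x.1.1.2.2)) (c0.prodMk c2)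
      (fun x => hp x)
  have d1 : ∀ x : PN, dt nP (rinv x.1.1.1 x.1.1.2.1) = dt x.1.1.1 x.1.1.2.1 := by
    intro x
    have := (rinv_val x.1.1.1 (hp x)).2.1 x.1.1.1 x.1.1.2.1
    rwa [(rinv_val x.1.1.1 (hp x)).2.2] at this
  have d2 : ∀ x : PN, dt (rinv x.1.1.1 x.1.1.2.1) (rinv x.1.1.1 x.1.1.2.2) =
      dt x.1.1.2.1 x.1.1.2.2 := fun x => (rinv_val x.1.1.1 (hp x)).2.1 _ _
  have d3 : ∀ x : PN, dt (rinv x.1.1.1 x.1.1.2.2) nP = dt x.1.1.2.2 x.1.1.1 := by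
    intro x
    have := (rinv_val x.1.1.1 (hp x)).2.1 x.1.1.2.2 x.1.1.1
    rwa [(rinv_val x.1.1.1 (hp x)).2.2] at this
  let q : C(PN, Q3) := ⟨fun x => ⟨(rinv x.1.1.1 x.1.1.2.1, rinv x.1.1.1 x.1.1.2.2), by
    refine ⟨?_, ?_, ?_⟩
    · change -1 < dt nP (rinv x.1.1.1 x.1.1.2.1)
      rw [d1]; exact x.1.2.1
    · change -1 < dt (rinv x.1.1.1 x.1.1.2.1) (rinv x.1.1.1 x.1.1.2.2)
      rw [d2]; exact x.1.2.2.1
    · change -1 < dt (rinv x.1.1.1 x.1.1.2.2) nP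
      rw [d3]; exact x.1.2.2.2⟩, by exact Continuous.subtype_mk (r1.prodMk r2) _⟩
  let i : C(Q3, PN) := ⟨fun y => ⟨⟨(nP, y.1.1, y.1.2), y.2⟩, by
    change -1 < (nP : E3) 2
    simp [nP]⟩, by fun_prop⟩
  -- the moving base point
  have s0 : Continuous (fun p : unitInterval × PN => arcS nP p.2.1.1.1 (p.1 : ℝ)) :=
    arc_cont.comp_continuous (f := fun p : unitInterval × PN => (nP, p.2.1.1.1, (p.1 : ℝ)))
      (by fun_prop) (fun p => by
        change -1 < dt nP p.2.1.1.1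
        rw [dt_nP_aux]; exact hp p.2)
  have s1 : ∀ p : unitInterval × PN, -1 < ((arcS nP p.2.1.1.1 (p.1 : ℝ) : S2) : E3) 2 := by
    intro p
    rw [← dt_nP_aux]
    exact (arc_val nP p.2.1.1.1 (by rw [dt_nP_aux]; exact hp p.2) p.1).2.1
  have f1 : Continuous (fun p : unitInterval × PN =>
      F (arcS nP p.2.1.1.1 (p.1 : ℝ)) (rinv p.2.1.1.1 p.2.1.1.2.1)) :=
    hFc.comp_continuous (f := fun p : unitInterval × PN =>
      (arcS nP p.2.1.1.1 (p.1 : ℝ), rinv p.2.1.1.1 p.2.1.1.2.1))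
      (s0.prodMk (r1.comp continuous_snd)) (fun p => s1 p)
  have f2 : Continuous (fun p : unitInterval × PN =>
      F (arcS nP p.2.1.1.1 (p.1 : ℝ)) (rinv p.2.1.1.1 p.2.1.1.2.2)) :=
    hFc.comp_continuous (f := fun p : unitInterval × PN =>
      (arcS nP p.2.1.1.1 (p.1 : ℝ), rinv p.2.1.1.1 p.2.1.1.2.2))
      (s0.prodMk (r2.comp continuous_snd)) (fun p => s1 p)
  have hom : (i.comp q).Homotopic (ContinuousMap.id PN) := by
    refine ⟨⟨⟨fun p => ⟨⟨(arcS nP p.2.1.1.1 (p.1 : ℝ),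
      F (arcS nP p.2.1.1.1 (p.1 : ℝ)) (rinv p.2.1.1.1 p.2.1.1.2.1),
      F (arcS nP p.2.1.1.1 (p.1 : ℝ)) (rinv p.2.1.1.1 p.2.1.1.2.2)), ?_⟩, ?_⟩, ?_⟩, ?_, ?_⟩⟩
    · obtain ⟨hF1, hF2, hF3, hF4⟩ := hF _ (s1 p)
      refine ⟨?_, ?_, ?_⟩
      · change -1 < dt (arcS nP p.2.1.1.1 (p.1 : ℝ))
          (F (arcS nP p.2.1.1.1 (p.1 : ℝ)) (rinv p.2.1.1.1 p.2.1.1.2.1))
        have := hF4 nP (rinv p.2.1.1.1 p.2.1.1.2.1)
        rw [hF1, d1] at this
        rw [this]; exact p.2.1.2.1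
      · change -1 < dt (F (arcS nP p.2.1.1.1 (p.1 : ℝ)) (rinv p.2.1.1.1 p.2.1.1.2.1))
          (F (arcS nP p.2.1.1.1 (p.1 : ℝ)) (rinv p.2.1.1.1 p.2.1.1.2.2))
        rw [hF4, d2]; exact p.2.1.2.2.1
      · change -1 < dt (F (arcS nP p.2.1.1.1 (p.1 : ℝ)) (rinv p.2.1.1.1 p.2.1.1.2.2))
          (arcS nP p.2.1.1.1 (p.1 : ℝ))
        have := hF4 (rinv p.2.1.1.1 p.2.1.1.2.2) nP
        rw [hF1, d3] at this
        rw [this]; exact p.2.1.2.2.2
    · exact s1 p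
    · exact Continuous.subtype_mk (Continuous.subtype_mk (s0.prodMk (f1.prodMk f2)) _) _
    · intro x
      have hx : -1 < dt nP x.1.1.1 := by rw [dt_nP_aux]; exact hp x
      have a0 : arcS nP x.1.1.1 ((0 : unitInterval) : ℝ) = nP := by
        simpa using (arc_val nP x.1.1.1 hx 0).2.2.1
      have hn : -1 < ((nP : S2) : E3) 2 := by simp [nP]
      have e0 : ∀ y, F nP y = y := by
        intro y
        have := (hF nP hn).2.2.1 y
        rwa [rinv_nP] at this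
      apply Subtype.ext
      apply Subtype.ext
      change (arcS nP x.1.1.1 ((0 : unitInterval) : ℝ),
        F (arcS nP x.1.1.1 ((0 : unitInterval) : ℝ)) (rinv x.1.1.1 x.1.1.2.1),
        F (arcS nP x.1.1.1 ((0 : unitInterval) : ℝ)) (rinv x.1.1.1 x.1.1.2.2)) =
        (nP, rinv x.1.1.1 x.1.1.2.1, rinv x.1.1.1 x.1.1.2.2)
      rw [a0, e0, e0]
    · intro x
      have hx : -1 < dt nP x.1.1.1 := by rw [dt_nP_aux]; exact hp x
      have a1 : arcS nP x.1.1.1 ((1 : unitInterval) : ℝ) = x.1.1.1 := by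
        simpa using (arc_val nP x.1.1.1 hx 1).2.2.2
      apply Subtype.ext
      apply Subtype.ext
      change (arcS nP x.1.1.1 ((1 : unitInterval) : ℝ),
        F (arcS nP x.1.1.1 ((1 : unitInterval) : ℝ)) (rinv x.1.1.1 x.1.1.2.1),
        F (arcS nP x.1.1.1 ((1 : unitInterval) : ℝ)) (rinv x.1.1.1 x.1.1.2.2)) =
        (x.1.1.1, x.1.1.2.1, x.1.1.2.2)
      rw [a1, (hF _ (hp x)).2.1, (hF _ (hp x)).2.1]
  intro x
  have e := congrArg (fun f => f x) (hmap_homotopic _ _ hom n)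
  simp only [hmap_id] at e
  rw [← e, hmap_comp, h (hmap q n x), map_zero]

end Pool.Agent.Helper534.LS
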