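import Pool.Agent.Helper534.LS.Defs
import Pool.Agent.Helper534.LS.P_hmap_comp
import Pool.Agent.Helper534.LS.P_hmap_id
import Pool.Agent.Helper534.LS.P_toS2_val
import Pool.Agent.Helper534.LS.P_toS2_cont
import Pool.Agent.Helper534.LS.P_pn_zero

open MeasureTheory

namespace Pool.Agent.Helper534.LS



theorem refE_norm_aux (v : E3) (h : ‖v‖ = 1) : ‖(!₂[v 0, v 1, -v 2] : E3)‖ = 1 := by
  rw [EuclideanSpace.norm_eq] at h ⊢
  rw [Fin.sum_univ_three] at h ⊢
  simpa using h

theorem refS_val_aux (x : S2) :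
    ((refS x : S2) : E3) = (!₂[(x : E3) 0, (x : E3) 1, -(x : E3) 2] : E3) := by
  unfold refS
  apply toS2_val
  apply refE_norm_aux
  exact mem_sphere_zero_iff_norm.mp x.2

theorem refS_cont_aux : Continuous refS := by
  rw [continuous_induced_rng]
  have : (Subtype.val ∘ refS : S2 → E3) =
      fun x : S2 => (!₂[(x : E3) 0, (x : E3) 1, -(x : E3) 2] : E3) := by
    funext x
    exact refS_val_aux x
  rw [this]
  apply (PiLp.continuous_toLp 2 _).comp
  apply continuous_pi
  intro i
  fin_cases i
  · simp; fun_prop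
  · simp; fun_prop
  · simp; fun_prop

theorem refS_two_aux (x : S2) : ((refS x : S2) : E3) 2 = -(x : E3) 2 := by
  rw [refS_val_aux]; simp

theorem refS_invol_aux (x : S2) : refS (refS x) = x := by
  apply Subtype.ext
  rw [refS_val_aux, refS_val_aux]
  ext i
  fin_cases i <;> simp

theorem dt_refS_aux (x y : S2) : dt (refS x) (refS y) = dt x y := by
  unfold dt
  rw [refS_val_aux, refS_val_aux]
  simp [PiLp.inner_apply, Fin.sum_univ_three]

/-- the reflection on triangles -/
noncomputable def refP_aux : C(P3, P3) :=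
  ⟨fun x => ⟨(refS x.1.1, refS x.1.2.1, refS x.1.2.2), by
    simp only [dt_refS_aux]
    exact x.2⟩, by
    apply Continuous.subtype_mk
    have h := refS_cont_aux
    exact (h.comp (by fun_prop)).prodMk ((h.comp (by fun_prop)).prodMk (h.comp (by fun_prop)))⟩

/-- the reflection from PZ to PN -/
noncomputable def refZN_aux : C(PZ, PN) :=
  ⟨fun x => ⟨refP_aux x.1, by
    have h : ((x.1.1.1 : S2) : E3) 2 < 1 := x.2
    change -1 < ((refS x.1.1.1 : S2) : E3) 2
    rw [refS_two_aux]
    linarith⟩, by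
    apply Continuous.subtype_mk
    exact refP_aux.continuous.comp continuous_subtype_val⟩

/-- the reflection from PN to PZ -/
noncomputable def refNZ_aux : C(PN, PZ) :=
  ⟨fun x => ⟨refP_aux x.1, by
    have h : -1 < ((x.1.1.1 : S2) : E3) 2 := x.2
    change ((refS x.1.1.1 : S2) : E3) 2 < 1
    rw [refS_two_aux]
    linarith⟩, by
    apply Continuous.subtype_mk
    exact refP_aux.continuous.comp continuous_subtype_val⟩

theorem refNZ_comp_aux : refNZ_aux.comp refZN_aux = ContinuousMap.id PZ := by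
  ext1 x
  apply Subtype.ext
  apply Subtype.ext
  change (refS (refS x.1.1.1), refS (refS x.1.1.2.1), refS (refS x.1.1.2.2)) = x.1.1
  rw [refS_invol_aux, refS_invol_aux, refS_invol_aux]

theorem pz_zero (n : ℕ) (h : ∀ y : HH Q3 n, y = 0) : ∀ x : HH PZ n, x = 0 := by
  intro x
  have h1 : hmap refZN_aux n x = 0 := pn_zero n h _
  have h2 : hmap (refNZ_aux.comp refZN_aux) n x = hmap refNZ_aux n (hmap refZN_aux n x) :=
    hmap_comp _ _ _ _
  rw [h1, map_zero, refNZ_comp_aux, hmap_id] at h2
  exact h2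

end Pool.Agent.Helper534.LS
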