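import Pool.Agent.Helper534.LS.Defs
import Pool.Agent.Helper534.LS.P_mv_exact1
import Pool.Agent.Helper534.LS.P_par_spec
import Pool.Agent.Helper534.LS.P_l_cov
import Pool.Agent.Helper534.LS.P_pn_zero
import Pool.Agent.Helper534.LS.P_pz_zero
import Pool.Agent.Helper534.LS.P_bp_bij
import Pool.Agent.Helper534.LS.P_q3_facts

open MeasureTheory

namespace Pool.Agent.Helper534.LS



theorem wp_inj (bP) (hbP : IsBP bP) (p : HH P3 4) (h : wP bP p = 0) : p = 0 := by
  have h3 : ∀ y : HH Q3 3, y = 0 := q3_facts.1 0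
  have h4 : ∀ y : HH Q3 4, y = 0 := q3_facts.1 1
  unfold wP at h
  have hspec := par_spec Q3 2 (hmap bP 3 (delta PN PZ 3 p))
  rw [h, h3 (hmap (prQ Q3) (2 + 1) (hmap bP 3 (delta PN PZ 3 p))), map_zero, map_zero,
    add_zero] at hspec
  have hd : delta PN PZ 3 p = 0 := by
    apply (bp_bij bP hbP 3).1
    rw [map_zero]
    exact hspec
  obtain ⟨u, v, huv⟩ := mv_exact1 PN PZ l_cov.2.1.1 l_cov.2.1.2.1 l_cov.2.1.2.2 3 p hd
  rw [huv, pn_zero 4 h4 u, pz_zero 4 h4 v, map_zero, map_zero, add_zero]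

end Pool.Agent.Helper534.LS
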