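import Pool.Agent.Helper534.LS.Defs
import Pool.Agent.Helper534.LS.P_bP_exists
import Pool.Agent.Helper534.LS.P_gQ_exists
import Pool.Agent.Helper534.LS.P_tQ_exists
import Pool.Agent.Helper534.LS.P_w_g
import Pool.Agent.Helper534.LS.P_q3_facts
import Pool.Agent.Helper534.LS.P_wp_inj
import Pool.Agent.Helper534.LS.P_gq_free

open MeasureTheory

namespace Pool.Agent.Helper534.LS



theorem wg_inj (g) (hg : IsG g) (bL) (hbL : IsBL bL) (p : HH P3 4) (k : ℤ) (hk : k ≠ 0)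
    (h : k • wL bL (hmap g 4 p) = 0) : p = 0 := by
  obtain ⟨gQ, hgQ⟩ := gQ_exists
  obtain ⟨bP, hbP⟩ := bP_exists
  obtain ⟨tQ, htQ⟩ := tQ_exists
  obtain ⟨m, hm⟩ := q3_facts.2 tQ htQ (wP bP p)
  rw [w_g g hg gQ hgQ bL hbL bP hbP p, hm, map_smul, smul_smul] at h
  have h1 := gq_free gQ hgQ tQ htQ (k * m) h
  have h2 : m = 0 := by
    rcases mul_eq_zero.1 h1 with h3 | h3
    · exact absurd h3 hk
    · exact h3
  apply wp_inj bP hbP p
  rw [hm, h2, zero_smul]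

end Pool.Agent.Helper534.LS
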