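import Pool.Agent.Helper534.LS.Defs
import Pool.Agent.Helper534.LS.P_sig_spec
import Pool.Agent.Helper534.LS.P_sig_inj
import Pool.Agent.Helper534.LS.P_par_spec

open MeasureTheory

namespace Pool.Agent.Helper534.LS



theorem par_sig (Q : Type) [TopologicalSpace Q] (n : ℕ) (z : HH Q n) :
    par Q n (sig Q n z) = z := by
  have h1 := par_spec Q n (sig Q n z)
  rw [(sig_spec Q n z).1, map_zero, zero_add] at h1
  have h2 : sig Q n (z - par Q n (sig Q n z)) = 0 := by
    rw [map_sub, ← h1, sub_self]
  exact (sub_eq_zero.mp (sig_inj Q n _ h2)).symm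

end Pool.Agent.Helper534.LS

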