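import Pool.Agent.Helper534.LS.Defs
import Pool.Agent.Helper534.LS.P_mv_exact2
import Pool.Agent.Helper534.LS.P_par_sig
import Pool.Agent.Helper534.LS.P_l_cov
import Pool.Agent.Helper534.LS.P_pn_zero
import Pool.Agent.Helper534.LS.P_pz_zero
import Pool.Agent.Helper534.LS.P_bp_bij
import Pool.Agent.Helper534.LS.P_q3_facts

open MeasureTheory

namespace Pool.Agent.Helper534.LS



theorem wp_surj (bP) (hbP : IsBP bP) (y : HH Q3 2) : ∃ p, wP bP p = y := by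
  obtain ⟨d, hd⟩ := (bp_bij bP hbP 3).2 (sig Q3 2 y)
  have h3 : ∀ y : HH Q3 3, y = 0 := fun y => q3_facts.1 0 y
  obtain ⟨-, ⟨hPN, hPZ, hcov⟩, -⟩ := l_cov
  obtain ⟨p, hp⟩ := mv_exact2 PN PZ hPN hPZ hcov 3 d (pn_zero 3 h3 _) (pz_zero 3 h3 _)
  refine ⟨p, ?_⟩
  unfold wP
  rw [hp, hd, par_sig]

end Pool.Agent.Helper534.LS
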