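import Pool.Agent.Helper534.LS.Defs
import Pool.Agent.Helper534.LS.P_bP_exists
import Pool.Agent.Helper534.LS.P_gQ_exists
import Pool.Agent.Helper534.LS.P_tQ_exists
import Pool.Agent.Helper534.LS.P_w_g
import Pool.Agent.Helper534.LS.P_wp_surj
import Pool.Agent.Helper534.LS.P_gq_free

open MeasureTheory

namespace Pool.Agent.Helper534.LS



theorem y_exists (g) (hg : IsG g) (bL) (hbL : IsBL bL) : ∃ p : HH P3 4, ∀ k : ℤ, k ≠ 0 →
    wL bL (hmap g 4 (k • p)) ≠ 0 := by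
  obtain ⟨bP, hbP⟩ := bP_exists
  obtain ⟨gQ, hgQ⟩ := gQ_exists
  obtain ⟨tQ, htQ⟩ := tQ_exists
  obtain ⟨p, hp⟩ := wp_surj bP hbP (hmap tQ 2 tor2)
  refine ⟨p, ?_⟩
  intro k hk h
  apply hk
  rw [w_g g hg gQ hgQ bL hbL bP hbP (k • p)] at h
  have h1 : wP bP (k • p) = k • wP bP p := by
    unfold wP
    rw [map_smul, map_smul, map_smul]
  rw [h1, map_smul, hp] at h
  exact gq_free gQ hgQ tQ htQ k h

end Pool.Agent.Helper534.LS
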