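import Pool.Agent.Helper534.LS.P_hmap_comp
import Pool.Agent.Helper534.LS.P_hmap_homotopic
import Pool.Agent.Helper534.LS.P_hh_compact
import Pool.Agent.Helper534.LS.P_bL_exists
import Pool.Agent.Helper534.LS.P_g_exists
import Pool.Agent.Helper534.LS.P_w_cst
import Pool.Agent.Helper534.LS.P_wg_inj
import Pool.Agent.Helper534.LS.P_y_exists
import Pool.Agent.Helper534.LS.P_j_exists
import Pool.Agent.Helper534.LS.P_len_cont
import Pool.Agent.Helper534.LS.P_b_one
import Pool.Agent.Helper534.LS.P_d_one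
import Pool.Agent.Helper534.LS.P_g1_exists
import Pool.Agent.Helper534.LS.P_theta_exists
import Pool.Agent.Helper534.LS.P_theta_two
import Pool.Agent.Helper534.LS.P_theta_ne

open MeasureTheory

namespace Pool.Agent.Helper534.LS

theorem len_nonneg (x : HLoop) : 0 ≤ len x := integral_nonneg fun _ => norm_nonneg _

/-- restriction of a map to a subset -/
theorem range_of_map {A : Type} [TopologicalSpace A] (f : C(A, HLoop)) (U : Set A) (a : ℝ)
    (h : ∀ x ∈ U, len (f x) ≤ a) (n : ℕ) (y : HH U n) :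
    hmap f n (hmap (sub U) n y) ∈ LinearMap.range (hmap (sub (sublevel a)) n) := by
  let f' : C(U, sublevel a) := ⟨fun x => ⟨f x.1, h x.1 x.2⟩, by fun_prop⟩
  refine ⟨hmap f' n y, ?_⟩
  rw [← hmap_comp, ← hmap_comp]
  rfl

theorem range_mono {a b : ℝ} (hab : a ≤ b) (n : ℕ) (X : HH HLoop n)
    (h : X ∈ LinearMap.range (hmap (sub (sublevel a)) n)) :
    X ∈ LinearMap.range (hmap (sub (sublevel b)) n) := by
  obtain ⟨y, rfl⟩ := h
  have h1 := range_of_map (ContinuousMap.id HLoop) (sublevel a) b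
    (fun x hx => le_trans hx hab) n y
  rw [← hmap_comp] at h1
  exact h1

theorem range_exists (n : ℕ) (X : HH HLoop n) :
    ∃ b, 0 ≤ b ∧ X ∈ LinearMap.range (hmap (sub (sublevel b)) n) := by
  have hpos : ∀ x : HLoop, 0 < 1 + len x := fun x => by have := len_nonneg x; linarith
  let l : C(HLoop, ℝ) := ⟨fun x => len x / (1 + len x),
    len_cont.div (continuous_const.add len_cont) (fun x => (hpos x).ne')⟩
  obtain ⟨a, ha, y, hy⟩ := hh_compact l 1 (fun x => by
    change len x / (1 + len x) < 1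
    rw [div_lt_one (hpos x)]
    linarith) n X
  have h1 := range_of_map (ContinuousMap.id HLoop) {x | l x ≤ a} (a / (1 - a)) (fun x hx => by
    have h2 : len x / (1 + len x) ≤ a := hx
    rw [div_le_iff₀ (hpos x)] at h2
    change len x ≤ a / (1 - a)
    rw [le_div_iff₀ (by linarith)]
    linarith) n y
  rw [← hmap_comp] at h1
  have h3 : hmap ((ContinuousMap.id HLoop).comp (sub {x | l x ≤ a})) n y = X := hy
  rw [h3] at h1
  exact ⟨max (a / (1 - a)) 0, le_max_right _ _, range_mono (le_max_left _ _) n X h1⟩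

theorem main : ∃ X : HH HLoop 4, 0 < cr (2 • X) ∧ cr (2 • X) < cr X := by
  obtain ⟨j, hj⟩ := j_exists
  obtain ⟨g, hg⟩ := g_exists
  obtain ⟨bL, hbL⟩ := bL_exists
  obtain ⟨g1, hg1, hlen⟩ := g1_exists
  obtain ⟨Θ, hΘ⟩ := theta_exists
  obtain ⟨p, hp⟩ := y_exists g hg bL hbL
  have hjg : j.comp g1 = g := by
    ext1 x
    apply Subtype.ext
    ext1 t
    apply Subtype.ext
    change (((j (g1 x)).1 t : S2) : E3) = _
    rw [hj, hg1, hg]
  -- the class `Y` is carried by loops of length at most `a₀ < 3 π`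
  have hY : ∃ a, 0 ≤ a ∧ a < 3 * Real.pi ∧
      hmap g1 4 p ∈ LinearMap.range (hmap (sub (sublevel a)) 4) := by
    let l : C(P3, ℝ) := ⟨fun x => len (g1 x), len_cont.comp g1.continuous⟩
    obtain ⟨a, ha, y, hy⟩ := hh_compact l (3 * Real.pi) hlen 4 p
    have h1 := range_of_map g1 {x | l x ≤ a} a (fun x hx => hx) 4 y
    rw [hy] at h1
    exact ⟨max a 0, le_max_right _ _, max_lt ha (by positivity),
      range_mono (le_max_left _ _) 4 _ h1⟩
  obtain ⟨a₀, ha₀, ha₀', hY⟩ := hY
  have h2T : (2 : ℤ) • hmap Θ 4 tor4 = 0 := theta_two Θ hΘ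
  have hwlin : ∀ (k : ℤ) (x : HH LL 4), wL bL (k • x) = k • wL bL x := by
    intro k x
    unfold wL
    rw [map_smul, map_smul, map_smul]
  have h2X : (2 : ℕ) • (hmap g1 4 p + hmap Θ 4 tor4) = (2 : ℤ) • hmap g1 4 p := by
    have : (2 : ℕ) • (hmap g1 4 p + hmap Θ 4 tor4) =
        (2 : ℤ) • (hmap g1 4 p + hmap Θ 4 tor4) := by
      rw [← natCast_zsmul]
      rfl
    rw [this, smul_add, h2T, add_zero]
  refine ⟨hmap g1 4 p + hmap Θ 4 tor4, ?_, ?_⟩
  · rw [h2X]
    -- positivity
    have h1 : (1 : ℝ) ≤ cr ((2 : ℤ) • hmap g1 4 p) := by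
      unfold cr
      apply le_csInf
      · obtain ⟨b, hb, hb'⟩ := range_exists 4 ((2 : ℤ) • hmap g1 4 p)
        exact ⟨b, hb, hb'⟩
      · rintro b ⟨hb, hb'⟩
        by_contra hlt
        push Not at hlt
        obtain ⟨t', ht'⟩ := range_mono hlt.le 4 _ hb'
        obtain ⟨e, he⟩ := d_one j hj
        have h3 : hmap j 4 ((2 : ℤ) • hmap g1 4 p) = hmap cst 4 (hmap e 4 t') := by
          rw [← ht', ← hmap_comp, ← hmap_comp, hmap_homotopic _ _ he]
        have h4 : hmap j 4 ((2 : ℤ) • hmap g1 4 p) = hmap g 4 ((2 : ℤ) • p) := by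
          rw [map_smul, ← hmap_comp, hjg, map_smul]
        apply hp 2 (by norm_num)
        rw [← h4, h3]
        exact w_cst bL hbL _
    linarith
  · have h1 : cr (2 • (hmap g1 4 p + hmap Θ 4 tor4)) ≤ a₀ := by
      rw [h2X]
      unfold cr
      apply csInf_le
      · exact ⟨0, fun b hb => hb.1⟩
      · exact ⟨ha₀, Submodule.smul_mem _ _ hY⟩
    have h2 : 3 * Real.pi ≤ cr (hmap g1 4 p + hmap Θ 4 tor4) := by
      unfold cr
      apply le_csInf
      · obtain ⟨b, hb, hb'⟩ := range_exists 4 (hmap g1 4 p + hmap Θ 4 tor4)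
        exact ⟨b, hb, hb'⟩
      · rintro b ⟨hb, hb'⟩
        by_contra hlt
        push Not at hlt
        have ha' : max a₀ b < 3 * Real.pi := max_lt ha₀' hlt
        have h3 := range_mono (le_max_right a₀ b) 4 _ hb'
        have h4 := range_mono (le_max_left a₀ b) 4 _ hY
        have h5 : hmap Θ 4 tor4 ∈ LinearMap.range (hmap (sub (sublevel (max a₀ b))) 4) := by
          have h6 := Submodule.sub_mem _ h3 h4
          rwa [add_sub_cancel_left] at h6
        obtain ⟨t', ht'⟩ := h5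
        obtain ⟨f, hf⟩ := b_one _ ha' j hj
        have h7 : hmap j 4 (hmap Θ 4 tor4) = hmap g 4 (hmap f 4 t') := by
          rw [← ht', ← hmap_comp, ← hmap_comp, hmap_homotopic _ _ (hf g hg)]
        have h8 : hmap f 4 t' = 0 := by
          apply wg_inj g hg bL hbL _ 2 (by norm_num)
          rw [← hwlin, ← h7, ← map_smul, h2T, map_zero]
          have := hwlin 0 0
          rwa [zero_smul, zero_smul] at this
        apply theta_ne Θ hΘ j hj
        rw [h7, h8, map_zero]
    linarith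

theorem fromSub_iff {X : Type} [TopologicalSpace X] (U : Set X) {n : ℕ} (x : HH X n) :
    FromSub U x ↔ x ∈ LinearMap.range (hmap (sub U) n) := by
  constructor
  · rintro ⟨z, hz⟩
    exact ⟨Submodule.Quotient.mk z, hz⟩
  · rintro ⟨y, hy⟩
    obtain ⟨z, rfl⟩ := Submodule.Quotient.mk_surjective _ y
    exact ⟨z, hy⟩

theorem crit_eq {n : ℕ} (X : HH HLoop n) : crit (X := HLoop) len X = cr X := by
  unfold crit cr
  congr 1
  ext a
  exact and_congr Iff.rfl (fromSub_iff _ _)

theorem main' : ∃ X : HH Loop 4, 0 < crit length (mult 2 X) ∧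
    crit length (mult 2 X) < crit length X := by
  obtain ⟨X, h1, h2⟩ := main
  rw [← crit_eq] at h1
  rw [← crit_eq, ← crit_eq] at h2
  exact ⟨X, h1, h2⟩

end Pool.Agent.Helper534.LS
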