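import Pool.Agent.Helper534.LS.Defs
import Pool.Agent.Helper534.LS.P_rinv_val
import Pool.Agent.Helper534.LS.P_rinv_cont

open MeasureTheory

namespace Pool.Agent.Helper534.LS



theorem aN_exists : ∃ a, IsAN a := by
  have hcont : Continuous (fun p : LN × unitInterval => rinv (p.1.1.1 0) (p.1.1.1 p.2)) := by
    have h1 : Continuous (fun p : LN × unitInterval => ((p.1.1.1 0, p.1.1.1 p.2) : S2 × S2)) := by
      fun_prop
    exact rinv_cont.comp_continuous h1 (fun p => p.1.2)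
  let F : C(LN × unitInterval, S2) := ⟨_, hcont⟩
  have hF : ∀ γ t, F.curry γ t = rinv (γ.1.1 0) (γ.1.1 t) := fun γ t => rfl
  refine ⟨⟨fun γ => ⟨F.curry γ, ?_, ?_⟩, ?_⟩, ?_⟩
  · rw [hF]
    exact (rinv_val _ γ.2).2.2
  · rw [hF, ← γ.1.2]
    exact (rinv_val _ γ.2).2.2
  · exact Continuous.subtype_mk F.curry.continuous _
  · intro γ t
    rfl

end Pool.Agent.Helper534.LS
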