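import Pool.Agent.Helper534.LS.Defs
import Pool.Agent.Helper534.LS.P_mk_path
import Pool.Agent.Helper534.LS.P_arc_val
import Pool.Agent.Helper534.LS.P_arc_cont

open MeasureTheory

namespace Pool.Agent.Helper534.LS



theorem d_one_norm (x : HLoop) (hx : len x ≤ 1) (t : unitInterval) :
    ‖pth x.1.1 x.1.2 t - pth x.1.1 x.1.2 0‖ ≤ 1 := by
  have hint : MeasureTheory.Integrable (x.1.2 : unitInterval → E3) MeasureTheory.volume :=
    (MeasureTheory.Lp.memLp x.1.2).integrable (by norm_num)
  have h0 : ∫ s in Set.Iic (0 : unitInterval), (x.1.2 : unitInterval → E3) s = 0 := by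
    apply MeasureTheory.setIntegral_measure_zero
    rw [unitInterval.volume_Iic]
    simp
  have h1 : pth x.1.1 x.1.2 t - pth x.1.1 x.1.2 0
      = ∫ s in Set.Iic t, (x.1.2 : unitInterval → E3) s := by
    unfold pth
    rw [h0]
    abel
  rw [h1]
  refine (MeasureTheory.norm_integral_le_integral_norm _).trans (le_trans ?_ hx)
  unfold len
  exact MeasureTheory.setIntegral_le_integral hint.norm
    (Filter.Eventually.of_forall fun s => norm_nonneg _)

theorem d_one_close (j : C(HLoop, LL)) (hj : IsJ j) (x : HLoop) (hx : len x ≤ 1)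
    (t : unitInterval) : -1 < dt ((j x).1 0) ((j x).1 t) := by
  have h := d_one_norm x hx t
  rw [← hj x t, ← hj x 0] at h
  unfold dt
  set a : E3 := (((j x).1 0 : S2) : E3) with ha
  set b : E3 := (((j x).1 t : S2) : E3) with hb
  have na : ‖a‖ = 1 := mem_sphere_zero_iff_norm.mp ((j x).1 0).2
  have nb : ‖b‖ = 1 := mem_sphere_zero_iff_norm.mp ((j x).1 t).2
  have h2 := norm_sub_sq_real b a
  rw [na, nb, real_inner_comm] at h2
  have h3 : ‖b - a‖ ^ 2 ≤ 1 := by
    have := norm_nonneg (b - a)
    nlinarith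
  linarith

theorem d_one_arc {A : Type} [TopologicalSpace A] (u v : A → S2) (s : A → ℝ) (hu : Continuous u)
    (hv : Continuous v) (hs : Continuous s) (h : ∀ a, -1 < dt (u a) (v a)) :
    Continuous fun a => arcS (u a) (v a) (s a) := by
  have h1 : Continuous (fun a => ((u a, v a, s a) : S2 × S2 × ℝ)) := hu.prodMk (hv.prodMk hs)
  exact arc_cont.comp_continuous h1 h

theorem d_one_ev {A : Type} [TopologicalSpace A] (g : A → C(unitInterval, S2)) (t : A → unitInterval)
    (hg : Continuous g) (ht : Continuous t) : Continuous fun a => g a (t a) :=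
  hg.eval ht

theorem d_one_cl : Continuous cl := continuous_projIcc (h := (zero_le_one : (0:ℝ) ≤ 1))

theorem d_one_cl' (t : unitInterval) : cl (t : ℝ) = t := Set.projIcc_val zero_le_one t

theorem d_one (j) (hj : IsJ j) : ∃ e : C(sublevel 1, S2),
    (cst.comp e).Homotopic (j.comp (sub (sublevel 1))) := by
  have hmem : ∀ (x : sublevel 1) (t : unitInterval), -1 < dt ((j x.1).1 0) ((j x.1).1 t) :=
    fun x t => d_one_close j hj x.1 x.2 t
  have hj1 : Continuous (fun a : sublevel 1 => (j a.1).1) :=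
    continuous_subtype_val.comp (j.continuous.comp continuous_subtype_val)
  have hFc : Continuous fun p : (unitInterval × sublevel 1) × ℝ =>
      arcS ((j p.1.2.1).1 0) ((j p.1.2.1).1 (cl p.2)) p.1.1 := by
    have hb : Continuous (fun p : (unitInterval × sublevel 1) × ℝ => p.1.2) :=
      continuous_snd.comp continuous_fst
    have hg : Continuous (fun p : (unitInterval × sublevel 1) × ℝ => (j p.1.2.1).1) :=
      hj1.comp hb
    refine d_one_arc (fun p : (unitInterval × sublevel 1) × ℝ => (j p.1.2.1).1 0)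
      (fun p => (j p.1.2.1).1 (cl p.2)) (fun p => (p.1.1 : ℝ)) ?_ ?_ ?_ ?_
    · exact d_one_ev _ _ hg continuous_const
    · exact d_one_ev _ _ hg (d_one_cl.comp continuous_snd)
    · exact continuous_subtype_val.comp (continuous_fst.comp continuous_fst)
    · exact fun p => hmem p.1.2 _
  obtain ⟨f, hf⟩ := mk_path (A := unitInterval × sublevel 1)
    (fun a t => arcS ((j a.2.1).1 0) ((j a.2.1).1 (cl t)) a.1) hFc
  have hf0 : ∀ (x : sublevel 1) (t : unitInterval), f (0, x) t = (j x.1).1 0 := by
    intro x t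
    rw [hf]
    exact (arc_val _ _ (hmem x _) 0).2.2.1
  have hf1 : ∀ (x : sublevel 1) (t : unitInterval), f (1, x) t = (j x.1).1 t := by
    intro x t
    rw [hf]
    rw [d_one_cl' t]
    exact (arc_val _ _ (hmem x _) 0).2.2.2
  have hfl : ∀ a, f a 0 = f a 1 := by
    intro a
    rw [hf, hf]
    rw [d_one_cl' 0, d_one_cl' 1, (j a.2.1).2]
  refine ⟨⟨fun x => (j x.1).1 0, d_one_ev _ _ hj1 continuous_const⟩, ?_⟩
  refine ⟨⟨⟨fun a => ⟨f a, hfl a⟩, Continuous.subtype_mk f.continuous _⟩, ?_, ?_⟩⟩
  · intro x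
    refine Subtype.ext (ContinuousMap.ext fun t => ?_)
    exact hf0 x t
  · intro x
    refine Subtype.ext (ContinuousMap.ext fun t => ?_)
    exact hf1 x t

end Pool.Agent.Helper534.LS

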