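import Pool.Agent.Helper534.LS.Defs

open MeasureTheory

namespace Pool.Agent.Helper534.LS



theorem ps_cov (x₀ : S2) : IsOpen (UN x₀) ∧ IsOpen (VS x₀) ∧ ∀ γ, γ ∈ UN x₀ ∨ γ ∈ VS x₀ := by
  have hc : Continuous (fun γ : PS x₀ => ((γ.1 1 : S2) : E3) 2) := by
    have h1 : Continuous (fun γ : PS x₀ => (γ.1 1 : S2)) :=
      (continuous_eval_const (F := C(unitInterval, S2)) (1 : unitInterval)).comp continuous_subtype_val
    have h2 : Continuous (fun x : S2 => (x : E3) 2) := by fun_prop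
    exact h2.comp h1
  refine ⟨isOpen_lt continuous_const hc, isOpen_lt hc continuous_const, fun γ => ?_⟩
  by_cases h : -1 < ((γ.1 1 : S2) : E3) 2
  · exact Or.inl h
  · right
    show ((γ.1 1 : S2) : E3) 2 < 1
    linarith

end Pool.Agent.Helper534.LS
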