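import Pool.Agent.Helper534.LS.Defs
import Pool.Agent.Helper534.HB.MV

namespace Pool.Agent.Helper534.LS

theorem raw_homotopy {X : Type} [TopologicalSpace X] {Y : Type} [TopologicalSpace Y]
    (F : C(X × unitInterval, Y)) (f g : C(X, Y)) (h0 : ∀ x, F (x, 0) = f x)
    (h1 : ∀ x, F (x, 1) = g x) (n : ℕ) (z : Sing X n →₀ ℤ) (hz : z ∈ Cyc X n) :
    push g n z - push f n z ∈ Bdy Y n := by
  cases n with
  | zero => exact HB.push_sub_mem_of_homotopy F f g h0 h1 0 z Submodule.mem_top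
  | succ n => exact HB.push_sub_mem_of_homotopy F f g h0 h1 (n + 1) z hz

theorem cyc_eq {X : Type} [TopologicalSpace X] (n : ℕ) : HB.Cyc X n = Cyc X n := by
  cases n <;> rfl

theorem raw_split {X : Type} [TopologicalSpace X] (U V : Set X) (hU : IsOpen U) (hV : IsOpen V)
    (hUV : ∀ x, x ∈ U ∨ x ∈ V) (n : ℕ) (z : Sing X (n + 1) →₀ ℤ) (hz : z ∈ Cyc X (n + 1)) :
    ∃ (u : Sing U (n + 1) →₀ ℤ) (v : Sing V (n + 1) →₀ ℤ) (d : Sing ↥(U ∩ V) n →₀ ℤ),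
      d ∈ Cyc ↥(U ∩ V) n ∧
      z - (push (sub U) (n + 1) u + push (sub V) (n + 1) v) ∈ Bdy X (n + 1) ∧
      bdry U n u = push (inl U V) n d ∧ bdry V n v = - push (inr U V) n d := by
  obtain ⟨u, v, d, hd, h1, h2, h3⟩ := HB.mv_split U V hU hV hUV n z hz
  exact ⟨u, v, d, by rw [← cyc_eq]; exact hd, h1, h2, h3⟩

theorem raw_inj {X : Type} [TopologicalSpace X] (U V : Set X) (hU : IsOpen U) (hV : IsOpen V)
    (hUV : ∀ x, x ∈ U ∨ x ∈ V)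
    (n : ℕ) (u : Sing U n →₀ ℤ) (v : Sing V n →₀ ℤ) (hu : u ∈ Cyc U n) (hv : v ∈ Cyc V n)
    (h : push (sub U) n u + push (sub V) n v ∈ Bdy X n) :
    ∃ d ∈ Cyc ↥(U ∩ V) n, u - push (inl U V) n d ∈ Bdy U n ∧
      v + push (inr U V) n d ∈ Bdy V n := by
  obtain ⟨d, hd, h1, h2⟩ := HB.mv_inj U V hU hV hUV n u v (by rw [cyc_eq]; exact hu)
    (by rw [cyc_eq]; exact hv) h
  exact ⟨d, by rw [← cyc_eq]; exact hd, h1, h2⟩

theorem raw_conn {X : Type} [TopologicalSpace X] (U V : Set X) (hU : IsOpen U) (hV : IsOpen V)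
    (hUV : ∀ x, x ∈ U ∨ x ∈ V)
    (n : ℕ) (u : Sing U (n + 1) →₀ ℤ) (v : Sing V (n + 1) →₀ ℤ) (d : Sing ↥(U ∩ V) n →₀ ℤ)
    (hu : bdry U n u = push (inl U V) n d) (hv : bdry V n v = - push (inr U V) n d)
    (h : push (sub U) (n + 1) u + push (sub V) (n + 1) v ∈ Bdy X (n + 1)) :
    d ∈ Bdy ↥(U ∩ V) n :=
  HB.mv_conn U V hU hV hUV n u v d hu hv h

end Pool.Agent.Helper534.LS
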